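import Pool.Agent.Q158.AddPosetDefs

/-! An additive poset with 16 elements without a rank. -/

namespace Q158.AddPoset

open Finset

/-- The group `(ℤ/2)^4`. -/
def V : Type := ZMod 2 × ZMod 2 × ZMod 2 × ZMod 2

instance : AddCommGroup V := inferInstanceAs (AddCommGroup (ZMod 2 × ZMod 2 × ZMod 2 × ZMod 2))
instance : DecidableEq V := inferInstanceAs (DecidableEq (ZMod 2 × ZMod 2 × ZMod 2 × ZMod 2))
instance : Fintype V := inferInstanceAs (Fintype (ZMod 2 × ZMod 2 × ZMod 2 × ZMod 2))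

/-- Elements by number. -/
def el (n : ℕ) : V := ((n : ZMod 2), ((n / 2 : ℕ) : ZMod 2), ((n / 4 : ℕ) : ZMod 2),
  ((n / 8 : ℕ) : ZMod 2))

/-- The covering pairs between nonzero elements. -/
def rel (a b : V) : Bool :=
  decide ((a = el 10 ∧ b = el 6) ∨ (a = el 12 ∧ b = el 6) ∨ (a = el 2 ∧ b = el 7) ∨
    (a = el 5 ∧ b = el 7) ∨ (a = el 3 ∧ b = el 8) ∨ (a = el 11 ∧ b = el 8) ∨
    (a = el 4 ∧ b = el 9) ∨ (a = el 13 ∧ b = el 9) ∨ (a = el 1 ∧ b = el 14) ∨
    (a = el 15 ∧ b = el 14))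

/-- The order. -/
def le' (a b : V) : Prop := a = 0 ∨ a = b ∨ rel a b = true

instance (a b : V) : Decidable (le' a b) := by unfold le'; infer_instance

instance : PartialOrder V where
  le := le'
  le_refl := by
    show ∀ a, le' a a
    decide +kernel
  le_trans := by
    show ∀ a b c, le' a b → le' b c → le' a c
    decide +kernel
  le_antisymm := by
    show ∀ a b, le' a b → le' b a → a = b
    decide +kernel

theorem le_def (a b : V) : a ≤ b ↔ le' a b := Iff.rfl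

theorem isAdditivePoset : IsAdditivePoset V where
  add_le := by
    show ∀ a b c : V, le' b a → le' c a → le' (b + c) a
    decide +kernel
  le_add := by
    show ∀ a b c : V, le' a b → le' a c → le' a (a + b + c)
    decide +kernel

/-- A monotone parity function kills `el 14`. -/
theorem key (f : V → Bool) (hadd : ∀ a b, f (a + b) = xor (f a) (f b))
    (hmono : ∀ a b, a ≤ b → f a = true → f b = true) : f (el 14) = false := by
  have h3 : f (el 3) = xor (f (el 1)) (f (el 2)) := hadd (el 1) (el 2)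
  have h5 : f (el 5) = xor (f (el 1)) (f (el 4)) := hadd (el 1) (el 4)
  have h6 : f (el 6) = xor (f (el 2)) (f (el 4)) := hadd (el 2) (el 4)
  have h7 : f (el 7) = xor (f (el 3)) (f (el 4)) := hadd (el 3) (el 4)
  have h9 : f (el 9) = xor (f (el 1)) (f (el 8)) := hadd (el 1) (el 8)
  have h10 : f (el 10) = xor (f (el 2)) (f (el 8)) := hadd (el 2) (el 8)
  have h11 : f (el 11) = xor (f (el 3)) (f (el 8)) := hadd (el 3) (el 8)
  have h12 : f (el 12) = xor (f (el 4)) (f (el 8)) := hadd (el 4) (el 8)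
  have h13 : f (el 13) = xor (f (el 5)) (f (el 8)) := hadd (el 5) (el 8)
  have h14 : f (el 14) = xor (f (el 6)) (f (el 8)) := hadd (el 6) (el 8)
  have h15 : f (el 15) = xor (f (el 7)) (f (el 8)) := hadd (el 7) (el 8)
  have m1 := hmono (el 10) (el 6) (by rw [le_def]; decide)
  have m2 := hmono (el 12) (el 6) (by rw [le_def]; decide)
  have m3 := hmono (el 2) (el 7) (by rw [le_def]; decide)
  have m4 := hmono (el 5) (el 7) (by rw [le_def]; decide)
  have m5 := hmono (el 3) (el 8) (by rw [le_def]; decide)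
  have m6 := hmono (el 11) (el 8) (by rw [le_def]; decide)
  have m7 := hmono (el 4) (el 9) (by rw [le_def]; decide)
  have m8 := hmono (el 13) (el 9) (by rw [le_def]; decide)
  have m9 := hmono (el 1) (el 14) (by rw [le_def]; decide)
  have m10 := hmono (el 15) (el 14) (by rw [le_def]; decide)
  rw [h7, h3] at m3
  rw [h7, h5, h3] at m4
  rw [h6, h10] at m1
  rw [h6, h12] at m2
  rw [h3] at m5
  rw [h11, h3] at m6
  rw [h9] at m7
  rw [h9, h13, h5] at m8
  rw [h14, h6] at m9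
  rw [h14, h15, h7, h6, h3] at m10
  rw [h14, h6]
  revert m1 m2 m3 m4 m5 m6 m7 m8 m9 m10
  cases f (el 1) <;> cases f (el 2) <;> cases f (el 4) <;> cases f (el 8) <;> simp

theorem el14_ne : el 14 ≠ 0 := by decide

/-- No injective morphism into the powerset of any set. -/
theorem no_morphism (I : Type*) (φ : V → Set I) (hinj : Function.Injective φ)
    (hadd : ∀ a b, φ (a + b) = symmDiff (φ a) (φ b)) (hmono : ∀ a b, a ≤ b → φ a ⊆ φ b) :
    False := by
  classical
  have h0 : φ 0 = ∅ := by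
    have := hadd 0 0
    rwa [add_zero, symmDiff_self] at this
  have h14 : φ (el 14) = ∅ := by
    rw [Set.eq_empty_iff_forall_notMem]
    intro i hi
    have := key (fun a => decide (i ∈ φ a)) (fun a b => by
      rw [hadd a b, Set.mem_symmDiff]
      by_cases h1 : i ∈ φ a <;> by_cases h2 : i ∈ φ b <;> simp [h1, h2]) (fun a b hab ha => by
      simp only [decide_eq_true_eq] at ha ⊢
      exact hmono a b hab ha)
    simp only [decide_eq_false_iff_not] at this
    exact this hi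
  exact el14_ne (hinj (h14.trans h0.symm))

theorem not_plain : ¬ Plain V := by
  rintro ⟨I, _, φ, h1, h2, h3⟩
  exact no_morphism I φ h1 h2 (fun a b hab => (h3 a b).1 hab)

theorem result_plain : ∃ (A : Type) (_ : AddCommGroup A) (_ : PartialOrder A),
    Finite A ∧ IsAdditivePoset A ∧ ¬ Plain A :=
  ⟨V, inferInstance, inferInstance, inferInstance, isAdditivePoset, not_plain⟩

/-- Signed sum over all subsets of `K`, shifted by `c`. -/
def T (r : V → ℕ) (K : Finset V) (c : V) : ℤ :=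
  ∑ J ∈ K.powerset, (-1 : ℤ) ^ J.card * (r (c + ∑ a ∈ J, a) : ℤ)

theorem T_empty (r : V → ℕ) (c : V) : T r ∅ c = r c := by simp [T]

theorem T_insert (r : V → ℕ) (K : Finset V) (a c : V) (ha : a ∉ K) :
    T r (insert a K) c = T r K c - T r K (c + a) := by
  unfold T
  rw [sum_powerset_insert ha, sub_eq_add_neg, ← sum_neg_distrib]
  congr 1
  apply sum_congr rfl
  intro J hJ
  have haJ : a ∉ J := fun h => ha (mem_powerset.1 hJ h)
  rw [card_insert_of_notMem haJ, sum_insert haJ, pow_succ, ← add_assoc]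
  ring

theorem incl_eq (r : V → ℕ) (h0 : r 0 = 0) (K : Finset V) :
    ∑ J ∈ K.powerset.filter (fun J => J.Nonempty),
      (-1 : ℤ) ^ (J.card + 1) * (r (∑ a ∈ J, a) : ℤ) = - T r K 0 := by
  unfold T
  rw [← sum_neg_distrib]
  apply sum_subset_zero_on_sdiff (filter_subset _ _)
  · intro J hJ
    have hJ' : J = ∅ := by
      rw [mem_sdiff, mem_filter] at hJ
      by_contra hne
      exact hJ.2 ⟨hJ.1, nonempty_iff_ne_empty.2 hne⟩
    rw [hJ']
    simp [h0]
  · intro J _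
    rw [zero_add, pow_succ]
    ring

theorem T_four (r : V → ℕ) (a b c d : V) (h1 : a ∉ ({b, c, d} : Finset V))
    (h2 : b ∉ ({c, d} : Finset V)) (h3 : c ∉ ({d} : Finset V)) :
    T r {a, b, c, d} 0 = (r 0 : ℤ) - r (0 + d) - (r (0 + c) - r (0 + c + d)) -
      (r (0 + b) - r (0 + b + d) - (r (0 + b + c) - r (0 + b + c + d))) -
      (r (0 + a) - r (0 + a + d) - (r (0 + a + c) - r (0 + a + c + d)) -
      (r (0 + a + b) - r (0 + a + b + d) - (r (0 + a + b + c) - r (0 + a + b + c + d)))) := by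
  have e : ({d} : Finset V) = insert d ∅ := rfl
  rw [T_insert r _ a 0 h1, T_insert r _ b 0 h2, T_insert r _ b (0 + a) h2,
    T_insert r _ c 0 h3, T_insert r _ c (0 + b) h3, T_insert r _ c (0 + a) h3,
    T_insert r _ c (0 + a + b) h3, e]
  simp only [T_insert r ∅ d _ (notMem_empty d), T_empty]

theorem no_rank (r : V → ℕ) : ¬ IsRank V r := by
  rintro ⟨hz, ha, hi⟩
  have h0 : r 0 = 0 := (hz 0).2 rfl
  have h14 : r (el 14) ≠ 0 := fun h => el14_ne ((hz _).1 h)
  have a1 : r (el 6) = r (el 10) + r (el 12) := ha (el 10) (el 12) (by rw [le_def]; decide)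
  have a2 : r (el 7) = r (el 2) + r (el 5) := ha (el 2) (el 5) (by rw [le_def]; decide)
  have a3 : r (el 8) = r (el 3) + r (el 11) := ha (el 3) (el 11) (by rw [le_def]; decide)
  have a4 : r (el 9) = r (el 4) + r (el 13) := ha (el 4) (el 13) (by rw [le_def]; decide)
  have a5 : r (el 14) = r (el 1) + r (el 15) := ha (el 1) (el 15) (by rw [le_def]; decide)
  have hk : ∀ a b c d : V, a ∉ ({b, c, d} : Finset V) → b ∉ ({c, d} : Finset V) →
      c ∉ ({d} : Finset V) → T r {a, b, c, d} 0 ≤ 0 := by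
    intro a b c d _ _ _
    have := (hi {a, b, c, d} ⟨a, by simp⟩).1
    rw [incl_eq r h0] at this
    linarith
  have k1 := hk (el 1) (el 3) (el 5) (el 9) (by decide) (by decide) (by decide)
  have k2 := hk (el 2) (el 4) (el 3) (el 10) (by decide) (by decide) (by decide)
  have k3 := hk (el 1) (el 2) (el 4) (el 9) (by decide) (by decide) (by decide)
  have k4 := hk (el 1) (el 2) (el 8) (el 5) (by decide) (by decide) (by decide)
  have k5 := hk (el 1) (el 4) (el 8) (el 3) (by decide) (by decide) (by decide)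
  rw [T_four r _ _ _ _ (by decide) (by decide) (by decide)] at k1 k2 k3 k4 k5
  have q1 : (r (el 0) : ℤ) - (r (el 9) : ℤ) - ((r (el 5) : ℤ) - (r (el 12) : ℤ)) -
      ((r (el 3) : ℤ) - (r (el 10) : ℤ) - ((r (el 6) : ℤ) - (r (el 15) : ℤ))) -
      ((r (el 1) : ℤ) - (r (el 8) : ℤ) - ((r (el 4) : ℤ) - (r (el 13) : ℤ)) -
      ((r (el 2) : ℤ) - (r (el 11) : ℤ) - ((r (el 7) : ℤ) - (r (el 14) : ℤ)))) ≤ 0 := k1
  have q2 : (r (el 0) : ℤ) - (r (el 10) : ℤ) - ((r (el 3) : ℤ) - (r (el 9) : ℤ)) -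
      ((r (el 4) : ℤ) - (r (el 14) : ℤ) - ((r (el 7) : ℤ) - (r (el 13) : ℤ))) -
      ((r (el 2) : ℤ) - (r (el 8) : ℤ) - ((r (el 1) : ℤ) - (r (el 11) : ℤ)) -
      ((r (el 6) : ℤ) - (r (el 12) : ℤ) - ((r (el 5) : ℤ) - (r (el 15) : ℤ)))) ≤ 0 := k2
  have q3 : (r (el 0) : ℤ) - (r (el 9) : ℤ) - ((r (el 4) : ℤ) - (r (el 13) : ℤ)) -
      ((r (el 2) : ℤ) - (r (el 11) : ℤ) - ((r (el 6) : ℤ) - (r (el 15) : ℤ))) -
      ((r (el 1) : ℤ) - (r (el 8) : ℤ) - ((r (el 5) : ℤ) - (r (el 12) : ℤ)) -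
      ((r (el 3) : ℤ) - (r (el 10) : ℤ) - ((r (el 7) : ℤ) - (r (el 14) : ℤ)))) ≤ 0 := k3
  have q4 : (r (el 0) : ℤ) - (r (el 5) : ℤ) - ((r (el 8) : ℤ) - (r (el 13) : ℤ)) -
      ((r (el 2) : ℤ) - (r (el 7) : ℤ) - ((r (el 10) : ℤ) - (r (el 15) : ℤ))) -
      ((r (el 1) : ℤ) - (r (el 4) : ℤ) - ((r (el 9) : ℤ) - (r (el 12) : ℤ)) -
      ((r (el 3) : ℤ) - (r (el 6) : ℤ) - ((r (el 11) : ℤ) - (r (el 14) : ℤ)))) ≤ 0 := k4
  have q5 : (r (el 0) : ℤ) - (r (el 3) : ℤ) - ((r (el 8) : ℤ) - (r (el 11) : ℤ)) -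
      ((r (el 4) : ℤ) - (r (el 7) : ℤ) - ((r (el 12) : ℤ) - (r (el 15) : ℤ))) -
      ((r (el 1) : ℤ) - (r (el 2) : ℤ) - ((r (el 9) : ℤ) - (r (el 10) : ℤ)) -
      ((r (el 5) : ℤ) - (r (el 6) : ℤ) - ((r (el 13) : ℤ) - (r (el 14) : ℤ)))) ≤ 0 := k5
  have z : r (el 0) = 0 := h0
  omega

theorem result_rank : ∃ (A : Type) (_ : AddCommGroup A) (_ : PartialOrder A),
    Finite A ∧ IsAdditivePoset A ∧ ¬ ∃ r : A → ℕ, IsRank A r :=
  ⟨V, inferInstance, inferInstance, inferInstance, isAdditivePoset,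
    fun ⟨r, hr⟩ => no_rank r hr⟩

end Q158.AddPoset
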