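import Mathlib

/-! Additive posets. -/

namespace Q158.AddPoset

open Finset

/-- The axioms of an additive poset. -/
structure IsAdditivePoset (A : Type) [AddCommGroup A] [PartialOrder A] : Prop where
  add_le : ∀ a b c : A, b ≤ a → c ≤ a → b + c ≤ a
  le_add : ∀ a b c : A, a ≤ b → a ≤ c → a ≤ a + b + c

/-- `A` embeds in the additive powerset `2^I` for some finite set `I`: sum of sets is symmetric
difference, the order is inclusion. -/
def Plain (A : Type) [AddCommGroup A] [PartialOrder A] : Prop :=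
  ∃ (I : Type) (_ : Finite I) (φ : A → Set I), Function.Injective φ ∧
    (∀ a b, φ (a + b) = symmDiff (φ a) (φ b)) ∧ ∀ a b, a ≤ b ↔ φ a ⊆ φ b

/-- Ranks of an additive poset. -/
structure IsRank (A : Type) [AddCommGroup A] [PartialOrder A] (r : A → ℕ) : Prop where
  zero : ∀ a, r a = 0 ↔ a = 0
  add : ∀ a b, a ≤ a + b → r (a + b) = r a + r b
  incl : ∀ K : Finset A, K.Nonempty →
    0 ≤ ∑ J ∈ K.powerset.filter (fun J => J.Nonempty),
        (-1 : ℤ) ^ (J.card + 1) * (r (∑ a ∈ J, a) : ℤ) ∧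
    (2 : ℤ) ^ (K.card - 1) ∣ ∑ J ∈ K.powerset.filter (fun J => J.Nonempty),
        (-1 : ℤ) ^ (J.card + 1) * (r (∑ a ∈ J, a) : ℤ)

end Q158.AddPoset
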