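import Mathlib

set_option autoImplicit false

namespace Q158.YoungBox

/-- `L(n,n)`: the partitions `λ_1 ≥ ⋯ ≥ λ_n ≥ 0` with `λ_1 ≤ n`, ordered by containment of
diagrams (componentwise). -/
abbrev Y (n : ℕ) : Type := {x : Fin n → Fin (n + 1) // Antitone x}

/-- `A(n)`: the number of antichains of `L(n,n)`, including the empty one. -/
noncomputable def A (n : ℕ) : ℕ := Nat.card {s : Set (Y n) // IsAntichain (· ≤ ·) s}

/-- `M(n)`: the number of partitions in `L(n,n)` of area `⌊n²/2⌋`. -/
noncomputable def M (n : ℕ) : ℕ := Nat.card {x : Y n // ∑ i, (x.1 i : ℕ) = n ^ 2 / 2}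

end Q158.YoungBox
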