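import Pool.Agent.Q158.BanachDefs

/-! The finitary symmetric group on `ℕ × ℕ` and two sets `A`, `B` with `A B⁻¹` small. -/

namespace Q158.Banach

/-- Ground set. -/
abbrev X : Type := ℕ × ℕ

/-- Finitary permutations. -/
def Fin0 : Subgroup (Equiv.Perm X) where
  carrier := {g | ∃ F : Finset X, ∀ p, p ∉ F → g p = p}
  mul_mem' := by
    classical
    rintro g h ⟨F, hF⟩ ⟨F', hF'⟩
    refine ⟨F ∪ F', fun p hp => ?_⟩
    rw [Finset.mem_union, not_or] at hp
    rw [Equiv.Perm.mul_apply, hF' p hp.2, hF p hp.1]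
  one_mem' := ⟨∅, fun _ _ => rfl⟩
  inv_mem' := by
    rintro g ⟨F, hF⟩
    refine ⟨F, fun p hp => ?_⟩
    rw [Equiv.Perm.inv_eq_iff_eq, hF p hp]

/-- The group. -/
abbrev G : Type := Fin0

/-- Permutations supported in `F`. -/
def GF (F : Finset X) : Set G := {g | ∀ p, p ∉ F → g.1 p = p}

theorem GF_one (F : Finset X) : (1 : G) ∈ GF F := fun p _ => rfl

theorem GF_mul {F : Finset X} {g h : G} (hg : g ∈ GF F) (hh : h ∈ GF F) : g * h ∈ GF F := by
  intro p hp
  show g.1 (h.1 p) = p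
  rw [hh p hp, hg p hp]

theorem GF_inv {F : Finset X} {g : G} (hg : g ∈ GF F) : g⁻¹ ∈ GF F := by
  intro p hp
  show (g.1)⁻¹ p = p
  rw [Equiv.Perm.inv_eq_iff_eq, hg p hp]

theorem GF_map {F : Finset X} {g : G} (hg : g ∈ GF F) {p : X} (hp : p ∈ F) : g.1 p ∈ F := by
  by_contra h
  have := hg _ h
  have h2 := g.1.injective this
  exact h (by rw [h2]; exact hp)

theorem GF_finite (F : Finset X) : (GF F).Finite := by
  classical
  have : Function.Injective (fun g : GF F => (fun p : F => (⟨g.1.1 p.1, GF_map g.2 p.2⟩ : F))) := by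
    intro g h hgh
    apply Subtype.ext
    apply Subtype.ext
    ext1 p
    by_cases hp : p ∈ F
    · have := congrFun hgh ⟨p, hp⟩
      simpa using this
    · rw [g.2 p hp, h.2 p hp]
  have := Finite.of_injective _ this
  exact Set.toFinite _

theorem exists_F (H : Finset G) : ∃ F : Finset X, ∀ h ∈ H, h ∈ GF F := by
  classical
  induction H using Finset.induction_on with
  | empty => exact ⟨∅, by simp⟩
  | insert a H _ ih =>
    obtain ⟨F, hF⟩ := ih
    obtain ⟨F', hF'⟩ := a.2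
    refine ⟨F ∪ F', fun h hh => ?_⟩
    rw [Finset.mem_insert] at hh
    rcases hh with rfl | hh
    · intro p hp
      rw [Finset.mem_union, not_or] at hp
      exact hF' p hp.2
    · intro p hp
      rw [Finset.mem_union, not_or] at hp
      exact hF h hh p hp.1

/-- The translate `G_F x`. -/
def KF (F : Finset X) (x : G) : Set G := (fun g => g * x) '' GF F

theorem KF_finite (F : Finset X) (x : G) : (KF F x).Finite := (GF_finite F).image _

theorem KF_nonempty (F : Finset X) (x : G) : (KF F x).Nonempty := ⟨1 * x, 1, GF_one F, rfl⟩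

theorem KF_mul {F : Finset X} {x h : G} (hh : h ∈ GF F) :
    (fun k => h * k) '' KF F x = KF F x := by
  ext k
  constructor
  · rintro ⟨k', ⟨g, hg, rfl⟩, rfl⟩
    exact ⟨h * g, GF_mul hh hg, by simp only [mul_assoc]⟩
  · rintro ⟨g, hg, rfl⟩
    refine ⟨h⁻¹ * g * x, ⟨h⁻¹ * g, GF_mul (GF_inv hh) hg, rfl⟩, ?_⟩
    simp only [mul_assoc, mul_inv_cancel_left]

theorem KF_inv {F : Finset X} {x : G} {H : Finset G} (hH : ∀ h ∈ H, h ∈ GF F) {ε : ℝ}
    (hε : 0 < ε) : IsInv H ε (KF F x) := by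
  refine ⟨KF_finite F x, KF_nonempty F x, fun h hh => ?_⟩
  rw [KF_mul (hH h hh), symmDiff_self]
  have : 0 < (KF F x).ncard := (Set.ncard_pos (KF_finite F x)).2 (KF_nonempty F x)
  have h2 : (0 : ℝ) < (KF F x).ncard := by exact_mod_cast this
  simp only [Set.bot_eq_empty, Set.ncard_empty, Nat.cast_zero]
  positivity

theorem amenable : Amenable G := by
  intro H ε hε
  obtain ⟨F, hF⟩ := exists_F H
  exact ⟨KF F 1, KF_inv hF hε⟩

/-- An involution exchanging `F` with a disjoint copy. -/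
theorem exists_swap (F : Finset X) (φ : X → X) (hφ : Set.InjOn φ F) (hd : ∀ p ∈ F, φ p ∉ F) :
    ∃ x : G, (∀ p ∈ F, x.1 p = φ p) ∧ (∀ p ∈ F, x.1 (φ p) = p) ∧
      (∀ q, q ∉ F → (∀ p ∈ F, φ p ≠ q) → x.1 q = q) := by
  classical
  let f : X → X := fun q => if q ∈ F then φ q else
    if h : ∃ p ∈ F, φ p = q then h.choose else q
  have f1 : ∀ p ∈ F, f p = φ p := fun p hp => by simp only [f, if_pos hp]
  have f2 : ∀ p ∈ F, f (φ p) = p := by
    intro p hp
    have h : ∃ p' ∈ F, φ p' = φ p := ⟨p, hp, rfl⟩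
    simp only [f, if_neg (hd p hp), dif_pos h]
    exact hφ h.choose_spec.1 hp h.choose_spec.2
  have f3 : ∀ q, q ∉ F → (∀ p ∈ F, φ p ≠ q) → f q = q := by
    intro q hq h
    have h' : ¬ ∃ p ∈ F, φ p = q := by
      rintro ⟨p, hp, h2⟩
      exact h p hp h2
    simp only [f, if_neg hq, dif_neg h']
  have hinv : Function.Involutive f := by
    intro q
    by_cases hq : q ∈ F
    · rw [f1 q hq, f2 q hq]
    · by_cases h : ∃ p ∈ F, φ p = q
      · obtain ⟨p, hp, rfl⟩ := h
        rw [f2 p hp, f1 p hp]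
      · have h' : ∀ p ∈ F, φ p ≠ q := fun p hp h2 => h ⟨p, hp, h2⟩
        rw [f3 q hq h', f3 q hq h']
  refine ⟨⟨hinv.toPerm f, F ∪ F.image φ, fun q hq => ?_⟩, f1, f2, f3⟩
  rw [Finset.mem_union, not_or] at hq
  apply f3 q hq.1
  intro p hp h
  exact hq.2 (Finset.mem_image.2 ⟨p, hp, h⟩)

/-- Three marked points. -/
def pt : Fin 3 → X := ![(0, 0), (1, 0), (2, 0)]

/-- The label of the preimage of a marked point. -/
def val (i : Fin 3) (g : G) : ℕ := (g⁻¹.1 (pt i)).1

/-- The first marked point has the least label. -/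
def T (i : Fin 3) (g : G) : Prop := ∀ j, j ≠ i → val i g < val j g

/-- The set `A`. -/
def A : Set G := {g | (∀ i, (g⁻¹.1 (pt i)).2 = 0) ∧ ¬ T 0 g}

/-- The set `B`. -/
def B : Set G := {g | ∀ l : ℕ, (g.1 (l, 0)).1 = l}

/-- The 3-cycle of the marked points. -/
def c : G := ⟨Equiv.swap (pt 0) (pt 1) * Equiv.swap (pt 1) (pt 2), {pt 0, pt 1, pt 2}, by
  intro p hp
  simp only [Finset.mem_insert, Finset.mem_singleton, not_or] at hp
  rw [Equiv.Perm.mul_apply, Equiv.swap_apply_of_ne_of_ne hp.2.1 hp.2.2,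
    Equiv.swap_apply_of_ne_of_ne hp.1 hp.2.1]⟩

theorem c_pt : ∀ i, c.1 (pt i) = pt (i + 1) := by
  intro i
  fin_cases i <;> rfl

theorem c_mem {F : Finset X} (hF : ∀ i, pt i ∈ F) : c ∈ GF F := by
  intro p hp
  have h0 : p ≠ pt 0 := by rintro rfl; exact hp (hF 0)
  have h1 : p ≠ pt 1 := by rintro rfl; exact hp (hF 1)
  have h2 : p ≠ pt 2 := by rintro rfl; exact hp (hF 2)
  show (Equiv.swap (pt 0) (pt 1) * Equiv.swap (pt 1) (pt 2)) p = p
  rw [Equiv.Perm.mul_apply, Equiv.swap_apply_of_ne_of_ne h1 h2,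
    Equiv.swap_apply_of_ne_of_ne h0 h1]

theorem val_c (i : Fin 3) (g : G) : val (i + 1) (c * g) = val i g := by
  unfold val
  have : (c * g)⁻¹.1 (pt (i + 1)) = g⁻¹.1 (pt i) := by
    rw [← c_pt i, mul_inv_rev]
    show (g⁻¹.1 * (c.1)⁻¹) (c.1 (pt i)) = _
    rw [Equiv.Perm.mul_apply, (Equiv.Perm.inv_eq_iff_eq.2 rfl : (c.1)⁻¹ (c.1 (pt i)) = pt i)]
  rw [this]

theorem T_c (i : Fin 3) (g : G) : T (i + 1) (c * g) ↔ T i g := by
  unfold T
  constructor
  · intro h j hj
    have := h (j + 1) (by simpa using hj)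
    rwa [val_c, val_c] at this
  · intro h j hj
    have h2 : j = (j - 1) + 1 := by simp
    rw [h2, val_c, val_c]
    apply h
    intro h3
    apply hj
    rw [h2, h3]

theorem T_unique {i j : Fin 3} {g : G} (hi : T i g) (hj : T j g) : i = j := by
  by_contra h
  have h1 := hi j (fun h2 => h h2.symm)
  have h2 := hj i h
  omega

/-- The elements whose marked labels are distinct. -/
def Dist (g : G) : Prop := ∀ i j, i ≠ j → val i g ≠ val j g

theorem exists_T {g : G} (hg : Dist g) : ∃ i, T i g := by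
  have h01 := hg 0 1 (by decide)
  have h02 := hg 0 2 (by decide)
  have h12 := hg 1 2 (by decide)
  unfold T
  by_cases h1 : val 0 g < val 1 g
  · by_cases h2 : val 0 g < val 2 g
    · refine ⟨0, fun j hj => ?_⟩
      fin_cases j
      · exact (hj rfl).elim
      · exact h1
      · exact h2
    · refine ⟨2, fun j hj => ?_⟩
      fin_cases j
      · show val 2 g < val 0 g
        omega
      · show val 2 g < val 1 g
        omega
      · exact (hj rfl).elim
  · by_cases h2 : val 1 g < val 2 g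
    · refine ⟨1, fun j hj => ?_⟩
      fin_cases j
      · show val 1 g < val 0 g
        omega
      · exact (hj rfl).elim
      · exact h2
    · refine ⟨2, fun j hj => ?_⟩
      fin_cases j
      · show val 2 g < val 0 g
        omega
      · show val 2 g < val 1 g
        omega
      · exact (hj rfl).elim

theorem dist_of_zero {g : G} (hg : ∀ i, (g⁻¹.1 (pt i)).2 = 0) : Dist g := by
  intro i j hij h
  apply hij
  have h1 : g⁻¹.1 (pt i) = g⁻¹.1 (pt j) := Prod.ext h (by rw [hg i, hg j])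
  have h2 := g⁻¹.1.injective h1
  have h3 : ∀ i j, pt i = pt j → i = j := by decide
  exact h3 i j h2

theorem quo_sub {g : G} (hg : g ∈ quo A B) : Dist g ∧ ¬ T 0 g := by
  obtain ⟨a, ⟨ha1, ha2⟩, b, hb, rfl⟩ := hg
  have hv : ∀ i, val i (a * b⁻¹) = val i a := by
    intro i
    unfold val
    rw [mul_inv_rev, inv_inv]
    show (b.1 (a⁻¹.1 (pt i))).1 = _
    have h1 : a⁻¹.1 (pt i) = ((a⁻¹.1 (pt i)).1, 0) := Prod.ext rfl (ha1 i)
    rw [h1]
    exact hb _
  have hd := dist_of_zero ha1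
  refine ⟨fun i j hij => ?_, fun h => ha2 fun j hj => ?_⟩
  · rw [hv, hv]; exact hd i j hij
  · have := h j hj
    rwa [hv, hv] at this

theorem not_thick : ¬ Thick (quo A B) := by
  classical
  intro h
  obtain ⟨x, hx⟩ := h {1, c, c * c}
  have h1 := quo_sub (hx 1 (by simp))
  have h2 := quo_sub (hx c (by simp))
  have h3 := quo_sub (hx (c * c) (by simp))
  rw [one_mul] at h1
  obtain ⟨i, hi⟩ := exists_T h1.1
  fin_cases i
  · exact h1.2 hi
  · apply h3.2
    have := (T_c 1 x).2 hi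
    have := (T_c _ _).2 this
    rw [← mul_assoc] at this
    exact this
  · apply h2.2
    exact (T_c 2 x).2 hi

theorem thick_mono_card {k : ℕ} (hk : k ≤ 1) : ¬ PiecewiseSyndetic k (quo A B) := by
  classical
  rintro ⟨F, hF, hT⟩
  rcases Finset.eq_empty_or_nonempty F with rfl | ⟨f, hf⟩
  · obtain ⟨x, hx⟩ := hT {1}
    obtain ⟨f, hf, -⟩ := hx 1 (by simp)
    simp at hf
  · have hF1 : F = {f} := by
      apply Finset.eq_singleton_iff_unique_mem.2
      refine ⟨hf, fun g hg => ?_⟩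
      exact Finset.card_le_one.1 (hF.trans hk) g hg f hf
    apply not_thick
    intro H
    obtain ⟨x, hx⟩ := hT (H.image (fun h => f * h))
    refine ⟨x, fun h hh => ?_⟩
    obtain ⟨f', hf', a, ha, h2⟩ := hx (f * h) (Finset.mem_image_of_mem _ hh)
    rw [hF1, Finset.mem_singleton] at hf'
    rw [hf', mul_assoc] at h2
    rw [mul_left_cancel h2]
    exact ha

/-- Translates used for `B`. -/
theorem exists_y (F : Finset X) : ∃ y : G, KF F y ⊆ B := by
  classical
  obtain ⟨s, hs⟩ : ∃ s : ℕ, ∀ p ∈ F, p.2 < s := by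
    refine ⟨F.sup (fun p => p.2 + 1), fun p hp => ?_⟩
    have := Finset.le_sup (f := fun p : X => p.2 + 1) hp
    try simp only at this
    omega
  obtain ⟨y, h1, -, h3⟩ := exists_swap F (fun p => (p.1, p.2 + s + 1)) (by
      intro p _ q _ h
      simp only [Prod.mk.injEq] at h
      exact Prod.ext h.1 (by omega)) (by
      intro p _ h
      have := hs _ h
      try simp only at this
      omega)
  refine ⟨y, ?_⟩
  rintro _ ⟨g, hg, rfl⟩ l
  show (g.1 (y.1 (l, 0))).1 = l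
  by_cases hl : ((l, 0) : X) ∈ F
  · rw [h1 _ hl, hg]
    intro h
    have := hs _ h
    try simp only at this
    omega
  · rw [h3 _ hl, hg _ hl]
    intro p _ h
    have := congrArg Prod.snd h
    try simp only at this
    omega

/-- Translates used for `A`. -/
theorem exists_x (F : Finset X) (hF : ∀ i, pt i ∈ F) :
    ∃ x : G, ∀ k ∈ KF F x, ∀ i, (k⁻¹.1 (pt i)).2 = 0 := by
  classical
  obtain ⟨s, hs⟩ : ∃ s : ℕ, ∀ p ∈ F, p.1 < s := by
    refine ⟨F.sup (fun p => p.1 + 1), fun p hp => ?_⟩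
    have := Finset.le_sup (f := fun p : X => p.1 + 1) hp
    try simp only at this
    omega
  obtain ⟨x, h1, h2, -⟩ := exists_swap F (fun p => (s + Nat.pair p.1 p.2, 0)) (by
      intro p _ q _ h
      simp only [Prod.mk.injEq, and_true] at h
      have h' : Nat.pair p.1 p.2 = Nat.pair q.1 q.2 := by omega
      rw [Nat.pair_eq_pair] at h'
      exact Prod.ext h'.1 h'.2) (by
      intro p _ h
      have := hs _ h
      try simp only at this
      omega)
  refine ⟨x, ?_⟩
  rintro _ ⟨g, hg, rfl⟩ i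
  have hgi := GF_map (GF_inv hg) (hF i)
  have hx : x⁻¹.1 (g⁻¹.1 (pt i)) =
      (s + Nat.pair (g⁻¹.1 (pt i)).1 (g⁻¹.1 (pt i)).2, 0) := by
    show (x.1)⁻¹ (g⁻¹.1 (pt i)) = _
    rw [Equiv.Perm.inv_eq_iff_eq]
    exact (h2 _ hgi).symm
  simp only [mul_inv_rev]
  show (x⁻¹.1 (g⁻¹.1 (pt i))).2 = 0
  rw [hx]

theorem count_A (F : Finset X) (hF : ∀ i, pt i ∈ F) (x : G)
    (hx : ∀ k ∈ KF F x, ∀ i, (k⁻¹.1 (pt i)).2 = 0) :
    2 / 3 * ((KF F x).ncard : ℝ) ≤ ((A ∩ KF F x).ncard : ℝ) := by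
  classical
  set K := KF F x with hK
  have hfin : K.Finite := KF_finite F x
  have hcK : ∀ k ∈ K, c * k ∈ K := by
    intro k hk
    rw [hK, ← KF_mul (c_mem hF)]
    exact ⟨k, hk, rfl⟩
  have hcard : ∀ i : Fin 3, (K ∩ {k | T i k}).ncard ≤ (K ∩ {k | T (i + 1) k}).ncard := by
    intro i
    refine Set.ncard_le_ncard_of_injOn (fun k => c * k) ?_ ?_ (hfin.inter_of_left _)
    · rintro k ⟨hk1, hk2⟩
      exact ⟨hcK k hk1, (T_c i k).2 hk2⟩
    · intro k _ k' _ h
      exact mul_left_cancel h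
  have h01 := hcard 0
  have h12 := hcard 1
  have hdisj : ∀ i j : Fin 3, i ≠ j → Disjoint (K ∩ {k | T i k}) (K ∩ {k | T j k}) := by
    intro i j hij
    rw [Set.disjoint_left]
    rintro k ⟨_, h1⟩ ⟨_, h2⟩
    exact hij (T_unique h1 h2)
  have hU : ((K ∩ {k | T 0 k}) ∪ ((K ∩ {k | T 1 k}) ∪ (K ∩ {k | T 2 k}))).ncard ≤ K.ncard := by
    apply Set.ncard_le_ncard _ hfin
    rintro k (h | h | h)
    · exact h.1
    · exact h.1
    · exact h.1
  rw [Set.ncard_union_eq _ (hfin.inter_of_left _) ((hfin.inter_of_left _).union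
    (hfin.inter_of_left _)), Set.ncard_union_eq (hdisj 1 2 (by decide)) (hfin.inter_of_left _)
    (hfin.inter_of_left _)] at hU
  · have hA : A ∩ K = K \ (K ∩ {k | T 0 k}) := by
      ext k
      simp only [A, Set.mem_inter_iff, Set.mem_ofPred_eq, Set.mem_sdiff]
      constructor
      · rintro ⟨⟨_, h1⟩, h2⟩
        exact ⟨h2, fun h3 => h1 h3.2⟩
      · rintro ⟨h1, h2⟩
        exact ⟨⟨hx k h1, fun h3 => h2 ⟨h1, h3⟩⟩, h1⟩
    have h3 : (A ∩ K).ncard + (K ∩ {k | T 0 k}).ncard = K.ncard := by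
      rw [hA]
      exact Set.ncard_sdiff_add_ncard_of_subset Set.inter_subset_left hfin
    have h4 : (0 + 1 : Fin 3) = 1 := rfl
    have h5 : (1 + 1 : Fin 3) = 2 := rfl
    rw [h4] at h01
    rw [h5] at h12
    have h6 : 2 * K.ncard ≤ 3 * (A ∩ K).ncard := by omega
    have h7 : (2 : ℝ) * (K.ncard : ℝ) ≤ 3 * ((A ∩ K).ncard : ℝ) := by exact_mod_cast h6
    linarith
  · rw [Set.disjoint_union_right]
    exact ⟨hdisj 0 1 (by decide), hdisj 0 2 (by decide)⟩

theorem bdd (S : Set G) : BddAbove {α : ℝ | ∀ (H : Finset G) (ε : ℝ), 0 < ε →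
    ∃ K : Set G, IsInv H ε K ∧ α * (K.ncard : ℝ) ≤ ((S ∩ K).ncard : ℝ)} := by
  refine ⟨1, fun α hα => ?_⟩
  obtain ⟨K, ⟨hK1, hK2, -⟩, hK3⟩ := hα ∅ 1 one_pos
  have h1 : (S ∩ K).ncard ≤ K.ncard := Set.ncard_le_ncard Set.inter_subset_right hK1
  have h2 : 0 < K.ncard := (Set.ncard_pos hK1).2 hK2
  have h3 : ((S ∩ K).ncard : ℝ) ≤ K.ncard := by exact_mod_cast h1
  have h4 : (0 : ℝ) < K.ncard := by exact_mod_cast h2
  by_contra hc
  push Not at hc
  nlinarith

theorem dens_A : 2 / 3 ≤ dens A := by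
  classical
  apply le_csSup (bdd A)
  intro H ε hε
  obtain ⟨F₀, hF₀⟩ := exists_F (insert c H)
  set F := F₀ ∪ Finset.univ.image pt with hFdef
  have hF : ∀ h ∈ H, h ∈ GF F := by
    intro h hh p hp
    rw [hFdef, Finset.mem_union, not_or] at hp
    exact hF₀ h (Finset.mem_insert_of_mem hh) p hp.1
  have hpt : ∀ i, pt i ∈ F := fun i =>
    Finset.mem_union_right _ (Finset.mem_image_of_mem _ (Finset.mem_univ i))
  obtain ⟨x, hx⟩ := exists_x F hpt
  exact ⟨KF F x, KF_inv hF hε, count_A F hpt x hx⟩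

theorem dens_B : 1 ≤ dens B := by
  apply le_csSup (bdd B)
  intro H ε hε
  obtain ⟨F, hF⟩ := exists_F H
  obtain ⟨y, hy⟩ := exists_y F
  refine ⟨KF F y, KF_inv hF hε, ?_⟩
  rw [one_mul, Set.inter_eq_right.2 hy]

theorem result_aux : ∃ (G : Type) (_ : Group G), Amenable G ∧ ∃ A B : Set G,
    0 < dens A ∧ 0 < dens B ∧
      ¬ PiecewiseSyndetic ⌊1 / (dens A * dens B)⌋₊ (quo A B) := by
  refine ⟨G, inferInstance, amenable, A, B, ?_, ?_, ?_⟩
  · have := dens_A; linarith
  · have := dens_B; linarith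
  · apply thick_mono_card
    have h1 := dens_A
    have h2 := dens_B
    have h3 : 2 / 3 ≤ dens A * dens B := by nlinarith
    have h4 : 1 / (dens A * dens B) < 2 := by
      rw [div_lt_iff₀ (by linarith)]
      linarith
    have h5 : ⌊1 / (dens A * dens B)⌋₊ < 2 := by
      rw [Nat.floor_lt (by positivity)]
      exact_mod_cast h4
    omega

end Q158.Banach
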