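import Mathlib

/-! Banach density, thick and piecewise syndetic sets in a discrete group. -/

namespace Q158.Banach

/-- `K` is finite, nonempty and `(H, ε)`-invariant: `|hK △ K| < ε |K|` for all `h ∈ H`. -/
def IsInv {G : Type*} [Group G] (H : Finset G) (ε : ℝ) (K : Set G) : Prop :=
  K.Finite ∧ K.Nonempty ∧
    ∀ h ∈ H, ((symmDiff ((fun k => h * k) '' K) K).ncard : ℝ) < ε * (K.ncard : ℝ)

/-- Amenability (Følner's condition). -/
def Amenable (G : Type*) [Group G] : Prop :=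
  ∀ (H : Finset G) (ε : ℝ), 0 < ε → ∃ K : Set G, IsInv H ε K

/-- The upper Banach density of `A`. -/
noncomputable def dens {G : Type*} [Group G] (A : Set G) : ℝ :=
  sSup {α : ℝ | ∀ (H : Finset G) (ε : ℝ), 0 < ε →
    ∃ K : Set G, IsInv H ε K ∧ α * (K.ncard : ℝ) ≤ ((A ∩ K).ncard : ℝ)}

/-- `A` is thick: every finite `H` has a right translate `H x` inside `A`. -/
def Thick {G : Type*} [Group G] (A : Set G) : Prop :=
  ∀ H : Finset G, ∃ x : G, ∀ h ∈ H, h * x ∈ A

/-- `A` is piecewise `k`-syndetic: `F A` is thick for some `F` with at most `k` elements. -/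
def PiecewiseSyndetic {G : Type*} [Group G] (k : ℕ) (A : Set G) : Prop :=
  ∃ F : Finset G, F.card ≤ k ∧ Thick {g : G | ∃ f ∈ F, ∃ a ∈ A, g = f * a}

/-- The set `A B⁻¹`. -/
def quo {G : Type*} [Group G] (A B : Set G) : Set G := {g : G | ∃ a ∈ A, ∃ b ∈ B, g = a * b⁻¹}

end Q158.Banach
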