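import Mathlib

set_option autoImplicit false

namespace Q158.Flow

open Finset

/-- A graded weighted digraph with linear excess. -/
structure FlowData (L : Type) [Fintype L] (ρ : L → ℕ) (R : ℕ) (W : L → L → ℝ) : Prop where
  nonneg : ∀ x y, 0 ≤ W x y
  rank : ∀ x y, W x y ≠ 0 → ρ y = ρ x + 1
  rank_le : ∀ x, ρ x ≤ R
  bal : ∀ x, ∑ y, W x y - ∑ y, W y x = (R : ℝ) - 2 * ρ x

section

variable {L : Type} [Fintype L] {ρ : L → ℕ} {R : ℕ} {W : L → L → ℝ}

/-- Outflow. -/
def up (W : L → L → ℝ) (x : L) : ℝ := ∑ y, W x y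

/-- Inflow. -/
def dn (W : L → L → ℝ) (x : L) : ℝ := ∑ y, W y x

/-- Throughput. -/
noncomputable def thr (W : L → L → ℝ) (x : L) : ℝ := max (up W x) (dn W x)

/-- Source strength. -/
noncomputable def src (W : L → L → ℝ) (x : L) : ℝ := thr W x - dn W x

/-- Transition kernel. -/
noncomputable def ker (W : L → L → ℝ) (x y : L) : ℝ := W x y / thr W x

theorem up_nonneg (h : FlowData L ρ R W) (x : L) : 0 ≤ up W x := sum_nonneg fun y _ => h.nonneg x y

theorem dn_nonneg (h : FlowData L ρ R W) (x : L) : 0 ≤ dn W x := sum_nonneg fun y _ => h.nonneg y x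

theorem thr_nonneg (h : FlowData L ρ R W) (x : L) : 0 ≤ thr W x :=
  (up_nonneg h x).trans (le_max_left _ _)

theorem src_nonneg (x : L) : 0 ≤ src W x := sub_nonneg.2 (le_max_right _ _)

theorem ker_nonneg (h : FlowData L ρ R W) (x y : L) : 0 ≤ ker W x y :=
  div_nonneg (h.nonneg x y) (thr_nonneg h x)

theorem ker_sum (h : FlowData L ρ R W) (x : L) : ∑ y, ker W x y ≤ 1 := by
  unfold ker
  rw [← sum_div]
  exact div_le_one_of_le₀ (le_max_left _ _) (thr_nonneg h x)

theorem thr_mul_ker (h : FlowData L ρ R W) (x y : L) : thr W x * ker W x y = W x y := by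
  unfold ker
  by_cases h0 : thr W x = 0
  · rw [h0, zero_mul]
    have h1 : up W x ≤ 0 := h0 ▸ le_max_left _ _
    have h2 : W x y ≤ up W x := single_le_sum (fun y _ => h.nonneg x y) (mem_univ y)
    exact le_antisymm (h.nonneg x y) (h2.trans h1)
  · field_simp

theorem ker_rank (h : FlowData L ρ R W) {x y : L} (hk : ker W x y ≠ 0) : ρ y = ρ x + 1 := by
  refine h.rank x y fun h0 => hk ?_
  simp [ker, h0]

/-- Apply the kernel to a function. -/
noncomputable def app (W : L → L → ℝ) (f : L → ℝ) (x : L) : ℝ := ∑ y, ker W x y * f y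

theorem app_add (f g : L → ℝ) (x : L) : app W (fun y => f y + g y) x = app W f x + app W g x := by
  simp [app, mul_add, sum_add_distrib]

theorem app_sum {ι : Type} (s : Finset ι) (f : ι → L → ℝ) (x : L) :
    app W (fun y => ∑ i ∈ s, f i y) x = ∑ i ∈ s, app W (f i) x := by
  simp only [app, mul_sum]
  rw [sum_comm]

theorem app_congr (h : FlowData L ρ R W) {f g : L → ℝ} {x : L}
    (hfg : ∀ y, ρ y = ρ x + 1 → f y = g y) : app W f x = app W g x := by
  refine sum_congr rfl fun y _ => ?_
  by_cases h0 : ker W x y = 0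
  · simp [h0]
  · rw [hfg y (ker_rank h h0)]

theorem app_mono (h : FlowData L ρ R W) {f g : L → ℝ} {x : L}
    (hfg : ∀ y, ρ y = ρ x + 1 → f y ≤ g y) : app W f x ≤ app W g x := by
  refine sum_le_sum fun y _ => ?_
  by_cases h0 : ker W x y = 0
  · simp [h0]
  · exact mul_le_mul_of_nonneg_left (hfg y (ker_rank h h0)) (ker_nonneg h x y)

theorem app_le_const (h : FlowData L ρ R W) {f : L → ℝ} {x : L} {c : ℝ} (hc : 0 ≤ c)
    (hf : ∀ y, ρ y = ρ x + 1 → f y ≤ c) : app W f x ≤ c := by
  calc app W f x ≤ app W (fun _ => c) x := app_mono h hf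
    _ = (∑ y, ker W x y) * c := by rw [app, ← sum_mul]
    _ ≤ 1 * c := mul_le_mul_of_nonneg_right (ker_sum h x) hc
    _ = c := one_mul c

theorem app_nonneg (h : FlowData L ρ R W) {f : L → ℝ} {x : L}
    (hf : ∀ y, ρ y = ρ x + 1 → 0 ≤ f y) : 0 ≤ app W f x := by
  have := app_mono h (f := fun _ => (0 : ℝ)) (g := f) (x := x) hf
  simpa [app] using this

/-- Downward induction on the rank. -/
theorem rank_induction (h : FlowData L ρ R W) {P : L → Prop}
    (hP : ∀ x, (∀ y, ρ y = ρ x + 1 → P y) → P x) (x : L) : P x := by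
  have key : ∀ n, ∀ x, R ≤ ρ x + n → P x := by
    intro n
    induction n with
    | zero =>
      intro x hx
      refine hP x fun y hy => ?_
      have := h.rank_le y
      omega
    | succ n ih =>
      intro x hx
      exact hP x fun y hy => ih y (by omega)
  exact key R x (by omega)

theorem exists_solution (h : FlowData L ρ R W) (φ : L → ℝ) :
    ∃ F : L → ℝ, ∀ x, F x = φ x + app W F x := by
  let F : ℕ → L → ℝ := fun n => Nat.rec φ (fun _ f x => φ x + app W f x) n
  have hF : ∀ n x, F (n + 1) x = φ x + app W (F n) x := fun n x => rfl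
  have key : ∀ n x, R ≤ ρ x + n → F (n + 1) x = F n x := by
    intro n
    induction n with
    | zero =>
      intro x hx
      rw [hF]
      have : app W (F 0) x = 0 := by
        have h2 := app_congr h (f := F 0) (g := fun _ => 0) (x := x) (fun y hy => by
          have := h.rank_le y; omega)
        rw [h2]; simp [app]
      rw [this, add_zero]
      rfl
    | succ n ih =>
      intro x hx
      rw [hF (n + 1), hF n]
      congr 1
      exact app_congr h fun y hy => ih y (by omega)
  exact ⟨F R, fun x => by rw [← hF]; exact (key R x (by omega)).symm⟩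

theorem sum_src (h : FlowData L ρ R W) {F φ : L → ℝ} (hF : ∀ x, F x = φ x + app W F x) :
    ∑ x, src W x * F x = ∑ x, thr W x * φ x := by
  have h1 : ∑ x, thr W x * app W F x = ∑ y, dn W y * F y := by
    calc ∑ x, thr W x * app W F x = ∑ x, ∑ y, W x y * F y := by
          refine sum_congr rfl fun x _ => ?_
          rw [app, mul_sum]
          refine sum_congr rfl fun y _ => ?_
          rw [← mul_assoc, thr_mul_ker h]
      _ = ∑ y, ∑ x, W x y * F y := sum_comm
      _ = ∑ y, dn W y * F y := sum_congr rfl fun y _ => by rw [dn, sum_mul]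
  have h2 : ∑ x, thr W x * φ x = ∑ x, thr W x * F x - ∑ x, thr W x * app W F x := by
    rw [← sum_sub_distrib]
    refine sum_congr rfl fun x _ => ?_
    rw [hF x]; ring
  rw [h2, h1, ← sum_sub_distrib]
  refine sum_congr rfl fun x _ => ?_
  rw [src]; ring

theorem app_sq (h : FlowData L ρ R W) (g : L → ℝ) (x : L) :
    (app W g x) ^ 2 ≤ app W (fun y => g y ^ 2) x := by
  have h1 := sum_mul_sq_le_sq_mul_sq univ (fun y => Real.sqrt (ker W x y))
    (fun y => Real.sqrt (ker W x y) * g y)
  have h2 : ∀ y, Real.sqrt (ker W x y) * (Real.sqrt (ker W x y) * g y) = ker W x y * g y := by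
    intro y
    rw [← mul_assoc, Real.mul_self_sqrt (ker_nonneg h x y)]
  have h3 : ∀ y, Real.sqrt (ker W x y) ^ 2 = ker W x y := fun y => Real.sq_sqrt (ker_nonneg h x y)
  have h4 : ∀ y, (Real.sqrt (ker W x y) * g y) ^ 2 = ker W x y * g y ^ 2 := by
    intro y; rw [mul_pow, h3]
  simp only [h2, h3, h4] at h1
  refine h1.trans ?_
  have h5 : 0 ≤ app W (fun y => g y ^ 2) x := app_nonneg h fun y _ => sq_nonneg _
  calc (∑ y, ker W x y) * ∑ y, ker W x y * g y ^ 2 ≤ 1 * app W (fun y => g y ^ 2) x :=
        mul_le_mul_of_nonneg_right (ker_sum h x) h5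
    _ = _ := one_mul _

/-- The pair counting inequality. -/
theorem pairs_lower (h : FlowData L ρ R W) (v : L → ℝ) (hv : ∀ x, v x = 0 ∨ v x = 1)
    (g : L → ℝ) (hg : ∀ x, g x = v x + app W g x) :
    (5 / 2 : ℝ) * ∑ x, thr W x * v x - 8 * ∑ x, src W x ≤
      ∑ x, thr W x * (v x * app W (app W g) x) := by
  obtain ⟨F, hF⟩ := exists_solution h fun x => v x * (app W (app W g) x - 1)
  have hg0 : ∀ x, 0 ≤ g x := rank_induction h fun x ih => by
    rw [hg x]
    have := app_nonneg h ih
    rcases hv x with h1 | h1 <;> rw [h1] <;> linarith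
  have key : ∀ x, (1 / 2 : ℝ) * g x ^ 2 - 5 / 2 * g x ≤ F x := rank_induction h fun x ih => by
    have h1 : app W (fun y => (1 / 2 : ℝ) * g y ^ 2 - 5 / 2 * g y) x ≤ app W F x := app_mono h ih
    have h2 : app W (fun y => (1 / 2 : ℝ) * g y ^ 2 - 5 / 2 * g y) x =
        1 / 2 * app W (fun y => g y ^ 2) x - 5 / 2 * app W g x := by
      simp only [app, mul_sub, sum_sub_distrib, mul_sum]
      congr 1
      · exact sum_congr rfl fun y _ => by ring
      · exact sum_congr rfl fun y _ => by ring
    have h3 := app_sq h g x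
    have h4 : app W g x - 1 ≤ app W (app W g) x := by
      have h5 : app W g x = app W v x + app W (app W g) x := by
        rw [← app_add]
        exact app_congr h fun y _ => hg y
      have h6 : app W v x ≤ 1 := app_le_const h zero_le_one fun y _ => by
        rcases hv y with h7 | h7 <;> rw [h7] <;> norm_num
      linarith
    rw [hF x]
    rcases hv x with h5 | h5
    · rw [h5, zero_mul, zero_add]
      have h6 := hg x
      rw [h5, zero_add] at h6
      rw [h6]
      nlinarith
    · rw [h5, one_mul]
      have h6 := hg x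
      rw [h5] at h6
      rw [h6]
      nlinarith
  have h1 := sum_src h hF
  have h2 := sum_src h hg
  have h3 : ∑ x, src W x * (3 / 2 * g x - 8) ≤ ∑ x, src W x * F x := by
    refine sum_le_sum fun x _ => mul_le_mul_of_nonneg_left ?_ (src_nonneg x)
    nlinarith [key x, sq_nonneg (g x - 4)]
  have h4 : ∑ x, src W x * (3 / 2 * g x - 8) =
      3 / 2 * ∑ x, src W x * g x - 8 * ∑ x, src W x := by
    rw [mul_sum, mul_sum, ← sum_sub_distrib]
    exact sum_congr rfl fun x _ => by ring
  have h5 : ∑ x, thr W x * (v x * (app W (app W g) x - 1)) =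
      ∑ x, thr W x * (v x * app W (app W g) x) - ∑ x, thr W x * v x := by
    rw [← sum_sub_distrib]
    exact sum_congr rfl fun x _ => by ring
  rw [h4, h2] at h3
  rw [h1, h5] at h3
  linarith

end

/-- Supersaturation from a flow. -/
theorem supersat {L : Type} [Fintype L] [DecidableEq L] [PartialOrder L] {ρ : L → ℕ} {R : ℕ}
    {W : L → L → ℝ} (h : FlowData L ρ R W) (hlt : ∀ x y, W x y ≠ 0 → x < y)
    [DecidableLT L] (V : Finset L) (β P : ℝ) (hβ : 0 ≤ β)
    (h2 : ∀ y ∈ V, ∀ z, ∑ z', ker W z z' * ker W z' y ≤ β)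
    (hP : ∀ x ∈ V, thr W x ≤ P)
    (hQ : 8 * ∑ x, src W x ≤ ∑ x ∈ V, thr W x) :
    (3 / 2 : ℝ) * ∑ x ∈ V, thr W x ≤
      P * β * ((V ×ˢ V).filter fun q => q.1 < q.2).card := by
  classical
  choose G hG using fun y : L => exists_solution h (fun x => if x = y then (1 : ℝ) else 0)
  have hG0 : ∀ y x, 0 ≤ G y x := fun y => rank_induction h fun x ih => by
    rw [hG y x]
    have := app_nonneg h ih
    split_ifs <;> linarith
  have hGle : ∀ y x, G y x ≠ 0 → x ≤ y := fun y => rank_induction h fun x ih hx => by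
    rw [hG y x] at hx
    by_cases hxy : x = y
    · exact hxy.le
    · rw [if_neg hxy, zero_add] at hx
      obtain ⟨z, -, hz⟩ := exists_ne_zero_of_sum_ne_zero hx
      have hk : ker W x z ≠ 0 := left_ne_zero_of_mul hz
      have hW : W x z ≠ 0 := fun h0 => hk (by simp [ker, h0])
      exact (hlt x z hW).le.trans (ih z (ker_rank h hk) (right_ne_zero_of_mul hz))
  let v : L → ℝ := fun x => if x ∈ V then 1 else 0
  have hv : ∀ x, v x = 0 ∨ v x = 1 := fun x => by by_cases hx : x ∈ V <;> simp [v, hx]
  let g : L → ℝ := fun x => ∑ y ∈ V, G y x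
  have hg : ∀ x, g x = v x + app W g x := by
    intro x
    simp only [g]
    rw [app_sum, sum_congr rfl fun y _ => hG y x, sum_add_distrib]
    congr 1
    simp only [v]
    rw [sum_ite_eq]
  have h3 := pairs_lower h v hv g hg
  -- two-step bound
  have hq : ∀ y ∈ V, ∀ x, app W (app W (G y)) x ≤ (if ρ x + 2 ≤ ρ y then β else 0) := by
    intro y hy
    have hrec : ∀ x, app W (app W (G y)) x =
        (∑ z, ker W x z * ker W z y) + app W (app W (app W (G y))) x := by
      intro x
      have e1 : ∀ z, app W (G y) z = ker W z y + app W (app W (G y)) z := by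
        intro z
        have e2 : app W (G y) z = app W (fun u => (if u = y then (1 : ℝ) else 0) + app W (G y) u) z :=
          app_congr h fun u _ => hG y u
        rw [e2, app_add]
        congr 1
        simp [app]
      have e3 : app W (app W (G y)) x = app W (fun z => ker W z y + app W (app W (G y)) z) x :=
        app_congr h fun z _ => e1 z
      rw [e3, app_add]
      rfl
    refine rank_induction h fun x ih => ?_
    rw [hrec x]
    by_cases h4 : ρ x + 2 < ρ y
    · have e4 : ∑ z, ker W x z * ker W z y = 0 := by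
        refine sum_eq_zero fun z _ => ?_
        by_contra hne
        have := ker_rank h (left_ne_zero_of_mul hne)
        have := ker_rank h (right_ne_zero_of_mul hne)
        omega
      rw [e4, zero_add, if_pos (by omega)]
      refine app_le_const h hβ fun z hz => (ih z hz).trans ?_
      split_ifs <;> linarith
    · have e5 : app W (app W (app W (G y))) x ≤ 0 := by
        refine app_le_const h le_rfl fun z hz => (ih z hz).trans ?_
        rw [if_neg (by omega)]
      by_cases h5 : ρ x + 2 = ρ y
      · rw [if_pos (by omega)]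
        have := h2 y hy x
        linarith
      · have e4 : ∑ z, ker W x z * ker W z y = 0 := by
          refine sum_eq_zero fun z _ => ?_
          by_contra hne
          have := ker_rank h (left_ne_zero_of_mul hne)
          have := ker_rank h (right_ne_zero_of_mul hne)
          omega
        rw [if_neg (by omega), e4]
        linarith
  have hq' : ∀ y ∈ V, ∀ x, app W (app W (G y)) x ≤ (if x < y then β else 0) := by
    intro y hy x
    by_cases hxy : x < y
    · rw [if_pos hxy]
      refine (hq y hy x).trans ?_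
      split_ifs <;> linarith
    · rw [if_neg hxy]
      refine le_of_eq ?_
      by_contra hne
      obtain ⟨z, -, hz⟩ := exists_ne_zero_of_sum_ne_zero hne
      have hk : ker W x z ≠ 0 := left_ne_zero_of_mul hz
      obtain ⟨u, -, hu⟩ := exists_ne_zero_of_sum_ne_zero (right_ne_zero_of_mul hz)
      have hk2 : ker W z u ≠ 0 := left_ne_zero_of_mul hu
      have hW : W x z ≠ 0 := fun h0 => hk (by simp [ker, h0])
      have hW2 : W z u ≠ 0 := fun h0 => hk2 (by simp [ker, h0])
      exact hxy ((hlt x z hW).trans ((hlt z u hW2).trans_le (hGle y u (right_ne_zero_of_mul hu))))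
  have e1 : ∑ x, thr W x * v x = ∑ x ∈ V, thr W x := by
    simp only [v, mul_ite, mul_one, mul_zero]
    rw [sum_ite_mem, univ_inter]
  have e2 : ∑ x, thr W x * (v x * app W (app W g) x) ≤
      ∑ x ∈ V, ∑ y ∈ V, P * (if x < y then β else 0) := by
    have e3 : ∑ x, thr W x * (v x * app W (app W g) x) = ∑ x ∈ V, thr W x * app W (app W g) x := by
      simp only [v, ite_mul, one_mul, zero_mul, mul_ite, mul_zero]
      rw [sum_ite_mem, univ_inter]
    rw [e3]
    refine sum_le_sum fun x hx => ?_
    have e4 : app W (app W g) x = ∑ y ∈ V, app W (app W (G y)) x := by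
      have e5 : app W (app W g) x = app W (fun z => ∑ y ∈ V, app W (G y) z) x :=
        app_congr h fun z _ => app_sum V G z
      rw [e5, app_sum]
    rw [e4, mul_sum]
    refine sum_le_sum fun y hy => ?_
    have h6 := hq' y hy x
    have h7 : 0 ≤ app W (app W (G y)) x := app_nonneg h fun z _ => app_nonneg h fun u _ => hG0 y u
    have h8 := hP x hx
    have h9 := thr_nonneg h x
    calc thr W x * app W (app W (G y)) x ≤ P * app W (app W (G y)) x :=
          mul_le_mul_of_nonneg_right h8 h7
      _ ≤ P * (if x < y then β else 0) := mul_le_mul_of_nonneg_left h6 (h9.trans h8)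
  have e3 : ∑ x ∈ V, ∑ y ∈ V, P * (if x < y then β else 0) =
      P * β * ((V ×ˢ V).filter fun q => q.1 < q.2).card := by
    rw [← sum_product', ← sum_filter_add_sum_filter_not (V ×ˢ V) fun q => q.1 < q.2]
    have e4 : ∑ x ∈ (V ×ˢ V).filter fun q => q.1 < q.2, P * (if x.1 < x.2 then β else 0) =
        ∑ x ∈ (V ×ˢ V).filter fun q => q.1 < q.2, P * β :=
      sum_congr rfl fun q hq => by rw [if_pos (mem_filter.1 hq).2]
    have e5 : ∑ x ∈ (V ×ˢ V).filter fun q => ¬ q.1 < q.2, P * (if x.1 < x.2 then β else 0) = 0 :=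
      sum_eq_zero fun q hq => by rw [if_neg (mem_filter.1 hq).2, mul_zero]
    rw [e4, e5, add_zero, sum_const, nsmul_eq_mul]
    ring
  rw [e1] at h3
  linarith

end Q158.Flow
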