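import Pool.Agent.Q158.BoxDefs
import Pool.Agent.Q158.Flow

set_option autoImplicit false

namespace Q158.Box

open Finset Q158.Flow

/-- The weight function. -/
def wt (k a : ℕ) : ℝ := a * (2 * k - a)

/-- `y` arises from `x` by raising the entry `i` by one. -/
def Step {k : ℕ} (i : Fin k) (x y : L k) : Prop :=
  (y.1 i : ℕ) = x.1 i + 1 ∧ ∀ j, j ≠ i → y.1 j = x.1 j

open Classical in
noncomputable def W {k : ℕ} (x y : L k) : ℝ :=
  ∑ i, if Step i x y then wt k (x.1 i + i + 1) else 0

def rk {k : ℕ} (x : L k) : ℕ := ∑ i, (x.1 i : ℕ)

theorem wt_nonneg {k a : ℕ} (h : a ≤ 2 * k) : 0 ≤ wt k a := by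
  unfold wt
  have : (a : ℝ) ≤ 2 * k := by exact_mod_cast h
  exact mul_nonneg (Nat.cast_nonneg _) (by linarith)

theorem wt_le (k a : ℕ) : wt k a ≤ k ^ 2 := by
  unfold wt
  nlinarith [sq_nonneg ((a : ℝ) - k)]

theorem pos_le {k : ℕ} (x : L k) (i : Fin k) : (x.1 i : ℕ) + i + 1 ≤ 2 * k := by
  have := (x.1 i).isLt
  have := i.isLt
  omega

theorem Step.unique {k : ℕ} {i j : Fin k} {x y : L k} (h : Step i x y) (h' : Step j x y) :
    i = j := by
  by_contra hne
  have h1 := h.1
  have h2 := h'.2 i hne
  rw [h2] at h1
  omega

theorem Step.lt {k : ℕ} {i : Fin k} {x y : L k} (h : Step i x y) : x < y := by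
  have hle : x ≤ y := by
    intro j
    by_cases hj : j = i
    · subst hj
      rw [Fin.le_def, h.1]; omega
    · rw [h.2 j hj]
  refine lt_of_le_of_ne hle ?_
  rintro rfl
  have := h.1
  omega

theorem Step.rk {k : ℕ} {i : Fin k} {x y : L k} (h : Step i x y) : rk y = rk x + 1 := by
  classical
  unfold Box.rk
  rw [← add_sum_erase _ _ (mem_univ i), ← add_sum_erase (a := i) _ _ (mem_univ i), h.1]
  have : ∑ j ∈ univ.erase i, (y.1 j : ℕ) = ∑ j ∈ univ.erase i, (x.1 j : ℕ) :=
    sum_congr rfl fun j hj => by rw [h.2 j (ne_of_mem_erase hj)]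
  rw [this]
  omega

theorem W_nonneg {k : ℕ} (x y : L k) : 0 ≤ W x y := by
  classical
  refine sum_nonneg fun i _ => ?_
  split_ifs
  · exact wt_nonneg (pos_le x i)
  · exact le_rfl

theorem exists_step {k : ℕ} {x y : L k} (h : W x y ≠ 0) : ∃ i, Step i x y := by
  obtain ⟨i, -, hi⟩ := exists_ne_zero_of_sum_ne_zero h
  by_contra hne
  push Not at hne
  rw [if_neg (hne i)] at hi
  exact hi rfl

theorem W_le {k : ℕ} (x y : L k) : W x y ≤ k ^ 2 := by
  classical
  by_cases h : W x y = 0
  · rw [h]; positivity
  · obtain ⟨i, hi⟩ := exists_step h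
    unfold W
    rw [sum_eq_single i]
    · rw [if_pos hi]; exact wt_le _ _
    · intro j _ hj
      rw [if_neg]
      exact fun h' => hj (h'.unique hi)
    · simp

/-- The sum of the weights of the possible raises. -/
theorem up_eq {n : ℕ} (x : L (n + 1)) : up W x =
    ∑ i : Fin n, (if (x.1 i.castSucc : ℕ) < x.1 i.succ then
      wt (n + 1) (x.1 i.castSucc + i + 1) else 0) + wt (n + 1) (x.1 (Fin.last n) + n + 1) := by
  classical
  have h1 : up W x = ∑ i, ∑ y, if Step i x y then wt (n + 1) (x.1 i + i + 1) else 0 := by
    unfold up W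
    rw [sum_comm]
  rw [h1, Fin.sum_univ_castSucc]
  congr 1
  · refine sum_congr rfl fun i _ => ?_
    by_cases hlt : (x.1 i.castSucc : ℕ) < x.1 i.succ
    · rw [if_pos hlt]
      have hb : (x.1 i.castSucc : ℕ) + 1 < n + 1 + 1 := by
        have := (x.1 i.succ).isLt
        omega
      let y : L (n + 1) := ⟨Function.update x.1 i.castSucc ⟨x.1 i.castSucc + 1, hb⟩, by
        intro a b hab
        rcases eq_or_lt_of_le hab with rfl | hab'
        · exact le_rfl
        by_cases ha : a = i.castSucc
        · subst ha
          have hb' : b ≠ i.castSucc := ne_of_gt hab'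
          rw [Function.update_self, Function.update_of_ne hb', Fin.le_def]
          have h3 : i.succ ≤ b := by
            rw [Fin.le_def]; rw [Fin.lt_def] at hab'; simp at hab' ⊢; omega
          have h4 := x.2 h3
          rw [Fin.le_def] at h4
          simp only
          omega
        · rw [Function.update_of_ne ha]
          by_cases hb' : b = i.castSucc
          · subst hb'
            rw [Function.update_self, Fin.le_def]
            have := x.2 hab
            rw [Fin.le_def] at this
            simp only
            omega
          · rw [Function.update_of_ne hb']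
            exact x.2 hab⟩
      have hy : Step i.castSucc x y := by
        refine ⟨by simp [y], fun j hj => ?_⟩
        simp only [y]
        rw [Function.update_of_ne hj]
      rw [sum_eq_single y]
      · rw [if_pos hy]; simp
      · intro z _ hz
        rw [if_neg]
        intro hz'
        apply hz
        refine Subtype.ext (funext fun j => ?_)
        by_cases hj : j = i.castSucc
        · subst hj
          refine Fin.ext ?_
          rw [hz'.1, hy.1]
        · rw [hz'.2 j hj, hy.2 j hj]
      · simp
    · rw [if_neg hlt]
      refine sum_eq_zero fun y _ => ?_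
      rw [if_neg]
      intro hy
      have h2 := y.2 (show i.castSucc ≤ i.succ from by rw [Fin.le_def]; simp)
      rw [Fin.le_def, hy.1, hy.2 i.succ (by
        intro h; have := congrArg Fin.val h; simp at this)] at h2
      omega
  · by_cases hlt : (x.1 (Fin.last n) : ℕ) < n + 1
    · let y : L (n + 1) := ⟨Function.update x.1 (Fin.last n) ⟨x.1 (Fin.last n) + 1, by omega⟩, by
        intro a b hab
        rcases eq_or_lt_of_le hab with rfl | hab'
        · exact le_rfl
        have ha : a ≠ Fin.last n := ne_of_lt (hab'.trans_le (Fin.le_last b))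
        rw [Function.update_of_ne ha]
        by_cases hb' : b = Fin.last n
        · subst hb'
          rw [Function.update_self, Fin.le_def]
          have := x.2 hab
          rw [Fin.le_def] at this
          simp only
          omega
        · rw [Function.update_of_ne hb']
          exact x.2 hab⟩
      have hy : Step (Fin.last n) x y := by
        refine ⟨by simp [y], fun j hj => ?_⟩
        simp only [y]
        rw [Function.update_of_ne hj]
      rw [sum_eq_single y]
      · rw [if_pos hy]; simp
      · intro z _ hz
        rw [if_neg]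
        intro hz'
        apply hz
        refine Subtype.ext (funext fun j => ?_)
        by_cases hj : j = Fin.last n
        · subst hj
          refine Fin.ext ?_
          rw [hz'.1, hy.1]
        · rw [hz'.2 j hj, hy.2 j hj]
      · simp
    · have h3 : (x.1 (Fin.last n) : ℕ) = n + 1 := by
        have := (x.1 (Fin.last n)).isLt
        omega
      have h4 : wt (n + 1) (x.1 (Fin.last n) + n + 1) = 0 := by
        unfold wt
        rw [h3]
        push_cast
        ring
      rw [h4]
      refine sum_eq_zero fun y _ => ?_
      rw [if_neg]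
      intro hy
      have h2 := hy.1
      have := (y.1 (Fin.last n)).isLt
      omega

theorem dn_eq {n : ℕ} (x : L (n + 1)) : dn W x =
    wt (n + 1) (x.1 0) + ∑ i : Fin n, (if (x.1 i.castSucc : ℕ) < x.1 i.succ then
      wt (n + 1) (x.1 i.succ + i + 1) else 0) := by
  classical
  have h1 : dn W x = ∑ i, ∑ y, if Step i y x then wt (n + 1) (y.1 i + i + 1) else 0 := by
    unfold dn W
    rw [sum_comm]
  rw [h1, Fin.sum_univ_succ]
  congr 1
  · by_cases hlt : 0 < (x.1 0 : ℕ)
    · let y : L (n + 1) := ⟨Function.update x.1 0 ⟨x.1 0 - 1, by have := (x.1 0).isLt; omega⟩, by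
        intro a b hab
        rcases eq_or_lt_of_le hab with rfl | hab'
        · exact le_rfl
        have hb : b ≠ 0 := ne_of_gt ((Fin.zero_le a).trans_lt hab')
        rw [Function.update_of_ne hb]
        by_cases ha : a = 0
        · subst ha
          rw [Function.update_self, Fin.le_def]
          have := x.2 hab
          rw [Fin.le_def] at this
          simp only
          omega
        · rw [Function.update_of_ne ha]
          exact x.2 hab⟩
      have hy : Step 0 y x := by
        refine ⟨?_, fun j hj => ?_⟩
        · simp only [y, Function.update_self]; omega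
        · simp only [y]
          rw [Function.update_of_ne hj]
      rw [sum_eq_single y]
      · rw [if_pos hy]
        congr 1
        have := hy.1
        simp
        omega
      · intro z _ hz
        rw [if_neg]
        intro hz'
        apply hz
        refine Subtype.ext (funext fun j => ?_)
        by_cases hj : j = 0
        · subst hj
          refine Fin.ext ?_
          have := hz'.1
          have := hy.1
          omega
        · rw [← hz'.2 j hj, ← hy.2 j hj]
      · simp
    · have h3 : (x.1 0 : ℕ) = 0 := by omega
      rw [h3]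
      have h4 : wt (n + 1) 0 = 0 := by simp [wt]
      rw [h4]
      refine sum_eq_zero fun y _ => ?_
      rw [if_neg]
      intro hy
      have h2 := hy.1
      omega
  · refine sum_congr rfl fun i _ => ?_
    have hne : i.castSucc ≠ i.succ := by
      intro h; have := congrArg Fin.val h; simp at this
    by_cases hlt : (x.1 i.castSucc : ℕ) < x.1 i.succ
    · rw [if_pos hlt]
      let y : L (n + 1) := ⟨Function.update x.1 i.succ ⟨x.1 i.succ - 1, by
          have := (x.1 i.succ).isLt; omega⟩, by
        intro a b hab
        rcases eq_or_lt_of_le hab with rfl | hab'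
        · exact le_rfl
        by_cases hb : b = i.succ
        · subst hb
          have ha' : a ≠ i.succ := ne_of_lt hab'
          rw [Function.update_self, Function.update_of_ne ha', Fin.le_def]
          have h3 : a ≤ i.castSucc := by
            rw [Fin.le_def]; rw [Fin.lt_def] at hab'; simp at hab' ⊢; omega
          have h4 := x.2 h3
          rw [Fin.le_def] at h4
          simp only
          omega
        · rw [Function.update_of_ne hb]
          by_cases ha : a = i.succ
          · subst ha
            rw [Function.update_self, Fin.le_def]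
            have := x.2 hab
            rw [Fin.le_def] at this
            simp only
            omega
          · rw [Function.update_of_ne ha]
            exact x.2 hab⟩
      have hy : Step i.succ y x := by
        refine ⟨?_, fun j hj => ?_⟩
        · simp only [y, Function.update_self]; omega
        · simp only [y]
          rw [Function.update_of_ne hj]
      rw [sum_eq_single y]
      · rw [if_pos hy]
        congr 1
        have := hy.1
        simp
        omega
      · intro z _ hz
        rw [if_neg]
        intro hz'
        apply hz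
        refine Subtype.ext (funext fun j => ?_)
        by_cases hj : j = i.succ
        · subst hj
          refine Fin.ext ?_
          have := hz'.1
          have := hy.1
          omega
        · rw [← hz'.2 j hj, ← hy.2 j hj]
      · simp
    · rw [if_neg hlt]
      refine sum_eq_zero fun y _ => ?_
      rw [if_neg]
      intro hy
      have h2 := y.2 (show i.castSucc ≤ i.succ from by rw [Fin.le_def]; simp)
      have h3 := hy.2 i.castSucc hne
      have h4 := hy.1
      rw [Fin.le_def, ← h3] at h2
      omega

theorem bal {n : ℕ} (x : L (n + 1)) :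
    up W x - dn W x = (((n + 1) * (n + 1) : ℕ) : ℝ) - 2 * rk x := by
  rw [up_eq, dn_eq]
  have h1 : ∀ i : Fin n, (if (x.1 i.castSucc : ℕ) < x.1 i.succ then
      wt (n + 1) (x.1 i.castSucc + i + 1) else 0) - (if (x.1 i.castSucc : ℕ) < x.1 i.succ then
      wt (n + 1) (x.1 i.succ + i + 1) else 0) =
      wt (n + 1) (x.1 i.castSucc + i + 1) - wt (n + 1) (x.1 i.succ + i + 1) := by
    intro i
    split_ifs with h
    · rfl
    · have h2 := x.2 (show i.castSucc ≤ i.succ from by rw [Fin.le_def]; simp)
      rw [Fin.le_def] at h2
      have h3 : (x.1 i.castSucc : ℕ) = x.1 i.succ := by omega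
      rw [h3]
      ring
  have h2 : ∑ i : Fin (n + 1), wt (n + 1) (x.1 i + i + 1) =
      ∑ i : Fin n, wt (n + 1) (x.1 i.castSucc + i + 1) + wt (n + 1) (x.1 (Fin.last n) + n + 1) := by
    rw [Fin.sum_univ_castSucc]; simp
  have h3 : ∑ i : Fin (n + 1), wt (n + 1) (x.1 i + i) =
      wt (n + 1) (x.1 0) + ∑ i : Fin n, wt (n + 1) (x.1 i.succ + i + 1) := by
    rw [Fin.sum_univ_succ]
    congr 1
  have h4 : ∑ i : Fin (n + 1), wt (n + 1) (x.1 i + i + 1) - ∑ i : Fin (n + 1), wt (n + 1) (x.1 i + i)
      = (((n + 1) * (n + 1) : ℕ) : ℝ) - 2 * rk x := by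
    rw [← sum_sub_distrib]
    have h5 : ∀ i : Fin (n + 1), wt (n + 1) (x.1 i + i + 1) - wt (n + 1) (x.1 i + i) =
        2 * (n + 1) - 1 - 2 * ((x.1 i : ℕ) : ℝ) - 2 * ((i : ℕ) : ℝ) := by
      intro i
      unfold wt
      push_cast
      ring
    rw [sum_congr rfl fun i _ => h5 i, sum_sub_distrib, sum_sub_distrib, ← mul_sum, ← mul_sum]
    have h6 : (∑ i : Fin (n + 1), ((i : ℕ) : ℝ)) * 2 = (n + 1) * n := by
      have := Finset.sum_range_id_mul_two (n + 1)
      rw [← Fin.sum_univ_eq_sum_range (fun i => i) (n + 1)] at this
      have h7 : (((∑ i : Fin (n + 1), (i : ℕ)) * 2 : ℕ) : ℝ) = (((n + 1) * (n + 1 - 1) : ℕ) : ℝ) := by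
        rw [this]
      push_cast at h7
      simpa using h7
    simp only [sum_const, card_univ, Fintype.card_fin, nsmul_eq_mul, rk]
    push_cast
    nlinarith
  rw [← h4, h2, h3]
  have h5 : ∑ i : Fin n, (if (x.1 i.castSucc : ℕ) < x.1 i.succ then
      wt (n + 1) (x.1 i.castSucc + i + 1) else 0) - ∑ i : Fin n,
        (if (x.1 i.castSucc : ℕ) < x.1 i.succ then wt (n + 1) (x.1 i.succ + i + 1) else 0) =
      ∑ i : Fin n, wt (n + 1) (x.1 i.castSucc + i + 1) -
        ∑ i : Fin n, wt (n + 1) (x.1 i.succ + i + 1) := by
    rw [← sum_sub_distrib, ← sum_sub_distrib]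
    exact sum_congr rfl fun i _ => h1 i
  linarith

theorem flowData (n : ℕ) : FlowData (L (n + 1)) rk ((n + 1) * (n + 1)) W where
  nonneg := W_nonneg
  rank x y h := by
    obtain ⟨i, hi⟩ := exists_step h
    exact hi.rk
  rank_le x := by
    unfold rk
    calc ∑ i, (x.1 i : ℕ) ≤ ∑ _i : Fin (n + 1), (n + 1) :=
          sum_le_sum fun i _ => Nat.lt_succ_iff.1 (x.1 i).isLt
      _ = _ := by simp
  bal x := bal x

end Q158.Box
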