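import Pool.Agent.Q158.Box

set_option autoImplicit false

namespace Q158.Box

open Finset Q158.Flow

theorem sum_le_of_fin {n : ℕ} (f : Fin n → ℝ) (c : ℝ) (h : ∀ i, f i ≤ c) : ∑ i, f i ≤ n * c := by
  calc ∑ i, f i ≤ ∑ _i : Fin n, c := sum_le_sum fun i _ => h i
    _ = n * c := by simp

theorem up_le {n : ℕ} (x : L (n + 1)) : up W x ≤ ((n + 1 : ℕ) : ℝ) ^ 3 := by
  rw [up_eq]
  have h1 := sum_le_of_fin (fun i : Fin n => (if (x.1 i.castSucc : ℕ) < x.1 i.succ then
      wt (n + 1) (x.1 i.castSucc + i + 1) else 0)) (((n + 1 : ℕ) : ℝ) ^ 2) (fun i => by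
        split_ifs
        · exact wt_le _ _
        · positivity)
  have h2 := wt_le (n + 1) (x.1 (Fin.last n) + n + 1)
  push_cast at *
  nlinarith

theorem dn_le {n : ℕ} (x : L (n + 1)) : dn W x ≤ ((n + 1 : ℕ) : ℝ) ^ 3 := by
  rw [dn_eq]
  have h1 := sum_le_of_fin (fun i : Fin n => (if (x.1 i.castSucc : ℕ) < x.1 i.succ then
      wt (n + 1) (x.1 i.succ + i + 1) else 0)) (((n + 1 : ℕ) : ℝ) ^ 2) (fun i => by
        split_ifs
        · exact wt_le _ _
        · positivity)
  have h2 := wt_le (n + 1) (x.1 0)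
  push_cast at *
  nlinarith

theorem thr_le {n : ℕ} (x : L (n + 1)) : thr W x ≤ ((n + 1 : ℕ) : ℝ) ^ 3 :=
  max_le (up_le x) (dn_le x)

/-- Raising one entry changes the outflow by a bounded amount. -/
theorem up_lip {n : ℕ} {i : Fin (n + 1)} {z y : L (n + 1)} (h : Step i z y) :
    up W y ≤ up W z + 2 * ((n + 1 : ℕ) : ℝ) ^ 2 := by
  classical
  set K : ℝ := ((n + 1 : ℕ) : ℝ) ^ 2 with hK
  have hK0 : 0 ≤ K := by positivity
  have hw : ∀ a, wt (n + 1) a ≤ K := fun a => wt_le _ _
  rw [up_eq, up_eq]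
  have h1 : ∀ j : Fin n, (if (y.1 j.castSucc : ℕ) < y.1 j.succ then
      wt (n + 1) (y.1 j.castSucc + j + 1) else 0) ≤
      (if (z.1 j.castSucc : ℕ) < z.1 j.succ then wt (n + 1) (z.1 j.castSucc + j + 1) else 0) +
        ((if i = j.castSucc then K else 0) + (if i = j.succ then K else 0)) := by
    intro j
    have hz0 : 0 ≤ (if (z.1 j.castSucc : ℕ) < z.1 j.succ then
        wt (n + 1) (z.1 j.castSucc + j + 1) else 0) := by
      split_ifs
      · have := pos_le z j.castSucc
        exact wt_nonneg (by simpa using this)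
      · exact le_rfl
    have hy1 : (if (y.1 j.castSucc : ℕ) < y.1 j.succ then
        wt (n + 1) (y.1 j.castSucc + j + 1) else 0) ≤ K := by
      split_ifs
      · exact hw _
      · exact hK0
    by_cases h2 : i = j.castSucc
    · rw [if_pos h2]
      have : 0 ≤ (if i = j.succ then K else 0) := by split_ifs <;> simp [hK0]
      linarith
    · by_cases h3 : i = j.succ
      · rw [if_pos h3, if_neg h2]
        linarith
      · rw [if_neg h2, if_neg h3, h.2 j.castSucc (Ne.symm h2), h.2 j.succ (Ne.symm h3)]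
        linarith
  have h2 : wt (n + 1) (y.1 (Fin.last n) + n + 1) ≤ wt (n + 1) (z.1 (Fin.last n) + n + 1) +
      (if i = Fin.last n then K else 0) := by
    by_cases h3 : i = Fin.last n
    · rw [if_pos h3]
      have h4 := hw (y.1 (Fin.last n) + n + 1)
      have h5 : 0 ≤ wt (n + 1) (z.1 (Fin.last n) + n + 1) := by
        have := pos_le z (Fin.last n)
        exact wt_nonneg (by simpa using this)
      linarith
    · rw [if_neg h3, h.2 _ (Ne.symm h3)]
      linarith
  have h3 := sum_le_sum fun j (_ : j ∈ (univ : Finset (Fin n))) => h1 j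
  rw [sum_add_distrib, sum_add_distrib] at h3
  have h4 : ∑ j : Fin n, (if i = j.castSucc then K else 0) + (if i = Fin.last n then K else 0) =
      K := by
    rw [← Fin.sum_univ_castSucc (fun j => if i = j then K else 0)]
    simp
  have h5 : ∑ j : Fin n, (if i = j.succ then K else 0) ≤ K := by
    have h6 := Fin.sum_univ_succ (fun j : Fin (n + 1) => if i = j then K else 0)
    have h7 : 0 ≤ (if i = 0 then K else 0) := by split_ifs <;> simp [hK0]
    have h8 : ∑ j : Fin (n + 1), (if i = j then K else 0) = K := by simp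
    rw [h8] at h6
    linarith
  linarith

/-- The two step kernel bound. -/
theorem two_step {n : ℕ} (c : ℝ) (hc : 0 < c) (y : L (n + 1))
    (hy : c * ((n + 1 : ℕ) : ℝ) ^ 3 + 4 * ((n + 1 : ℕ) : ℝ) ^ 2 ≤ up W y) (z : L (n + 1)) :
    ∑ z', ker W z z' * ker W z' y ≤ 2 / (c ^ 2 * ((n + 1 : ℕ) : ℝ) ^ 2) := by
  classical
  set K : ℝ := ((n + 1 : ℕ) : ℝ) with hK
  have hK0 : 0 < K := by positivity
  let Z : Finset (L (n + 1)) := univ.filter fun z' => W z z' ≠ 0 ∧ W z' y ≠ 0
  have hsum : ∑ z', ker W z z' * ker W z' y = ∑ z' ∈ Z, ker W z z' * ker W z' y := by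
    refine (sum_subset (subset_univ Z) fun z' _ hz' => ?_).symm
    simp only [Z, mem_filter, mem_univ, true_and, not_and_or, not_not] at hz'
    rcases hz' with h | h
    · simp [ker, h]
    · simp [ker, h]
  have hterm : ∀ z' ∈ Z, ker W z z' * ker W z' y ≤ 1 / (c ^ 2 * K ^ 2) := by
    intro z' hz'
    simp only [Z, mem_filter, mem_univ, true_and] at hz'
    obtain ⟨i, hi⟩ := exists_step hz'.1
    obtain ⟨j, hj⟩ := exists_step hz'.2
    have h1 := up_lip hj
    have h2 := up_lip hi
    have h3 : c * K ^ 3 ≤ up W z' := by nlinarith [sq_nonneg K]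
    have h4 : c * K ^ 3 ≤ up W z := by linarith
    have h5 : c * K ^ 3 ≤ thr W z' := h3.trans (le_max_left _ _)
    have h6 : c * K ^ 3 ≤ thr W z := h4.trans (le_max_left _ _)
    have hpos : 0 < c * K ^ 3 := by positivity
    have h7 : ker W z z' ≤ 1 / (c * K) := by
      calc ker W z z' ≤ K ^ 2 / (c * K ^ 3) :=
            div_le_div₀ (by positivity) (W_le z z') hpos h6
        _ = 1 / (c * K) := by field_simp
    have h8 : ker W z' y ≤ 1 / (c * K) := by
      calc ker W z' y ≤ K ^ 2 / (c * K ^ 3) :=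
            div_le_div₀ (by positivity) (W_le z' y) hpos h5
        _ = 1 / (c * K) := by field_simp
    have h9 : 0 ≤ ker W z' y := ker_nonneg (flowData n) _ _
    calc ker W z z' * ker W z' y ≤ 1 / (c * K) * (1 / (c * K)) :=
          mul_le_mul h7 h8 h9 (by positivity)
      _ = 1 / (c ^ 2 * K ^ 2) := by field_simp
  have hcard : Z.card ≤ 2 := by
    by_contra hcon
    push Not at hcon
    obtain ⟨z1, h1, z2, h2, z3, h3, h12, h13, h23⟩ := two_lt_card.1 hcon
    simp only [Z, mem_filter, mem_univ, true_and] at h1 h2 h3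
    obtain ⟨i1, hi1⟩ := exists_step h1.1
    obtain ⟨j1, hj1⟩ := exists_step h1.2
    obtain ⟨i2, hi2⟩ := exists_step h2.1
    obtain ⟨j2, hj2⟩ := exists_step h2.2
    obtain ⟨i3, hi3⟩ := exists_step h3.1
    obtain ⟨j3, hj3⟩ := exists_step h3.2
    have hdet : ∀ (a b : L (n + 1)) (i : Fin (n + 1)), Step i z a → Step i z b → a = b := by
      intro a b i ha hb
      refine Subtype.ext (funext fun j => ?_)
      by_cases hj : j = i
      · subst hj
        refine Fin.ext ?_
        rw [ha.1, hb.1]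
      · rw [ha.2 j hj, hb.2 j hj]
    have hi12 : i1 ≠ i2 := fun h => h12 (hdet _ _ _ hi1 (h ▸ hi2))
    have hi13 : i1 ≠ i3 := fun h => h13 (hdet _ _ _ hi1 (h ▸ hi3))
    have hi23 : i2 ≠ i3 := fun h => h23 (hdet _ _ _ hi2 (h ▸ hi3))
    -- `i2` and `i3` are raised between `z` and `y`, hence both equal to `j1`
    have hmem : ∀ (a : L (n + 1)) (i j : Fin (n + 1)), Step i z a → Step j a y →
        i1 ≠ i → i = j1 := by
      intro a i j ha hb hne
      by_contra hne2
      have e1 : (y.1 i : ℕ) = z.1 i := by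
        rw [hj1.2 i hne2, hi1.2 i (Ne.symm hne)]
      have e2 := ha.1
      have e3 : a.1 i ≤ y.1 i := hb.lt.le i
      rw [Fin.le_def] at e3
      omega
    have e2 := hmem _ _ _ hi2 hj2 hi12
    have e3 := hmem _ _ _ hi3 hj3 hi13
    exact hi23 (e2.trans e3.symm)
  rw [hsum]
  calc ∑ z' ∈ Z, ker W z z' * ker W z' y ≤ ∑ _z' ∈ Z, 1 / (c ^ 2 * K ^ 2) := sum_le_sum hterm
    _ = Z.card * (1 / (c ^ 2 * K ^ 2)) := by rw [sum_const, nsmul_eq_mul]
    _ ≤ 2 * (1 / (c ^ 2 * K ^ 2)) :=
        mul_le_mul_of_nonneg_right (by exact_mod_cast hcard) (by positivity)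
    _ = 2 / (c ^ 2 * K ^ 2) := by ring

/-- The second moment identity. -/
theorem second_moment (n : ℕ) : ∑ x : L (n + 1), (up W x - dn W x) ^ 2 =
    2 * ∑ x : L (n + 1), up W x := by
  have hb := fun x : L (n + 1) => bal x
  have h1 : ∀ x y : L (n + 1), W x y * (up W x - dn W x) - W x y * (up W y - dn W y) =
      2 * W x y := by
    intro x y
    by_cases h0 : W x y = 0
    · simp [h0]
    · obtain ⟨i, hi⟩ := exists_step h0
      have := hi.rk
      rw [hb x, hb y, this]
      push_cast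
      ring
  have h2 : ∑ x : L (n + 1), (up W x - dn W x) ^ 2 =
      ∑ x : L (n + 1), ∑ y, (W x y * (up W x - dn W x) - W x y * (up W y - dn W y)) := by
    simp only [sum_sub_distrib]
    have e1 : ∑ x : L (n + 1), ∑ y, W x y * (up W y - dn W y) =
        ∑ y : L (n + 1), dn W y * (up W y - dn W y) := by
      rw [sum_comm]
      exact sum_congr rfl fun y _ => by rw [dn, sum_mul]
    have e2 : ∑ x : L (n + 1), ∑ y, W x y * (up W x - dn W x) =
        ∑ x : L (n + 1), up W x * (up W x - dn W x) :=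
      sum_congr rfl fun x _ => by rw [up, sum_mul]
    rw [e1, e2, ← sum_sub_distrib]
    exact sum_congr rfl fun x _ => by ring
  rw [h2, mul_sum]
  refine sum_congr rfl fun x _ => ?_
  rw [sum_congr rfl fun y _ => h1 x y, ← mul_sum, up]

theorem src_sum_le (n : ℕ) (t : ℝ) (ht : 0 < t) : ∑ x : L (n + 1), src W x ≤
    (((n + 1 : ℕ) : ℝ) ^ 3 / t + t / 2) * Fintype.card (L (n + 1)) := by
  have h1 : ∀ x : L (n + 1), src W x ≤ (up W x - dn W x) ^ 2 / (2 * t) + t / 2 := by
    intro x
    have h2 : src W x ≤ |up W x - dn W x| := by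
      unfold src thr
      rcases le_total (up W x) (dn W x) with h | h
      · rw [max_eq_right h, sub_self]; positivity
      · rw [max_eq_left h]; exact le_abs_self _
    refine h2.trans ?_
    rw [div_add_div _ _ (by positivity) (by positivity), le_div_iff₀ (by positivity)]
    nlinarith [sq_nonneg (|up W x - dn W x| - t), sq_abs (up W x - dn W x)]
  calc ∑ x : L (n + 1), src W x ≤ ∑ x : L (n + 1), ((up W x - dn W x) ^ 2 / (2 * t) + t / 2) :=
        sum_le_sum fun x _ => h1 x
    _ = (2 * ∑ x : L (n + 1), up W x) / (2 * t) + t / 2 * Fintype.card (L (n + 1)) := by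
        rw [sum_add_distrib, ← sum_div, second_moment]
        simp [mul_comm]
    _ ≤ (2 * (((n + 1 : ℕ) : ℝ) ^ 3 * Fintype.card (L (n + 1)))) / (2 * t) +
        t / 2 * Fintype.card (L (n + 1)) := by
        have : ∑ x : L (n + 1), up W x ≤ ((n + 1 : ℕ) : ℝ) ^ 3 * Fintype.card (L (n + 1)) := by
          calc ∑ x : L (n + 1), up W x ≤ ∑ _x : L (n + 1), ((n + 1 : ℕ) : ℝ) ^ 3 :=
                sum_le_sum fun x _ => up_le x
            _ = _ := by simp [mul_comm]
        gcongr
    _ = _ := by field_simp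

end Q158.Box
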