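import Pool.Agent.Q158.BoxB

set_option autoImplicit false

namespace Q158.Box

open Finset Q158.Flow

/-- The positions of the entries, a `k`-subset of `{1, …, 2k}`. -/
def pos {k : ℕ} (x : L k) (i : Fin k) : ℕ := (x.1 i : ℕ) + i + 1

def S {k : ℕ} (x : L k) : Finset ℕ := univ.image (pos x)

theorem pos_strictMono {k : ℕ} (x : L k) : StrictMono (pos x) := by
  intro i j hij
  have h := x.2 hij.le
  rw [Fin.le_def] at h
  rw [Fin.lt_def] at hij
  unfold pos
  omega

theorem mem_S {k : ℕ} (x : L k) (a : ℕ) : a ∈ S x ↔ ∃ i, pos x i = a := by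
  simp [S]

theorem S_inj {k : ℕ} : Function.Injective (S (k := k)) := by
  intro x y h
  have h1 : Set.range (pos x) = Set.range (pos y) := by
    ext a
    rw [Set.mem_range, Set.mem_range, ← mem_S, ← mem_S, h]
  have h2 := (StrictMono.range_inj (pos_strictMono x) (pos_strictMono y)).1 h1
  refine Subtype.ext (funext fun i => Fin.ext ?_)
  have := congrFun h2 i
  unfold pos at this
  omega

theorem S_card {k : ℕ} (x : L k) : (S x).card = k := by
  rw [S, card_image_of_injective _ (pos_strictMono x).injective, card_univ, Fintype.card_fin]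

theorem S_range {k : ℕ} (x : L k) {a : ℕ} (h : a ∈ S x) : 1 ≤ a ∧ a ≤ 2 * k := by
  obtain ⟨i, rfl⟩ := (mem_S x a).1 h
  have := pos_le x i
  unfold pos
  omega

theorem card_L (k : ℕ) : Fintype.card (L k) ≤ (2 * k).choose k := by
  have h : (univ : Finset (L k)).card ≤ ((Icc 1 (2 * k)).powersetCard k).card := by
    refine card_le_card_of_injOn S (fun x _ => ?_) (fun x _ y _ h => S_inj h)
    rw [Finset.mem_coe, mem_powersetCard]
    refine ⟨fun a ha => ?_, S_card x⟩
    have := S_range x ha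
    exact mem_Icc.2 this
  simpa using h

theorem up_eq' {n : ℕ} (x : L (n + 1)) : up W x =
    ∑ a ∈ (S x).filter (fun a => a + 1 ∉ S x), wt (n + 1) a := by
  classical
  rw [sum_filter]
  have h0 : ∑ a ∈ S x, (if a + 1 ∉ S x then wt (n + 1) a else 0) =
      ∑ i, (if pos x i + 1 ∉ S x then wt (n + 1) (pos x i) else 0) := by
    rw [S, sum_image fun a _ b _ h => (pos_strictMono x).injective h]
  rw [h0, Fin.sum_univ_castSucc, up_eq]
  congr 1
  · refine sum_congr rfl fun j _ => ?_
    have h1 : (pos x j.castSucc + 1 ∉ S x) ↔ (x.1 j.castSucc : ℕ) < x.1 j.succ := by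
      have hle := x.2 (show j.castSucc ≤ j.succ from by rw [Fin.le_def]; simp)
      rw [Fin.le_def] at hle
      rw [mem_S]
      constructor
      · intro h
        by_contra hlt
        refine h ⟨j.succ, ?_⟩
        unfold pos
        have : (x.1 j.succ : ℕ) = x.1 j.castSucc := by omega
        rw [this]
        simp
        omega
      · rintro hlt ⟨m, hm⟩
        unfold pos at hm
        rcases Nat.lt_or_ge (j : ℕ) m with h2 | h2
        · have h3 := x.2 (show j.succ ≤ m from by rw [Fin.le_def]; simpa using h2)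
          rw [Fin.le_def] at h3
          simp at hm
          omega
        · have h3 := x.2 (show m ≤ j.castSucc from by rw [Fin.le_def]; simpa using h2)
          rw [Fin.le_def] at h3
          simp at hm
          omega
    by_cases h2 : (x.1 j.castSucc : ℕ) < x.1 j.succ
    · rw [if_pos h2, if_pos (h1.2 h2)]
      rfl
    · rw [if_neg h2, if_neg fun h => h2 (h1.1 h)]
  · rw [if_pos]
    · rfl
    · rw [mem_S]
      rintro ⟨m, hm⟩
      have h3 := (pos_strictMono x).monotone (Fin.le_last m)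
      omega

/-- The middle pairs. -/
def mid (k p : ℕ) : Prop := k ≤ 4 * p + 2 ∧ 4 * p + 2 ≤ 3 * k

instance (k p : ℕ) : Decidable (mid k p) := inferInstanceAs (Decidable (_ ∧ _))

/-- The number of middle pairs occupied exactly at their first position. -/
def X {k : ℕ} (x : L k) : ℕ :=
  (univ.filter fun p : Fin k => mid k p ∧ 2 * (p : ℕ) + 1 ∈ S x ∧ 2 * (p : ℕ) + 2 ∉ S x).card

theorem up_ge_X {n : ℕ} (x : L (n + 1)) : ((n + 1 : ℕ) : ℝ) ^ 2 / 4 * X x ≤ up W x := by
  classical
  rw [up_eq']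
  let T := univ.filter fun p : Fin (n + 1) => mid (n + 1) p ∧ 2 * (p : ℕ) + 1 ∈ S x ∧
    2 * (p : ℕ) + 2 ∉ S x
  have h1 : (T.image fun p : Fin (n + 1) => 2 * (p : ℕ) + 1) ⊆ (S x).filter (fun a => a + 1 ∉ S x) := by
    intro a ha
    rw [mem_image] at ha
    obtain ⟨p, hp, rfl⟩ := ha
    simp only [T, mem_filter, mem_univ, true_and] at hp
    exact mem_filter.2 ⟨hp.2.1, hp.2.2⟩
  calc ((n + 1 : ℕ) : ℝ) ^ 2 / 4 * X x = ∑ _p ∈ T, ((n + 1 : ℕ) : ℝ) ^ 2 / 4 := by
        rw [sum_const, nsmul_eq_mul, mul_comm]; rfl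
    _ ≤ ∑ p ∈ T, wt (n + 1) (2 * (p : ℕ) + 1) := by
        refine sum_le_sum fun p hp => ?_
        simp only [T, mem_filter, mem_univ, true_and] at hp
        unfold mid at hp
        have e1 : ((n + 1 : ℕ) : ℝ) ≤ 4 * p + 2 := by exact_mod_cast hp.1.1
        have e2 : (4 * (p : ℝ) + 2) ≤ 3 * ((n + 1 : ℕ) : ℝ) := by exact_mod_cast hp.1.2
        unfold wt
        push_cast at *
        nlinarith
    _ = ∑ a ∈ T.image fun p : Fin (n + 1) => 2 * (p : ℕ) + 1, wt (n + 1) a := by
        rw [sum_image]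
        intro a _ b _ hab
        simp only at hab
        exact Fin.ext (by omega)
    _ ≤ _ := by
        refine sum_le_sum_of_subset_of_nonneg h1 fun a ha _ => ?_
        exact wt_nonneg (S_range x (mem_filter.1 ha).1).2

/-- The 0-1 pattern of the pairs. -/
def pat {k : ℕ} (x : L k) (p : Fin k) : Bool × Bool :=
  (decide (2 * (p : ℕ) + 1 ∈ S x), decide (2 * (p : ℕ) + 2 ∈ S x))

theorem pat_inj {k : ℕ} : Function.Injective (pat (k := k)) := by
  intro x y h
  apply S_inj
  have key : ∀ x y : L k, pat x = pat y → ∀ a ∈ S x, a ∈ S y := by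
    intro x y h a ha
    obtain ⟨h1, h2⟩ := S_range x ha
    have hp : (a - 1) / 2 < k := by omega
    have h3 := congrFun h ⟨(a - 1) / 2, hp⟩
    simp only [pat, Prod.mk.injEq, decide_eq_decide] at h3
    rcases Nat.even_or_odd a with he | ho
    · have : 2 * ((a - 1) / 2) + 2 = a := by
        obtain ⟨c, hc⟩ := he; omega
      rw [this] at h3
      exact h3.2.1 ha
    · have : 2 * ((a - 1) / 2) + 1 = a := by
        obtain ⟨c, hc⟩ := ho; omega
      rw [this] at h3
      exact h3.1.1 ha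
  ext a
  exact ⟨key x y h a, key y x h.symm a⟩

theorem card_mid (k : ℕ) : k / 2 ≤ (univ.filter fun p : Fin k => mid k p).card := by
  rcases Nat.eq_zero_or_pos k with rfl | hk
  · simp
  have h : (range (k / 2)).card ≤ (univ.filter fun p : Fin k => mid k p).card := by
    refine card_le_card_of_injOn (fun j => if h : (k + 1) / 4 + j < k then ⟨(k + 1) / 4 + j, h⟩
      else ⟨0, hk⟩) ?_ ?_
    · intro j hj
      have hj' := mem_range.1 (mem_coe.1 hj)
      have h1 : (k + 1) / 4 + j < k := by omega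
      simp only [h1, dif_pos]
      rw [mem_coe, mem_filter]
      refine ⟨mem_univ _, ?_⟩
      unfold mid
      simp only
      omega
    · intro i hi j hj hij
      have hi' := mem_range.1 (mem_coe.1 hi)
      have hj' := mem_range.1 (mem_coe.1 hj)
      have h1 : (k + 1) / 4 + i < k := by omega
      have h2 : (k + 1) / 4 + j < k := by omega
      simp only [h1, h2, dif_pos, Fin.mk.injEq] at hij
      omega
  simpa using h

/-- Few elements have few middle pairs occupied exactly at their first position. -/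
theorem card_X_le (k m : ℕ) : ((univ.filter fun x : L k => X x ≤ m).card : ℝ) ≤
    2 ^ m * (4 ^ k * (7 / 8 : ℝ) ^ (k / 2)) := by
  classical
  let g : Fin k → Bool × Bool → ℝ := fun p v => if mid k p ∧ v = (true, false) then 1 / 2 else 1
  have hg : ∀ x : L k, ∏ p, g p (pat x p) = (1 / 2 : ℝ) ^ X x := by
    intro x
    have h1 : ∀ p, g p (pat x p) = if (mid k p ∧ 2 * (p : ℕ) + 1 ∈ S x ∧ 2 * (p : ℕ) + 2 ∉ S x)
        then (1 / 2 : ℝ) else 1 := by
      intro p
      simp only [g, pat, Prod.mk.injEq, decide_eq_true_eq, decide_eq_false_iff_not]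
    rw [prod_congr rfl fun p _ => h1 p, prod_ite, prod_const, prod_const_one, mul_one]
    rfl
  have hsum : ∑ x : L k, (1 / 2 : ℝ) ^ X x ≤ 4 ^ k * (7 / 8 : ℝ) ^ (k / 2) := by
    calc ∑ x : L k, (1 / 2 : ℝ) ^ X x = ∑ x : L k, ∏ p, g p (pat x p) :=
          sum_congr rfl fun x _ => (hg x).symm
      _ = ∑ s ∈ univ.image (pat (k := k)), ∏ p, g p (s p) := by
          rw [sum_image fun a _ b _ h => pat_inj h]
      _ ≤ ∑ s : Fin k → Bool × Bool, ∏ p, g p (s p) := by
          refine sum_le_sum_of_subset_of_nonneg (subset_univ _) fun s _ _ => prod_nonneg fun p _ => ?_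
          simp only [g]
          split_ifs <;> norm_num
      _ = ∏ p, ∑ v, g p v := by
          rw [prod_univ_sum, Fintype.piFinset_univ]
      _ = ∏ p : Fin k, 4 * (if mid k p then (7 / 8 : ℝ) else 1) := by
          refine prod_congr rfl fun p _ => ?_
          by_cases hp : mid k p
          · simp only [g, hp, true_and, if_true, Fintype.sum_prod_type, Fintype.sum_bool,
              Prod.mk.injEq]
            norm_num
          · simp only [g, hp, false_and, if_false, Fintype.sum_prod_type, Fintype.sum_bool]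
            norm_num
      _ = 4 ^ k * (7 / 8 : ℝ) ^ (univ.filter fun p : Fin k => mid k p).card := by
          rw [prod_mul_distrib, prod_const, card_univ, Fintype.card_fin, prod_ite, prod_const,
            prod_const_one, mul_one]
      _ ≤ 4 ^ k * (7 / 8 : ℝ) ^ (k / 2) := by
          refine mul_le_mul_of_nonneg_left ?_ (by positivity)
          exact pow_le_pow_of_le_one (by norm_num) (by norm_num) (card_mid k)
  have h2 : ((univ.filter fun x : L k => X x ≤ m).card : ℝ) * (1 / 2 : ℝ) ^ m ≤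
      ∑ x : L k, (1 / 2 : ℝ) ^ X x := by
    calc ((univ.filter fun x : L k => X x ≤ m).card : ℝ) * (1 / 2 : ℝ) ^ m
        = ∑ _x ∈ univ.filter fun x : L k => X x ≤ m, (1 / 2 : ℝ) ^ m := by
          rw [sum_const, nsmul_eq_mul]
      _ ≤ ∑ x ∈ univ.filter fun x : L k => X x ≤ m, (1 / 2 : ℝ) ^ X x := by
          refine sum_le_sum fun x hx => ?_
          exact pow_le_pow_of_le_one (by norm_num) (by norm_num) (mem_filter.1 hx).2
      _ ≤ _ := sum_le_sum_of_subset_of_nonneg (subset_univ _) fun x _ _ => by positivity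
  have h3 := h2.trans hsum
  have h4 : (2 : ℝ) ^ m * (1 / 2) ^ m = 1 := by rw [← mul_pow]; norm_num
  calc ((univ.filter fun x : L k => X x ≤ m).card : ℝ)
      = 2 ^ m * (((univ.filter fun x : L k => X x ≤ m).card : ℝ) * (1 / 2 : ℝ) ^ m) := by
        rw [mul_comm _ ((1 / 2 : ℝ) ^ m), ← mul_assoc, h4, one_mul]
    _ ≤ _ := mul_le_mul_of_nonneg_left h3 (by positivity)

/-- The number of elements with small outflow is small. -/
theorem card_bad (n : ℕ) : ((univ.filter fun x : L (n + 1) =>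
    up W x < ((n + 1 : ℕ) : ℝ) ^ 3 / 64).card : ℝ) ≤
    (11 / 16 : ℝ) ^ ((n + 1) / 16) * 4 ^ (n + 1) := by
  have h1 : (univ.filter fun x : L (n + 1) => up W x < ((n + 1 : ℕ) : ℝ) ^ 3 / 64) ⊆
      univ.filter fun x : L (n + 1) => X x ≤ (n + 1) / 16 := by
    intro x hx
    rw [mem_filter] at hx ⊢
    refine ⟨mem_univ _, ?_⟩
    by_contra hcon
    push Not at hcon
    have h2 := up_ge_X x
    have h3 : n + 1 < 16 * X x := by omega
    have h4 : ((n + 1 : ℕ) : ℝ) ≤ 16 * X x := by exact_mod_cast h3.le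
    have h5 : 0 ≤ ((n + 1 : ℕ) : ℝ) ^ 2 := by positivity
    nlinarith [hx.2]
  have h2 : ((univ.filter fun x : L (n + 1) =>
      up W x < ((n + 1 : ℕ) : ℝ) ^ 3 / 64).card : ℝ) ≤
      ((univ.filter fun x : L (n + 1) => X x ≤ (n + 1) / 16).card : ℝ) := by
    exact_mod_cast card_le_card h1
  refine (h2.trans (card_X_le _ _)).trans ?_
  have h3 : (7 / 8 : ℝ) ^ ((n + 1) / 2) ≤ (7 / 8 : ℝ) ^ (8 * ((n + 1) / 16)) :=
    pow_le_pow_of_le_one (by norm_num) (by norm_num) (by omega)
  calc (2 : ℝ) ^ ((n + 1) / 16) * (4 ^ (n + 1) * (7 / 8 : ℝ) ^ ((n + 1) / 2))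
      ≤ (2 : ℝ) ^ ((n + 1) / 16) * (4 ^ (n + 1) * (7 / 8 : ℝ) ^ (8 * ((n + 1) / 16))) := by gcongr
    _ = (2 * (7 / 8 : ℝ) ^ 8) ^ ((n + 1) / 16) * 4 ^ (n + 1) := by
        rw [mul_pow, ← pow_mul]; ring
    _ ≤ (11 / 16 : ℝ) ^ ((n + 1) / 16) * 4 ^ (n + 1) := by
        gcongr
        norm_num

/-- For large `k` the bad set is negligible. -/
theorem exists_k0 (ε : ℝ) (hε : 0 < ε) : ∃ k₀ : ℕ, ∀ k ≥ k₀,
    (k : ℝ) ^ 3 * (11 / 16 : ℝ) ^ (k / 16) ≤ ε := by
  have h := tendsto_pow_const_mul_const_pow_of_abs_lt_one 3 (r := (11 / 16 : ℝ))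
    (by rw [abs_of_pos] <;> norm_num)
  have h2 : ∀ᶠ n : ℕ in Filter.atTop, (n : ℝ) ^ 3 * (11 / 16 : ℝ) ^ n < ε / 32768 :=
    h.eventually_lt_const (by positivity)
  obtain ⟨n0, hn0⟩ := Filter.eventually_atTop.1 h2
  refine ⟨16 * (n0 + 1), fun k hk => ?_⟩
  have h3 : n0 ≤ k / 16 := by omega
  have h4 : 1 ≤ k / 16 := by omega
  have h5 := hn0 _ h3
  have h6 : (k : ℝ) ≤ 32 * ((k / 16 : ℕ) : ℝ) := by
    have : k ≤ 32 * (k / 16) := by omega
    exact_mod_cast this
  calc (k : ℝ) ^ 3 * (11 / 16 : ℝ) ^ (k / 16)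
      ≤ (32 * ((k / 16 : ℕ) : ℝ)) ^ 3 * (11 / 16 : ℝ) ^ (k / 16) := by gcongr
    _ = 32768 * (((k / 16 : ℕ) : ℝ) ^ 3 * (11 / 16 : ℝ) ^ (k / 16)) := by ring
    _ ≤ 32768 * (ε / 32768) := by gcongr
    _ = ε := by ring

end Q158.Box
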