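import Pool.Agent.Q158.BoxC

set_option autoImplicit false

namespace Q158.Box

open Finset Q158.Flow

theorem compPairs_mono {k : ℕ} {U V : Finset (L k)} (h : V ⊆ U) : compPairs V ≤ compPairs U := by
  classical
  unfold compPairs
  exact card_le_card (filter_subset_filter _ (product_subset_product h h))

/-- Supersaturation of comparable pairs in `L(k,k)`. -/
theorem supersaturation : ∃ c₁ c₂ : ℝ, 0 < c₁ ∧ 0 < c₂ ∧ ∃ k₀ : ℕ, ∀ k ≥ k₀,
    ∀ U : Finset (L k), c₁ * (k : ℝ) ^ (-(3 / 2) : ℝ) * ((2 * k).choose k : ℝ) ≤ U.card →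
      c₂ * (k : ℝ) ^ 2 * U.card ≤ compPairs U := by
  classical
  obtain ⟨k1, hk1⟩ := exists_k0 384 (by norm_num)
  refine ⟨1536, 1 / 4000000, by norm_num, by norm_num, max k1 512, fun k hk U hU => ?_⟩
  have hk1' := hk1 k ((le_max_left _ _).trans hk)
  have hk2 : 512 ≤ k := (le_max_right _ _).trans hk
  obtain ⟨n, rfl⟩ : ∃ n, k = n + 1 := ⟨k - 1, by omega⟩
  set K : ℝ := ((n + 1 : ℕ) : ℝ) with hK
  have hK512 : 512 ≤ K := by rw [hK]; exact_mod_cast hk2
  have hK0 : 0 < K := by linarith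
  set C : ℝ := ((2 * (n + 1)).choose (n + 1) : ℝ) with hC
  have hC0 : 0 < C := by
    rw [hC]; exact_mod_cast Nat.choose_pos (by omega)
  set κ : ℝ := K ^ (3 / 2 : ℝ) with hκ
  have hκ0 : 0 < κ := Real.rpow_pos_of_pos hK0 _
  have hκκ : κ * κ = K ^ 3 := by
    rw [hκ, ← Real.rpow_add hK0]
    norm_num
  have hκinv : K ^ (-(3 / 2) : ℝ) = κ⁻¹ := by rw [Real.rpow_neg hK0.le]
  have hκle : κ ≤ K ^ 2 := by
    rw [hκ, ← Real.rpow_natCast K 2]
    exact Real.rpow_le_rpow_of_exponent_le (by linarith) (by norm_num)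
  rw [hκinv] at hU
  have hfour : (4 : ℝ) ^ (n + 1) ≤ 2 * K * C := by
    have := Nat.four_pow_le_two_mul_self_mul_centralBinom (n + 1) (by omega)
    rw [Nat.centralBinom_eq_two_mul_choose] at this
    rw [hK, hC]
    exact_mod_cast this
  -- the good part of `U`
  let V : Finset (L (n + 1)) := U.filter fun x => ¬ up W x < K ^ 3 / 64
  have hVcard : (U.card : ℝ) ≤ V.card + (11 / 16 : ℝ) ^ ((n + 1) / 16) * 4 ^ (n + 1) := by
    have h1 := card_bad n
    have h2 : (U.filter fun x => up W x < K ^ 3 / 64).card ≤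
        (univ.filter fun x : L (n + 1) => up W x < K ^ 3 / 64).card :=
      card_le_card (filter_subset_filter _ (subset_univ U))
    have h3 := card_filter_add_card_filter_not (s := U) (fun x => up W x < K ^ 3 / 64)
    have h4 : (U.card : ℝ) = (U.filter fun x => up W x < K ^ 3 / 64).card + V.card := by
      rw [← h3]; push_cast; rfl
    have h5 : ((U.filter fun x => up W x < K ^ 3 / 64).card : ℝ) ≤
        ((univ.filter fun x : L (n + 1) => up W x < K ^ 3 / 64).card : ℝ) := by exact_mod_cast h2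
    linarith
  have hbad : (11 / 16 : ℝ) ^ ((n + 1) / 16) * 4 ^ (n + 1) ≤ 768 * κ⁻¹ * C := by
    have h1 : (11 / 16 : ℝ) ^ ((n + 1) / 16) * 4 ^ (n + 1) ≤
        (11 / 16 : ℝ) ^ ((n + 1) / 16) * (2 * K * C) := by gcongr
    refine h1.trans ?_
    have h2 : (11 / 16 : ℝ) ^ ((n + 1) / 16) * (2 * K) * κ ≤ 768 := by
      calc (11 / 16 : ℝ) ^ ((n + 1) / 16) * (2 * K) * κ
          ≤ (11 / 16 : ℝ) ^ ((n + 1) / 16) * (2 * K) * K ^ 2 := by gcongr
        _ = 2 * (K ^ 3 * (11 / 16 : ℝ) ^ ((n + 1) / 16)) := by ring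
        _ ≤ 2 * 384 := by gcongr
        _ = 768 := by norm_num
    have h3 : (11 / 16 : ℝ) ^ ((n + 1) / 16) * (2 * K) ≤ 768 * κ⁻¹ := by
      rw [← div_eq_mul_inv, le_div_iff₀ hκ0]
      exact h2
    calc (11 / 16 : ℝ) ^ ((n + 1) / 16) * (2 * K * C)
        = ((11 / 16 : ℝ) ^ ((n + 1) / 16) * (2 * K)) * C := by ring
      _ ≤ 768 * κ⁻¹ * C := by gcongr
  have hV1 : (U.card : ℝ) / 2 ≤ V.card := by linarith
  have hV2 : 768 * κ⁻¹ * C ≤ V.card := by linarith
  have hthr : ∀ x ∈ V, K ^ 3 / 64 ≤ thr W x := fun x hx =>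
    (not_lt.1 (mem_filter.1 hx).2).trans (le_max_left _ _)
  have hQ1 : V.card * (K ^ 3 / 64) ≤ ∑ x ∈ V, thr W x := by
    rw [← nsmul_eq_mul]
    exact card_nsmul_le_sum V _ _ hthr
  have hQ : 8 * ∑ x : L (n + 1), src W x ≤ ∑ x ∈ V, thr W x := by
    have h1 := src_sum_le n κ hκ0
    have h2 : (Fintype.card (L (n + 1)) : ℝ) ≤ C := by
      rw [hC]; exact_mod_cast card_L (n + 1)
    have h3 : K ^ 3 / κ = κ := by rw [← hκκ]; field_simp
    rw [← hK, h3] at h1
    have h4 : ∑ x : L (n + 1), src W x ≤ 3 / 2 * κ * C := by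
      refine h1.trans ?_
      have : κ + κ / 2 = 3 / 2 * κ := by ring
      rw [this]
      gcongr
    have h5 : 12 * κ * C ≤ V.card * (K ^ 3 / 64) := by
      calc 12 * κ * C = 768 * κ⁻¹ * C * ((κ * κ) / 64) := by field_simp; norm_num
        _ = 768 * κ⁻¹ * C * (K ^ 3 / 64) := by rw [hκκ]
        _ ≤ _ := by gcongr
    linarith
  have hmain := supersat (flowData n) (fun x y h => (exists_step h).choose_spec.lt) V
    (2 / ((1 / 128 : ℝ) ^ 2 * K ^ 2)) (K ^ 3) (by positivity)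
    (fun y hy z => two_step (1 / 128) (by norm_num) y (by
      have h1 := not_lt.1 (mem_filter.1 hy).2
      have h0 : 0 ≤ K ^ 2 * (K - 512) := mul_nonneg (sq_nonneg K) (by linarith)
      rw [← hK]
      linarith) z)
    (fun x _ => thr_le x) hQ
  have h1 : (3 / 2 : ℝ) * (V.card * (K ^ 3 / 64)) ≤
      K ^ 3 * (2 / ((1 / 128 : ℝ) ^ 2 * K ^ 2)) * compPairs V := by
    refine le_trans ?_ (hmain.trans (le_of_eq ?_))
    · gcongr
    · unfold compPairs
      congr!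
  have h2 : K ^ 3 * (2 / ((1 / 128 : ℝ) ^ 2 * K ^ 2)) = 32768 * K := by
    field_simp; norm_num
  rw [h2] at h1
  have h3 : (compPairs V : ℝ) ≤ compPairs U := by
    exact_mod_cast compPairs_mono (filter_subset _ U)
  have h4 : (3 / 2 : ℝ) * (V.card * (K ^ 2 / 64)) ≤ 32768 * compPairs V := by
    have h5 : K * ((3 / 2 : ℝ) * (V.card * (K ^ 2 / 64))) ≤ K * (32768 * compPairs V) := by
      calc K * ((3 / 2 : ℝ) * (V.card * (K ^ 2 / 64)))
          = (3 / 2 : ℝ) * (V.card * (K ^ 3 / 64)) := by ring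
        _ ≤ 32768 * K * compPairs V := h1
        _ = _ := by ring
    exact le_of_mul_le_mul_left h5 hK0
  have h5 : K ^ 2 * ((U.card : ℝ) / 2) ≤ K ^ 2 * V.card := by gcongr
  have h6 : 0 ≤ K ^ 2 * (U.card : ℝ) := mul_nonneg (sq_nonneg K) (Nat.cast_nonneg _)
  linarith

end Q158.Box
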