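import Mathlib

set_option autoImplicit false

namespace Q158.Box

/-- `L(k,k)`: the weakly increasing sequences `0 ≤ x_1 ≤ ⋯ ≤ x_k ≤ k`, ordered componentwise. -/
abbrev L (k : ℕ) : Type := {x : Fin k → Fin (k + 1) // Monotone x}

open Classical in
/-- The number of unordered comparable pairs of distinct elements of `U`: each such pair is
counted once, smaller element first. -/
noncomputable def compPairs {k : ℕ} (U : Finset (L k)) : ℕ :=
  ((U ×ˢ U).filter fun q => q.1 < q.2).card

end Q158.Box
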