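import Pool.Agent.Q158.BoxD

set_option autoImplicit false

namespace Q158.Box

open Finset Q158.Flow

/-! ### The size of `L(k,k)` -/

theorem card_L_ge (k : ℕ) : (2 * k).choose k ≤ Fintype.card (L k) := by
  classical
  have h : ((Icc 1 (2 * k)).powersetCard k).card ≤ (univ : Finset (L k)).card := by
    have hsurj : (Icc 1 (2 * k)).powersetCard k ⊆ (univ : Finset (L k)).image S := by
      intro T hT
      rw [mem_powersetCard] at hT
      obtain ⟨hT1, hT2⟩ := hT
      let t : Fin k ↪o ℕ := T.orderEmbOfFin hT2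
      have ht : ∀ i, 1 ≤ t i ∧ t i ≤ 2 * k := fun i =>
        mem_Icc.1 (hT1 (T.orderEmbOfFin_mem hT2 i))
      have hlow : ∀ i : Fin k, (i : ℕ) + 1 ≤ t i := by
        rintro ⟨i, hi⟩
        induction i with
        | zero => exact (ht _).1
        | succ i ih =>
          have h1 := ih (by omega)
          have h2 : t ⟨i, by omega⟩ < t ⟨i + 1, hi⟩ := t.lt_iff_lt.2 (by simp)
          simp only at h1 ⊢
          omega
      have hup : ∀ j : ℕ, ∀ hj : j < k, t ⟨k - 1 - j, by omega⟩ + j ≤ 2 * k := by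
        intro j
        induction j with
        | zero => intro hj; exact (ht _).2
        | succ j ih =>
          intro hj
          have h1 := ih (by omega)
          have h2 : t ⟨k - 1 - (j + 1), by omega⟩ < t ⟨k - 1 - j, by omega⟩ :=
            t.lt_iff_lt.2 (by rw [Fin.mk_lt_mk]; omega)
          omega
      have hup' : ∀ i : Fin k, t i ≤ k + i + 1 := by
        intro i
        have h1 := hup (k - 1 - i) (by omega)
        have h2 : (⟨k - 1 - (k - 1 - (i : ℕ)), by omega⟩ : Fin k) = i := by
          ext; simp only; omega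
        rw [h2] at h1
        omega
      have hgap : ∀ i j : Fin k, i ≤ j → t i + (j - i : ℕ) ≤ t j := by
        rintro ⟨i, hi⟩ ⟨j, hj⟩ hij
        rw [Fin.mk_le_mk] at hij
        induction j, hij using Nat.le_induction with
        | base => simp
        | succ j hij ih =>
          have h1 := ih (by omega)
          have h2 : t ⟨j, by omega⟩ < t ⟨j + 1, hj⟩ := t.lt_iff_lt.2 (by simp)
          simp only at h1 ⊢
          omega
      let x : L k := ⟨fun i => ⟨t i - i - 1, by have := hup' i; omega⟩, by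
        intro i j hij
        rw [Fin.le_def]
        simp only
        have h1 := hgap i j hij
        have h2 := hlow i
        rw [Fin.le_def] at hij
        omega⟩
      refine mem_image.2 ⟨x, mem_univ _, ?_⟩
      ext a
      rw [mem_S]
      have hpos : ∀ i, pos x i = t i := by
        intro i
        have := hlow i
        simp only [pos, x]
        omega
      simp only [hpos]
      constructor
      · rintro ⟨i, rfl⟩
        exact T.orderEmbOfFin_mem hT2 i
      · intro ha
        have : a ∈ Set.range (T.orderEmbOfFin hT2) := by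
          rw [range_orderEmbOfFin]; exact ha
        exact this
    exact (card_le_card hsurj).trans card_image_le
  simpa using h

theorem card_L_eq (k : ℕ) : Fintype.card (L k) = (2 * k).choose k :=
  le_antisymm (card_L k) (card_L_ge k)

/-! ### Level sums -/

/-- The total outflow of a level. -/
noncomputable def Phi (n r : ℕ) : ℝ := ∑ x ∈ univ.filter fun x : L (n + 1) => rk x = r, up W x

theorem level_dn (n r : ℕ) :
    ∑ x ∈ univ.filter fun x : L (n + 1) => rk x = r + 1, dn W x = Phi n r := by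
  classical
  unfold Phi
  have h1 : ∑ x ∈ univ.filter fun x : L (n + 1) => rk x = r + 1, dn W x =
      ∑ x : L (n + 1), ∑ y, if rk x = r + 1 then W y x else 0 := by
    rw [sum_filter]
    refine sum_congr rfl fun x _ => ?_
    split_ifs
    · rfl
    · simp
  have h2 : ∑ x ∈ univ.filter fun x : L (n + 1) => rk x = r, up W x =
      ∑ y : L (n + 1), ∑ x, if rk y = r then W y x else 0 := by
    rw [sum_filter]
    refine sum_congr rfl fun x _ => ?_
    split_ifs
    · rfl
    · simp
  rw [h1, h2, sum_comm]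
  refine sum_congr rfl fun y _ => sum_congr rfl fun x _ => ?_
  by_cases h0 : W y x = 0
  · simp [h0]
  · obtain ⟨i, hi⟩ := exists_step h0
    have := hi.rk
    by_cases h3 : rk y = r
    · rw [if_pos h3, if_pos (by omega)]
    · rw [if_neg h3, if_neg (by omega)]

theorem Phi_step_low (n r : ℕ) (hr : 2 * (r + 1) ≤ (n + 1) * (n + 1)) :
    Phi n r ≤ Phi n (r + 1) := by
  rw [← level_dn n r, Phi]
  refine sum_le_sum fun x hx => ?_
  have h1 := bal x
  rw [(mem_filter.1 hx).2] at h1
  have h2 : (2 : ℝ) * ((r + 1 : ℕ) : ℝ) ≤ (((n + 1) * (n + 1) : ℕ) : ℝ) := by exact_mod_cast hr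
  linarith

theorem Phi_step_high (n r : ℕ) (hr : (n + 1) * (n + 1) ≤ 2 * (r + 1)) :
    Phi n (r + 1) ≤ Phi n r := by
  rw [← level_dn n r, Phi]
  refine sum_le_sum fun x hx => ?_
  have h1 := bal x
  rw [(mem_filter.1 hx).2] at h1
  have h2 : (((n + 1) * (n + 1) : ℕ) : ℝ) ≤ (2 : ℝ) * ((r + 1 : ℕ) : ℝ) := by exact_mod_cast hr
  linarith

theorem Phi_le (n r : ℕ) : Phi n r ≤ Phi n ((n + 1) * (n + 1) / 2) := by
  set m := (n + 1) * (n + 1) / 2 with hm
  rcases Nat.le_total r m with h | h
  · obtain ⟨d, hd⟩ := Nat.exists_eq_add_of_le h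
    have key : ∀ d, d ≤ m → Phi n (m - d) ≤ Phi n m := by
      intro d
      induction d with
      | zero => intro _; exact le_rfl
      | succ d ih =>
        intro hd
        refine le_trans ?_ (ih (by omega))
        have h1 : m - d = m - (d + 1) + 1 := by omega
        rw [h1]
        refine Phi_step_low n _ ?_
        omega
    have := key d (by omega)
    rwa [show m - d = r by omega] at this
  · obtain ⟨d, hd⟩ := Nat.exists_eq_add_of_le h
    have key : ∀ d, Phi n (m + d) ≤ Phi n m := by
      intro d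
      induction d with
      | zero => exact le_rfl
      | succ d ih =>
        refine le_trans ?_ ih
        refine Phi_step_high n (m + d) ?_
        omega
    rw [hd]
    exact key d

/-- The size of the middle level. -/
def mids (k : ℕ) : ℕ := (univ.filter fun x : L k => rk x = k * k / 2).card

/-- A lower bound for the size of the middle level. -/
theorem mids_lower (n : ℕ) (t : ℝ) (ht : 0 < t) :
    ((n + 1 : ℕ) : ℝ) ^ 3 / 64 * ((Fintype.card (L (n + 1)) : ℝ) -
      2 * ((n + 1 : ℕ) : ℝ) ^ 3 / t ^ 2 * Fintype.card (L (n + 1)) -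
      (11 / 16 : ℝ) ^ ((n + 1) / 16) * 4 ^ (n + 1)) ≤
      (t + 1) * (((n + 1 : ℕ) : ℝ) ^ 3 * mids (n + 1)) := by
  classical
  set K : ℝ := ((n + 1 : ℕ) : ℝ) with hK
  set N : ℝ := (Fintype.card (L (n + 1)) : ℝ) with hN
  have hK0 : 0 < K := by positivity
  have hPhi : Phi n ((n + 1) * (n + 1) / 2) ≤ K ^ 3 * mids (n + 1) := by
    unfold Phi mids
    calc ∑ x ∈ univ.filter fun x : L (n + 1) => rk x = (n + 1) * (n + 1) / 2, up W x
        ≤ ∑ _x ∈ univ.filter fun x : L (n + 1) => rk x = (n + 1) * (n + 1) / 2, K ^ 3 :=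
          sum_le_sum fun x _ => up_le x
      _ = _ := by rw [sum_const, nsmul_eq_mul, mul_comm]
  -- the window
  let R : ℕ := (n + 1) * (n + 1)
  let Win : Finset (L (n + 1)) := univ.filter fun x => |(R : ℝ) - 2 * rk x| ≤ t
  let Far : Finset (L (n + 1)) := univ.filter fun x => ¬ |(R : ℝ) - 2 * rk x| ≤ t
  have hfar : (Far.card : ℝ) * t ^ 2 ≤ 2 * K ^ 3 * N := by
    calc (Far.card : ℝ) * t ^ 2 = ∑ _x ∈ Far, t ^ 2 := by rw [sum_const, nsmul_eq_mul]
      _ ≤ ∑ x ∈ Far, (up W x - dn W x) ^ 2 := by
          refine sum_le_sum fun x hx => ?_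
          have h1 := not_le.1 (mem_filter.1 hx).2
          rw [bal x, ← sq_abs ((((n + 1) * (n + 1) : ℕ) : ℝ) - 2 * rk x)]
          exact pow_le_pow_left₀ ht.le h1.le 2
      _ ≤ ∑ x, (up W x - dn W x) ^ 2 :=
          sum_le_sum_of_subset_of_nonneg (subset_univ _) fun x _ _ => sq_nonneg _
      _ = 2 * ∑ x : L (n + 1), up W x := second_moment n
      _ ≤ 2 * ∑ _x : L (n + 1), K ^ 3 := by
          gcongr with x
          exact up_le x
      _ = 2 * K ^ 3 * N := by rw [sum_const, nsmul_eq_mul, hN, card_univ]; ring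
  have hcardsplit : (Win.card : ℝ) + Far.card = N := by
    have := card_filter_add_card_filter_not (s := (univ : Finset (L (n + 1))))
      (fun x => |(R : ℝ) - 2 * rk x| ≤ t)
    rw [hN, ← card_univ, ← this]
    push_cast
    rfl
  have hbad := card_bad n
  let Good : Finset (L (n + 1)) := Win.filter fun x => ¬ up W x < K ^ 3 / 64
  have hgood : (Win.card : ℝ) ≤ Good.card + (11 / 16 : ℝ) ^ ((n + 1) / 16) * 4 ^ (n + 1) := by
    have h3 := card_filter_add_card_filter_not (s := Win) (fun x => up W x < K ^ 3 / 64)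
    have h4 : (Win.card : ℝ) = (Win.filter fun x => up W x < K ^ 3 / 64).card + Good.card := by
      rw [← h3]; push_cast; rfl
    have h5 : ((Win.filter fun x => up W x < K ^ 3 / 64).card : ℝ) ≤
        ((univ.filter fun x : L (n + 1) => up W x < K ^ 3 / 64).card : ℝ) := by
      exact_mod_cast card_le_card (filter_subset_filter _ (subset_univ Win))
    linarith
  -- the levels of the window
  let Lv : Finset ℕ := Win.image rk
  have hLv : (Lv.card : ℝ) ≤ t + 1 := by
    by_cases hne : Lv.Nonempty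
    · have hsub : Lv ⊆ Icc (Lv.min' hne) (Lv.max' hne) := fun r hr =>
        mem_Icc.2 ⟨Lv.min'_le r hr, Lv.le_max' r hr⟩
      have h1 := card_le_card hsub
      rw [Nat.card_Icc] at h1
      have hmem : ∀ r ∈ Lv, |(R : ℝ) - 2 * r| ≤ t := by
        intro r hr
        obtain ⟨x, hx, rfl⟩ := mem_image.1 hr
        exact (mem_filter.1 hx).2
      have h2 := hmem _ (Lv.min'_mem hne)
      have h3 := hmem _ (Lv.max'_mem hne)
      rw [abs_le] at h2 h3
      have h4 : Lv.min' hne ≤ Lv.max' hne := Lv.min'_le _ (Lv.max'_mem hne)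
      have h5 : Lv.card + Lv.min' hne ≤ Lv.max' hne + 1 := by omega
      have h6 : (Lv.card : ℝ) + (Lv.min' hne : ℕ) ≤ (Lv.max' hne : ℕ) + 1 := by exact_mod_cast h5
      linarith
    · rw [not_nonempty_iff_eq_empty.1 hne]
      simp
      linarith
  have hsum : (Good.card : ℝ) * (K ^ 3 / 64) ≤ (t + 1) * (K ^ 3 * mids (n + 1)) := by
    calc (Good.card : ℝ) * (K ^ 3 / 64) = ∑ _x ∈ Good, K ^ 3 / 64 := by
          rw [sum_const, nsmul_eq_mul]
      _ ≤ ∑ x ∈ Good, up W x := sum_le_sum fun x hx => not_lt.1 (mem_filter.1 hx).2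
      _ ≤ ∑ x ∈ Win, up W x :=
          sum_le_sum_of_subset_of_nonneg (filter_subset _ _) fun x _ _ => up_nonneg (flowData n) x
      _ = ∑ r ∈ Lv, ∑ x ∈ Win.filter fun x => rk x = r, up W x :=
          (sum_fiberwise_of_maps_to (fun x hx => mem_image_of_mem rk hx) _).symm
      _ ≤ ∑ r ∈ Lv, Phi n r := by
          refine sum_le_sum fun r _ => ?_
          unfold Phi
          exact sum_le_sum_of_subset_of_nonneg (filter_subset_filter _ (subset_univ _))
            fun x _ _ => up_nonneg (flowData n) x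
      _ ≤ ∑ _r ∈ Lv, K ^ 3 * mids (n + 1) := sum_le_sum fun r _ => (Phi_le n r).trans hPhi
      _ = Lv.card * (K ^ 3 * mids (n + 1)) := by rw [sum_const, nsmul_eq_mul]
      _ ≤ _ := by gcongr
  have hfar' : (Far.card : ℝ) ≤ 2 * K ^ 3 / t ^ 2 * N := by
    rw [div_mul_eq_mul_div, le_div_iff₀ (by positivity)]
    exact hfar
  have h7 : N - 2 * K ^ 3 / t ^ 2 * N - (11 / 16 : ℝ) ^ ((n + 1) / 16) * 4 ^ (n + 1) ≤ Good.card := by
    linarith
  calc K ^ 3 / 64 * (N - 2 * K ^ 3 / t ^ 2 * N - (11 / 16 : ℝ) ^ ((n + 1) / 16) * 4 ^ (n + 1))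
      ≤ K ^ 3 / 64 * Good.card := by gcongr
    _ = Good.card * (K ^ 3 / 64) := mul_comm _ _
    _ ≤ _ := hsum

end Q158.Box
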