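import Pool.Agent.Q158.BoxE
import Pool.Agent.Q158.AntichainDefs

set_option autoImplicit false

namespace Q158.Box

open Finset Q158.Flow

/-- Counting antichains from a degree condition. -/
theorem antichain_count {V : Type} [PartialOrder V] [DecidableEq V] [DecidableLT V]
    [DecidablePred fun s : Finset V => IsAntichain (· ≤ ·) (s : Set V)] (R0 D : ℕ) (lam : ℝ)
    (hl : 1 ≤ lam) (hD : lam ^ D + 1 ≤ lam ^ (D + 1))
    (hdeg : ∀ U : Finset V, R0 < U.card → ∃ v ∈ U, D ≤ (U.filter fun w => v < w ∨ w < v).card)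
    (m : ℕ) : ∀ U : Finset V, U.card = m →
      ((U.powerset.filter fun s : Finset V => IsAntichain (· ≤ ·) (s : Set V)).card : ℝ) ≤
        2 ^ R0 * lam ^ m := by
  induction m using Nat.strong_induction_on with
  | _ m ih =>
    intro U hU
    rcases Nat.lt_or_ge R0 m with hR | hR
    · obtain ⟨v, hv, hdv⟩ := hdeg U (by omega)
      set N := U.filter fun w => v < w ∨ w < v with hN
      have hvN : v ∉ N := by simp [hN]
      have hsub : (U.powerset.filter fun s : Finset V => IsAntichain (· ≤ ·) (s : Set V)) ⊆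
          ((U.erase v).powerset.filter fun s : Finset V => IsAntichain (· ≤ ·) (s : Set V)) ∪
          (((U \ insert v N).powerset.filter fun s : Finset V => IsAntichain (· ≤ ·) (s : Set V)).image
            (insert v)) := by
        intro s hs
        rw [mem_filter, mem_powerset] at hs
        rw [mem_union]
        by_cases hvs : v ∈ s
        · right
          refine mem_image.2 ⟨s.erase v, ?_, insert_erase hvs⟩
          rw [mem_filter, mem_powerset]
          refine ⟨fun w hw => ?_, hs.2.subset (by simp)⟩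
          have hws := mem_of_mem_erase hw
          have hwv := ne_of_mem_erase hw
          rw [mem_sdiff, mem_insert, not_or]
          refine ⟨hs.1 hws, hwv, fun hwN => ?_⟩
          rcases (mem_filter.1 hwN).2 with h | h
          · exact hs.2 (mem_coe.2 hvs) (mem_coe.2 hws) (Ne.symm hwv) h.le
          · exact hs.2 (mem_coe.2 hws) (mem_coe.2 hvs) hwv h.le
        · left
          rw [mem_filter, mem_powerset]
          exact ⟨fun w hw => mem_erase.2 ⟨fun h => hvs (h ▸ hw), hs.1 hw⟩, hs.2⟩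
      have hc1 : (U.erase v).card = m - 1 := by rw [card_erase_of_mem hv, hU]
      have hc2 : (U \ insert v N).card = m - 1 - N.card := by
        rw [card_sdiff_of_subset (insert_subset hv (filter_subset _ _)),
          card_insert_of_notMem hvN, hU]
        omega
      have hNle : N.card + 1 ≤ m := by
        rw [← card_insert_of_notMem hvN, ← hU]
        exact card_le_card (insert_subset hv (filter_subset _ _))
      have h1 := ih (m - 1) (by omega) _ hc1
      have h2 := ih (m - 1 - N.card) (by omega) _ hc2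
      have h3 : ((U.powerset.filter fun s : Finset V => IsAntichain (· ≤ ·) (s : Set V)).card : ℝ) ≤
          2 ^ R0 * lam ^ (m - 1) + 2 ^ R0 * lam ^ (m - 1 - N.card) := by
        have h4 := (card_le_card hsub).trans (card_union_le _ _)
        have h5 := h4.trans (Nat.add_le_add_left card_image_le _)
        calc ((U.powerset.filter fun s : Finset V => IsAntichain (· ≤ ·) (s : Set V)).card : ℝ)
            ≤ ((((U.erase v).powerset.filter fun s : Finset V => IsAntichain (· ≤ ·) (s : Set V)).card +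
              ((U \ insert v N).powerset.filter fun s : Finset V => IsAntichain (· ≤ ·) (s : Set V)).card
                : ℕ) : ℝ) := by exact_mod_cast h5
          _ ≤ _ := by push_cast; exact add_le_add h1 h2
      refine h3.trans ?_
      have h6 : lam ^ (m - 1 - N.card) ≤ lam ^ (m - 1 - D) :=
        pow_le_pow_right₀ hl (by omega)
      have h7 : lam ^ (m - 1) = lam ^ (m - 1 - D) * lam ^ D := by
        rw [← pow_add]; congr 1; omega
      have h8 : lam ^ m = lam ^ (m - 1 - D) * lam ^ (D + 1) := by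
        rw [← pow_add]; congr 1; omega
      calc 2 ^ R0 * lam ^ (m - 1) + 2 ^ R0 * lam ^ (m - 1 - N.card)
          ≤ 2 ^ R0 * lam ^ (m - 1) + 2 ^ R0 * lam ^ (m - 1 - D) := by gcongr
        _ = 2 ^ R0 * (lam ^ (m - 1 - D) * (lam ^ D + 1)) := by rw [h7]; ring
        _ ≤ 2 ^ R0 * (lam ^ (m - 1 - D) * lam ^ (D + 1)) := by gcongr
        _ = _ := by rw [h8]
    · have h1 : (U.powerset.filter fun s : Finset V => IsAntichain (· ≤ ·) (s : Set V)).card ≤ 2 ^ m := by
        rw [← hU, ← card_powerset]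
        exact card_filter_le _ _
      calc ((U.powerset.filter fun s : Finset V => IsAntichain (· ≤ ·) (s : Set V)).card : ℝ)
          ≤ ((2 ^ m : ℕ) : ℝ) := by exact_mod_cast h1
        _ = 2 ^ m * 1 := by push_cast; ring
        _ ≤ 2 ^ R0 * lam ^ m := by
            gcongr
            · norm_num
            · exact one_le_pow₀ hl

/-- A vertex of large degree from many comparable pairs. -/
theorem exists_degree {k : ℕ} (U : Finset (L k)) [DecidableLT (L k)] (d : ℝ) (hU : U.Nonempty)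
    (h : d * U.card ≤ compPairs U) :
    ∃ v ∈ U, d ≤ (U.filter fun w => v < w ∨ w < v).card := by
  classical
  by_contra hcon
  push Not at hcon
  have h1 : (compPairs U : ℝ) ≤ ∑ v ∈ U, ((U.filter fun w => v < w ∨ w < v).card : ℝ) := by
    have h2 : compPairs U = ∑ v ∈ U, (U.filter fun w => v < w).card := by
      unfold compPairs
      rw [card_filter, sum_product]
      refine sum_congr rfl fun v _ => ?_
      rw [card_filter]
      refine sum_congr rfl fun w _ => ?_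
      congr!
    rw [h2]
    push_cast
    refine sum_le_sum fun v _ => ?_
    exact_mod_cast card_le_card fun w hw => by
      rw [mem_filter] at hw ⊢
      exact ⟨hw.1, Or.inl hw.2⟩
  have h3 : ∑ v ∈ U, ((U.filter fun w => v < w ∨ w < v).card : ℝ) < ∑ _v ∈ U, d :=
    sum_lt_sum_of_nonempty hU fun v hv => hcon v hv
  rw [sum_const, nsmul_eq_mul] at h3
  linarith [mul_comm d (U.card : ℝ)]

open Classical in
/-- The number of antichains of `L(k,k)`. -/
noncomputable def antis (k : ℕ) : ℕ :=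
  ((univ : Finset (L k)).powerset.filter fun s : Finset (L k) => IsAntichain (· ≤ ·) (s : Set (L k))).card

theorem antis_upper : ∃ c : ℝ, 0 < c ∧ ∃ k₀ : ℕ, ∀ k ≥ k₀,
    (antis k : ℝ) ≤ (2 : ℝ) ^ (c * ((k : ℝ) ^ (-(3 / 2) : ℝ) * ((2 * k).choose k : ℝ))) := by
  classical
  obtain ⟨c₁, c₂, hc₁, hc₂, k1, hk1⟩ := supersaturation
  refine ⟨c₁ + 2, by linarith, max k1 (max ⌈((8 / c₂) ^ 8 : ℝ)⌉₊ (max ⌈(8 / c₂ : ℝ)⌉₊ 1)),
    fun k hk => ?_⟩
  simp only [ge_iff_le, max_le_iff] at hk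
  obtain ⟨hkk1, hkb, hkc, hk0⟩ := hk
  have hsat := hk1 k hkk1
  have hK0 : (0 : ℝ) < k := by exact_mod_cast hk0
  have hK1 : (1 : ℝ) ≤ k := by exact_mod_cast hk0
  set K : ℝ := (k : ℝ) with hK
  set C : ℝ := ((2 * k).choose k : ℝ) with hC
  have hC0 : 0 < C := by rw [hC]; exact_mod_cast Nat.choose_pos (by omega)
  set κ : ℝ := K ^ (3 / 2 : ℝ) with hκ
  have hκ0 : 0 < κ := Real.rpow_pos_of_pos hK0 _
  have hκκ : κ * κ = K ^ 3 := by
    rw [hκ, ← Real.rpow_add hK0]
    norm_num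
  have hκinv : K ^ (-(3 / 2) : ℝ) = κ⁻¹ := by rw [Real.rpow_neg hK0.le]
  rw [hκinv] at hsat ⊢
  have hkb' : (8 / c₂) ^ 8 ≤ K := (Nat.ceil_le.1 hkb)
  have hkc' : 8 / c₂ ≤ K := (Nat.ceil_le.1 hkc)
  set D : ℕ := ⌈c₂ * K ^ 2⌉₊ with hD
  set R0 : ℕ := ⌊c₁ * κ⁻¹ * C⌋₊ with hR0
  set lam : ℝ := 1 + κ⁻¹ with hlam
  have hκinv0 : 0 < κ⁻¹ := inv_pos.2 hκ0
  have hlam1 : 1 ≤ lam := by rw [hlam]; linarith
  -- the exponential condition
  have hpow : κ ≤ lam ^ D := by
    have h1 : c₂ * K ^ 2 ≤ D := Nat.le_ceil _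
    have h2 : (1 + ((D / 4 : ℕ) : ℝ) * κ⁻¹) ^ 4 ≤ lam ^ D := by
      have h3 : 1 + ((D / 4 : ℕ) : ℝ) * κ⁻¹ ≤ lam ^ (D / 4) := by
        rw [hlam]
        exact one_add_mul_le_pow (by linarith) _
      calc (1 + ((D / 4 : ℕ) : ℝ) * κ⁻¹) ^ 4 ≤ (lam ^ (D / 4)) ^ 4 := by
            gcongr
        _ = lam ^ (D / 4 * 4) := by rw [← pow_mul]
        _ ≤ lam ^ D := pow_le_pow_right₀ hlam1 (by omega)
    have h4 : c₂ * K ^ 2 / 8 ≤ ((D / 4 : ℕ) : ℝ) := by
      have h5 : (D : ℝ) ≤ 4 * ((D / 4 : ℕ) : ℝ) + 4 := by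
        have : D ≤ 4 * (D / 4) + 4 := by omega
        exact_mod_cast this
      have h6 : 8 ≤ c₂ * K := by
        rw [div_le_iff₀ hc₂] at hkc'; linarith
      have h7 : 8 ≤ c₂ * K ^ 2 := by nlinarith
      linarith
    have h5 : (c₂ * K ^ 2 / 8 * κ⁻¹) ^ 4 ≤ (1 + ((D / 4 : ℕ) : ℝ) * κ⁻¹) ^ 4 := by
      refine pow_le_pow_left₀ (by positivity) ?_ 4
      have := mul_le_mul_of_nonneg_right h4 hκinv0.le
      linarith
    have h6 : (c₂ * K ^ 2 / 8 * κ⁻¹) ^ 4 = (c₂ / 8) ^ 4 * K ^ 2 := by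
      have h7 : κ⁻¹ ^ 4 * K ^ 6 = 1 := by
        have : κ ^ 4 = K ^ 6 := by
          calc κ ^ 4 = (κ * κ) ^ 2 := by ring
            _ = (K ^ 3) ^ 2 := by rw [hκκ]
            _ = K ^ 6 := by ring
        rw [inv_pow, this]
        exact inv_mul_cancel₀ (by positivity)
      calc (c₂ * K ^ 2 / 8 * κ⁻¹) ^ 4 = (c₂ / 8) ^ 4 * K ^ 2 * (κ⁻¹ ^ 4 * K ^ 6) := by ring
        _ = _ := by rw [h7, mul_one]
    have h7 : κ ≤ (c₂ / 8) ^ 4 * K ^ 2 := by
      have h8 : κ * κ ≤ ((c₂ / 8) ^ 4 * K ^ 2) * ((c₂ / 8) ^ 4 * K ^ 2) := by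
        rw [hκκ]
        have h9 : 1 ≤ (c₂ / 8) ^ 8 * K := by
          have h10 : (c₂ / 8) ^ 8 * (8 / c₂) ^ 8 = 1 := by
            rw [← mul_pow]
            have : c₂ / 8 * (8 / c₂) = 1 := by field_simp
            rw [this, one_pow]
          calc (1 : ℝ) = (c₂ / 8) ^ 8 * (8 / c₂) ^ 8 := h10.symm
            _ ≤ (c₂ / 8) ^ 8 * K := by gcongr
        calc K ^ 3 = K ^ 3 * 1 := by ring
          _ ≤ K ^ 3 * ((c₂ / 8) ^ 8 * K) := by gcongr
          _ = _ := by ring
      exact le_of_sq_le_sq (by rw [sq, sq]; exact h8) (by positivity)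
    linarith
  have hcond : lam ^ D + 1 ≤ lam ^ (D + 1) := by
    have h1 : 1 ≤ lam ^ D * κ⁻¹ := by
      rw [← div_eq_mul_inv, le_div_iff₀ hκ0, one_mul]
      exact hpow
    rw [pow_succ, hlam, mul_add, mul_one, ← hlam]
    linarith
  have hcount := antichain_count (V := L k) R0 D lam hlam1 hcond (fun U hU => by
    have h1 : c₁ * κ⁻¹ * C ≤ U.card := by
      have := Nat.lt_of_floor_lt hU
      exact this.le
    have h2 := hsat U h1
    have hne : U.Nonempty := card_pos.1 (by omega)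
    obtain ⟨v, hv, hdv⟩ := exists_degree U _ hne h2
    exact ⟨v, hv, Nat.ceil_le.2 hdv⟩) _ univ rfl
  have h1 : (antis k : ℝ) ≤ 2 ^ R0 * lam ^ (univ : Finset (L k)).card := by
    refine le_trans (le_of_eq ?_) hcount
    unfold antis
    congr!
  refine h1.trans ?_
  have h2 : ((univ : Finset (L k)).card : ℝ) = C := by
    rw [card_univ, card_L_eq]
  have h3 : lam ^ (univ : Finset (L k)).card ≤ (2 : ℝ) ^ (2 * κ⁻¹ * C) := by
    have h4 : lam ≤ (2 : ℝ) ^ (2 * κ⁻¹) := by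
      have h5 : Real.log lam ≤ κ⁻¹ := by
        have := Real.log_le_sub_one_of_pos (show 0 < lam by linarith)
        rw [hlam] at this ⊢
        linarith
      have h6 : κ⁻¹ ≤ Real.log 2 * (2 * κ⁻¹) := by
        have := Real.log_two_gt_d9
        nlinarith
      rw [Real.rpow_def_of_pos (by norm_num : (0 : ℝ) < 2), ← Real.log_le_iff_le_exp (by linarith)]
      linarith
    calc lam ^ (univ : Finset (L k)).card ≤ ((2 : ℝ) ^ (2 * κ⁻¹)) ^ (univ : Finset (L k)).card := by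
          gcongr
      _ = (2 : ℝ) ^ (2 * κ⁻¹ * C) := by
          rw [← Real.rpow_natCast, ← Real.rpow_mul (by norm_num), h2]
  have h4 : (2 : ℝ) ^ R0 ≤ (2 : ℝ) ^ (c₁ * κ⁻¹ * C) := by
    rw [← Real.rpow_natCast]
    exact Real.rpow_le_rpow_of_exponent_le (by norm_num) (Nat.floor_le (by positivity))
  calc 2 ^ R0 * lam ^ (univ : Finset (L k)).card
      ≤ (2 : ℝ) ^ (c₁ * κ⁻¹ * C) * (2 : ℝ) ^ (2 * κ⁻¹ * C) := by gcongr
    _ = (2 : ℝ) ^ ((c₁ + 2) * (κ⁻¹ * C)) := by
        rw [← Real.rpow_add (by norm_num)]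
        congr 1
        ring

theorem mids_ge : ∃ c : ℝ, 0 < c ∧ ∃ k₀ : ℕ, ∀ k ≥ k₀,
    c * ((k : ℝ) ^ (-(3 / 2) : ℝ) * ((2 * k).choose k : ℝ)) ≤ mids k := by
  obtain ⟨k1, hk1⟩ := exists_k0 (1 / 8) (by norm_num)
  refine ⟨1 / 768, by norm_num, max k1 1, fun k hk => ?_⟩
  simp only [ge_iff_le, max_le_iff] at hk
  obtain ⟨n, rfl⟩ : ∃ n, k = n + 1 := ⟨k - 1, by omega⟩
  have hsmall := hk1 (n + 1) hk.1
  set K : ℝ := ((n + 1 : ℕ) : ℝ) with hK
  have hK1 : 1 ≤ K := by rw [hK]; exact_mod_cast hk.2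
  have hK0 : 0 < K := by linarith
  set C : ℝ := ((2 * (n + 1)).choose (n + 1) : ℝ) with hC
  have hC0 : 0 < C := by
    rw [hC]; exact_mod_cast Nat.choose_pos (by omega)
  set κ : ℝ := K ^ (3 / 2 : ℝ) with hκ
  have hκ0 : 0 < κ := Real.rpow_pos_of_pos hK0 _
  have hκ1 : 1 ≤ κ := Real.one_le_rpow hK1 (by norm_num)
  have hκκ : κ * κ = K ^ 3 := by
    rw [hκ, ← Real.rpow_add hK0]
    norm_num
  have hκinv : K ^ (-(3 / 2) : ℝ) = κ⁻¹ := by rw [Real.rpow_neg hK0.le]
  rw [hκinv]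
  have hfour : (4 : ℝ) ^ (n + 1) ≤ 2 * K * C := by
    have := Nat.four_pow_le_two_mul_self_mul_centralBinom (n + 1) (by omega)
    rw [Nat.centralBinom_eq_two_mul_choose] at this
    rw [hK, hC]
    exact_mod_cast this
  have h1 := mids_lower n (2 * κ) (by positivity)
  rw [card_L_eq, ← hK, ← hC] at h1
  have h2 : 2 * K ^ 3 / (2 * κ) ^ 2 * C = C / 2 := by
    rw [← hκκ]; field_simp
    try norm_num
  rw [h2] at h1
  have h3 : (11 / 16 : ℝ) ^ ((n + 1) / 16) * 4 ^ (n + 1) ≤ C / 4 := by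
    calc (11 / 16 : ℝ) ^ ((n + 1) / 16) * 4 ^ (n + 1)
        ≤ (11 / 16 : ℝ) ^ ((n + 1) / 16) * (2 * K * C) := by gcongr
      _ = 2 * C * (K * (11 / 16 : ℝ) ^ ((n + 1) / 16)) := by ring
      _ ≤ 2 * C * (K ^ 3 * (11 / 16 : ℝ) ^ ((n + 1) / 16)) := by
          gcongr
          calc K = K ^ 1 := (pow_one K).symm
            _ ≤ K ^ 3 := pow_le_pow_right₀ hK1 (by norm_num)
      _ ≤ 2 * C * (1 / 8) := by gcongr
      _ = C / 4 := by ring
  have h4 : K ^ 3 / 64 * (C / 4) ≤ 3 * κ * (K ^ 3 * mids (n + 1)) := by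
    calc K ^ 3 / 64 * (C / 4) ≤ K ^ 3 / 64 *
          (C - C / 2 - (11 / 16 : ℝ) ^ ((n + 1) / 16) * 4 ^ (n + 1)) := by
          gcongr; linarith
      _ ≤ (2 * κ + 1) * (K ^ 3 * mids (n + 1)) := h1
      _ ≤ 3 * κ * (K ^ 3 * mids (n + 1)) := by gcongr; linarith
  have h5 : K ^ 3 * (1 / 768 * (κ⁻¹ * C)) ≤ K ^ 3 * mids (n + 1) := by
    have h6 : K ^ 3 * (1 / 768 * (κ⁻¹ * C)) = κ⁻¹ * (K ^ 3 / 64 * (C / 4)) / 3 := by ring
    rw [h6]
    have h7 : κ⁻¹ * (K ^ 3 / 64 * (C / 4)) ≤ κ⁻¹ * (3 * κ * (K ^ 3 * mids (n + 1))) := by gcongr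
    have h8 : κ⁻¹ * (3 * κ * (K ^ 3 * mids (n + 1))) = 3 * (K ^ 3 * mids (n + 1)) := by
      field_simp
    linarith
  exact le_of_mul_le_mul_left h5 (by positivity)

theorem antis_lower (k : ℕ) : 2 ^ mids k ≤ antis k := by
  classical
  unfold mids antis
  rw [← card_powerset]
  refine card_le_card fun s hs => ?_
  rw [mem_powerset] at hs
  rw [mem_filter, mem_powerset]
  refine ⟨subset_univ s, fun x hx y hy hne hle => ?_⟩
  have h1 := (mem_filter.1 (hs (mem_coe.1 hx))).2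
  have h2 := (mem_filter.1 (hs (mem_coe.1 hy))).2
  have h3 : x < y := lt_of_le_of_ne hle hne
  obtain ⟨h4, i, h5⟩ := Pi.lt_def.1 (show x.1 < y.1 from h3)
  have : rk x < rk y := sum_lt_sum (fun j _ => h4 j) ⟨i, mem_univ _, h5⟩
  omega

/-! ### Transport to decreasing sequences -/

open Q158.YoungBox

/-- Reversing a sequence. -/
def revIso (k : ℕ) : L k ≃o Y k where
  toFun x := ⟨fun i => x.1 i.rev, fun _ _ h => x.2 (Fin.rev_le_rev.2 h)⟩
  invFun x := ⟨fun i => x.1 i.rev, fun _ _ h => x.2 (Fin.rev_le_rev.2 h)⟩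
  left_inv x := by ext; simp
  right_inv x := by ext; simp
  map_rel_iff' := by
    intro x y
    constructor
    · intro h i
      have := h i.rev
      simpa using this
    · intro h i
      exact h i.rev

theorem A_eq (k : ℕ) : A k = antis k := by
  classical
  unfold A antis
  rw [← Nat.card_eq_finsetCard]
  refine Nat.card_congr ?_
  refine ⟨fun s => ⟨(revIso k ⁻¹' s.1).toFinset, ?_⟩, fun s => ⟨revIso k '' (s.1 : Set (L k)), ?_⟩,
    fun s => ?_, fun s => ?_⟩
  · rw [mem_filter]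
    refine ⟨mem_powerset.2 (subset_univ _), ?_⟩
    rw [Set.coe_toFinset]
    intro x hx y hy hne hle
    exact s.2 hx hy (fun h => hne ((revIso k).injective h)) ((revIso k).monotone hle)
  · have h := (mem_filter.1 s.2).2
    rintro _ ⟨x, hx, rfl⟩ _ ⟨y, hy, rfl⟩ hne hle
    exact h hx hy (fun h => hne (congrArg _ h)) ((revIso k).le_iff_le.1 hle)
  · refine Subtype.ext ?_
    simp
  · refine Subtype.ext ?_
    ext x
    simp

theorem M_eq (k : ℕ) : M k = mids k := by
  classical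
  unfold M mids
  rw [← Nat.card_eq_finsetCard]
  refine Nat.card_congr ?_
  have hrk : ∀ x : L k, ∑ i, ((revIso k x).1 i : ℕ) = rk x := by
    intro x
    unfold rk
    exact Fintype.sum_equiv Fin.revPerm _ _ fun i => rfl
  refine ⟨fun x => ⟨(revIso k).symm x.1, ?_⟩, fun x => ⟨revIso k x.1, ?_⟩, fun x => ?_, fun x => ?_⟩
  · rw [mem_filter]
    refine ⟨mem_univ _, ?_⟩
    rw [← hrk]
    simp only [OrderIso.apply_symm_apply]
    rw [x.2, sq]
  · rw [hrk, (mem_filter.1 x.2).2, sq]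
  · simp
  · simp

theorem main : ∃ c C : ℝ, 0 < c ∧ 0 < C ∧ ∃ n₀ : ℕ, ∀ n ≥ n₀,
    (M n : ℝ) ≤ Real.logb 2 (A n) ∧ Real.logb 2 (A n) ≤ C * M n ∧
    c * ((n : ℝ) ^ (-(3 / 2) : ℝ) * ((2 * n).choose n : ℝ)) ≤ Real.logb 2 (A n) ∧
    Real.logb 2 (A n) ≤ C * ((n : ℝ) ^ (-(3 / 2) : ℝ) * ((2 * n).choose n : ℝ)) := by
  obtain ⟨b, hb, k1, h1⟩ := antis_upper
  obtain ⟨a, ha, k2, h2⟩ := mids_ge
  refine ⟨a, max b (b / a), ha, lt_max_of_lt_left hb, max k1 k2, fun n hn => ?_⟩
  simp only [ge_iff_le, max_le_iff] at hn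
  have h1' := h1 n hn.1
  have h2' := h2 n hn.2
  set T : ℝ := (n : ℝ) ^ (-(3 / 2) : ℝ) * ((2 * n).choose n : ℝ) with hT
  have hT0 : 0 ≤ T := by positivity
  rw [A_eq, M_eq]
  have hpos : (0 : ℝ) < antis n := by
    have := antis_lower n
    have h3 : 0 < antis n := lt_of_lt_of_le (by positivity) this
    exact_mod_cast h3
  have hlow : (mids n : ℝ) ≤ Real.logb 2 (antis n) := by
    rw [Real.le_logb_iff_rpow_le (by norm_num) hpos, Real.rpow_natCast]
    exact_mod_cast antis_lower n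
  have hupp : Real.logb 2 (antis n) ≤ b * T := by
    rw [Real.logb_le_iff_le_rpow (by norm_num) hpos]
    exact h1'
  refine ⟨hlow, ?_, h2'.trans hlow, hupp.trans ?_⟩
  · have h3 : b * T ≤ b / a * mids n := by
      calc b * T = b / a * (a * T) := by field_simp
        _ ≤ b / a * mids n := by gcongr
    have h4 : b / a * mids n ≤ max b (b / a) * mids n := by
      gcongr
      exact le_max_right _ _
    linarith
  · gcongr
    exact le_max_left _ _

end Q158.Box
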