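import Pool.Agent.Q17.ML2.Stm

/-! Project CA (helper17), job PR: index estimates for `X × S_n`. -/

set_option autoImplicit false

namespace Pool.Agent.Q158.CA

open Pool.Agent.Q17.ML2

theorem fact_ge (n : ℕ) (hn : 10 ≤ n) : 8 * n * (n * n + 1) ≤ n.factorial := by
  induction n, hn using Nat.le_induction with
  | base => decide
  | succ n hn ih =>
    rw [Nat.factorial_succ]
    have h1 : (n + 1) * (n + 1) + 1 ≤ n * (n * n + 1) := by nlinarith
    calc 8 * (n + 1) * ((n + 1) * (n + 1) + 1) ≤ 8 * (n + 1) * (n * (n * n + 1)) :=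
          Nat.mul_le_mul_left _ h1
      _ = (n + 1) * (8 * n * (n * n + 1)) := by ring
      _ ≤ (n + 1) * n.factorial := Nat.mul_le_mul_left _ ih

/-- **PR** -/
theorem t_PR : S_PR := by
  intro X _ _ Y n hY hn hYn
  have hn0 : 0 < n := by omega
  obtain ⟨i, -⟩ : ∃ i : Fin n, i = ⟨0, hn0⟩ := ⟨_, rfl⟩
  refine ⟨Y.prod (MulAction.stabilizer (Equiv.Perm (Fin n)) i), Subgroup.prod_mono le_rfl bot_le, ?_, ?_⟩
  · rw [Subgroup.eq_bot_iff_forall]
    rintro ⟨x, σ⟩ hx
    have h1 : ∀ (a : X) (b : Equiv.Perm (Fin n)), a * x * a⁻¹ ∈ Y ∧ (b * σ * b⁻¹) i = i := by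
      intro a b
      have := hx (a, b)
      simpa [Subgroup.mem_prod, MulAction.mem_stabilizer_iff] using this
    have hx1 : x = 1 := by
      have : x ∈ Y.normalCore := fun a => (h1 a 1).1
      rwa [hY, Subgroup.mem_bot] at this
    have hσ : σ = 1 := by
      refine Equiv.ext fun j => ?_
      have h2 := (h1 1 (Equiv.swap i j)).2
      rw [Equiv.swap_inv, Equiv.Perm.mul_apply, Equiv.Perm.mul_apply, Equiv.swap_apply_left] at h2
      have h3 : σ j = Equiv.swap i j i := by
        have h4 := congrArg (Equiv.swap i j) h2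
        rwa [← Equiv.Perm.mul_apply, Equiv.swap_mul_self, Equiv.Perm.one_apply] at h4
      rw [h3, Equiv.swap_apply_left, Equiv.Perm.one_apply]
    rw [hx1, hσ]
    rfl
  · have e1 : (MulAction.stabilizer (Equiv.Perm (Fin n)) i).index = n := by
      rw [MulAction.index_stabilizer_of_transitive, Nat.card_eq_fintype_card, Fintype.card_fin]
    have e2 : (⊥ : Subgroup (Equiv.Perm (Fin n))).index = n.factorial := by
      rw [Subgroup.index_bot, Nat.card_eq_fintype_card, Fintype.card_perm, Fintype.card_fin]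
    rw [Subgroup.index_prod, Subgroup.index_prod, e1, e2]
    have h1 : Y.index * n + 1 ≤ n * n + 1 := by
      have := Nat.mul_le_mul_right n hYn
      omega
    calc 8 * (Y.index * n) * (Y.index * n + 1) ≤ 8 * (Y.index * n) * (n * n + 1) :=
          Nat.mul_le_mul_left _ h1
      _ = Y.index * (8 * n * (n * n + 1)) := by ring
      _ ≤ Y.index * n.factorial := Nat.mul_le_mul_left _ (fact_ge n hn)

end Pool.Agent.Q158.CA
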