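import Mathlib

set_option autoImplicit false

namespace Q158.ChainBdd

/-- Functions from the naturals to the naturals. -/
abbrev G : Type := ℕ → ℕ

/-- The elements of the big lattice. -/
inductive E : Type
  | up (S : Finset G)
  | mid (g : G) (i j : ℕ)
  | down (i : ℕ)

open Classical in
noncomputable instance : DecidableEq E := Classical.decEq _

namespace E

/-- the order -/
def le : E → E → Prop
  | up S, up T => S ⊆ T
  | up _, mid _ _ _ => False
  | up _, down _ => False
  | mid g _ _, up T => g ∈ T
  | mid g i j, mid g' i' j' => g = g' ∧ i = i' ∧ j ≤ j'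
  | mid _ _ _, down _ => False
  | down _, up _ => True
  | down i, mid _ i' _ => i' ≤ i
  | down i, down i' => i' ≤ i

instance : LE E := ⟨le⟩

@[simp] theorem up_le_up (S T : Finset G) : up S ≤ up T ↔ S ⊆ T := Iff.rfl
@[simp] theorem up_le_mid (S : Finset G) (g : G) (i j : ℕ) : up S ≤ mid g i j ↔ False := Iff.rfl
@[simp] theorem up_le_down (S : Finset G) (i : ℕ) : up S ≤ down i ↔ False := Iff.rfl
@[simp] theorem mid_le_up (g : G) (i j : ℕ) (T : Finset G) : mid g i j ≤ up T ↔ g ∈ T := Iff.rfl
@[simp] theorem mid_le_mid (g : G) (i j : ℕ) (g' : G) (i' j' : ℕ) :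
    mid g i j ≤ mid g' i' j' ↔ g = g' ∧ i = i' ∧ j ≤ j' := Iff.rfl
@[simp] theorem mid_le_down (g : G) (i j k : ℕ) : mid g i j ≤ down k ↔ False := Iff.rfl
@[simp] theorem down_le_up (i : ℕ) (T : Finset G) : down i ≤ up T ↔ True := Iff.rfl
@[simp] theorem down_le_mid (i : ℕ) (g : G) (i' j : ℕ) : down i ≤ mid g i' j ↔ i' ≤ i := Iff.rfl
@[simp] theorem down_le_down (i i' : ℕ) : down i ≤ down i' ↔ i' ≤ i := Iff.rfl

instance : PartialOrder E where
  le := (· ≤ ·)
  le_refl x := by cases x <;> simp
  le_trans x y z := by
    cases x <;> cases y <;> cases z <;> simp <;> intros <;> subst_vars <;>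
      first
        | omega
        | (constructor <;> first | rfl | (constructor <;> omega))
        | (apply_assumption; assumption)
        | assumption
        | (apply Finset.Subset.trans <;> assumption)
  le_antisymm x y := by
    cases x <;> cases y <;> simp <;> intros <;>
      first
        | (subst_vars; refine ⟨rfl, rfl, ?_⟩; omega)
        | omega
        | (apply Finset.Subset.antisymm <;> assumption)

open Classical in
/-- joins -/
noncomputable def sup' : E → E → E
  | up S, up T => up (S ∪ T)
  | up S, mid g _ _ => up (insert g S)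
  | up S, down _ => up S
  | mid g _ _, up S => up (insert g S)
  | mid g i j, mid g' i' j' => if g = g' ∧ i = i' then mid g i (max j j') else up {g, g'}
  | mid g i j, down k => if i ≤ k then mid g i j else up {g}
  | down _, up S => up S
  | down k, mid g i j => if i ≤ k then mid g i j else up {g}
  | down i, down k => down (min i k)

open Classical in
/-- meets -/
noncomputable def inf' : E → E → E
  | up S, up T => up (S ∩ T)
  | up S, mid g i j => if g ∈ S then mid g i j else down i
  | up _, down i => down i
  | mid g i j, up S => if g ∈ S then mid g i j else down i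
  | mid g i j, mid g' i' j' => if g = g' ∧ i = i' then mid g i (min j j') else down (max i i')
  | mid _ i _, down k => down (max i k)
  | down i, up _ => down i
  | down k, mid _ i _ => down (max i k)
  | down i, down k => down (max i k)

open Classical in
noncomputable instance : Lattice E where
  sup := sup'
  inf := inf'
  le_sup_left x y := by
    cases x <;> cases y <;> simp only [sup'] <;> (try split_ifs) <;> simp_all
  le_sup_right x y := by
    cases x <;> cases y <;> simp only [sup'] <;> (try split_ifs) <;> simp_all
  sup_le x y z := by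
    cases x <;> cases y <;> cases z <;> simp only [sup'] <;> (try split_ifs) <;> simp_all
    all_goals intros
    all_goals try subst_vars
    all_goals first
      | omega
      | (exfalso; simp_all; done)
      | (apply Finset.union_subset <;> assumption)
      | (apply Finset.subset_inter <;> assumption)
      | (simp_all [Finset.insert_subset_iff]; done)
  inf_le_left x y := by
    cases x <;> cases y <;> simp only [inf'] <;> (try split_ifs) <;> simp_all
  inf_le_right x y := by
    cases x <;> cases y <;> simp only [inf'] <;> (try split_ifs) <;> simp_all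
  le_inf x y z := by
    cases x <;> cases y <;> cases z <;> simp only [inf'] <;> (try split_ifs) <;> simp_all
    all_goals intros
    all_goals try subst_vars
    all_goals first
      | omega
      | (exfalso; simp_all; done)
      | (apply Finset.union_subset <;> assumption)
      | (apply Finset.subset_inter <;> assumption)
      | (simp_all [Finset.insert_subset_iff]; done)

end E

namespace E

theorem sup_def (x y : E) : x ⊔ y = sup' x y := rfl
theorem inf_def (x y : E) : x ⊓ y = inf' x y := rfl

/-- The sublattice of `E` in which the chain over `down i` belonging to `g` has `g i` elements. -/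
noncomputable def L : Sublattice E where
  carrier := {e | ∀ g i j, e = mid g i j → j < g i}
  supClosed' := by
    intro x hx y hy g i j h
    rw [sup_def] at h
    cases x <;> cases y <;> simp only [sup'] at h <;> (try split_ifs at h) <;> simp_all
    omega
  infClosed' := by
    intro x hx y hy g i j h
    rw [inf_def] at h
    cases x <;> cases y <;> simp only [inf'] at h <;> (try split_ifs at h) <;> simp_all
    omega

theorem up_mem (S : Finset G) : up S ∈ L := fun g i j h => by cases h
theorem down_mem (k : ℕ) : down k ∈ L := fun g i j h => by cases h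
theorem mid_mem {g : G} {i j : ℕ} (h : j < g i) : mid g i j ∈ L := fun g' i' j' h' => by
  cases h'; exact h

/-- a bounded rank on intervals -/
noncomputable def h (i B : ℕ) : E → ℕ
  | down k => i - k
  | mid _ _ j => i + 1 + j
  | up S => i + 1 + B + S.card

theorem h_strict (i B : ℕ) (T : Finset G) (hB : ∀ g ∈ T, ∀ k ≤ i, g k ≤ B) (x y : E)
    (hx : x ∈ L) (hxi : down i ≤ x) (hyT : y ≤ up T) (hxy : x < y) : h i B x < h i B y := by
  obtain ⟨h1, h2⟩ := lt_iff_le_not_ge.1 hxy
  have hLm : ∀ g i j, x = mid g i j → j < g i := hx
  cases x <;> cases y <;> simp_all [h]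
  case up.up S S' => exact Finset.card_lt_card ⟨h1, h2⟩
  case mid.up g k j S =>
    have := hB g (hyT h1) k hxi
    omega
  case down.up => omega
  case down.mid => omega
  case down.down => omega

theorem h_le (i B : ℕ) (T : Finset G) (hB : ∀ g ∈ T, ∀ k ≤ i, g k ≤ B) (x : E)
    (hx : x ∈ L) (hxi : down i ≤ x) (hxT : x ≤ up T) : h i B x ≤ i + 1 + B + T.card := by
  rcases eq_or_lt_of_le hxT with he | hlt
  · rw [he]; exact le_rfl
  · exact (h_strict i B T hB x (up T) hx hxi le_rfl hlt).le

theorem exists_down (x : E) : ∃ i, down i ≤ x := by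
  cases x with
  | up S => exact ⟨0, by simp⟩
  | mid g i j => exact ⟨i, by simp⟩
  | down i => exact ⟨i, by simp⟩

theorem exists_up (x : E) : ∃ T, x ≤ up T := by
  cases x with
  | up S => exact ⟨S, by simp⟩
  | mid g i j => exact ⟨{g}, by simp⟩
  | down i => exact ⟨∅, by simp⟩

theorem exists_bound (i : ℕ) (T : Finset G) : ∃ B : ℕ, ∀ g ∈ T, ∀ k ≤ i, g k ≤ B := by
  refine ⟨∑ g ∈ T, ∑ k ∈ Finset.range (i + 1), g k, ?_⟩
  intro g hg k hk
  have h1 : g k ≤ ∑ k ∈ Finset.range (i + 1), g k :=
    Finset.single_le_sum (f := g) (fun _ _ => Nat.zero_le _) (Finset.mem_range.2 (by omega))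
  have h2 : ∑ k ∈ Finset.range (i + 1), g k ≤ ∑ g ∈ T, ∑ k ∈ Finset.range (i + 1), g k :=
    Finset.single_le_sum (f := fun g : G => ∑ k ∈ Finset.range (i + 1), g k)
      (fun _ _ => Nat.zero_le _) hg
  exact h1.trans h2

/-- intervals of `L` have chains of bounded size -/
theorem locally_bounded (x y : L) : ∃ n : ℕ, ∀ C : Set L, C ⊆ Set.Icc x y →
    IsChain (· ≤ ·) C → C.encard ≤ n := by
  obtain ⟨i, hi⟩ := exists_down (x : E)
  obtain ⟨T, hT⟩ := exists_up (y : E)
  obtain ⟨B, hB⟩ := exists_bound i T
  refine ⟨i + 1 + B + T.card + 1, ?_⟩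
  intro C hC hchain
  have hinj : Set.InjOn (fun z : L => h i B (z : E)) C := by
    intro a ha b hb hab
    have ha1 : down i ≤ (a : E) := hi.trans (hC ha).1
    have hb1 : down i ≤ (b : E) := hi.trans (hC hb).1
    have ha2 : (a : E) ≤ up T := le_trans (show (a : E) ≤ (y : E) from (hC ha).2) hT
    have hb2 : (b : E) ≤ up T := le_trans (show (b : E) ≤ (y : E) from (hC hb).2) hT
    simp only at hab
    rcases hchain.total ha hb with hle | hle
    · rcases eq_or_lt_of_le (show (a : E) ≤ (b : E) from hle) with he | hlt
      · exact Subtype.ext he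
      · have := h_strict i B T hB a b a.2 ha1 hb2 hlt
        omega
    · rcases eq_or_lt_of_le (show (b : E) ≤ (a : E) from hle) with he | hlt
      · exact Subtype.ext he.symm
      · have := h_strict i B T hB b a b.2 hb1 ha2 hlt
        omega
  rw [← hinj.encard_image]
  have hsub : (fun z : L => h i B (z : E)) '' C ⊆
      (Finset.range (i + 1 + B + T.card + 1) : Finset ℕ) := by
    rintro _ ⟨z, hz, rfl⟩
    have hz1 : down i ≤ (z : E) := hi.trans (hC hz).1
    have hz2 : (z : E) ≤ up T := le_trans (show (z : E) ≤ (y : E) from (hC hz).2) hT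
    have := h_le i B T hB z z.2 hz1 hz2
    simp only [Finset.coe_range, Set.mem_Iio]
    omega
  refine (Set.encard_le_encard hsub).trans ?_
  rw [Set.encard_coe_eq_coe_finsetCard, Finset.card_range]

/-- there is no strictly monotone map into the integers -/
theorem no_map (f : L → ℤ) (hf : StrictMono f) : False := by
  let F : ℕ → ℤ := fun i => f ⟨down i, down_mem i⟩
  let g : G := fun i => (-(F i)).toNat + i + 1
  have hmid : ∀ i j (hj : j < g i), F i + 1 + j ≤ f ⟨mid g i j, mid_mem hj⟩ := by
    intro i j
    induction j with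
    | zero =>
      intro hj
      have hlt : (⟨down i, down_mem i⟩ : L) < ⟨mid g i 0, mid_mem hj⟩ := by
        rw [← Subtype.coe_lt_coe]
        exact lt_iff_le_not_ge.2 ⟨by simp, by simp⟩
      have := hf hlt
      simp only [F]
      push_cast
      omega
    | succ j ih =>
      intro hj
      have hj' : j < g i := by omega
      have h1 := ih hj'
      have hlt : (⟨mid g i j, mid_mem hj'⟩ : L) < ⟨mid g i (j + 1), mid_mem hj⟩ := by
        rw [← Subtype.coe_lt_coe]
        exact lt_iff_le_not_ge.2 ⟨by simp, by simp⟩
      have h2 := hf hlt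
      push_cast
      omega
  have hup : ∀ i : ℕ, (i : ℤ) < f ⟨up {g}, up_mem {g}⟩ := by
    intro i
    have hj : (-(F i)).toNat + i < g i := by simp only [g]; omega
    have h1 := hmid i ((-(F i)).toNat + i) hj
    have hlt : (⟨mid g i ((-(F i)).toNat + i), mid_mem hj⟩ : L) < ⟨up {g}, up_mem {g}⟩ := by
      rw [← Subtype.coe_lt_coe]
      exact lt_iff_le_not_ge.2 ⟨by simp, by simp⟩
    have h2 := hf hlt
    push_cast at h1
    have h3 : -(F i) ≤ ((-(F i)).toNat : ℤ) := Int.self_le_toNat _
    omega
  have h0 := hup (f ⟨up {g}, up_mem {g}⟩).toNat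
  have h3 : f ⟨up {g}, up_mem {g}⟩ ≤ ((f ⟨up {g}, up_mem {g}⟩).toNat : ℤ) := Int.self_le_toNat _
  omega

end E

end Q158.ChainBdd
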