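import Mathlib

set_option autoImplicit false

namespace Q158.RP2

/-- table of the order relation on 13 points: 4 vertices, 6 edges and 3 faces of the hemicube -/
def tab : Nat := 374167256514697044065055039573870212750005817728113

/-- table of the dual order relation -/
def tabD : Nat := 450082194000171403977247405685820273963076302159873

/-- the order relation -/
def leN (x y : Nat) : Bool := Nat.beq (Nat.land (Nat.shiftRight tab (Nat.add (Nat.mul 13 x) y)) 1) 1

/-- mask of the upper set -/
def upm (x : Nat) : Nat := Nat.land (Nat.shiftRight tab (Nat.mul 13 x)) 8191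

/-- mask of the lower set -/
def dnm (x : Nat) : Nat := Nat.land (Nat.shiftRight tabD (Nat.mul 13 x)) 8191

/-- mask of the allowed values of `k` -/
def allowed (k : Nat) : List (Nat × Nat) → Nat
  | [] => Nat.sub 8191 (Nat.pow 2 k)
  | p :: l => Nat.land (cond (leN p.1 k) (upm p.2) 8191)
      (Nat.land (cond (leN k p.1) (dnm p.2) 8191) (allowed k l))

/-- true if there is no extension of the partial map `asg` to the remaining points -/
def search : List Nat → List (Nat × Nat) → Bool
  | [], _ => false
  | k :: ks, asg => [0, 1, 2, 3, 4, 5, 6, 7, 8, 9, 10, 11, 12].all fun y =>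
      Nat.beq (Nat.land (Nat.shiftRight (allowed k asg) y) 1) 0 || search ks ((k, y) :: asg)

theorem search_true : search [0, 1, 4, 10, 11, 12, 2, 5, 7, 3, 6, 8, 9] [] = true := by
  decide +kernel

/-- bit test used in `search` -/
theorem bit_eq (m y : Nat) :
    Nat.beq (Nat.land (Nat.shiftRight m y) 1) 0 = !(m.testBit y) := by
  change Nat.beq ((m >>> y) &&& 1) 0 = !(m.testBit y)
  rw [Nat.testBit, Nat.and_comm 1]
  cases h : (m >>> y) &&& 1 with
  | zero => rfl
  | succ n => simp [Nat.beq]

theorem upm_bit : ∀ x y : Fin 13, (upm x).testBit y = leN x y := by decide +kernel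
theorem dnm_bit : ∀ x y : Fin 13, (dnm x).testBit y = leN y x := by decide +kernel
theorem base_bit : ∀ k y : Fin 13, (Nat.sub 8191 (Nat.pow 2 k)).testBit y = !(decide (y = k)) := by
  decide +kernel
theorem full_bit : ∀ y : Fin 13, (8191 : Nat).testBit y = true := by decide +kernel

theorem allowed_spec (f : Fin 13 → Fin 13) (hf : ∀ x y : Fin 13, leN x y = true →
    leN (f x) (f y) = true) (hfix : ∀ x, f x ≠ x) (k : Fin 13) (asg : List (Nat × Nat))
    (ha : ∀ p ∈ asg, ∃ x : Fin 13, p = ((x : Nat), (f x : Nat))) :
    (allowed k asg).testBit (f k) = true := by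
  induction asg with
  | nil =>
    rw [allowed, base_bit]
    simp [hfix k]
  | cons p l ih =>
    have ih' := ih fun q hq => ha q (List.mem_cons_of_mem _ hq)
    obtain ⟨x, hx⟩ := ha p List.mem_cons_self
    subst hx
    rw [allowed]
    change Nat.testBit (_ &&& (_ &&& _)) _ = true
    rw [Nat.testBit_and, Nat.testBit_and, ih', Bool.and_true]
    simp only
    have h1 : (cond (leN x k) (upm (f x)) 8191).testBit (f k) = true := by
      cases h : leN x k with
      | false => simp only [cond_false]; exact full_bit _
      | true => simp only [cond_true]; rw [upm_bit]; exact hf _ _ h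
    have h2 : (cond (leN k x) (dnm (f x)) 8191).testBit (f k) = true := by
      cases h : leN k x with
      | false => simp only [cond_false]; exact full_bit _
      | true => simp only [cond_true]; rw [dnm_bit]; exact hf _ _ h
    rw [h1, h2]
    rfl

theorem search_false (f : Fin 13 → Fin 13) (hf : ∀ x y : Fin 13, leN x y = true →
    leN (f x) (f y) = true) (hfix : ∀ x, f x ≠ x) (ks : List Nat) (hks : ∀ k ∈ ks, k < 13)
    (asg : List (Nat × Nat))
    (ha : ∀ p ∈ asg, ∃ x : Fin 13, p = ((x : Nat), (f x : Nat))) :
    search ks asg = false := by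
  induction ks generalizing asg with
  | nil => rfl
  | cons k ks ih =>
    obtain ⟨k', rfl⟩ : ∃ k' : Fin 13, (k' : Nat) = k := ⟨⟨k, hks k List.mem_cons_self⟩, rfl⟩
    rw [search, List.all_eq_false]
    refine ⟨f k', ?_, ?_⟩
    · have : ∀ y : Fin 13, (y : Nat) ∈ [0, 1, 2, 3, 4, 5, 6, 7, 8, 9, 10, 11, 12] := by decide
      exact this _
    · have h1 := allowed_spec f hf hfix k' asg ha
      have h2 := ih (fun k hk => hks k (List.mem_cons_of_mem _ hk)) (((k' : Nat), (f k' : Nat)) :: asg)
        (by
          intro p hp
          rcases List.mem_cons.1 hp with h | h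
          · exact ⟨k', h⟩
          · exact ha p h)
      rw [bit_eq, h1, h2]
      simp

/-- every order-preserving self-map has a fixed point -/
theorem fixed (f : Fin 13 → Fin 13) (hf : ∀ x y : Fin 13, leN x y = true →
    leN (f x) (f y) = true) : ∃ x, f x = x := by
  by_contra h
  push Not at h
  have h1 := search_false f hf h [0, 1, 4, 10, 11, 12, 2, 5, 7, 3, 6, 8, 9] (by decide) []
    (by intro p hp; cases hp)
  rw [search_true] at h1
  cases h1

/-- The face poset of the hemicube, a poset with 13 elements. -/
def P : Type := Fin 13

instance : Fintype P := inferInstanceAs (Fintype (Fin 13))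
instance : Nonempty P := ⟨(0 : Fin 13)⟩

instance : PartialOrder P where
  le x y := leN (x : Fin 13).val (y : Fin 13).val = true
  le_refl := by
    have : ∀ x : Fin 13, leN x.val x.val = true := by decide +kernel
    exact this
  le_trans := by
    have : ∀ x y z : Fin 13, leN x.val y.val = true → leN y.val z.val = true →
      leN x.val z.val = true := by decide +kernel
    exact this
  le_antisymm := by
    have : ∀ x y : Fin 13, leN x.val y.val = true → leN y.val x.val = true → x = y := by
      decide +kernel
    exact this

theorem le_def (x y : P) : x ≤ y ↔ leN (x : Fin 13).val (y : Fin 13).val = true := Iff.rfl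

theorem fpp (f : P →o P) : ∃ x, f x = x :=
  fixed f fun _ _ h => f.monotone h

/-- the cocycle -/
def coc (x y : Fin 13) : ZMod 2 :=
  if (70701680474316658099232249561934482854801987207168 : Nat).testBit (13 * x.val + y.val) then 1 else 0

theorem coc_spec : ∀ x y z : Fin 13,
    (leN x y = true ∨ leN y x = true) → (leN y z = true ∨ leN z y = true) →
    (leN x z = true ∨ leN z x = true) → coc x y + coc y z = coc x z := by
  decide +kernel

end Q158.RP2
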