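import Pool.Agent.Q158.CliqueGraphDefs
import Pool.Agent.Q158.RP2Poset

set_option autoImplicit false

namespace Q158.CliqueGraph

/-- equal or adjacent -/
def Rel {V : Type} (G : SimpleGraph V) (x y : V) : Prop := x = y ∨ G.Adj x y

theorem Rel.symm {V : Type} {G : SimpleGraph V} {x y : V} (h : Rel G x y) : Rel G y x := by
  rcases h with h | h
  · exact Or.inl h.symm
  · exact Or.inr h.symm

/-- a cocycle mod 2 -/
def IsCocycle {V : Type} (G : SimpleGraph V) (c : V → V → ZMod 2) : Prop :=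
  ∀ x y z, Rel G x y → Rel G y z → Rel G x z → c x y + c y z = c x z

/-- a coboundary -/
def IsCobound {V : Type} (G : SimpleGraph V) (c : V → V → ZMod 2) : Prop :=
  ∃ φ : V → ZMod 2, ∀ x y, Rel G x y → c x y = φ x + φ y

/-- nontrivial first cohomology mod 2 of the clique complex -/
def HasH1 {V : Type} (G : SimpleGraph V) : Prop :=
  ∃ c : V → V → ZMod 2, IsCocycle G c ∧ ¬ IsCobound G c

theorem nontrivial_of_hasH1 {V : Type} {G : SimpleGraph V} (h : HasH1 G) : Nontrivial V := by
  obtain ⟨c, hc, hn⟩ := h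
  by_contra hV
  rw [not_nontrivial_iff_subsingleton] at hV
  apply hn
  refine ⟨fun _ => 0, ?_⟩
  intro x y hxy
  obtain rfl := Subsingleton.elim x y
  have := hc x x x (Or.inl rfl) (Or.inl rfl) (Or.inl rfl)
  simpa using this

theorem add_self (a : ZMod 2) : a + a = 0 := CharTwo.add_self_eq_zero a

theorem exists_maxClique {V : Type} [Finite V] {G : SimpleGraph V} {s : Set V}
    (hs : G.IsClique s) : ∃ Q : MaxClique G, s ⊆ Q.1 := by
  obtain ⟨t, hst, ht⟩ := (Set.toFinite {t : Set V | G.IsClique t}).exists_le_maximal hs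
  exact ⟨⟨t, ht⟩, hst⟩

theorem maxClique_nonempty {V : Type} [Nonempty V] {G : SimpleGraph V} (Q : MaxClique G) :
    Q.1.Nonempty := by
  by_contra h
  rw [Set.not_nonempty_iff_eq_empty] at h
  obtain ⟨v⟩ := (inferInstance : Nonempty V)
  have h1 : G.IsClique {v} := by simp
  have h2 := Q.2.2 h1 (by rw [h]; exact Set.empty_subset _)
  have h3 : v ∈ Q.1 := h2 rfl
  rw [h] at h3
  exact h3

theorem rel_of_mem {V : Type} {G : SimpleGraph V} (Q : MaxClique G) {x y : V}
    (hx : x ∈ Q.1) (hy : y ∈ Q.1) : Rel G x y := by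
  by_cases h : x = y
  · exact Or.inl h
  · exact Or.inr (Q.2.1 hx hy h)

theorem hasH1_cliqueGraph {V : Type} [Finite V] [Nonempty V] {G : SimpleGraph V}
    (h : HasH1 G) : HasH1 (cliqueGraph G) := by
  classical
  obtain ⟨c, hc, hn⟩ := h
  have hself : ∀ x, c x x = 0 := fun x => by
    have := hc x x x (Or.inl rfl) (Or.inl rfl) (Or.inl rfl)
    simpa using this
  have hsymm : ∀ x y, Rel G x y → c x y = c y x := by
    intro x y hxy
    have h1 := hc x y x hxy hxy.symm (Or.inl rfl)
    rw [hself] at h1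
    have h2 := add_self (c y x)
    calc c x y = c x y + (c y x + c y x) := by rw [h2, add_zero]
      _ = c y x := by rw [← add_assoc, h1, zero_add]
  choose q hq using fun Q : MaxClique G => maxClique_nonempty Q
  let φ : MaxClique G → V → ZMod 2 := fun Q x => c (q Q) x
  have hφ : ∀ Q : MaxClique G, ∀ x ∈ Q.1, ∀ y ∈ Q.1, φ Q x + φ Q y = c x y := by
    intro Q x hx y hy
    have h1 := hc (q Q) x y (rel_of_mem Q (hq Q) hx) (rel_of_mem Q hx hy) (rel_of_mem Q (hq Q) hy)
    change c (q Q) x + c (q Q) y = c x y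
    rw [← h1, ← add_assoc, add_self, zero_add]
  let c' : MaxClique G → MaxClique G → ZMod 2 := fun Q R =>
    if h : (Q.1 ∩ R.1).Nonempty then φ Q h.some + φ R h.some else 0
  have hc' : ∀ Q R : MaxClique G, ∀ x ∈ Q.1, x ∈ R.1 → c' Q R = φ Q x + φ R x := by
    intro Q R x hx hx'
    have hne : (Q.1 ∩ R.1).Nonempty := ⟨x, hx, hx'⟩
    simp only [c', dif_pos hne]
    obtain ⟨h1, h2⟩ := hne.some_mem
    generalize hne.some = y at h1 h2
    have e1 := hφ Q x hx y h1
    have e2 := hφ R x hx' y h2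
    have e3 : φ Q x + φ Q y = φ R x + φ R y := by rw [e1, e2]
    have e4 : φ Q y + φ R y = φ Q x + φ R x + ((φ Q x + φ Q y) + (φ R x + φ R y)) := by
      have a1 := add_self (φ Q x)
      have a2 := add_self (φ R x)
      linear_combination -a1 - a2
    rw [e4, e3, add_self, add_zero]
  have hrel : ∀ Q R : MaxClique G, Rel (cliqueGraph G) Q R → ∃ x, x ∈ Q.1 ∧ x ∈ R.1 := by
    rintro Q R (rfl | h)
    · exact ⟨q Q, hq Q, hq Q⟩
    · exact h.2
  refine ⟨c', ?_, ?_⟩
  · intro Q R S hQR hRS hQS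
    obtain ⟨x, hxQ, hxR⟩ := hrel Q R hQR
    obtain ⟨y, hyR, hyS⟩ := hrel R S hRS
    obtain ⟨z, hzQ, hzS⟩ := hrel Q S hQS
    rw [hc' Q R x hxQ hxR, hc' R S y hyR hyS, hc' Q S z hzQ hzS]
    have e1 := hφ Q x hxQ z hzQ
    have e2 := hφ R x hxR y hyR
    have e3 := hφ S y hyS z hzS
    have e4 := hc x y z (rel_of_mem R hxR hyR) (rel_of_mem S hyS hzS) (rel_of_mem Q hxQ hzQ)
    have a1 := add_self (φ Q z)
    have a2 := add_self (φ S z)
    have a3 := add_self (c x z)
    linear_combination e1 + e2 + e3 + e4 - a1 - a2 + a3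
  · rintro ⟨ψ, hψ⟩
    apply hn
    have hex : ∀ x : V, ∃ Q : MaxClique G, x ∈ Q.1 := by
      intro x
      obtain ⟨Q, hQ⟩ := exists_maxClique (G := G) (s := {x}) (by simp)
      exact ⟨Q, hQ rfl⟩
    choose Q hQ using hex
    refine ⟨fun x => φ (Q x) x + ψ (Q x), ?_⟩
    have hind : ∀ x, ∀ R : MaxClique G, x ∈ R.1 → φ R x + ψ R = φ (Q x) x + ψ (Q x) := by
      intro x R hxR
      have hrelQR : Rel (cliqueGraph G) R (Q x) := by
        by_cases he : R = Q x
        · exact Or.inl he
        · exact Or.inr ⟨he, x, hxR, hQ x⟩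
      have h1 := hψ R (Q x) hrelQR
      rw [hc' R (Q x) x hxR (hQ x)] at h1
      have a1 := add_self (φ (Q x) x)
      have a2 := add_self (ψ R)
      linear_combination h1 - a1 + a2
    intro x y hxy
    obtain ⟨R, hR⟩ := exists_maxClique (G := G) (s := {x, y}) (by
      rcases hxy with rfl | h
      · simp
      · rw [SimpleGraph.isClique_pair]; exact fun _ => h)
    have hx : x ∈ R.1 := hR (by simp)
    have hy : y ∈ R.1 := hR (by simp)
    beta_reduce
    rw [← hind x R hx, ← hind y R hy, ← hφ R x hx y hy]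
    have a2 := add_self (ψ R)
    linear_combination -a2

theorem iter_aux {V : Type} [Finite V] (G : SimpleGraph V) (h : HasH1 G) (n : ℕ) :
    Finite (iterClique G n).1 ∧ HasH1 (iterClique G n).2 := by
  induction n with
  | zero => exact ⟨inferInstanceAs (Finite V), h⟩
  | succ n ih =>
    obtain ⟨h1, h2⟩ := ih
    have := nontrivial_of_hasH1 h2
    have : Nonempty (iterClique G n).1 := inferInstance
    exact ⟨inferInstanceAs (Finite (MaxClique (iterClique G n).2)), hasH1_cliqueGraph h2⟩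

/-- The comparability graph of the hemicube has nontrivial first cohomology mod 2. -/
theorem hasH1_P : HasH1 (comparabilityGraph Q158.RP2.P) := by
  have hrel : ∀ x y : Q158.RP2.P, Rel (comparabilityGraph Q158.RP2.P) x y ↔ (x ≤ y ∨ y ≤ x) := by
    intro x y
    constructor
    · rintro (rfl | h)
      · exact Or.inl le_rfl
      · exact h.2
    · intro h
      by_cases he : x = y
      · exact Or.inl he
      · exact Or.inr ⟨he, h⟩
  refine ⟨Q158.RP2.coc, ?_, ?_⟩
  · intro x y z hxy hyz hxz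
    rw [hrel] at hxy hyz hxz
    exact Q158.RP2.coc_spec x y z hxy hyz hxz
  · rintro ⟨φ, hφ⟩
    let a : Fin 13 → Q158.RP2.P := fun i => i
    have hr : ∀ i j : Fin 13, (Q158.RP2.leN i j = true ∨ Q158.RP2.leN j i = true) →
        Q158.RP2.coc i j = φ (a i) + φ (a j) := fun i j h => hφ (a i) (a j) ((hrel _ _).2 h)
    have h1 := hr 0 4 (by decide +kernel)
    have h2 := hr 1 4 (by decide +kernel)
    have h3 := hr 1 7 (by decide +kernel)
    have h4 := hr 2 7 (by decide +kernel)
    have h5 := hr 0 5 (by decide +kernel)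
    have h6 := hr 2 5 (by decide +kernel)
    have e : Q158.RP2.coc 0 4 + Q158.RP2.coc 1 4 + Q158.RP2.coc 1 7 + Q158.RP2.coc 2 7 +
        Q158.RP2.coc 0 5 + Q158.RP2.coc 2 5 = 1 := by decide +kernel
    rw [h1, h2, h3, h4, h5, h6] at e
    have a0 := add_self (φ (a 0))
    have a1 := add_self (φ (a 1))
    have a2 := add_self (φ (a 2))
    have a4 := add_self (φ (a 4))
    have a5 := add_self (φ (a 5))
    have a7 := add_self (φ (a 7))
    have : (0 : ZMod 2) = 1 := by linear_combination e - a0 - a1 - a2 - a4 - a5 - a7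
    exact absurd this (by decide)

end Q158.CliqueGraph
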