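import Mathlib

set_option autoImplicit false

namespace Q158.CliqueGraph

/-- The comparability graph of an ordered set. -/
def comparabilityGraph (P : Type) [PartialOrder P] : SimpleGraph P where
  Adj x y := x ≠ y ∧ (x ≤ y ∨ y ≤ x)
  symm := ⟨fun _ _ h => ⟨h.1.symm, h.2.symm⟩⟩
  loopless := ⟨fun _ h => h.1 rfl⟩

/-- The vertices of the clique graph: the maximal cliques of `G`. -/
abbrev MaxClique {V : Type} (G : SimpleGraph V) : Type :=
  {s : Set V // Maximal (fun t => G.IsClique t) s}

/-- The clique graph `K(G)`: two distinct maximal cliques are adjacent iff they share a vertex. -/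
def cliqueGraph {V : Type} (G : SimpleGraph V) : SimpleGraph (MaxClique G) where
  Adj s t := s ≠ t ∧ (s.1 ∩ t.1).Nonempty
  symm := ⟨fun _ _ h => ⟨h.1.symm, by rw [Set.inter_comm]; exact h.2⟩⟩
  loopless := ⟨fun _ h => h.1 rfl⟩

/-- The iterated clique graphs `K^n(G)`, as pairs (vertex type, graph). -/
def iterClique {V : Type} (G : SimpleGraph V) : ℕ → Σ W : Type, SimpleGraph W
  | 0 => ⟨V, G⟩
  | n + 1 => ⟨MaxClique (iterClique G n).2, cliqueGraph (iterClique G n).2⟩

end Q158.CliqueGraph
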