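import Mathlib

/-!
A concrete graph on 21 vertices with 26 edges whose poset of connected spanning subgraphs is
not Sperner.  The graph is a closed necklace: cycles of lengths 4, 5, 5, 5, 6 in a row, the two
ends joined by one edge (edge number 0).
-/

namespace Q158.ConnSpan

open Finset

/-- The 26 edges. -/
def E : Fin 26 → Fin 21 × Fin 21 :=
  ![(0,20), (0,1),(1,3),(0,2),(2,3), (3,4),(4,7),(3,5),(5,6),(6,7),
    (7,8),(8,11),(7,9),(9,10),(10,11), (11,12),(12,15),(11,13),(13,14),(14,15),
    (15,16),(16,17),(17,20),(15,18),(18,19),(19,20)]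

/-- The arc (subdivided edge) an edge lies on. -/
def arc : Fin 26 → Fin 11 :=
  ![0, 1,1,2,2, 3,3,4,4,4, 5,5,6,6,6, 7,7,8,8,8, 9,9,9,10,10,10]

/-- Upper end of an arc. -/
def top : Fin 11 → Fin 21 := ![20, 3,3, 7,7, 11,11, 15,15, 20,20]

/-- The arc of which a vertex is an inner vertex (0 for the hubs). -/
def inn : Fin 21 → Fin 11 := ![0, 1,2, 0, 3,4,4, 0, 5,6,6, 0, 7,8,8, 0, 9,9,10,10, 0]

/-- The six links of the closed chain. -/
def link : Fin 6 → Finset (Fin 11) := ![{0},{1,2},{3,4},{5,6},{7,8},{9,10}]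

/-- At most one link is broken. -/
def Good (X : Finset (Fin 11)) : Prop := ∀ i j : Fin 6, link i ⊆ X → link j ⊆ X → i = j

instance : DecidablePred Good := fun X => by unfold Good; infer_instance

/-- The spanning subgraph with the edges outside `D`. -/
def HD (D : Finset (Fin 26)) : SimpleGraph (Fin 21) :=
  SimpleGraph.fromRel (fun u v => ∃ e, e ∉ D ∧ E e = (u, v))

theorem E_ne : ∀ e, (E e).1 ≠ (E e).2 := by decide +kernel

theorem E_inj : ∀ e f, E e = E f → e = f := by decide +kernel

theorem E_swap : ∀ e f, (E e).1 = (E f).2 → (E e).2 = (E f).1 → False := by decide +kernel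

theorem adj_iff (D : Finset (Fin 26)) (u v : Fin 21) :
    (HD D).Adj u v ↔ ∃ e, e ∉ D ∧ (E e = (u, v) ∨ E e = (v, u)) := by
  unfold HD
  rw [SimpleGraph.fromRel_adj]
  constructor
  · rintro ⟨-, ⟨e, h1, h2⟩ | ⟨e, h1, h2⟩⟩
    · exact ⟨e, h1, Or.inl h2⟩
    · exact ⟨e, h1, Or.inr h2⟩
  · rintro ⟨e, h1, h2 | h2⟩
    · refine ⟨?_, Or.inl ⟨e, h1, h2⟩⟩
      have := E_ne e
      rw [h2] at this
      exact this
    · refine ⟨?_, Or.inr ⟨e, h1, h2⟩⟩
      have := E_ne e
      rw [h2] at this
      exact fun h => this h.symm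

theorem adj_E (D : Finset (Fin 26)) (e : Fin 26) :
    (HD D).Adj (E e).1 (E e).2 ↔ e ∉ D := by
  rw [adj_iff]
  constructor
  · rintro ⟨f, h1, h2 | h2⟩
    · have : f = e := E_inj _ _ h2
      rw [← this]; exact h1
    · exfalso
      have h3 : (E f).1 = (E e).2 := by rw [h2]
      have h4 : (E f).2 = (E e).1 := by rw [h2]
      exact E_swap f e h3 h4
  · intro h
    exact ⟨e, h, Or.inl rfl⟩

/-- The missing edges of a subgraph. -/
noncomputable def miss (H : SimpleGraph (Fin 21)) : Finset (Fin 26) := by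
  classical
  exact univ.filter (fun e => ¬ H.Adj (E e).1 (E e).2)

theorem mem_miss (H : SimpleGraph (Fin 21)) (e : Fin 26) :
    e ∈ miss H ↔ ¬ H.Adj (E e).1 (E e).2 := by
  classical
  simp [miss]

theorem HD_miss (H : SimpleGraph (Fin 21)) (hH : H ≤ HD ∅) : HD (miss H) = H := by
  ext u v
  rw [adj_iff]
  constructor
  · rintro ⟨e, h1, h2 | h2⟩
    · rw [mem_miss, not_not, h2] at h1
      exact h1
    · rw [mem_miss, not_not, h2] at h1
      exact h1.symm
  · intro h
    obtain ⟨e, -, h2⟩ := (adj_iff ∅ u v).1 (hH h)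
    refine ⟨e, ?_, h2⟩
    rw [mem_miss, not_not]
    rcases h2 with h2 | h2
    · rw [h2]; exact h
    · rw [h2]; exact h.symm

theorem miss_HD (D : Finset (Fin 26)) : miss (HD D) = D := by
  ext e
  rw [mem_miss, adj_E, not_not]

theorem HD_le (D D' : Finset (Fin 26)) : HD D ≤ HD D' ↔ D' ⊆ D := by
  constructor
  · intro h e he
    by_contra hc
    exact (adj_E D' e).1 (h ((adj_E D e).2 hc)) he
  · intro h u v huv
    rw [adj_iff] at huv ⊢
    obtain ⟨e, h1, h2⟩ := huv
    exact ⟨e, fun hc => h1 (h hc), h2⟩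

theorem HD_inj : Function.Injective HD := by
  intro D D' h
  rw [← miss_HD D, h, miss_HD]

/-- A function constant along the edges outside `D` is constant if the subgraph is connected. -/
theorem const_of_connected {D : Finset (Fin 26)} (hc : (HD D).Connected) (χ : Fin 21 → Bool)
    (h : ∀ e, e ∉ D → χ (E e).1 = χ (E e).2) (u v : Fin 21) : χ u = χ v := by
  have hr := hc.preconnected u v
  obtain ⟨p⟩ := hr
  induction p with
  | nil => rfl
  | cons hadj p ih =>
    rw [← ih]
    obtain ⟨e, h1, h2 | h2⟩ := (adj_iff D _ _).1 hadj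
    · have := h e h1
      rw [h2] at this
      exact this
    · have := h e h1
      rw [h2] at this
      exact this.symm

theorem connected_of_const {D : Finset (Fin 26)}
    (h : ∀ χ : Fin 21 → Bool, (∀ e, e ∉ D → χ (E e).1 = χ (E e).2) → ∀ v, χ v = χ 0) :
    (HD D).Connected := by
  classical
  rw [SimpleGraph.connected_iff_exists_forall_reachable]
  refine ⟨0, fun v => ?_⟩
  have := h (fun v => decide ((HD D).Reachable 0 v)) (fun e he => ?_) v
  · have h0 : decide ((HD D).Reachable 0 0) = true := by simp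
    rw [h0] at this
    simpa using this
  · have hadj := (adj_E D e).2 he
    simp only [decide_eq_decide]
    constructor
    · intro hr
      exact hr.trans hadj.reachable
    · intro hr
      exact hr.trans hadj.symm.reachable

/-- The valid sets of missing edges. -/
def Valid (D : Finset (Fin 26)) : Prop :=
  (∀ e ∈ D, ∀ f ∈ D, arc e = arc f → e = f) ∧ Good (D.image arc)

/-- The segment between two edges of one arc. -/
def seg (e f : Fin 26) (v : Fin 21) : Bool := decide ((E e).2 ≤ v) && decide (v ≤ (E f).1)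

theorem seg_cut : ∀ e f, arc e = arc f → e < f → ∀ g, g ≠ e → g ≠ f →
    seg e f (E g).1 = seg e f (E g).2 := by decide +kernel

theorem seg_true : ∀ e f, arc e = arc f → e < f → seg e f (E e).2 = true := by decide +kernel

theorem seg_false : ∀ e f, arc e = arc f → e < f → seg e f 0 = false := by decide +kernel

/-- The part of the chain after a cut through one block. -/
def aft (ea eb : Fin 26) (v : Fin 21) : Bool :=
  decide (top (arc ea) ≤ v) || (decide (inn v = arc ea) && decide ((E ea).2 ≤ v)) ||
    (decide (inn v = arc eb) && decide ((E eb).2 ≤ v))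

/-- Two edges on the two arcs of one block. -/
def blk (ea eb : Fin 26) : Prop := ∃ i : Fin 5, arc ea = ![1,3,5,7,9] i ∧ arc eb = ![2,4,6,8,10] i

instance (ea eb : Fin 26) : Decidable (blk ea eb) := by unfold blk; infer_instance

theorem aft_cut : ∀ ea eb, blk ea eb → ∀ g, g ≠ 0 → g ≠ ea → g ≠ eb →
    aft ea eb (E g).1 = aft ea eb (E g).2 := by decide +kernel

theorem aft_zero : ∀ ea eb, blk ea eb → aft ea eb 0 = false := by decide +kernel

theorem aft_last : ∀ ea eb, blk ea eb → aft ea eb 20 = true := by decide +kernel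

theorem aft_top : ∀ ea eb, blk ea eb → aft ea eb (top (arc ea)) = true := by decide +kernel

theorem aft_top' : ∀ ea eb, blk ea eb → ∀ x, aft ea eb (top x) = true →
    top (arc ea) ≤ top x := by decide +kernel

theorem get_zero {D : Finset (Fin 26)} (h : link 0 ⊆ D.image arc) : (0 : Fin 26) ∈ D := by
  have h1 : (0 : Fin 11) ∈ D.image arc := h (by decide)
  obtain ⟨e, he, h2⟩ := mem_image.1 h1
  have : e = 0 := by
    revert h2
    clear he
    revert e
    decide
  rw [← this]; exact he

theorem get_blk {D : Finset (Fin 26)} (b : Fin 5) (h : link b.succ ⊆ D.image arc) :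
    ∃ ea ∈ D, ∃ eb ∈ D, arc ea = ![1,3,5,7,9] b ∧ arc eb = ![2,4,6,8,10] b := by
  have h1 : (![1,3,5,7,9] b : Fin 11) ∈ link b.succ := by clear h; revert b; decide
  have h2 : (![2,4,6,8,10] b : Fin 11) ∈ link b.succ := by clear h1 h; revert b; decide
  obtain ⟨ea, ha, h3⟩ := mem_image.1 (h h1)
  obtain ⟨eb, hb, h4⟩ := mem_image.1 (h h2)
  exact ⟨ea, ha, eb, hb, h3, h4⟩

theorem top_inj : ∀ b b' : Fin 5, top (![1,3,5,7,9] b) ≤ top (![1,3,5,7,9] b') →
    top (![1,3,5,7,9] b') ≤ top (![1,3,5,7,9] b) → b = b' := by decide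

theorem valid_of_connected {D : Finset (Fin 26)} (hc : (HD D).Connected) : Valid D := by
  refine ⟨?_, ?_⟩
  · intro e he f hf hef
    by_contra hne
    rcases lt_or_gt_of_ne hne with hlt | hlt
    · have := const_of_connected hc (seg e f) (fun g hg => seg_cut e f hef hlt g
        (by rintro rfl; exact hg he) (by rintro rfl; exact hg hf)) (E e).2 0
      rw [seg_true e f hef hlt, seg_false e f hef hlt] at this
      cases this
    · have := const_of_connected hc (seg f e) (fun g hg => seg_cut f e hef.symm hlt g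
        (by rintro rfl; exact hg hf) (by rintro rfl; exact hg he)) (E f).2 0
      rw [seg_true f e hef.symm hlt, seg_false f e hef.symm hlt] at this
      cases this
  · -- a broken block together with the broken link 0 is impossible
    have h0b : ∀ b : Fin 5, link 0 ⊆ D.image arc → link b.succ ⊆ D.image arc → False := by
      intro b h0 hb
      have hz := get_zero h0
      obtain ⟨ea, ha, eb, hb', h1, h2⟩ := get_blk b hb
      have hblk : blk ea eb := ⟨b, h1, h2⟩
      have := const_of_connected hc (aft ea eb) (fun g hg => aft_cut ea eb hblk g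
        (by rintro rfl; exact hg hz) (by rintro rfl; exact hg ha)
        (by rintro rfl; exact hg hb')) 0 20
      rw [aft_zero ea eb hblk, aft_last ea eb hblk] at this
      cases this
    intro i j hi hj
    induction i using Fin.cases with
    | zero =>
      induction j using Fin.cases with
      | zero => rfl
      | succ b => exact (h0b b hi hj).elim
    | succ b =>
      induction j using Fin.cases with
      | zero => exact (h0b b hj hi).elim
      | succ b' =>
        obtain ⟨ea, ha, eb, hb, h1, h2⟩ := get_blk b hi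
        obtain ⟨ea', ha', eb', hb', h1', h2'⟩ := get_blk b' hj
        have hblk : blk ea eb := ⟨b, h1, h2⟩
        have hblk' : blk ea' eb' := ⟨b', h1', h2'⟩
        have hconst := const_of_connected hc (fun v => xor (aft ea eb v) (aft ea' eb' v))
          (fun g hg => by
            by_cases hg0 : g = 0
            · subst hg0
              show xor (aft ea eb 0) (aft ea' eb' 0) = xor (aft ea eb 20) (aft ea' eb' 20)
              rw [aft_zero ea eb hblk, aft_last ea eb hblk, aft_zero ea' eb' hblk',
                aft_last ea' eb' hblk']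
              rfl
            · have e1 := aft_cut ea eb hblk g hg0 (by rintro rfl; exact hg ha)
                (by rintro rfl; exact hg hb)
              have e2 := aft_cut ea' eb' hblk' g hg0 (by rintro rfl; exact hg ha')
                (by rintro rfl; exact hg hb')
              show xor (aft ea eb _) (aft ea' eb' _) = xor (aft ea eb _) (aft ea' eb' _)
              rw [e1, e2])
        have c0 : xor (aft ea eb 0) (aft ea' eb' 0) = false := by
          rw [aft_zero ea eb hblk, aft_zero ea' eb' hblk']; rfl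
        have t1 : aft ea' eb' (top (arc ea)) = true := by
          have := hconst (top (arc ea)) 0
          rw [c0, aft_top ea eb hblk] at this
          simpa using this
        have t2 : aft ea eb (top (arc ea')) = true := by
          have := hconst (top (arc ea')) 0
          rw [c0, aft_top ea' eb' hblk'] at this
          simpa using this
        have t3 := aft_top' ea' eb' hblk' _ t1
        have t4 := aft_top' ea eb hblk _ t2
        rw [h1, h1'] at t3 t4
        rw [top_inj b b' t4 t3]

theorem inner2 : ∀ a m b : Bool, (a = m ∨ m = b) → a = b → m = b := by decide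

theorem inner3 : ∀ a m n b : Bool, (a = m ∨ m = n) → (m = n ∨ n = b) → (a = m ∨ n = b) →
    a = b → m = b ∧ n = b := by decide

theorem hubs : ∀ a b c d e f : Bool, (a = f ∨ a = b) → (a = f ∨ b = c) → (a = f ∨ c = d) →
    (a = f ∨ d = e) → (a = f ∨ e = f) → (a = b ∨ b = c) → (a = b ∨ c = d) → (a = b ∨ d = e) →
    (a = b ∨ e = f) → (b = c ∨ c = d) → (b = c ∨ d = e) → (b = c ∨ e = f) → (c = d ∨ d = e) →
    (c = d ∨ e = f) → (d = e ∨ e = f) → b = a ∧ c = a ∧ d = a ∧ e = a ∧ f = a := by
  intro a b c d e f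
  cases a <;> cases b <;> cases c <;> cases d <;> cases e <;> cases f <;> simp

theorem const_of_valid {D : Finset (Fin 26)} (hD : Valid D) (χ : Fin 21 → Bool)
    (h : ∀ e, e ∉ D → χ (E e).1 = χ (E e).2) : ∀ v, χ v = χ 0 := by
  have hp : ∀ e f, arc e = arc f → e ≠ f →
      (χ (E e).1 = χ (E e).2 ∨ χ (E f).1 = χ (E f).2) := by
    intro e f hef hne
    by_contra hcon
    push Not at hcon
    have he : e ∈ D := by
      by_contra hc; exact hcon.1 (h e hc)
    have hf : f ∈ D := by
      by_contra hc; exact hcon.2 (h f hc)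
    exact hne (hD.1 e he f hf hef)
  have ha : ∀ x, x ∉ D.image arc → ∀ e, arc e = x → χ (E e).1 = χ (E e).2 := by
    intro x hx e he
    apply h
    intro hc
    exact hx (mem_image.2 ⟨e, hc, he⟩)
  have u0 : ¬ link 0 ⊆ D.image arc → χ 0 = χ 20 := by
    intro hn
    by_contra hc
    apply hn
    have h0 : (0 : Fin 11) ∈ D.image arc := by
      by_contra hx
      exact hc (ha 0 hx 0 (by decide))
    intro x hx
    have : x = 0 := by revert hx; revert x; decide
    rw [this]; exact h0
  have hlk : ∀ (b : Fin 5) (a c : Fin 21), (∀ x ∈ link b.succ, x ∉ D.image arc → χ a = χ c) →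
      ¬ link b.succ ⊆ D.image arc → χ a = χ c := by
    intro b a c hx hn
    rw [not_subset] at hn
    obtain ⟨x, h1, h2⟩ := hn
    exact hx x h1 h2
  have l1 : ∀ x : Fin 11, x ∈ link 1 → x = 1 ∨ x = 2 := by decide
  have l2 : ∀ x : Fin 11, x ∈ link 2 → x = 3 ∨ x = 4 := by decide
  have l3 : ∀ x : Fin 11, x ∈ link 3 → x = 5 ∨ x = 6 := by decide
  have l4 : ∀ x : Fin 11, x ∈ link 4 → x = 7 ∨ x = 8 := by decide
  have l5 : ∀ x : Fin 11, x ∈ link 5 → x = 9 ∨ x = 10 := by decide
  have u1 : ¬ link 1 ⊆ D.image arc → χ 0 = χ 3 := hlk 0 0 3 (by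
    intro x hx hn
    rcases l1 x hx with rfl | rfl
    · exact (ha 1 hn 1 (by decide)).trans (ha 1 hn 2 (by decide))
    · exact (ha 2 hn 3 (by decide)).trans (ha 2 hn 4 (by decide)))
  have u2 : ¬ link 2 ⊆ D.image arc → χ 3 = χ 7 := hlk 1 3 7 (by
    intro x hx hn
    rcases l2 x hx with rfl | rfl
    · exact (ha 3 hn 5 (by decide)).trans (ha 3 hn 6 (by decide))
    · exact ((ha 4 hn 7 (by decide)).trans (ha 4 hn 8 (by decide))).trans
        (ha 4 hn 9 (by decide)))
  have u3 : ¬ link 3 ⊆ D.image arc → χ 7 = χ 11 := hlk 2 7 11 (by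
    intro x hx hn
    rcases l3 x hx with rfl | rfl
    · exact (ha 5 hn 10 (by decide)).trans (ha 5 hn 11 (by decide))
    · exact ((ha 6 hn 12 (by decide)).trans (ha 6 hn 13 (by decide))).trans
        (ha 6 hn 14 (by decide)))
  have u4 : ¬ link 4 ⊆ D.image arc → χ 11 = χ 15 := hlk 3 11 15 (by
    intro x hx hn
    rcases l4 x hx with rfl | rfl
    · exact (ha 7 hn 15 (by decide)).trans (ha 7 hn 16 (by decide))
    · exact ((ha 8 hn 17 (by decide)).trans (ha 8 hn 18 (by decide))).trans
        (ha 8 hn 19 (by decide)))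
  have u5 : ¬ link 5 ⊆ D.image arc → χ 15 = χ 20 := hlk 4 15 20 (by
    intro x hx hn
    rcases l5 x hx with rfl | rfl
    · exact ((ha 9 hn 20 (by decide)).trans (ha 9 hn 21 (by decide))).trans
        (ha 9 hn 22 (by decide))
    · exact ((ha 10 hn 23 (by decide)).trans (ha 10 hn 24 (by decide))).trans
        (ha 10 hn 25 (by decide)))
  have pr : ∀ (i j : Fin 6) (P Q : Prop), i ≠ j → (¬ link i ⊆ D.image arc → P) →
      (¬ link j ⊆ D.image arc → Q) → P ∨ Q := by
    intro i j P Q hij hP hQ
    by_contra hc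
    push Not at hc
    apply hij
    apply hD.2 i j
    · by_contra hx; exact hc.1 (hP hx)
    · by_contra hx; exact hc.2 (hQ hx)
  obtain ⟨g3, g7, g11, g15, g20⟩ := hubs (χ 0) (χ 3) (χ 7) (χ 11) (χ 15) (χ 20)
    (pr 0 1 _ _ (by decide) u0 u1) (pr 0 2 _ _ (by decide) u0 u2)
    (pr 0 3 _ _ (by decide) u0 u3) (pr 0 4 _ _ (by decide) u0 u4)
    (pr 0 5 _ _ (by decide) u0 u5) (pr 1 2 _ _ (by decide) u1 u2)
    (pr 1 3 _ _ (by decide) u1 u3) (pr 1 4 _ _ (by decide) u1 u4)
    (pr 1 5 _ _ (by decide) u1 u5) (pr 2 3 _ _ (by decide) u2 u3)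
    (pr 2 4 _ _ (by decide) u2 u4) (pr 2 5 _ _ (by decide) u2 u5)
    (pr 3 4 _ _ (by decide) u3 u4) (pr 3 5 _ _ (by decide) u3 u5)
    (pr 4 5 _ _ (by decide) u4 u5)
  have i1 := inner2 (χ 0) (χ 1) (χ 3) (hp 1 2 (by decide) (by decide)) g3.symm
  have i2 := inner2 (χ 0) (χ 2) (χ 3) (hp 3 4 (by decide) (by decide)) g3.symm
  have i4 := inner2 (χ 3) (χ 4) (χ 7) (hp 5 6 (by decide) (by decide)) (g3.trans g7.symm)
  have i5 := inner3 (χ 3) (χ 5) (χ 6) (χ 7) (hp 7 8 (by decide) (by decide))
    (hp 8 9 (by decide) (by decide)) (hp 7 9 (by decide) (by decide)) (g3.trans g7.symm)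
  have i8 := inner2 (χ 7) (χ 8) (χ 11) (hp 10 11 (by decide) (by decide)) (g7.trans g11.symm)
  have i9 := inner3 (χ 7) (χ 9) (χ 10) (χ 11) (hp 12 13 (by decide) (by decide))
    (hp 13 14 (by decide) (by decide)) (hp 12 14 (by decide) (by decide)) (g7.trans g11.symm)
  have i12 := inner2 (χ 11) (χ 12) (χ 15) (hp 15 16 (by decide) (by decide))
    (g11.trans g15.symm)
  have i13 := inner3 (χ 11) (χ 13) (χ 14) (χ 15) (hp 17 18 (by decide) (by decide))
    (hp 18 19 (by decide) (by decide)) (hp 17 19 (by decide) (by decide)) (g11.trans g15.symm)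
  have i16 := inner3 (χ 15) (χ 16) (χ 17) (χ 20) (hp 20 21 (by decide) (by decide))
    (hp 21 22 (by decide) (by decide)) (hp 20 22 (by decide) (by decide)) (g15.trans g20.symm)
  have i18 := inner3 (χ 15) (χ 18) (χ 19) (χ 20) (hp 23 24 (by decide) (by decide))
    (hp 24 25 (by decide) (by decide)) (hp 23 25 (by decide) (by decide)) (g15.trans g20.symm)
  intro v
  fin_cases v
  · rfl
  · exact i1.trans g3
  · exact i2.trans g3
  · exact g3
  · exact i4.trans g7
  · exact i5.1.trans g7
  · exact i5.2.trans g7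
  · exact g7
  · exact i8.trans g11
  · exact i9.1.trans g11
  · exact i9.2.trans g11
  · exact g11
  · exact i12.trans g15
  · exact i13.1.trans g15
  · exact i13.2.trans g15
  · exact g15
  · exact i16.1.trans g20
  · exact i16.2.trans g20
  · exact i18.1.trans g20
  · exact i18.2.trans g20
  · exact g20

theorem connected_iff (D : Finset (Fin 26)) : (HD D).Connected ↔ Valid D :=
  ⟨valid_of_connected, fun h => connected_of_const (const_of_valid h)⟩

end Q158.ConnSpan
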