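import Pool.Agent.Q158.ConnSpan

/-! Counting the connected spanning subgraphs of the necklace graph. -/

namespace Q158.ConnSpan

open Finset

/-- Number of edges on an arc. -/
def wt : Fin 11 → ℕ := ![1, 2, 2, 2, 3, 2, 3, 2, 3, 3, 3]

theorem wt_eq : ∀ x, (univ.filter (fun e : Fin 26 => arc e = x)).card = wt x := by
  decide +kernel

/-- Sets of edges with exactly one edge on each arc of `X` and none elsewhere. -/
def transv (X : Finset (Fin 11)) : Finset (Finset (Fin 26)) :=
  univ.filter (fun D => (∀ e ∈ D, ∀ f ∈ D, arc e = arc f → e = f) ∧ D.image arc = X)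

theorem card_transv (X : Finset (Fin 11)) : (transv X).card = ∏ x ∈ X, wt x := by
  have h1 : (X.pi (fun x => univ.filter (fun e : Fin 26 => arc e = x))).card =
      ∏ x ∈ X, wt x := by
    rw [card_pi]
    exact prod_congr rfl (fun x _ => wt_eq x)
  rw [← h1]
  symm
  classical
  have hg : ∀ g ∈ X.pi (fun x => univ.filter (fun e : Fin 26 => arc e = x)),
      ∀ x (hx : x ∈ X), arc (g x hx) = x := by
    intro g hg x hx
    have := mem_pi.1 hg x hx
    exact (mem_filter.1 this).2
  apply card_bij (fun g _ => univ.filter (fun e => ∃ h : arc e ∈ X, g (arc e) h = e))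
  · intro g hgm
    simp only [transv, mem_filter, mem_univ, true_and]
    refine ⟨?_, ?_⟩
    · rintro e ⟨h2, h3⟩ f ⟨h4, h5⟩ hef
      rw [← h3, ← h5]
      congr 1
    · ext x
      simp only [mem_image, mem_filter, mem_univ, true_and]
      constructor
      · rintro ⟨e, ⟨h2, -⟩, rfl⟩
        exact h2
      · intro hx
        have h2 := hg g hgm x hx
        refine ⟨g x hx, ⟨by rw [h2]; exact hx, ?_⟩, h2⟩
        congr 1
  · intro g hgm g' hgm' heq
    funext x hx
    have h2 := hg g hgm x hx
    have h3 : g x hx ∈ univ.filter (fun e => ∃ h : arc e ∈ X, g (arc e) h = e) := by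
      simp only [mem_filter, mem_univ, true_and]
      refine ⟨by rw [h2]; exact hx, ?_⟩
      congr 1
    rw [heq] at h3
    simp only [mem_filter, mem_univ, true_and] at h3
    obtain ⟨h4, h5⟩ := h3
    rw [← h5]
    congr 1
  · intro D hD
    simp only [transv, mem_filter, mem_univ, true_and] at hD
    obtain ⟨h2, h3⟩ := hD
    have h4 : ∀ x (hx : x ∈ X), ∃ e, e ∈ D ∧ arc e = x := by
      intro x hx
      rw [← h3] at hx
      exact mem_image.1 hx
    choose g hg1 hg2 using h4
    refine ⟨g, ?_, ?_⟩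
    · rw [mem_pi]
      intro x hx
      simp only [mem_filter, mem_univ, true_and]
      exact hg2 x hx
    · ext e
      simp only [mem_filter, mem_univ, true_and]
      constructor
      · rintro ⟨h5, h6⟩
        rw [← h6]
        exact hg1 _ _
      · intro he
        have h5 : arc e ∈ X := by rw [← h3]; exact mem_image_of_mem _ he
        exact ⟨h5, h2 _ (hg1 _ _) _ he (hg2 _ _)⟩

instance : DecidablePred Valid := fun D => by unfold Valid; infer_instance

theorem card_valid (Q : Finset (Fin 11) → Prop) [DecidablePred Q] :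
    (univ.filter (fun D : Finset (Fin 26) => Valid D ∧ Q (D.image arc))).card =
      ∑ X ∈ univ.filter (fun X : Finset (Fin 11) => Good X ∧ Q X), ∏ x ∈ X, wt x := by
  rw [card_eq_sum_card_fiberwise (f := fun D : Finset (Fin 26) => D.image arc)
    (t := univ.filter (fun X : Finset (Fin 11) => Good X ∧ Q X))]
  · apply sum_congr rfl
    intro X hX
    rw [← card_transv X]
    congr 1
    ext D
    simp only [mem_filter, mem_univ, true_and, transv] at hX ⊢
    constructor
    · rintro ⟨⟨h1, h2⟩, h3⟩
      exact ⟨h1.1, h3⟩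
    · rintro ⟨h1, h2⟩
      exact ⟨⟨⟨h1, by rw [h2]; exact hX.1⟩, by rw [h2]; exact hX.2⟩, h2⟩
  · intro D hD
    simp only [coe_filter, mem_univ, true_and, Set.mem_ofPred_eq] at hD ⊢
    exact ⟨hD.1.2, hD.2⟩

theorem card_image_arc {D : Finset (Fin 26)} (h : Valid D) : (D.image arc).card = D.card := by
  apply card_image_of_injOn
  intro e he f hf hef
  exact h.1 e he f hf hef

/-- The weighted number of good supports of size `c`. -/
def lvl (c : ℕ) : ℕ :=
  ∑ X ∈ univ.filter (fun X : Finset (Fin 11) => Good X ∧ X.card = c), ∏ x ∈ X, wt x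

theorem lvl_le : ∀ c < 12, lvl c ≤ 21300 := by decide +kernel

theorem lvl_le' (c : ℕ) : lvl c ≤ 21300 := by
  by_cases h : c < 12
  · exact lvl_le c h
  · have : lvl c = 0 := by
      unfold lvl
      apply sum_eq_zero
      intro X hX
      simp only [mem_filter, mem_univ, true_and] at hX
      have := card_le_univ X
      rw [hX.2] at this
      simp only [Fintype.card_fin] at this
      omega
    omega

theorem card_lvl (c : ℕ) :
    (univ.filter (fun D : Finset (Fin 26) => Valid D ∧ D.card = c)).card = lvl c := by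
  have h : (univ.filter (fun D : Finset (Fin 26) => Valid D ∧ D.card = c)) =
      (univ.filter (fun D : Finset (Fin 26) => Valid D ∧ (D.image arc).card = c)) := by
    apply filter_congr
    intro D _
    constructor
    · rintro ⟨h1, h2⟩
      exact ⟨h1, by rw [card_image_arc h1]; exact h2⟩
    · rintro ⟨h1, h2⟩
      exact ⟨h1, by rw [← card_image_arc h1]; exact h2⟩
  rw [h]
  exact card_valid (fun X => X.card = c)

theorem edge_inj : Function.Injective (fun e : Fin 26 => s((E e).1, (E e).2)) := by
  intro e f h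
  simp only [Sym2.eq_iff] at h
  rcases h with ⟨h1, h2⟩ | ⟨h1, h2⟩
  · exact E_inj e f (Prod.ext h1 h2)
  · exact (E_swap e f h1 h2).elim

theorem ncard_edges (H : SimpleGraph (Fin 21)) (hH : H ≤ HD ∅) :
    H.edgeSet.ncard + (miss H).card = 26 := by
  classical
  have h1 : H.edgeSet = (fun e : Fin 26 => s((E e).1, (E e).2)) '' (↑((miss H)ᶜ) : Set (Fin 26)) := by
    ext x
    induction x using Sym2.ind with
    | _ u v =>
      simp only [SimpleGraph.mem_edgeSet, Set.mem_image, mem_coe, mem_compl, mem_miss, not_not]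
      constructor
      · intro h
        obtain ⟨e, -, h2⟩ := (adj_iff ∅ u v).1 (hH h)
        rcases h2 with h2 | h2
        · refine ⟨e, ?_, ?_⟩
          · rw [h2]; exact h
          · rw [h2]
        · refine ⟨e, ?_, ?_⟩
          · rw [h2]; exact h.symm
          · rw [h2]; exact Sym2.eq_swap
      · rintro ⟨e, h2, h3⟩
        rw [← SimpleGraph.mem_edgeSet, ← h3, SimpleGraph.mem_edgeSet]
        exact h2
  rw [h1, Set.ncard_image_of_injective _ edge_inj, Set.ncard_coe_finset, card_compl,
    Fintype.card_fin]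
  have := card_le_univ (miss H)
  simp only [Fintype.card_fin] at this
  omega

theorem level_le (k : ℕ) :
    {H : SimpleGraph (Fin 21) | H ≤ HD ∅ ∧ H.Connected ∧ H.edgeSet.ncard = k}.ncard ≤ 21300 := by
  classical
  have h1 : {H : SimpleGraph (Fin 21) | H ≤ HD ∅ ∧ H.Connected ∧ H.edgeSet.ncard = k}.ncard ≤
      ((univ.filter (fun D : Finset (Fin 26) => Valid D ∧ D.card = 26 - k) :
        Finset (Finset (Fin 26))) : Set (Finset (Fin 26))).ncard := by
    apply Set.ncard_le_ncard_of_injOn miss
    · rintro H ⟨h2, h3, h4⟩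
      simp only [coe_filter, mem_univ, true_and, Set.mem_ofPred_eq]
      have h5 := ncard_edges H h2
      refine ⟨?_, by omega⟩
      rw [← connected_iff, HD_miss H h2]
      exact h3
    · rintro H ⟨h2, -⟩ H' ⟨h2', -⟩ h
      rw [← HD_miss H h2, h, HD_miss H' h2']
  rw [Set.ncard_coe_finset, card_lvl] at h1
  exact h1.trans (lvl_le' _)

/-- The supports of the antichain. -/
def QA (X : Finset (Fin 11)) : Prop := (X.card = 6 ∧ (0 : Fin 11) ∉ X) ∨ (X.card = 5 ∧ (0 : Fin 11) ∈ X)

instance : DecidablePred QA := fun X => by unfold QA; infer_instance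

theorem sum_QA : ∑ X ∈ univ.filter (fun X : Finset (Fin 11) => Good X ∧ QA X), ∏ x ∈ X, wt x =
    21350 := by decide +kernel

/-- The antichain. -/
def AC : Set (SimpleGraph (Fin 21)) :=
  HD '' (↑(univ.filter (fun D : Finset (Fin 26) => Valid D ∧ QA (D.image arc))) : Set (Finset (Fin 26)))

theorem ncard_AC : AC.ncard = 21350 := by
  unfold AC
  rw [Set.ncard_image_of_injective _ HD_inj, Set.ncard_coe_finset, card_valid, sum_QA]

theorem arc_zero : ∀ e, arc e = 0 ↔ e = 0 := by decide

theorem zero_mem_iff (D : Finset (Fin 26)) : (0 : Fin 11) ∈ D.image arc ↔ (0 : Fin 26) ∈ D := by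
  simp only [mem_image, arc_zero]
  constructor
  · rintro ⟨e, h, rfl⟩; exact h
  · intro h; exact ⟨0, h, rfl⟩

theorem result_aux : ∃ (n : ℕ) (G : SimpleGraph (Fin n)), G.Connected ∧
    ∃ A : Set (SimpleGraph (Fin n)), (∀ H ∈ A, H ≤ G ∧ H.Connected) ∧ IsAntichain (· ≤ ·) A ∧
      ∀ k : ℕ, {H : SimpleGraph (Fin n) | H ≤ G ∧ H.Connected ∧ H.edgeSet.ncard = k}.ncard <
        A.ncard := by
  refine ⟨21, HD ∅, ?_, AC, ?_, ?_, ?_⟩
  · rw [connected_iff]
    refine ⟨by simp, ?_⟩
    decide
  · rintro H ⟨D, hD, rfl⟩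
    simp only [coe_filter, mem_univ, true_and, Set.mem_ofPred_eq] at hD
    exact ⟨(HD_le D ∅).2 (empty_subset D), (connected_iff D).2 hD.1⟩
  · rintro H ⟨D, hD, rfl⟩ H' ⟨D', hD', rfl⟩ hne hle
    simp only [coe_filter, mem_univ, true_and, Set.mem_ofPred_eq] at hD hD'
    rw [HD_le] at hle
    have hss : D' ⊂ D := hle.ssubset_of_ne (fun h => hne (by rw [h]))
    have hlt := card_lt_card hss
    obtain ⟨hv, hq⟩ := hD
    obtain ⟨hv', hq'⟩ := hD'
    unfold QA at hq hq'
    rw [card_image_arc hv, zero_mem_iff] at hq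
    rw [card_image_arc hv', zero_mem_iff] at hq'
    rcases hq with ⟨h1, h2⟩ | ⟨h1, h2⟩ <;> rcases hq' with ⟨h3, h4⟩ | ⟨h3, h4⟩
    · omega
    · exact h2 (hle h4)
    · omega
    · omega
  · intro k
    rw [ncard_AC]
    have := level_le k
    omega

end Q158.ConnSpan
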