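import Pool.Agent.Q158.CoverUnivDefs

set_option autoImplicit false

namespace Q158.CoverUniv

/-- The universal ordered set: an index `i` together with a set of other indices. -/
def U (n : ℕ) : Type := Σ i : Fin n, {S : Finset (Fin n) // i ∉ S}

instance (n : ℕ) : Fintype (U n) := inferInstanceAs (Fintype (Σ i : Fin n, {S : Finset (Fin n) // i ∉ S}))

theorem card_U (n : ℕ) : Fintype.card (U n) = n * 2 ^ (n - 1) := by
  have h1 : Fintype.card (U n) = ∑ i : Fin n, Fintype.card {S : Finset (Fin n) // i ∉ S} :=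
    Fintype.card_sigma
  rw [h1]
  have h2 : ∀ i : Fin n, Fintype.card {S : Finset (Fin n) // i ∉ S} = 2 ^ (n - 1) := by
    intro i
    rw [Fintype.card_subtype]
    have : (Finset.univ.filter fun S : Finset (Fin n) => i ∉ S)
        = (Finset.univ.erase i).powerset := by
      ext S
      simp only [Finset.mem_filter, Finset.mem_univ, true_and, Finset.mem_powerset,
        Finset.subset_erase, Finset.subset_univ]
    rw [this, Finset.card_powerset, Finset.card_erase_of_mem (Finset.mem_univ i), Finset.card_univ,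
      Fintype.card_fin]
  rw [Finset.sum_congr rfl fun i _ => h2 i]
  simp

/-- strict order on `U n` -/
def lt' {n : ℕ} (x y : U n) : Prop :=
  x.1 < y.1 ∧ x.1 ∈ y.2.1 ∧ y.1 ∈ x.2.1 ∧ (∀ k, k < x.1 → k ∈ x.2.1 → k ∈ y.2.1) ∧
    ∀ k, y.1 < k → k ∈ y.2.1 → k ∈ x.2.1

theorem lt'_trans {n : ℕ} {x y z : U n} (h : lt' x y) (h' : lt' y z) : lt' x z := by
  obtain ⟨h1, h2, h3, h4, h5⟩ := h
  obtain ⟨g1, g2, g3, g4, g5⟩ := h'
  exact ⟨h1.trans g1, g4 _ h1 h2, h5 _ g1 g3, fun k hk hkx => g4 k (hk.trans h1) (h4 k hk hkx),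
    fun k hk hkz => h5 k (g1.trans hk) (g5 k hk hkz)⟩

instance (n : ℕ) : PartialOrder (U n) where
  le x y := x = y ∨ lt' x y
  le_refl x := Or.inl rfl
  le_trans x y z := by
    rintro (rfl | h) (rfl | h')
    · exact Or.inl rfl
    · exact Or.inr h'
    · exact Or.inr h
    · exact Or.inr (lt'_trans h h')
  le_antisymm x y := by
    rintro (rfl | h) (h' | h')
    · rfl
    · rfl
    · exact h'.symm
    · exact absurd (h.1.trans h'.1) (lt_irrefl _)

theorem lt_iff {n : ℕ} (x y : U n) : x < y ↔ lt' x y := by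
  rw [lt_iff_le_and_ne]
  constructor
  · rintro ⟨h | h, hne⟩
    · exact absurd h hne
    · exact h
  · intro h
    exact ⟨Or.inr h, fun he => by rw [he] at h; exact lt_irrefl _ h.1⟩

theorem universal (n : ℕ) : CoverUniversal n (U n) := by
  classical
  intro Q _ _ hQ
  -- a linear extension with indices in `Fin n`
  obtain ⟨idx, hidx, hmono⟩ : ∃ idx : Q → Fin n, Function.Injective idx ∧
      ∀ x y, x < y → idx x < idx y := by
    let _ : Fintype (LinearExtension Q) := inferInstanceAs (Fintype Q)
    have hc : Fintype.card (LinearExtension Q) = Fintype.card Q := rfl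
    let e := (Fintype.orderIsoFinOfCardEq (LinearExtension Q) hc).symm
    refine ⟨fun x => Fin.castLE hQ (e (toLinearExtension x)), ?_, ?_⟩
    · intro x y h
      have h1 := Fin.castLE_injective hQ h
      exact e.injective h1
    · intro x y h
      have h1 : toLinearExtension x < toLinearExtension y := by
        apply lt_of_le_of_ne (toLinearExtension.monotone h.le)
        intro he
        exact h.ne he
      exact Fin.castLE_lt_castLE_iff hQ |>.2 (e.lt_iff_lt.2 h1)
  have hlt : ∀ x y : Q, (x < y ∨ y < x) → idx x < idx y → x < y := by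
    rintro x y (h | h) hi
    · exact h
    · exact absurd (hmono _ _ h) (not_lt.2 hi.le)
  let S : Q → Finset (Fin n) := fun x =>
    (Finset.univ.filter fun z => z < x ∨ x < z).image idx
  have hS : ∀ x z, idx z ∈ S x ↔ (z < x ∨ x < z) := by
    intro x z
    simp only [S, Finset.mem_image, Finset.mem_filter, Finset.mem_univ, true_and]
    constructor
    · rintro ⟨w, hw, hwz⟩
      rw [← hidx hwz]; exact hw
    · intro h; exact ⟨z, h, rfl⟩
  have hSmem : ∀ x k, k ∈ S x → ∃ z, idx z = k ∧ (z < x ∨ x < z) := by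
    intro x k hk
    simp only [S, Finset.mem_image, Finset.mem_filter, Finset.mem_univ, true_and] at hk
    obtain ⟨z, hz, hzk⟩ := hk
    exact ⟨z, hzk, hz⟩
  let f : Q → U n := fun x => ⟨idx x, S x, by rw [hS]; simp⟩
  have hf : ∀ x y, lt' (f x) (f y) ↔ x < y := by
    intro x y
    constructor
    · rintro ⟨h1, h2, -, -, -⟩
      exact hlt x y ((hS y x).1 h2) h1
    · intro h
      refine ⟨hmono x y h, (hS y x).2 (Or.inl h), (hS x y).2 (Or.inr h), ?_, ?_⟩
      · intro k hk hkx
        obtain ⟨z, rfl, hz⟩ := hSmem x k hkx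
        have hzx : z < x := hlt z x hz hk
        exact (hS y z).2 (Or.inl (hzx.trans h))
      · intro k hk hky
        obtain ⟨z, rfl, hz⟩ := hSmem y k hky
        have hyz : y < z := hlt y z hz.symm hk
        exact (hS x z).2 (Or.inr (h.trans hyz))
  have hfinj : Function.Injective f := by
    intro x y h
    exact hidx (congrArg Sigma.fst h)
  refine ⟨⟨⟨f, hfinj⟩, ?_⟩, ?_⟩
  · intro x y
    change (f x = f y ∨ lt' (f x) (f y)) ↔ x ≤ y
    rw [hf, hfinj.eq_iff]
    constructor
    · rintro (h | h)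
      · exact h.le
      · exact h.le
    · intro h
      exact h.eq_or_lt
  · intro x y hxy
    change f x ⋖ f y
    refine ⟨(lt_iff _ _).2 ((hf x y).2 hxy.lt), ?_⟩
    intro z hxz hzy
    rw [lt_iff] at hxz hzy
    obtain ⟨h1, -, h3, -, -⟩ := hxz
    obtain ⟨g1, g2, -, -, -⟩ := hzy
    obtain ⟨w, hw, hwx⟩ := hSmem x z.1 h3
    have hw2 : idx w ∈ S y := by rw [hw]; exact g2
    have hwy := (hS y w).1 hw2
    have hxw : x < w := hlt x w hwx.symm (by rw [hw]; exact h1)
    have hwy' : w < y := hlt w y hwy (by rw [hw]; exact g1)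
    exact hxy.2 hxw hwy'

theorem b_le (n : ℕ) : b n ≤ n * 2 ^ (n - 1) := by
  apply Nat.sInf_le
  exact ⟨U n, inferInstance, inferInstance, card_U n, universal n⟩

/-- the height-two order on `Fin a ⊕ Fin c` given by a relation -/
def Bip (a c : ℕ) (_ : Fin a → Fin c → Bool) : Type := Fin a ⊕ Fin c

instance (a c : ℕ) (R : Fin a → Fin c → Bool) : Fintype (Bip a c R) :=
  inferInstanceAs (Fintype (Fin a ⊕ Fin c))

/-- the strict relation -/
def bipLt {a c : ℕ} (R : Fin a → Fin c → Bool) : Fin a ⊕ Fin c → Fin a ⊕ Fin c → Prop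
  | Sum.inl i, Sum.inr j => R i j = true
  | _, _ => False

instance (a c : ℕ) (R : Fin a → Fin c → Bool) : PartialOrder (Bip a c R) where
  le x y := x = y ∨ bipLt R x y
  le_refl x := Or.inl rfl
  le_trans x y z := by
    rintro (rfl | h) (rfl | h')
    · exact Or.inl rfl
    · exact Or.inr h'
    · exact Or.inr h
    · rcases x with i | i <;> rcases y with j | j <;> rcases z with k | k <;>
        simp_all [bipLt]
  le_antisymm x y := by
    rintro (rfl | h) (h' | h')
    · rfl
    · rfl
    · exact h'.symm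
    · rcases x with i | i <;> rcases y with j | j <;> simp_all [bipLt]

theorem lower {n : ℕ} (P : Type) [PartialOrder P] [Fintype P] (hP : CoverUniversal n P)
    (a c : ℕ) (hac : a + c = n) : 2 ^ (a * c) ≤ Fintype.card P ^ n := by
  classical
  have h : ∀ R : Fin a → Fin c → Bool, ∃ f : Fin a ⊕ Fin c → P,
      ∀ i j, R i j = true ↔ f (Sum.inl i) < f (Sum.inr j) := by
    intro R
    obtain ⟨f, -⟩ := hP (Bip a c R) (by
      change Fintype.card (Fin a ⊕ Fin c) ≤ n
      rw [Fintype.card_sum, Fintype.card_fin, Fintype.card_fin, hac])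
    refine ⟨fun x => f x, ?_⟩
    intro i j
    let u : Bip a c R := (Sum.inl i : Fin a ⊕ Fin c)
    let v : Bip a c R := (Sum.inr j : Fin a ⊕ Fin c)
    change R i j = true ↔ f u < f v
    rw [f.lt_iff_lt, lt_iff_le_and_ne]
    constructor
    · intro hR
      exact ⟨Or.inr hR, fun he => Sum.inl_ne_inr he⟩
    · rintro ⟨he | hR, -⟩
      · exact absurd he Sum.inl_ne_inr
      · exact hR
  choose F hF using h
  have hinj : Function.Injective F := by
    intro R R' hRR
    funext i j
    have h1 := hF R i j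
    have h2 := hF R' i j
    rw [hRR, ← h2] at h1
    exact Bool.eq_iff_iff.2 h1
  have hcard := Fintype.card_le_of_injective F hinj
  simp only [Fintype.card_fun, Fintype.card_bool, Fintype.card_fin, Fintype.card_sum] at hcard
  rw [← pow_mul, hac, mul_comm c a] at hcard
  exact hcard

theorem le_b (n : ℕ) : 2 ^ (n ^ 2 / 4) ≤ b n ^ n := by
  have hne : {m : ℕ | ∃ (P : Type) (_ : PartialOrder P) (_ : Fintype P),
    Fintype.card P = m ∧ CoverUniversal n P}.Nonempty :=
    ⟨_, U n, inferInstance, inferInstance, card_U n, universal n⟩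
  obtain ⟨P, _, _, hc, hP⟩ := Nat.sInf_mem hne
  have h1 := lower P hP (n / 2) (n - n / 2) (by omega)
  rw [hc] at h1
  have h2 : n / 2 * (n - n / 2) = n ^ 2 / 4 := by
    rcases Nat.even_or_odd' n with ⟨k, rfl | rfl⟩
    · have e1 : 2 * k / 2 = k := by omega
      have e2 : 2 * k - k = k := by omega
      rw [e1, e2]
      have : (2 * k) ^ 2 = 4 * (k * k) := by ring
      rw [this]
      omega
    · have e1 : (2 * k + 1) / 2 = k := by omega
      have e2 : 2 * k + 1 - k = k + 1 := by omega
      rw [e1, e2]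
      have : (2 * k + 1) ^ 2 = 4 * (k * (k + 1)) + 1 := by ring
      rw [this]
      omega
  rw [h2] at h1
  exact h1

end Q158.CoverUniv
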