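import Mathlib

set_option autoImplicit false

namespace Q158.CoverUniv

/-- `P` contains every ordered set with at most `n` elements as a covering subset: there is an
order embedding `f` such that `f y` covers `f x` in `P` whenever `y` covers `x`. -/
def CoverUniversal (n : ℕ) (P : Type) [PartialOrder P] : Prop :=
  ∀ (Q : Type) [PartialOrder Q] [Fintype Q], Fintype.card Q ≤ n →
    ∃ f : Q ↪o P, ∀ x y : Q, x ⋖ y → f x ⋖ f y

/-- `b n`: the least number of elements of a finite ordered set that contains every ordered set
with at most `n` elements as a covering subset. -/
noncomputable def b (n : ℕ) : ℕ :=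
  sInf {m : ℕ | ∃ (P : Type) (_ : PartialOrder P) (_ : Fintype P),
    Fintype.card P = m ∧ CoverUniversal n P}

end Q158.CoverUniv
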