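import Pool.Agent.Q158.DDecDefs

/-! An eight-element poset without induced `P₆` that is not `d`-decomposable. -/

namespace Q158.DDec

open Finset

/-- The ground set. -/
def E8 : Type := Fin 8

instance : DecidableEq E8 := inferInstanceAs (DecidableEq (Fin 8))
instance : Fintype E8 := inferInstanceAs (Fintype (Fin 8))

/-- The element with a given number. -/
def el (n : Fin 8) : E8 := n

/-- The order: `0 < 6, 7`, `1 < 4, 5, 6`, `2 < 7`, `3 < 7`. -/
def le8 (a b : E8) : Prop :=
  a = b ∨ (a = el 0 ∧ (b = el 6 ∨ b = el 7)) ∨ (a = el 1 ∧ (b = el 4 ∨ b = el 5 ∨ b = el 6)) ∨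
    (a = el 2 ∧ b = el 7) ∨ (a = el 3 ∧ b = el 7)

instance (a b : E8) : Decidable (le8 a b) := by unfold le8; infer_instance

instance : PartialOrder E8 where
  le := le8
  le_refl := by
    show ∀ a, le8 a a
    decide +kernel
  le_trans := by
    show ∀ a b c, le8 a b → le8 b c → le8 a c
    decide +kernel
  le_antisymm := by
    show ∀ a b, le8 a b → le8 b a → a = b
    decide +kernel

theorem le_def (a b : E8) : a ≤ b ↔ le8 a b := Iff.rfl

theorem lt_def (a b : E8) : a < b ↔ le8 a b ∧ a ≠ b := by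
  rw [lt_iff_le_and_ne]
  rfl

/-- Antichains. -/
def AC (S : Finset E8) : Prop := ∀ x ∈ S, ∀ y ∈ S, le8 x y → x = y

instance (S : Finset E8) : Decidable (AC S) := by unfold AC; infer_instance

theorem ac_card : ∀ S : Finset E8, AC S → S.card ≤ 5 := by decide +kernel

theorem ac_compl : ∀ S : Finset E8, AC S → AC (univ \ S) → S.card ≠ 5 := by decide +kernel

theorem chain_card : ∀ C : Finset E8, (∀ x ∈ C, ∀ y ∈ C, le8 x y ∨ le8 y x) → C.card ≤ 2 := by
  decide +kernel

theorem height_eq : height E8 = 2 := by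
  unfold height
  have hbd : ∀ n ∈ {n | ∃ C : Finset E8, IsChain (· ≤ ·) (C : Set E8) ∧ C.card = n}, n ≤ 2 := by
    rintro n ⟨C, hC, rfl⟩
    apply chain_card
    intro x hx y hy
    by_cases hxy : x = y
    · left; rw [hxy]; exact le_refl y
    · exact hC hx hy hxy
  apply le_antisymm (csSup_le' hbd)
  apply le_csSup ⟨2, hbd⟩
  refine ⟨{el 0, el 6}, ?_, by decide⟩
  intro x hx y hy hne
  simp only [coe_insert, coe_singleton, Set.mem_insert_iff, Set.mem_singleton_iff] at hx hy
  rcases hx with rfl | rfl <;> rcases hy with rfl | rfl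
  · exact (hne rfl).elim
  · left
    show le8 _ _
    decide
  · right
    show le8 _ _
    decide
  · exact (hne rfl).elim

theorem d_one : d E8 1 = 5 := by
  unfold d
  have hbd : ∀ n ∈ {n | ∃ S : Finset E8, IsKAntichain 1 S ∧ S.card = n}, n ≤ 5 := by
    rintro n ⟨S, ⟨c, hc1, hc2⟩, rfl⟩
    apply ac_card
    intro x hx y hy hxy
    have h1 := hc1 x hx
    have h2 := hc1 y hy
    exact hc2 x hx y hy (by omega) hxy
  apply le_antisymm (csSup_le' hbd)
  apply le_csSup ⟨5, hbd⟩
  refine ⟨{el 0, el 2, el 3, el 4, el 5}, ⟨fun _ => 0, fun _ _ => one_pos, ?_⟩, by decide⟩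
  intro x hx y hy _ hxy
  have : AC ({el 0, el 2, el 3, el 4, el 5} : Finset E8) := by decide
  exact this x hx y hy hxy

theorem not_dd : ¬ DDecomposable E8 := by
  rintro ⟨f, h1, h2, h3⟩
  rw [height_eq] at h1 h3
  have h4 := h3 1 le_rfl (by norm_num)
  rw [d_one] at h4
  apply ac_compl (univ.filter (fun x => f x ≤ 1)) ?_ ?_ h4
  · intro x hx y hy hxy
    simp only [mem_filter, mem_univ, true_and] at hx hy
    have := h1 x
    have := h1 y
    exact h2 x y (by omega) hxy
  · intro x hx y hy hxy
    simp only [mem_sdiff, mem_filter, mem_univ, true_and] at hx hy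
    have := h1 x
    have := h1 y
    exact h2 x y (by omega) hxy

/-- Strict order. -/
def lt8 (a b : E8) : Prop := le8 a b ∧ a ≠ b

instance (a b : E8) : Decidable (lt8 a b) := by unfold lt8; infer_instance

theorem no_p6 : ∀ x₂ y₂ : E8, lt8 x₂ y₂ →
    (univ.filter (fun z => lt8 z y₂)).card ≤ 2 ∨ (univ.filter (fun z => lt8 x₂ z)).card ≤ 2 := by
  decide +kernel

theorem not_contains : ¬ ContainsP6 E8 := by
  rintro ⟨g, hinj, hg⟩
  have hlt : ∀ p q, lt6 p q → lt8 (g p) (g q) := by
    intro p q h
    exact (lt_def _ _).1 ((hg p q).2 h)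
  have h3 : ∀ b : Bool, ((univ : Finset (Fin 3)).image (fun i => g (b, i))).card = 3 := by
    intro b
    rw [card_image_of_injective]
    · rfl
    · intro i j h
      have := hinj h
      simpa using this
  rcases no_p6 (g (false, 1)) (g (true, 1)) (hlt _ _ (by unfold lt6; decide)) with h | h
  · have h4 : (univ : Finset (Fin 3)).image (fun i => g (false, i)) ⊆
        univ.filter (fun z => lt8 z (g (true, 1))) := by
      intro z hz
      obtain ⟨i, -, rfl⟩ := mem_image.1 hz
      simp only [mem_filter, mem_univ, true_and]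
      exact hlt _ _ ⟨rfl, rfl, Or.inl rfl⟩
    have := card_le_card h4
    rw [h3] at this
    omega
  · have h4 : (univ : Finset (Fin 3)).image (fun i => g (true, i)) ⊆
        univ.filter (fun z => lt8 (g (false, 1)) z) := by
      intro z hz
      obtain ⟨i, -, rfl⟩ := mem_image.1 hz
      simp only [mem_filter, mem_univ, true_and]
      exact hlt _ _ ⟨rfl, rfl, Or.inr rfl⟩
    have := card_le_card h4
    rw [h3] at this
    omega

theorem result_aux : ∃ (Q : Type) (_ : PartialOrder Q) (_ : Fintype Q),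
    ¬ ContainsP6 Q ∧ ¬ DDecomposable Q :=
  ⟨E8, inferInstance, inferInstance, not_contains, not_dd⟩

end Q158.DDec
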