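import Mathlib

/-! `d`-decomposable posets. -/

namespace Q158.DDec

open Finset

/-- `S` is a union of `k` pairwise disjoint (possibly empty) antichains: its elements can be
coloured with `k` colours so that equally coloured comparable elements are equal. -/
def IsKAntichain {P : Type} [PartialOrder P] (k : ℕ) (S : Finset P) : Prop :=
  ∃ c : P → ℕ, (∀ x ∈ S, c x < k) ∧ ∀ x ∈ S, ∀ y ∈ S, c x = c y → x ≤ y → x = y

/-- `d_k(P)`: the largest size of a `k`-antichain. -/
noncomputable def d (P : Type) [PartialOrder P] (k : ℕ) : ℕ :=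
  sSup {n | ∃ S : Finset P, IsKAntichain k S ∧ S.card = n}

/-- The height: the largest size of a chain. -/
noncomputable def height (P : Type) [PartialOrder P] : ℕ :=
  sSup {n | ∃ C : Finset P, IsChain (· ≤ ·) (C : Set P) ∧ C.card = n}

/-- There is a partition into antichains `A 1, …, A h` (`h` the height), given by the function
`f`, `A i = f ⁻¹ i`, with `|A 1 ∪ ⋯ ∪ A k| = d_k(P)` for `k = 1, …, h`. -/
def DDecomposable (P : Type) [PartialOrder P] [Fintype P] : Prop :=
  ∃ f : P → ℕ, (∀ x, 1 ≤ f x ∧ f x ≤ height P) ∧ (∀ x y, f x = f y → x ≤ y → x = y) ∧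
    ∀ k, 1 ≤ k → k ≤ height P → (univ.filter (fun x => f x ≤ k)).card = d P k

/-- The strict comparabilities of the six-element poset `P₆`: the elements `x₁, x₂, x₃` are
`(false, 0), (false, 1), (false, 2)`, the elements `y₁, y₂, y₃` are
`(true, 0), (true, 1), (true, 2)`; `x_i < y₂` and `x₂ < y_i` for all `i`. -/
def lt6 (p q : Bool × Fin 3) : Prop :=
  p.1 = false ∧ q.1 = true ∧ (q.2 = 1 ∨ p.2 = 1)

/-- `Q` contains an induced copy of `P₆`. -/
def ContainsP6 (Q : Type) [PartialOrder Q] : Prop :=
  ∃ g : Bool × Fin 3 → Q, Function.Injective g ∧ ∀ p q, g p < g q ↔ lt6 p q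

end Q158.DDec
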