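import Pool.Agent.Q127.DJ.Stm

/-! # Job DJ-CHA of helper127: chain rule and bound of the entropy increments -/

set_option autoImplicit false

namespace Pool.Agent.Q158.DJ_CHA

open Pool.Agent.Q127.DJ MeasureTheory Filter Topology

theorem meas_nm {m : ℕ} (f : ℕ → Fin m) (t : ℕ) : Measurable (nm f t) := by
  rw [measurable_pi_iff]
  intro i
  exact (measurable_of_countable f).comp (measurable_pi_apply _)

theorem meas_cyl {m : ℕ} (f : ℕ → Fin m) (t : ℕ) (w : Fin t → Fin m) :
    MeasurableSet (cyl f t w) :=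
  (meas_nm f t) (measurableSet_singleton w)

theorem meas_ev {m : ℕ} (f : ℕ → Fin m) (n : ℕ) (a : Fin m) :
    MeasurableSet {x : ℕ → ℕ | f (x n) = a} :=
  ((measurable_of_countable f).comp (measurable_pi_apply n)) (measurableSet_singleton a)

theorem cyl_snoc {m : ℕ} (f : ℕ → Fin m) (n : ℕ) (w : Fin n → Fin m) (a : Fin m) :
    cyl f (n + 1) (Fin.snoc (α := fun _ => Fin m) w a) = cyl f n w ∩ {x | f (x n) = a} := by
  ext x
  constructor
  · intro h
    have h' : nm f (n + 1) x = Fin.snoc (α := fun _ => Fin m) w a := h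
    refine ⟨?_, ?_⟩
    · show nm f n x = w
      funext i
      have := congrFun h' (Fin.castSucc i)
      rw [Fin.snoc_castSucc] at this
      exact this
    · have := congrFun h' (Fin.last n)
      rw [Fin.snoc_last] at this
      exact this
  · rintro ⟨h1, h2⟩
    show nm f (n + 1) x = Fin.snoc (α := fun _ => Fin m) w a
    funext i
    refine Fin.lastCases ?_ (fun i => ?_) i
    · rw [Fin.snoc_last]; exact h2
    · rw [Fin.snoc_castSucc]; exact congrFun (show nm f n x = w from h1) i

theorem bound (η : ℝ) (hη : 0 < η) : ∃ K : ℝ, 0 ≤ K ∧ ∀ p : ℝ, 0 ≤ p → p ≤ 1 →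
    Real.negMulLog p ≤ η + K * (p * (1 - p)) := by
  have hc : ContinuousAt Real.negMulLog 0 := Real.continuous_negMulLog.continuousAt
  obtain ⟨δ, hδ, h⟩ := Metric.continuousAt_iff.1 hc η hη
  refine ⟨1 / δ, by positivity, fun p hp0 hp1 => ?_⟩
  by_cases hpd : p < δ
  · have h1 := h (x := p) (by rw [Real.dist_eq, sub_zero, abs_of_nonneg hp0]; exact hpd)
    rw [Real.dist_eq, Real.negMulLog_zero, sub_zero] at h1
    have h2 := le_abs_self (Real.negMulLog p)
    have h3 : 0 ≤ 1 / δ * (p * (1 - p)) :=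
      mul_nonneg (by positivity) (mul_nonneg hp0 (by linarith))
    linarith
  · push Not at hpd
    have hp : 0 < p := lt_of_lt_of_le hδ hpd
    have h1 : Real.negMulLog p ≤ 1 - p := by
      have h2 := Real.one_sub_inv_le_log_of_pos hp
      unfold Real.negMulLog
      have h3 : -p * Real.log p ≤ -p * (1 - p⁻¹) :=
        mul_le_mul_of_nonpos_left h2 (by linarith)
      have e : -p * (1 - p⁻¹) = 1 - p := by field_simp; ring
      linarith
    have h2 : 1 - p ≤ 1 / δ * (p * (1 - p)) := by
      have h3 : 1 ≤ p / δ := (one_le_div hδ).2 hpd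
      have e : 1 / δ * (p * (1 - p)) = (p / δ) * (1 - p) := by ring
      rw [e]
      nlinarith [sub_nonneg.2 hp1]
    linarith

theorem word {m : ℕ} (K η P : ℝ)
    (hK : ∀ p, 0 ≤ p → p ≤ 1 → Real.negMulLog p ≤ η + K * (p * (1 - p)))
    (q : Fin m → ℝ) (hq : ∀ a, 0 ≤ q a) (hs : ∑ a, q a = P) :
    ∑ a, Real.negMulLog (q a) ≤
      Real.negMulLog P + m * η * P + K * ∑ a, q a * (1 - q a / P) := by
  rcases (Finset.sum_nonneg (fun a _ => hq a)).eq_or_lt with h0 | h0
  · -- everything vanishes
    have hz : ∀ a, q a = 0 := by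
      intro a
      have := (Finset.sum_eq_zero_iff_of_nonneg (fun a _ => hq a)).1 h0.symm a (Finset.mem_univ a)
      exact this
    have hP : P = 0 := by rw [← hs, ← h0]
    simp [hz, hP]
  · rw [hs] at h0
    have hle : ∀ a, q a ≤ P := by
      intro a
      rw [← hs]
      exact Finset.single_le_sum (fun a _ => hq a) (Finset.mem_univ a)
    have e1 : ∀ a, Real.negMulLog (q a) ≤
        q a / P * Real.negMulLog P + η * P + K * (q a * (1 - q a / P)) := by
      intro a
      have h1 : q a = P * (q a / P) := by field_simp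
      have h2 : Real.negMulLog (q a) = q a / P * Real.negMulLog P + P * Real.negMulLog (q a / P) := by
        conv_lhs => rw [h1]
        rw [Real.negMulLog_mul]
      have h3 := hK (q a / P) (div_nonneg (hq a) h0.le) ((div_le_one h0).2 (hle a))
      have h4 := mul_le_mul_of_nonneg_left h3 h0.le
      have h5 : P * (η + K * (q a / P * (1 - q a / P))) =
          η * P + K * (q a * (1 - q a / P)) := by
        field_simp
      rw [h5] at h4
      rw [h2]
      linarith
    calc ∑ a, Real.negMulLog (q a) ≤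
        ∑ a, (q a / P * Real.negMulLog P + η * P + K * (q a * (1 - q a / P))) :=
          Finset.sum_le_sum (fun a _ => e1 a)
      _ = Real.negMulLog P + m * η * P + K * ∑ a, q a * (1 - q a / P) := by
          have e2 : ∑ a, K * (q a * (1 - q a / P)) = K * ∑ a, q a * (1 - q a / P) :=
            (Finset.mul_sum _ _ _).symm
          rw [Finset.sum_add_distrib, Finset.sum_add_distrib, e2, ← Finset.sum_mul,
            ← Finset.sum_div, hs, div_self h0.ne', one_mul, Finset.sum_const, Finset.card_univ,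
            Fintype.card_fin, nsmul_eq_mul]
          ring

theorem sum_words {m n : ℕ} (F : (Fin (n + 1) → Fin m) → ℝ) :
    ∑ w, F w = ∑ w : Fin n → Fin m, ∑ a : Fin m, F (Fin.snoc (α := fun _ => Fin m) w a) := by
  rw [← Finset.sum_product', ← (Fin.snocEquiv (fun _ => Fin m)).sum_comp]
  rw [Fintype.sum_prod_type, Finset.univ_product_univ, Fintype.sum_prod_type, Finset.sum_comm]
  rfl

theorem int_I (μ : Measure (ℕ → ℕ)) [IsProbabilityMeasure μ] {m : ℕ} (f : ℕ → Fin m)
    (a : Fin m) (n : ℕ) (s : Set (ℕ → ℕ)) :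
    ∫ x in s, I f a n x ∂μ = μ.real (s ∩ {x | f (x n) = a}) := by
  have h : (fun x => I f a n x) = Set.indicator {x : ℕ → ℕ | f (x n) = a} (fun _ => (1 : ℝ)) := by
    funext x
    unfold I
    by_cases hx : f (x n) = a
    · rw [if_pos hx, Set.indicator_of_mem (show x ∈ {x : ℕ → ℕ | f (x n) = a} from hx)]
    · rw [if_neg hx, Set.indicator_of_notMem (show x ∉ {x : ℕ → ℕ | f (x n) = a} from hx)]
  rw [h, setIntegral_indicator (meas_ev f n a), setIntegral_const]
  simp

theorem sum_P (μ : Measure (ℕ → ℕ)) [IsProbabilityMeasure μ] {m : ℕ} (f : ℕ → Fin m) (n : ℕ) :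
    ∑ w : Fin n → Fin m, μ.real (cyl f n w) = 1 := by
  have h := sum_measureReal_preimage_singleton (μ := μ) (Finset.univ : Finset (Fin n → Fin m))
    (f := nm f n) (fun y _ => meas_cyl f n y)
  show ∑ w : Fin n → Fin m, μ.real (nm f n ⁻¹' {w}) = 1
  rw [h]
  simp

theorem sum_Pa (μ : Measure (ℕ → ℕ)) [IsProbabilityMeasure μ] {m : ℕ} (f : ℕ → Fin m) (n : ℕ)
    (w : Fin n → Fin m) :
    ∑ a : Fin m, μ.real (cyl f n w ∩ {x | f (x n) = a}) = μ.real (cyl f n w) := by
  have h := sum_measureReal_preimage_singleton (μ := μ.restrict (cyl f n w))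
    (Finset.univ : Finset (Fin m)) (f := fun x : ℕ → ℕ => f (x n)) (fun y _ => meas_ev f n y)
  have h2 : ∀ a : Fin m, (μ.restrict (cyl f n w)).real ((fun x : ℕ → ℕ => f (x n)) ⁻¹' {a}) =
      μ.real (cyl f n w ∩ {x | f (x n) = a}) := by
    intro a
    have h3 := measureReal_restrict_apply (μ := μ) (s := cyl f n w)
      (t := (fun x : ℕ → ℕ => f (x n)) ⁻¹' {a}) (meas_ev f n a)
    rw [h3, Set.inter_comm]
    rfl
  simp only [h2] at h
  rw [h]
  simp

theorem meas_I {m : ℕ} (f : ℕ → Fin m) (a : Fin m) (n : ℕ) : Measurable (I f a n) := by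
  unfold I
  exact Measurable.ite (meas_ev f n a) measurable_const measurable_const

theorem int_g (h3 : S_inn) (μ : Measure (ℕ → ℕ)) [IsProbabilityMeasure μ] {m : ℕ}
    (f : ℕ → Fin m) (a : Fin m) (n : ℕ) :
    ∫ x, (g μ f a n x) ^ 2 ∂μ = ∑ w : Fin n → Fin m,
      μ.real (cyl f n w ∩ {x | f (x n) = a}) *
        (1 - μ.real (cyl f n w ∩ {x | f (x n) = a}) / μ.real (cyl f n w)) := by
  obtain ⟨-, hg, -, hgI⟩ := h3 μ m f a n
  rw [← hgI]
  have hint : Integrable (fun x => g μ f a n x * I f a n x) μ := by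
    refine Integrable.of_bound (C := 1) ?_ ?_
    · exact (hg.1.mul (meas_I f a n)).aestronglyMeasurable
    · refine Eventually.of_forall fun x => ?_
      rw [Real.norm_eq_abs, abs_mul]
      have h1 : |I f a n x| ≤ 1 := by
        unfold I
        split_ifs <;> simp
      calc |g μ f a n x| * |I f a n x| ≤ 1 * 1 :=
          mul_le_mul (hg.2 x) h1 (abs_nonneg _) zero_le_one
        _ = 1 := one_mul 1
  have hun : (⋃ w : Fin n → Fin m, cyl f n w) = Set.univ := by
    ext x
    simp only [Set.mem_iUnion, Set.mem_univ, iff_true]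
    exact ⟨nm f n x, rfl⟩
  have hdis : Pairwise (Function.onFun Disjoint (fun w : Fin n → Fin m => cyl f n w)) := by
    intro w w' hne
    rw [Function.onFun, Set.disjoint_left]
    intro x hx hx'
    exact hne ((show nm f n x = w from hx).symm.trans hx')
  have hsplit := integral_iUnion_fintype (μ := μ) (f := fun x => g μ f a n x * I f a n x)
    (fun w => meas_cyl f n w) hdis (fun w => hint.integrableOn)
  rw [hun, setIntegral_univ] at hsplit
  rw [hsplit]
  refine Finset.sum_congr rfl fun w _ => ?_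
  have hw : ∫ x in cyl f n w, g μ f a n x * I f a n x ∂μ =
      ∫ x in cyl f n w, (1 - μ.real (cyl f n w ∩ {x | f (x n) = a}) / μ.real (cyl f n w)) *
        I f a n x ∂μ := by
    refine setIntegral_congr_fun (meas_cyl f n w) ?_
    intro x hx
    have hx' : nm f n x = w := hx
    have hE : E μ f n (I f a n) x =
        μ.real (cyl f n w ∩ {x | f (x n) = a}) / μ.real (cyl f n w) := by
      unfold E
      rw [hx', int_I]
    simp only [g]
    rw [hE]
    unfold I
    split_ifs <;> simp
  rw [hw, integral_const_mul, int_I, mul_comm]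

theorem cha (_h1 : S_ce1) (_h2 : S_ce2) (h3 : S_inn) : S_cha := by
  intro η hη
  obtain ⟨K, hK0, hK⟩ := bound η hη
  refine ⟨K, hK0, ?_⟩
  intro μ _ m f n
  rw [sum_words]
  have e1 : ∀ w : Fin n → Fin m,
      ∑ a : Fin m, Real.negMulLog (μ.real (cyl f (n + 1) (Fin.snoc (α := fun _ => Fin m) w a))) ≤
        Real.negMulLog (μ.real (cyl f n w)) + m * η * μ.real (cyl f n w) +
          K * ∑ a : Fin m, μ.real (cyl f n w ∩ {x | f (x n) = a}) *
            (1 - μ.real (cyl f n w ∩ {x | f (x n) = a}) / μ.real (cyl f n w)) := by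
    intro w
    have := word K η (μ.real (cyl f n w)) hK
      (fun a => μ.real (cyl f n w ∩ {x | f (x n) = a})) (fun a => measureReal_nonneg)
      (sum_Pa μ f n w)
    simpa only [cyl_snoc] using this
  refine (Finset.sum_le_sum (fun w _ => e1 w)).trans ?_
  rw [Finset.sum_add_distrib, Finset.sum_add_distrib, ← Finset.mul_sum, sum_P, mul_one,
    ← Finset.mul_sum, Finset.sum_comm]
  simp only [int_g h3]
  exact le_refl _

end Pool.Agent.Q158.DJ_CHA
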