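import Pool.Agent.Q158.DiagProdDefs

namespace Q158.DiagProd

open Matrix Finset

variable {n m : ℕ}

/-- The matrix of bin sums. -/
noncomputable def Mc (r : Fin n → Fin m → ℝ) (c : Fin n → Option (Fin m)) :
    Matrix (Fin m) (Fin m) ℝ :=
  fun e => ∑ j, if c j = some e then r j else 0

theorem Mc_update (r : Fin n → Fin m → ℝ) (c : Fin n → Option (Fin m)) (i : Fin n)
    (o : Option (Fin m)) (e : Fin m) :
    Mc r (Function.update c i o) e =
      Mc r c e - (if c i = some e then r i else 0) + (if o = some e then r i else 0) := by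
  unfold Mc
  rw [← Finset.add_sum_erase _ _ (Finset.mem_univ i)]
  rw [← Finset.add_sum_erase (Finset.univ) (fun j => if c j = some e then r j else 0)
    (Finset.mem_univ i)]
  have h : ∑ x ∈ Finset.univ.erase i, (if Function.update c i o x = some e then r x else 0) =
      ∑ x ∈ Finset.univ.erase i, (if c x = some e then r x else 0) := by
    apply Finset.sum_congr rfl
    intro x hx
    rw [Function.update_of_ne (Finset.ne_of_mem_erase hx)]
  rw [h, Function.update_self]
  abel

/-- Coordinates of `r j` with respect to the bin sums. -/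
noncomputable def U (r : Fin n → Fin m → ℝ) (c : Fin n → Option (Fin m)) (j : Fin n) :
    Fin m → ℝ := r j ᵥ* (Mc r c)⁻¹

theorem U_spec (r : Fin n → Fin m → ℝ) (c : Fin n → Option (Fin m)) (h : (Mc r c).det ≠ 0)
    (j : Fin n) : ∑ e, U r c j e • Mc r c e = r j := by
  have h1 : U r c j ᵥ* Mc r c = r j := by
    unfold U
    rw [Matrix.vecMul_vecMul, Matrix.nonsing_inv_mul _ (isUnit_iff_ne_zero.2 h),
      Matrix.vecMul_one]
  rw [← h1, Matrix.vecMul_eq_sum]

theorem det_upd (r : Fin n → Fin m → ℝ) (c : Fin n → Option (Fin m)) (h : (Mc r c).det ≠ 0)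
    (j : Fin n) (e : Fin m) :
    ((Mc r c).updateRow e (r j)).det = U r c j e * (Mc r c).det := by
  conv_lhs => rw [← U_spec r c h j]
  rw [Matrix.det_updateRow_sum, smul_eq_mul]

theorem U_sum (r : Fin n → Fin m → ℝ) (c : Fin n → Option (Fin m)) (h : (Mc r c).det ≠ 0)
    (e : Fin m) : ∑ j, (if c j = some e then U r c j e else 0) = 1 := by
  have h1 : (∑ j, (if c j = some e then r j else 0)) ᵥ* (Mc r c)⁻¹ = (1 : Matrix _ _ ℝ) e := by
    have : (∑ j, (if c j = some e then r j else 0)) = Mc r c e := rfl
    rw [this]
    have h2 := Matrix.mul_nonsing_inv (Mc r c) (isUnit_iff_ne_zero.2 h)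
    rw [← h2]
    funext x
    rw [Matrix.mul_apply_eq_vecMul]
  have h3 := congrFun h1 e
  rw [Matrix.one_apply_eq, Matrix.sum_vecMul, Finset.sum_apply] at h3
  rw [← h3]
  apply Finset.sum_congr rfl
  intro j _
  split_ifs with hc
  · rfl
  · rw [Matrix.zero_vecMul]; rfl

/-- Moving `i` into a bin from outside. -/
theorem det_move_none (r : Fin n → Fin m → ℝ) (c : Fin n → Option (Fin m))
    (h : (Mc r c).det ≠ 0) (i : Fin n) (hi : c i = none) (e : Fin m) :
    (Mc r (Function.update c i (some e))).det = (Mc r c).det * (1 + U r c i e) := by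
  have h1 : Mc r (Function.update c i (some e)) = (Mc r c).updateRow e (Mc r c e + r i) := by
    funext x
    rw [Mc_update, hi]
    by_cases hx : x = e
    · subst hx
      simp [Matrix.updateRow_self]
    · rw [Matrix.updateRow_ne hx, if_neg (by simp), if_neg (by simpa using fun h => hx h.symm)]
      simp
  rw [h1, Matrix.det_updateRow_add, Matrix.updateRow_eq_self, det_upd r c h]
  ring

theorem det_move (r : Fin n → Fin m → ℝ) (c : Fin n → Option (Fin m))
    (h : (Mc r c).det ≠ 0) (i : Fin n) (e₀ e₁ : Fin m) (hi : c i = some e₀) (hne : e₁ ≠ e₀) :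
    (Mc r (Function.update c i (some e₁))).det =
      (Mc r c).det * (1 - U r c i e₀ + U r c i e₁) := by
  set N := Mc r c with hN
  have h1 : Mc r (Function.update c i (some e₁)) =
      (N.updateRow e₀ (N e₀ - r i)).updateRow e₁ (N e₁ + r i) := by
    funext x
    rw [Mc_update, hi, ← hN]
    by_cases hx : x = e₁
    · subst hx
      rw [Matrix.updateRow_self, if_neg (by simpa using fun h => hne h.symm), if_pos rfl]
      simp
    · have hx' : ¬ (some e₁ = some x) := by
        intro h'
        exact hx (Option.some.inj h').symm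
      rw [Matrix.updateRow_ne hx, if_neg hx']
      by_cases hx0 : x = e₀
      · subst hx0
        rw [Matrix.updateRow_self, if_pos rfl]
        simp
      · rw [Matrix.updateRow_ne hx0, if_neg (by simpa using fun h => hx0 h.symm)]
        simp
  have key : ∀ (B : Matrix (Fin m) (Fin m) ℝ) (x : Fin m) (v : Fin m → ℝ),
      (B.updateRow x (B x - v)).det = B.det - (B.updateRow x v).det := by
    intro B x v
    have : B x - v = B x + (-1 : ℝ) • v := by
      rw [neg_one_smul]; rfl
    rw [this, Matrix.det_updateRow_add, Matrix.det_updateRow_smul, Matrix.updateRow_eq_self]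
    ring
  rw [h1, Matrix.det_updateRow_add]
  have h2 : (N.updateRow e₀ (N e₀ - r i)).updateRow e₁ (N e₁) = N.updateRow e₀ (N e₀ - r i) := by
    have : N e₁ = (N.updateRow e₀ (N e₀ - r i)) e₁ := by
      rw [Matrix.updateRow_ne hne]
    rw [this, Matrix.updateRow_eq_self]
  have h3 : (N.updateRow e₀ (N e₀ - r i)).updateRow e₁ (r i) =
      (N.updateRow e₁ (r i)).updateRow e₀ ((N.updateRow e₁ (r i)) e₀ - r i) := by
    rw [Matrix.updateRow_ne hne.symm]
    funext x
    by_cases hx : x = e₁
    · subst hx
      rw [Matrix.updateRow_self, Matrix.updateRow_ne hne, Matrix.updateRow_self]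
    · rw [Matrix.updateRow_ne hx]
      by_cases hx0 : x = e₀
      · subst hx0
        rw [Matrix.updateRow_self, Matrix.updateRow_self]
      · rw [Matrix.updateRow_ne hx0, Matrix.updateRow_ne hx0, Matrix.updateRow_ne hx]
  have h4 : ((N.updateRow e₁ (r i)).updateRow e₀ (r i)).det = 0 := by
    apply Matrix.det_zero_of_row_eq hne
    rw [Matrix.updateRow_ne hne, Matrix.updateRow_self, Matrix.updateRow_self]
  rw [h2, h3, key, key, h4, det_upd r c h, det_upd r c h]
  ring


/-- Maximality of the absolute value of the determinant. -/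
def IsMax (r : Fin n → Fin m → ℝ) (c : Fin n → Option (Fin m)) : Prop :=
  (Mc r c).det ≠ 0 ∧ ∀ c', |(Mc r c').det| ≤ |(Mc r c).det|

theorem IsMax.none {r : Fin n → Fin m → ℝ} {c : Fin n → Option (Fin m)} (h : IsMax r c)
    {i : Fin n} (hi : c i = none) (e : Fin m) : U r c i e ≤ 0 := by
  have h1 := h.2 (Function.update c i (Option.some e))
  rw [det_move_none r c h.1 i hi, abs_mul] at h1
  have h2 : 0 < |(Mc r c).det| := abs_pos.2 h.1
  have h3 : |1 + U r c i e| ≤ 1 := by
    by_contra hcon
    push Not at hcon
    have := mul_lt_mul_of_pos_left hcon h2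
    linarith
  have := (abs_le.1 h3).2
  linarith

theorem IsMax.some {r : Fin n → Fin m → ℝ} {c : Fin n → Option (Fin m)} (h : IsMax r c)
    {i : Fin n} {e₀ : Fin m} (hi : c i = some e₀) (e : Fin m) : U r c i e ≤ U r c i e₀ := by
  by_cases hne : e = e₀
  · rw [hne]
  have h1 := h.2 (Function.update c i (Option.some e))
  rw [det_move r c h.1 i e₀ e hi hne, abs_mul] at h1
  have h2 : 0 < |(Mc r c).det| := abs_pos.2 h.1
  have h3 : |1 - U r c i e₀ + U r c i e| ≤ 1 := by
    by_contra hcon
    push Not at hcon
    have := mul_lt_mul_of_pos_left hcon h2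
    linarith
  have := (abs_le.1 h3).2
  linarith

theorem IsMax.move {r : Fin n → Fin m → ℝ} {c : Fin n → Option (Fin m)} (h : IsMax r c)
    {i : Fin n} {e₀ e : Fin m} (hi : c i = Option.some e₀) (hne : e ≠ e₀)
    (hU : U r c i e = U r c i e₀) : IsMax r (Function.update c i (Option.some e)) := by
  have h1 := det_move r c h.1 i e₀ e hi hne
  rw [hU] at h1
  have h2 : (Mc r (Function.update c i (Option.some e))).det = (Mc r c).det := by
    rw [h1]; ring
  refine ⟨by rw [h2]; exact h.1, fun c' => by rw [h2]; exact h.2 c'⟩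

/-- The setting: `A` row-stochastic, columns expressed through `v`. -/
structure Setup (A : Matrix (Fin n) (Fin n) ℝ) (m : ℕ) where
  v : Fin m → Fin n → ℝ
  r : Fin n → Fin m → ℝ
  hr : ∀ j p, A p j = ∑ i, r j i * v i p

theorem Setup.expand {A : Matrix (Fin n) (Fin n) ℝ} (S : Setup A m)
    (c : Fin n → Option (Fin m)) (h : (Mc S.r c).det ≠ 0) (p j : Fin n) :
    A p j = ∑ e, U S.r c j e * ∑ l, (if c l = Option.some e then A p l else 0) := by
  have h1 : ∀ e, ∑ l, (if c l = Option.some e then A p l else 0) =
      ∑ i, Mc S.r c e i * S.v i p := by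
    intro e
    unfold Mc
    simp only [Finset.sum_apply, Finset.sum_mul]
    rw [Finset.sum_comm]
    apply Finset.sum_congr rfl
    intro l _
    split_ifs with hc
    · exact S.hr l p
    · simp
  simp only [h1]
  rw [S.hr j p]
  conv_lhs => rw [← U_spec S.r c h j]
  simp only [Finset.sum_apply, Pi.smul_apply, smul_eq_mul, Finset.sum_mul, Finset.mul_sum]
  rw [Finset.sum_comm]
  apply Finset.sum_congr rfl
  intro e _
  apply Finset.sum_congr rfl
  intro i _
  ring

variable {A : Matrix (Fin n) (Fin n) ℝ}

theorem bin_nonneg (hA : RowStochastic A) (c : Fin n → Option (Fin m)) (p : Fin n) (e : Fin m) :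
    0 ≤ ∑ l, (if c l = Option.some e then A p l else 0) := by
  apply Finset.sum_nonneg
  intro l _
  split_ifs
  · exact hA.1 p l
  · exact le_refl 0

theorem col_none (hA : RowStochastic A) (S : Setup A m) {c : Fin n → Option (Fin m)}
    (h : IsMax S.r c) {i : Fin n} (hi : c i = Option.none) (p : Fin n) : A p i = 0 := by
  apply le_antisymm _ (hA.1 p i)
  rw [S.expand c h.1 p i]
  apply Finset.sum_nonpos
  intro e _
  exact mul_nonpos_of_nonpos_of_nonneg (h.none hi e) (bin_nonneg hA c p e)

theorem bins_total (hA : RowStochastic A) (S : Setup A m) {c : Fin n → Option (Fin m)}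
    (h : IsMax S.r c) (p : Fin n) :
    ∑ e, ∑ l, (if c l = Option.some e then A p l else 0) = 1 := by
  rw [Finset.sum_comm, ← hA.2 p]
  apply Finset.sum_congr rfl
  intro l _
  rcases hl : c l with _ | e₀
  · rw [col_none hA S h hl p]; simp
  · rw [Finset.sum_eq_single e₀]
    · rw [if_pos rfl]
    · intro e _ he
      rw [if_neg]
      intro h'; exact he (Option.some.inj h').symm
    · intro h'; exact absurd (Finset.mem_univ _) h'

theorem diag_le (hA : RowStochastic A) (S : Setup A m) {c : Fin n → Option (Fin m)}
    (h : IsMax S.r c) {j : Fin n} {e₀ : Fin m} (hj : c j = Option.some e₀) :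
    A j j ≤ U S.r c j e₀ := by
  rw [S.expand c h.1 j j]
  calc ∑ e, U S.r c j e * ∑ l, (if c l = Option.some e then A j l else 0)
      ≤ ∑ e, U S.r c j e₀ * ∑ l, (if c l = Option.some e then A j l else 0) := by
        apply Finset.sum_le_sum
        intro e _
        exact mul_le_mul_of_nonneg_right (h.some hj e) (bin_nonneg hA c j e)
    _ = U S.r c j e₀ := by
        rw [← Finset.mul_sum, bins_total hA S h j, mul_one]

theorem bin_le (hA : RowStochastic A) (S : Setup A m) {c : Fin n → Option (Fin m)}
    (h : IsMax S.r c) (e : Fin m) :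
    ∑ j, (if c j = Option.some e then A j j else 0) ≤ 1 := by
  rw [← U_sum S.r c h.1 e]
  apply Finset.sum_le_sum
  intro j _
  split_ifs with hc
  · exact diag_le hA S h hc
  · exact le_refl 0

/-- The case of equality. -/
theorem bin_eq (hA : RowStochastic A) (S : Setup A m) {c : Fin n → Option (Fin m)}
    (h : IsMax S.r c) (hpos : ∀ j, 0 < A j j)
    (hsum : ∀ e, ∑ j, (if c j = Option.some e then A j j else 0) = 1) (p j : Fin n) :
    A p j = if c p = c j then A j j else 0 := by
  have hsome : ∀ j, ∃ e, c j = Option.some e := by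
    intro j
    rcases hj : c j with _ | e
    · exact absurd (col_none hA S h hj j) (hpos j).ne'
    · exact ⟨e, rfl⟩
  -- the diagonal entries are the maximal coordinates
  have hdiag : ∀ j e₀, c j = Option.some e₀ → A j j = U S.r c j e₀ := by
    intro j e₀ hj
    have h1 : ∑ l, ((if c l = Option.some e₀ then U S.r c l e₀ else 0) -
        (if c l = Option.some e₀ then A l l else 0)) = 0 := by
      rw [Finset.sum_sub_distrib, hsum e₀, U_sum S.r c h.1 e₀, sub_self]
    have h2 := (Finset.sum_eq_zero_iff_of_nonneg (fun l _ => by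
      split_ifs with hc
      · exact sub_nonneg.2 (diag_le hA S h hc)
      · simp)).1 h1 j (Finset.mem_univ j)
    rw [if_pos hj, if_pos hj] at h2
    linarith
  -- strictness
  have hstrict : ∀ j e₀ e, c j = Option.some e₀ → e ≠ e₀ → U S.r c j e < U S.r c j e₀ := by
    intro j e₀ e hj hne
    apply lt_of_le_of_ne (h.some hj e)
    intro hU
    have h3 := bin_le hA S (h.move hj hne hU) e
    rw [← Finset.add_sum_erase _ _ (Finset.mem_univ j), Function.update_self, if_pos rfl] at h3
    have h4 := hsum e
    rw [← Finset.add_sum_erase _ _ (Finset.mem_univ j), if_neg (by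
      rw [hj]; intro h'; exact hne (Option.some.inj h').symm), zero_add] at h4
    have h5 : ∑ x ∈ Finset.univ.erase j,
        (if Function.update c j (Option.some e) x = Option.some e then A x x else 0) = 1 := by
      rw [← h4]
      apply Finset.sum_congr rfl
      intro x hx
      rw [Function.update_of_ne (Finset.ne_of_mem_erase hx)]
    rw [h5] at h3
    have := hpos j
    linarith
  -- the bin sums of row `q` vanish outside the bin of `q`
  have hzero : ∀ q e₀ e, c q = Option.some e₀ → e ≠ e₀ →
      ∑ l, (if c l = Option.some e then A q l else 0) = 0 := by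
    intro q e₀ e hq hne
    have h1 : ∑ e, (U S.r c q e₀ - U S.r c q e) *
        ∑ l, (if c l = Option.some e then A q l else 0) = 0 := by
      have h2 := S.expand c h.1 q q
      rw [hdiag q e₀ hq] at h2
      simp only [sub_mul, Finset.sum_sub_distrib]
      rw [← Finset.mul_sum, bins_total hA S h q, mul_one]
      linarith
    have h2 := (Finset.sum_eq_zero_iff_of_nonneg (fun e _ => mul_nonneg
      (sub_nonneg.2 (h.some hq e)) (bin_nonneg hA c q e))).1 h1 e (Finset.mem_univ e)
    rcases mul_eq_zero.1 h2 with h3 | h3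
    · have := hstrict q e₀ e hq hne
      linarith
    · exact h3
  obtain ⟨ep, hp⟩ := hsome p
  obtain ⟨ej, hj⟩ := hsome j
  have hone : ∑ l, (if c l = Option.some ep then A p l else 0) = 1 := by
    have h1 := bins_total hA S h p
    rw [Finset.sum_eq_single ep] at h1
    · exact h1
    · intro e _ he
      exact hzero p ep e hp he
    · intro h'; exact absurd (Finset.mem_univ _) h'
  have hA1 : A p j = U S.r c j ep := by
    rw [S.expand c h.1 p j, Finset.sum_eq_single ep]
    · rw [hone, mul_one]
    · intro e _ he
      rw [hzero p ep e hp he, mul_zero]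
    · intro h'; exact absurd (Finset.mem_univ _) h'
  by_cases hpj : c p = c j
  · rw [if_pos hpj, hA1, hdiag j ej hj]
    have : ep = ej := by
      rw [hp, hj] at hpj
      exact Option.some.inj hpj
    rw [this]
  · rw [if_neg hpj]
    have hne : ej ≠ ep := by
      intro h'
      apply hpj
      rw [hp, hj, h']
    have h1 := hzero p ep ej hp hne
    have h2 := (Finset.sum_eq_zero_iff_of_nonneg (fun l _ => by
      split_ifs
      · exact hA.1 p l
      · exact le_refl 0)).1 h1 j (Finset.mem_univ j)
    rw [if_pos hj] at h2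
    exact h2

/-- Existence of a setup with a maximal assignment. -/
theorem exists_setup (A : Matrix (Fin n) (Fin n) ℝ) :
    ∃ (m : ℕ) (_ : m = A.rank) (S : Setup A m) (c : Fin n → Option (Fin m)), IsMax S.r c := by
  classical
  obtain ⟨κ, J, hJ, hspan, hli⟩ := exists_linearIndependent' ℝ (fun j p => A p j : Fin n → Fin n → ℝ)
  have : Finite κ := Finite.of_injective J hJ
  have : Fintype κ := Fintype.ofFinite κ
  let eqv := Fintype.equivFin κ
  have hm : Fintype.card κ = A.rank := by
    rw [Matrix.rank_eq_finrank_span_cols]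
    have h1 := finrank_span_eq_card hli
    rw [← h1, hspan]
    rfl
  let v : Fin (Fintype.card κ) → Fin n → ℝ := fun e p => A p (J (eqv.symm e))
  have hvli : LinearIndependent ℝ v := hli.comp eqv.symm eqv.symm.injective
  have hmem : ∀ j : Fin n, ∃ r : Fin (Fintype.card κ) → ℝ, ∑ i, r i • v i = fun p => A p j := by
    intro j
    rw [← Submodule.mem_span_range_iff_exists_fun]
    have h1 : (fun p => A p j) ∈ Submodule.span ℝ (Set.range (fun j p => A p j : Fin n → Fin n → ℝ)) :=
      Submodule.subset_span ⟨j, rfl⟩
    rw [← hspan] at h1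
    have h2 : Set.range v = Set.range ((fun j p => A p j : Fin n → Fin n → ℝ) ∘ J) := by
      ext x
      constructor
      · rintro ⟨e, rfl⟩
        exact ⟨eqv.symm e, rfl⟩
      · rintro ⟨e, rfl⟩
        exact ⟨eqv e, by simp [v]⟩
    rw [h2]
    exact h1
  choose r hr using hmem
  let S : Setup A (Fintype.card κ) := ⟨v, r, fun j p => by
    have := congrFun (hr j) p
    simp only [Finset.sum_apply, Pi.smul_apply, smul_eq_mul] at this
    exact this.symm⟩
  -- the starting assignment
  let c₀ : Fin n → Option (Fin (Fintype.card κ)) := fun j =>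
    if h : ∃ e, J (eqv.symm e) = j then Option.some h.choose else Option.none
  have hinj : Function.Injective (fun e => J (eqv.symm e)) := hJ.comp eqv.symm.injective
  have hc₀ : ∀ j e, c₀ j = Option.some e ↔ J (eqv.symm e) = j := by
    intro j e
    simp only [c₀]
    split_ifs with h
    · constructor
      · intro h'
        rw [← Option.some.inj h']
        exact h.choose_spec
      · intro h'
        congr 1
        exact hinj (h.choose_spec.trans h'.symm)
    · simp only [reduceCtorEq, false_iff]
      intro h'
      exact h ⟨e, h'⟩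
  have hdet : (Mc r c₀).det = 1 := by
    have : Mc r c₀ = 1 := by
      funext e
      unfold Mc
      rw [Finset.sum_eq_single (J (eqv.symm e))]
      · rw [if_pos ((hc₀ _ _).2 rfl)]
        have h1 : ∑ i, (r (J (eqv.symm e)) i - (1 : Matrix _ _ ℝ) e i) • v i = 0 := by
          simp only [sub_smul, Finset.sum_sub_distrib]
          rw [hr, sub_eq_zero, Finset.sum_eq_single e]
          · rw [Matrix.one_apply_eq, one_smul]
          · intro b _ hb
            rw [Matrix.one_apply_ne hb.symm, zero_smul]
          · intro h'; exact absurd (Finset.mem_univ _) h'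
        have h2 := Fintype.linearIndependent_iff.1 hvli _ h1
        funext i
        exact sub_eq_zero.1 (h2 i)
      · intro b _ hb
        rw [if_neg]
        intro h'
        exact hb ((hc₀ _ _).1 h').symm
      · intro h'; exact absurd (Finset.mem_univ _) h'
    rw [this, Matrix.det_one]
  obtain ⟨c, hc⟩ := Finite.exists_max (fun c : Fin n → Option (Fin (Fintype.card κ)) =>
    |(Mc r c).det|)
  refine ⟨Fintype.card κ, hm, S, c, ?_, hc⟩
  intro h0
  have := hc c₀
  rw [h0, hdet] at this
  simp at this
  linarith

end Q158.DiagProd
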