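import Pool.Agent.Q158.DiagProd

namespace Q158.DiagProd

open Finset

/-! ### The numerical part -/

/-- `b log b`. -/
noncomputable def phi (b : ℕ) : ℝ := (b : ℝ) * Real.log b

theorem phi_exp (b : ℕ) : Real.exp (phi b) = (b : ℝ) ^ b := by
  unfold phi
  rcases Nat.eq_zero_or_pos b with rfl | hb
  · simp
  · rw [← Real.log_pow, Real.exp_log]
    have : (0 : ℝ) < b := by exact_mod_cast hb
    positivity

theorem phi_chord_lt (r b : ℕ) (hr : 1 ≤ r) (h1 : b ≠ r) (h2 : b ≠ r + 1) :
    phi r + ((b : ℝ) - r) * (phi (r + 1) - phi r) < phi b := by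
  have hconv := Real.strictConvexOn_mul_log
  have hr' : (1 : ℝ) ≤ r := by exact_mod_cast hr
  rcases lt_or_gt_of_ne h1 with hlt | hgt
  · have hb : (b : ℝ) < r := by exact_mod_cast hlt
    have := hconv.slope_strict_mono_adjacent (x := (b : ℝ)) (y := (r : ℝ)) (z := (r : ℝ) + 1)
      (Set.mem_Ici.2 (by positivity)) (Set.mem_Ici.2 (by positivity)) hb (by linarith)
    rw [show (r : ℝ) + 1 - r = 1 by ring, div_one, div_lt_iff₀ (by linarith)] at this
    have e1 : phi (r + 1) = ((r : ℝ) + 1) * Real.log ((r : ℝ) + 1) := by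
      unfold phi; push_cast; rfl
    have e2 : phi r = (r : ℝ) * Real.log r := rfl
    have e3 : phi b = (b : ℝ) * Real.log b := rfl
    rw [← e1, ← e2, ← e3] at this
    nlinarith
  · have hb1 : r + 1 < b := by omega
    have hb : (r : ℝ) + 1 < b := by exact_mod_cast hb1
    have := hconv.slope_strict_mono_adjacent (x := (r : ℝ)) (y := (r : ℝ) + 1) (z := (b : ℝ))
      (Set.mem_Ici.2 (by positivity)) (Set.mem_Ici.2 (by positivity)) (by linarith) hb
    rw [show (r : ℝ) + 1 - r = 1 by ring, div_one, lt_div_iff₀ (by linarith)] at this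
    have e1 : phi (r + 1) = ((r : ℝ) + 1) * Real.log ((r : ℝ) + 1) := by
      unfold phi; push_cast; rfl
    have e2 : phi r = (r : ℝ) * Real.log r := rfl
    have e3 : phi b = (b : ℝ) * Real.log b := rfl
    rw [← e1, ← e2, ← e3] at this
    nlinarith

theorem phi_chord_le (r b : ℕ) (hr : 1 ≤ r) :
    phi r + ((b : ℝ) - r) * (phi (r + 1) - phi r) ≤ phi b := by
  by_cases h1 : b = r
  · subst h1; simp
  · by_cases h2 : b = r + 1
    · subst h2; push_cast; simp
    · exact (phi_chord_lt r b hr h1 h2).le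

variable {n k : ℕ}

/-- fibre sizes -/
def size (β : Fin n → Fin k) (e : Fin k) : ℕ := (univ.filter (fun j => β j = e)).card

theorem sum_size (β : Fin n → Fin k) : ∑ e, size β e = n := by
  have := Finset.card_eq_sum_card_fiberwise (f := β) (s := univ) (t := univ) (fun _ _ => by simp)
  rw [Finset.card_univ, Fintype.card_fin] at this
  exact this.symm

theorem size_pos (β : Fin n → Fin k) (j : Fin n) : 0 < size β (β j) :=
  Finset.card_pos.2 ⟨j, by simp⟩

theorem M_exp (hk : 1 ≤ k) (hkn : k ≤ n) : M n k =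
    Real.exp (-((k : ℝ) * phi (n / k) + (n % k : ℕ) * (phi (n / k + 1) - phi (n / k)))) := by
  have hs : n % k < k := Nat.mod_lt _ (by omega)
  have h1 : ((k - n % k : ℕ) : ℝ) = (k : ℝ) - (n % k : ℕ) := by
    rw [Nat.cast_sub hs.le]
  have h2 : M n k = Real.exp (-(((k - n % k : ℕ) : ℝ) * phi (n / k))) *
      Real.exp (-(((n % k : ℕ) : ℝ) * phi (n / k + 1))) := by
    unfold M
    rw [← phi_exp, ← phi_exp, one_div, one_div, ← Real.exp_neg, ← Real.exp_neg,
      ← Real.exp_nat_mul, ← Real.exp_nat_mul]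
    congr 2 <;> ring
  rw [h2, ← Real.exp_add, h1]
  congr 1
  ring

theorem sum_phi (hk : 1 ≤ k) (hkn : k ≤ n) (β : Fin n → Fin k) :
    (k : ℝ) * phi (n / k) + (n % k : ℕ) * (phi (n / k + 1) - phi (n / k)) ≤
      ∑ e, phi (size β e) := by
  have hr : 1 ≤ n / k := (Nat.one_le_div_iff (by omega)).2 hkn
  have h1 : ∑ e : Fin k, (phi (n / k) + ((size β e : ℝ) - (n / k : ℕ)) *
      (phi (n / k + 1) - phi (n / k))) = (k : ℝ) * phi (n / k) +
        (n % k : ℕ) * (phi (n / k + 1) - phi (n / k)) := by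
    rw [Finset.sum_add_distrib, Finset.sum_const, ← Finset.sum_mul, Finset.sum_sub_distrib,
      Finset.sum_const, Finset.card_univ, Fintype.card_fin, nsmul_eq_mul, nsmul_eq_mul,
      ← Nat.cast_sum, sum_size]
    have h2 : (n : ℝ) = k * (n / k : ℕ) + (n % k : ℕ) := by
      exact_mod_cast (Nat.div_add_mod n k).symm
    rw [h2]
    have h3 : (k * (n / k : ℕ) + (n % k : ℕ) : ℝ) - k * (n / k : ℕ) = (n % k : ℕ) := by ring
    rw [← h2, show (n : ℝ) - k * ((n / k : ℕ) : ℝ) = (n % k : ℕ) by rw [h2]; ring]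
  rw [← h1]
  exact Finset.sum_le_sum (fun e _ => phi_chord_le (n / k) (size β e) hr)

theorem sum_phi_eq (hk : 1 ≤ k) (hkn : k ≤ n) (β : Fin n → Fin k)
    (h : ∑ e, phi (size β e) ≤
      (k : ℝ) * phi (n / k) + (n % k : ℕ) * (phi (n / k + 1) - phi (n / k))) (e : Fin k) :
    size β e = n / k ∨ size β e = n / k + 1 := by
  have hr : 1 ≤ n / k := (Nat.one_le_div_iff (by omega)).2 hkn
  by_contra hcon
  push Not at hcon
  have h1 : ∑ e : Fin k, (phi (n / k) + ((size β e : ℝ) - (n / k : ℕ)) *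
      (phi (n / k + 1) - phi (n / k))) = (k : ℝ) * phi (n / k) +
        (n % k : ℕ) * (phi (n / k + 1) - phi (n / k)) := by
    rw [Finset.sum_add_distrib, Finset.sum_const, ← Finset.sum_mul, Finset.sum_sub_distrib,
      Finset.sum_const, Finset.card_univ, Fintype.card_fin, nsmul_eq_mul, nsmul_eq_mul,
      ← Nat.cast_sum, sum_size]
    have h2 : (n : ℝ) = k * (n / k : ℕ) + (n % k : ℕ) := by
      exact_mod_cast (Nat.div_add_mod n k).symm
    rw [show (n : ℝ) - k * ((n / k : ℕ) : ℝ) = (n % k : ℕ) by rw [h2]; ring]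
  rw [← h1] at h
  have h2 := Finset.sum_lt_sum (fun e _ => phi_chord_le (n / k) (size β e) hr)
    ⟨e, Finset.mem_univ e, phi_chord_lt (n / k) (size β e) hr hcon.1 hcon.2⟩
  linarith

/-- Regrouping a product over the fibres. -/
theorem prod_size (β : Fin n → Fin k) :
    ∏ j, ((size β (β j) : ℕ) : ℝ) = Real.exp (∑ e, phi (size β e)) := by
  rw [Real.exp_sum]
  rw [← Finset.prod_fiberwise_of_maps_to (s := univ) (t := univ) (g := β) (fun _ _ => by simp)]
  apply Finset.prod_congr rfl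
  intro e _
  rw [phi_exp]
  rw [Finset.prod_congr rfl (g := fun _ => ((size β e : ℕ) : ℝ)) (fun j hj => by
    rw [(Finset.mem_filter.1 hj).2])]
  rw [Finset.prod_const]
  rfl

theorem exponent_le (β : Fin n → Fin k) (w : Fin n → ℝ)
    (hβ : ∀ e, ∑ j, (if β j = e then w j else 0) ≤ 1) :
    ∑ j, ((size β (β j) : ℝ) * w j - 1) ≤ 0 := by
  rw [Finset.sum_sub_distrib, Finset.sum_const, Finset.card_univ, Fintype.card_fin]
  have h1 : ∑ j, (size β (β j) : ℝ) * w j =
      ∑ e, (size β e : ℝ) * ∑ j, (if β j = e then w j else 0) := by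
    simp only [Finset.mul_sum]
    rw [Finset.sum_comm]
    apply Finset.sum_congr rfl
    intro j _
    rw [Finset.sum_eq_single (β j)]
    · rw [if_pos rfl]
    · intro e _ he
      rw [if_neg (Ne.symm he), mul_zero]
    · intro h'; exact absurd (Finset.mem_univ _) h'
  have h2 : ∑ e, (size β e : ℝ) * ∑ j, (if β j = e then w j else 0) ≤ ∑ e, (size β e : ℝ) := by
    apply Finset.sum_le_sum
    intro e _
    have := mul_le_mul_of_nonneg_left (hβ e) (Nat.cast_nonneg (α := ℝ) (size β e))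
    linarith
  rw [← Nat.cast_sum, sum_size] at h2
  rw [h1]
  simp only [nsmul_eq_mul, mul_one]
  linarith

theorem prod_le_exp (β : Fin n → Fin k) (w : Fin n → ℝ) (hw : ∀ j, 0 ≤ w j)
    (hβ : ∀ e, ∑ j, (if β j = e then w j else 0) ≤ 1) :
    (∏ j, w j) * Real.exp (∑ e, phi (size β e)) ≤ 1 := by
  rw [← prod_size, ← Finset.prod_mul_distrib]
  calc ∏ j, w j * ((size β (β j) : ℕ) : ℝ)
      ≤ ∏ j, Real.exp ((size β (β j) : ℝ) * w j - 1) := by
        apply Finset.prod_le_prod
        · intro j _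
          exact mul_nonneg (hw j) (Nat.cast_nonneg _)
        · intro j _
          have := Real.add_one_le_exp ((size β (β j) : ℝ) * w j - 1)
          linarith
    _ = Real.exp (∑ j, ((size β (β j) : ℝ) * w j - 1)) := (Real.exp_sum _ _).symm
    _ ≤ 1 := Real.exp_le_one_iff.2 (exponent_le β w hβ)

theorem prod_eq_exp (β : Fin n → Fin k) (w : Fin n → ℝ) (hw : ∀ j, 0 < w j)
    (hβ : ∀ e, ∑ j, (if β j = e then w j else 0) ≤ 1)
    (h : 1 ≤ (∏ j, w j) * Real.exp (∑ e, phi (size β e))) (j : Fin n) :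
    w j = 1 / (size β (β j) : ℝ) := by
  by_contra hcon
  have hs : ∀ j, (0 : ℝ) < (size β (β j) : ℕ) := fun j => by exact_mod_cast size_pos β j
  have hne : (size β (β j) : ℝ) * w j - 1 ≠ 0 := by
    intro h0
    apply hcon
    rw [eq_div_iff (hs j).ne']
    linarith
  rw [← prod_size, ← Finset.prod_mul_distrib] at h
  have h1 : ∏ j, w j * ((size β (β j) : ℕ) : ℝ) <
      ∏ j, Real.exp ((size β (β j) : ℝ) * w j - 1) := by
    apply Finset.prod_lt_prod
    · intro j _
      exact mul_pos (hw j) (hs j)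
    · intro j _
      have := Real.add_one_le_exp ((size β (β j) : ℝ) * w j - 1)
      linarith
    · refine ⟨j, Finset.mem_univ j, ?_⟩
      have := Real.add_one_lt_exp hne
      linarith
  rw [← Real.exp_sum] at h1
  have h2 := Real.exp_le_one_iff.2 (exponent_le β w hβ)
  linarith

theorem num_le (hk : 1 ≤ k) (hkn : k ≤ n) (β : Fin n → Fin k) (w : Fin n → ℝ)
    (hw : ∀ j, 0 ≤ w j) (hβ : ∀ e, ∑ j, (if β j = e then w j else 0) ≤ 1) :
    ∏ j, w j ≤ M n k := by
  have h1 := prod_le_exp β w hw hβ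
  have h2 := sum_phi hk hkn β
  rw [M_exp hk hkn, Real.exp_neg, ← one_div, le_div_iff₀ (Real.exp_pos _)]
  refine le_trans ?_ h1
  apply mul_le_mul_of_nonneg_left (Real.exp_le_exp.2 h2)
  exact Finset.prod_nonneg (fun j _ => hw j)

theorem M_pos (n k : ℕ) (hk : 1 ≤ k) (hkn : k ≤ n) : 0 < M n k := by
  rw [M_exp hk hkn]; exact Real.exp_pos _

theorem num_eq (hk : 1 ≤ k) (hkn : k ≤ n) (β : Fin n → Fin k) (w : Fin n → ℝ)
    (hw : ∀ j, 0 ≤ w j) (hβ : ∀ e, ∑ j, (if β j = e then w j else 0) ≤ 1)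
    (h : ∏ j, w j = M n k) :
    (∀ j, 0 < w j) ∧ (∀ j, w j = 1 / (size β (β j) : ℝ)) ∧
      ∀ e, size β e = n / k ∨ size β e = n / k + 1 := by
  have hpos : ∀ j, 0 < w j := by
    intro j
    apply lt_of_le_of_ne (hw j)
    intro h0
    have h1 : ∏ j, w j = 0 := Finset.prod_eq_zero (Finset.mem_univ j) h0.symm
    rw [h1] at h
    exact absurd h (M_pos n k hk hkn).ne
  have h1 := prod_le_exp β w hw hβ
  have h2 := sum_phi hk hkn β
  have h3 : M n k * Real.exp ((k : ℝ) * phi (n / k) +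
      (n % k : ℕ) * (phi (n / k + 1) - phi (n / k))) = 1 := by
    rw [M_exp hk hkn, ← Real.exp_add]; simp
  have h4 : Real.exp (∑ e, phi (size β e)) ≤ Real.exp ((k : ℝ) * phi (n / k) +
      (n % k : ℕ) * (phi (n / k + 1) - phi (n / k))) := by
    rw [h] at h1
    rw [← h3] at h1
    exact le_of_mul_le_mul_left h1 (M_pos n k hk hkn)
  have h5 := Real.exp_le_exp.1 h4
  refine ⟨hpos, ?_, sum_phi_eq hk hkn β h5⟩
  apply prod_eq_exp β w hpos hβ
  have h6 : ∑ e, phi (size β e) = (k : ℝ) * phi (n / k) +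
      (n % k : ℕ) * (phi (n / k + 1) - phi (n / k)) := le_antisymm h5 h2
  rw [h6, h, h3]

/-! ### From the bins to the theorem for the main diagonal -/

/-- Bins for a row-stochastic matrix of rank at most `k`. -/
theorem exists_bins {A : Matrix (Fin n) (Fin n) ℝ} (hA : RowStochastic A) (hk : 1 ≤ k)
    (hrank : A.rank ≤ k) :
    ∃ β : Fin n → Fin k, (∀ e, ∑ j, (if β j = e then A j j else 0) ≤ 1) ∧
      ((∀ j, 0 < A j j) → (∀ e, ∑ j, (if β j = e then A j j else 0) = 1) →
        ∀ p j, A p j = if β p = β j then A j j else 0) := by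
  obtain ⟨m, hm, S, c, hc⟩ := exists_setup A
  have hmk : m ≤ k := hm.le.trans hrank
  let β : Fin n → Fin k := fun j => (c j).elim ⟨0, hk⟩ (Fin.castLE hmk)
  have hβsome : ∀ j e, c j = Option.some e → β j = Fin.castLE hmk e := by
    intro j e hj
    simp only [β, hj, Option.elim_some]
  have hterm : ∀ (e : Fin k) (e' : Fin m), e = Fin.castLE hmk e' → ∀ j,
      (if β j = e then A j j else 0) = (if c j = Option.some e' then A j j else 0) := by
    intro e e' hee j
    rcases hj : c j with _ | e₀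
    · rw [col_none hA S hc hj j]; simp
    · rw [hβsome j e₀ hj, hee]
      by_cases h : e₀ = e'
      · subst h; simp
      · rw [if_neg, if_neg]
        · intro h'; exact h (Option.some.inj h')
        · intro h'; exact h (Fin.castLE_injective hmk h')
  have hzero : ∀ (e : Fin k), (¬ ∃ e', e = Fin.castLE hmk e') → ∀ j,
      (if β j = e then A j j else 0) = 0 := by
    intro e he j
    rcases hj : c j with _ | e₀
    · rw [col_none hA S hc hj j]; simp
    · rw [if_neg]
      rw [hβsome j e₀ hj]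
      intro h'
      exact he ⟨e₀, h'.symm⟩
  refine ⟨β, ?_, ?_⟩
  · intro e
    by_cases he : ∃ e', e = Fin.castLE hmk e'
    · obtain ⟨e', he'⟩ := he
      rw [Finset.sum_congr rfl (fun j _ => hterm e e' he' j)]
      exact bin_le hA S hc e'
    · rw [Finset.sum_congr rfl (fun j _ => hzero e he j)]
      simp
  · intro hpos hsum p j
    have h1 : ∀ e' : Fin m, ∑ j, (if c j = Option.some e' then A j j else 0) = 1 := by
      intro e'
      rw [← hsum (Fin.castLE hmk e')]
      exact Finset.sum_congr rfl (fun j _ => (hterm _ e' rfl j).symm)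
    rw [bin_eq hA S hc hpos h1 p j]
    have hsome : ∀ j, ∃ e, c j = Option.some e := by
      intro j
      rcases hj : c j with _ | e
      · exact absurd (col_none hA S hc hj j) (hpos j).ne'
      · exact ⟨e, rfl⟩
    obtain ⟨ep, hp⟩ := hsome p
    obtain ⟨ej, hj⟩ := hsome j
    rw [hβsome p ep hp, hβsome j ej hj, hp, hj]
    by_cases h : ep = ej
    · subst h; simp
    · rw [if_neg, if_neg]
      · intro h'; exact h (Fin.castLE_injective hmk h')
      · intro h'; exact h (Option.some.inj h')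

theorem diag_bound {A : Matrix (Fin n) (Fin n) ℝ} (hA : RowStochastic A) (hk : 1 ≤ k)
    (hkn : k ≤ n) (hrank : A.rank ≤ k) : ∏ i, A i i ≤ M n k := by
  obtain ⟨β, h1, -⟩ := exists_bins hA hk hrank
  exact num_le hk hkn β (fun j => A j j) (fun j => hA.1 j j) h1

theorem diag_eq {A : Matrix (Fin n) (Fin n) ℝ} (hA : RowStochastic A) (hk : 1 ≤ k)
    (hkn : k ≤ n) (hrank : A.rank ≤ k) (h : ∏ i, A i i = M n k) :
    ∃ β : Fin n → Fin k, (∀ e, size β e = n / k ∨ size β e = n / k + 1) ∧
      ∀ p j, A p j = if β p = β j then 1 / (size β (β j) : ℝ) else 0 := by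
  obtain ⟨β, h1, h2⟩ := exists_bins hA hk hrank
  obtain ⟨h3, h4, h5⟩ := num_eq hk hkn β (fun j => A j j) (fun j => hA.1 j j) h1 h
  refine ⟨β, h5, ?_⟩
  intro p j
  rw [h2 h3 ?_ p j, h4 j]
  intro e
  have hr : 1 ≤ n / k := (Nat.one_le_div_iff (by omega)).2 hkn
  have hs : 1 ≤ size β e := by
    rcases h5 e with h | h <;> omega
  have h6 : ∑ j, (if β j = e then A j j else 0) = ∑ j, (if β j = e then 1 / (size β e : ℝ) else 0) := by
    apply Finset.sum_congr rfl
    intro j _
    split_ifs with hj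
    · rw [h4 j, hj]
    · rfl
  rw [h6, ← Finset.sum_filter, Finset.sum_const, nsmul_eq_mul]
  have h7 : ((univ.filter (fun j => β j = e)).card : ℝ) = (size β e : ℝ) := rfl
  rw [h7]
  have : (size β e : ℝ) ≠ 0 := by
    have : (1 : ℝ) ≤ size β e := by exact_mod_cast hs
    linarith
  field_simp

end Q158.DiagProd
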