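import Pool.Agent.Q158.DiagProdB

namespace Q158.DiagProd

open Finset

variable {n k : ℕ}

/-- Maps with equal fibre sizes differ by a bijection. -/
theorem exists_equiv_of_card {X Y Z : Type*} [Fintype X] [Fintype Y] [DecidableEq Z]
    (f : X → Z) (g : Y → Z)
    (h : ∀ z, (univ.filter (fun x => f x = z)).card = (univ.filter (fun y => g y = z)).card) :
    ∃ Q : X ≃ Y, ∀ x, g (Q x) = f x := by
  have he : ∀ z, Nonempty ({x // f x = z} ≃ {y // g y = z}) := by
    intro z
    apply Fintype.card_eq.1
    rw [Fintype.card_subtype, Fintype.card_subtype]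
    exact h z
  let e := fun z => Classical.choice (he z)
  refine ⟨(Equiv.sigmaFiberEquiv f).symm.trans
    ((Equiv.sigmaCongrRight e).trans (Equiv.sigmaFiberEquiv g)), ?_⟩
  intro x
  have : (Equiv.sigmaFiberEquiv f).symm x = ⟨f x, x, rfl⟩ := by
    rw [Equiv.symm_apply_eq]; rfl
  simp only [Equiv.trans_apply, this, Equiv.sigmaCongrRight_apply, Sigma.map,
    Equiv.sigmaFiberEquiv_apply]
  exact (e (f x) ⟨x, rfl⟩).2

/-- number of bins of the larger size -/
theorem card_big (β : Fin n → Fin k) (h : ∀ e, size β e = n / k ∨ size β e = n / k + 1) :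
    (univ.filter (fun e => size β e = n / k + 1)).card = n % k := by
  have h1 : ∑ e, size β e = ∑ e : Fin k, (n / k + if size β e = n / k + 1 then 1 else 0) := by
    apply Finset.sum_congr rfl
    intro e _
    rcases h e with h | h
    · rw [if_neg (by omega), h]; rfl
    · rw [if_pos h, h]
  rw [sum_size, Finset.sum_add_distrib, Finset.sum_const, Finset.card_univ, Fintype.card_fin,
    smul_eq_mul, ← Finset.card_filter] at h1
  have h2 := Nat.div_add_mod n k
  omega

theorem card_small (β : Fin n → Fin k) (h : ∀ e, size β e = n / k ∨ size β e = n / k + 1) :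
    (univ.filter (fun e => size β e = n / k)).card = k - n % k := by
  have h1 := Finset.card_filter_add_card_filter_not (s := (univ : Finset (Fin k)))
    (fun e => size β e = n / k + 1)
  rw [card_big β h, Finset.card_univ, Fintype.card_fin] at h1
  have h2 : (univ.filter (fun e => size β e = n / k)) =
      (univ.filter (fun e => ¬ size β e = n / k + 1)) := by
    apply Finset.filter_congr
    intro e _
    rcases h e with h | h <;> omega
  rw [h2]
  omega

theorem exists_equiv_bins (β γ : Fin n → Fin k)
    (hβ : ∀ e, size β e = n / k ∨ size β e = n / k + 1)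
    (hγ : ∀ e, size γ e = n / k ∨ size γ e = n / k + 1) :
    ∃ (τ : Fin k ≃ Fin k) (Q : Fin n ≃ Fin n), (∀ e, size γ (τ e) = size β e) ∧
      ∀ i, γ (Q i) = τ (β i) := by
  obtain ⟨τ, hτ⟩ := exists_equiv_of_card (size β) (size γ) (by
    intro z
    by_cases h1 : z = n / k
    · subst h1
      rw [card_small β hβ, card_small γ hγ]
    · by_cases h2 : z = n / k + 1
      · subst h2
        rw [card_big β hβ, card_big γ hγ]
      · rw [Finset.card_eq_zero.2, Finset.card_eq_zero.2]
        · rw [Finset.filter_eq_empty_iff]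
          intro e _ he
          rcases hγ e with h | h
          · exact h1 (he ▸ h)
          · exact h2 (he ▸ h)
        · rw [Finset.filter_eq_empty_iff]
          intro e _ he
          rcases hβ e with h | h
          · exact h1 (he ▸ h)
          · exact h2 (he ▸ h))
  obtain ⟨Q, hQ⟩ := exists_equiv_of_card (fun i => τ (β i)) γ (by
    intro z
    have h1 : (univ.filter (fun i => τ (β i) = z)).card = size β (τ.symm z) := by
      unfold size
      congr 1
      apply Finset.filter_congr
      intro i _
      rw [Equiv.eq_symm_apply]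
    rw [h1]
    have h2 := hτ (τ.symm z)
    rw [Equiv.apply_symm_apply] at h2
    rw [← h2]
    rfl)
  exact ⟨τ, Q, hτ, hQ⟩

/-! ### The blocks of `J` -/

theorem tail_eq (hk : 1 ≤ k) : n - (k - n % k) * (n / k) = (n % k) * (n / k + 1) := by
  have h1 := Nat.div_add_mod n k
  have hs : n % k < k := Nat.mod_lt _ (by omega)
  have h2 : (k - n % k) * (n / k) + (n % k) * (n / k) = k * (n / k) := by
    rw [← Nat.add_mul]; congr 1; omega
  rw [Nat.mul_add, Nat.mul_one]
  omega

theorem block_lt (hk : 1 ≤ k) (hkn : k ≤ n) (i : Fin n) : block n k i < k := by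
  have hr : 1 ≤ n / k := (Nat.one_le_div_iff (by omega)).2 hkn
  have hs : n % k < k := Nat.mod_lt _ (by omega)
  have ht := tail_eq (n := n) hk
  unfold block
  split_ifs with h
  · have : i.val / (n / k) < k - n % k := (Nat.div_lt_iff_lt_mul hr).2 h
    omega
  · have h1 : i.val - (k - n % k) * (n / k) < (n % k) * (n / k + 1) := by
      have := i.isLt
      omega
    have h2 : (i.val - (k - n % k) * (n / k)) / (n / k + 1) < n % k :=
      (Nat.div_lt_iff_lt_mul (by omega)).2 h1
    omega

theorem block_small_iff (hk : 1 ≤ k) (hkn : k ≤ n) (i : Fin n) :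
    i.val < (k - n % k) * (n / k) ↔ block n k i < k - n % k := by
  have hr : 1 ≤ n / k := (Nat.one_le_div_iff (by omega)).2 hkn
  unfold block
  split_ifs with h
  · exact ⟨fun _ => (Nat.div_lt_iff_lt_mul hr).2 h, fun _ => h⟩
  · exact ⟨fun h' => absurd h' h, fun h' => absurd h' (Nat.not_lt.2 (Nat.le_add_right _ _))⟩

/-- The block map to `Fin k`. -/
def bl (hk : 1 ≤ k) (hkn : k ≤ n) (i : Fin n) : Fin k := ⟨block n k i, block_lt hk hkn i⟩

theorem card_interval (p : Fin n → Prop) [DecidablePred p] (a len : ℕ) (hle : a + len ≤ n)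
    (h : ∀ i : Fin n, p i ↔ a ≤ i.val ∧ i.val < a + len) :
    (univ.filter p).card = len := by
  have h1 : (univ.filter p).map Fin.valEmbedding = Finset.Ico a (a + len) := by
    ext x
    simp only [Finset.mem_map, Finset.mem_filter, Finset.mem_univ, true_and,
      Fin.valEmbedding_apply, Finset.mem_Ico]
    constructor
    · rintro ⟨i, hi, rfl⟩
      exact (h i).1 hi
    · intro hx
      exact ⟨⟨x, by omega⟩, (h _).2 hx, rfl⟩
  rw [← Finset.card_map Fin.valEmbedding, h1, Nat.card_Ico]
  omega

theorem size_bl (hk : 1 ≤ k) (hkn : k ≤ n) (e : Fin k) :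
    size (bl hk hkn) e = if e.val < k - n % k then n / k else n / k + 1 := by
  have hr : 1 ≤ n / k := (Nat.one_le_div_iff (by omega)).2 hkn
  have hs : n % k < k := Nat.mod_lt _ (by omega)
  have ht := tail_eq (n := n) hk
  have hn : (k - n % k) * (n / k) + (n % k) * (n / k + 1) = n := by
    have h1 : (k - n % k) * (n / k) ≤ n := by
      have h1 := Nat.div_add_mod n k
      have h2 : (k - n % k) * (n / k) ≤ k * (n / k) := Nat.mul_le_mul_right _ (by omega)
      omega
    omega
  unfold size
  split_ifs with he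
  · have h1 : (e.val + 1) * (n / k) ≤ (k - n % k) * (n / k) := Nat.mul_le_mul_right _ he
    rw [Nat.add_mul, Nat.one_mul] at h1
    apply card_interval _ (e.val * (n / k)) (n / k) (by omega)
    intro i
    constructor
    · intro h
      have h2 : block n k i = e.val := congrArg Fin.val h
      have h3 := (block_small_iff hk hkn i).2 (by omega)
      unfold block at h2
      rw [if_pos h3] at h2
      constructor
      · rw [← h2]; exact Nat.div_mul_le_self _ _
      · have := Nat.lt_div_mul_add (a := i.val) (b := n / k) hr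
        rw [h2] at this
        exact this
    · rintro ⟨h2, h3⟩
      apply Fin.ext
      show block n k i = e.val
      unfold block
      rw [if_pos (by omega)]
      rw [Nat.div_eq_iff (by omega)]
      constructor
      · exact h2
      · omega
  · have he2 := e.isLt
    set f := e.val - (k - n % k) with hf
    have h1 : (f + 1) * (n / k + 1) ≤ (n % k) * (n / k + 1) := Nat.mul_le_mul_right _ (by omega)
    rw [Nat.add_mul f, Nat.one_mul] at h1
    apply card_interval _ ((k - n % k) * (n / k) + f * (n / k + 1)) (n / k + 1) (by omega)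
    intro i
    constructor
    · intro h
      have h2 : block n k i = e.val := congrArg Fin.val h
      have h3 : ¬ i.val < (k - n % k) * (n / k) := by
        intro h4
        have := (block_small_iff hk hkn i).1 h4
        omega
      unfold block at h2
      rw [if_neg h3] at h2
      have h4 : (i.val - (k - n % k) * (n / k)) / (n / k + 1) = f := by omega
      have h5 := Nat.div_mul_le_self (i.val - (k - n % k) * (n / k)) (n / k + 1)
      have h6 := Nat.lt_div_mul_add (a := i.val - (k - n % k) * (n / k)) (b := n / k + 1)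
        (by omega)
      rw [h4] at h5 h6
      constructor <;> omega
    · rintro ⟨h2, h3⟩
      apply Fin.ext
      show block n k i = e.val
      unfold block
      rw [if_neg (by omega)]
      have h4 : (i.val - (k - n % k) * (n / k)) / (n / k + 1) = f := by
        rw [Nat.div_eq_iff (by omega)]
        constructor <;> omega
      omega

theorem size_bl_or (hk : 1 ≤ k) (hkn : k ≤ n) (e : Fin k) :
    size (bl hk hkn) e = n / k ∨ size (bl hk hkn) e = n / k + 1 := by
  rw [size_bl]; split_ifs <;> simp

theorem J_eq (hk : 1 ≤ k) (hkn : k ≤ n) (i j : Fin n) :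
    J n k i j = if bl hk hkn i = bl hk hkn j then 1 / (size (bl hk hkn) (bl hk hkn j) : ℝ)
      else 0 := by
  have h1 : (bl hk hkn i = bl hk hkn j) ↔ (block n k i = block n k j) := by
    constructor
    · intro h; exact congrArg Fin.val h
    · intro h; exact Fin.ext h
  unfold J
  by_cases h : block n k i = block n k j
  · rw [if_pos h, if_pos (h1.2 h), size_bl]
    have h2 : (bl hk hkn j).val = block n k j := rfl
    rw [h2, ← h]
    by_cases h3 : i.val < (k - n % k) * (n / k)
    · rw [if_pos h3, if_pos ((block_small_iff hk hkn i).1 h3)]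
    · rw [if_neg h3, if_neg (fun h4 => h3 ((block_small_iff hk hkn i).2 h4))]
  · rw [if_neg h, if_neg (fun h' => h (h1.1 h'))]

theorem prod_inv_size (hk : 1 ≤ k) (hkn : k ≤ n) (β : Fin n → Fin k)
    (hβ : ∀ e, size β e = n / k ∨ size β e = n / k + 1) :
    ∏ j, (1 / (size β (β j) : ℝ)) = M n k := by
  have h1 : ∑ e, phi (size β e) =
      (k : ℝ) * phi (n / k) + (n % k : ℕ) * (phi (n / k + 1) - phi (n / k)) := by
    have h2 : ∀ e, phi (size β e) = phi (n / k) +
        (if size β e = n / k + 1 then (phi (n / k + 1) - phi (n / k)) else 0) := by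
      intro e
      rcases hβ e with h | h
      · rw [if_neg (by omega), h, add_zero]
      · rw [if_pos h, h]; ring
    rw [Finset.sum_congr rfl (fun e _ => h2 e), Finset.sum_add_distrib, Finset.sum_const,
      Finset.card_univ, Fintype.card_fin, nsmul_eq_mul, ← Finset.sum_filter, Finset.sum_const,
      card_big β hβ, nsmul_eq_mul]
  rw [Finset.prod_div_distrib, Finset.prod_const_one, prod_size, h1, M_exp hk hkn, Real.exp_neg,
    one_div]

theorem prod_J (hk : 1 ≤ k) (hkn : k ≤ n) : ∏ i, J n k i i = M n k := by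
  rw [← prod_inv_size hk hkn (bl hk hkn) (size_bl_or hk hkn)]
  apply Finset.prod_congr rfl
  intro i _
  rw [J_eq hk hkn, if_pos rfl]

/-! ### Matrix identities -/

theorem mul_perm (N : Matrix (Fin n) (Fin n) ℝ) (σ : Equiv.Perm (Fin n)) (i j : Fin n) :
    (N * perm σ) i j = N i (σ.symm j) := by
  rw [Matrix.mul_apply, Finset.sum_eq_single (σ.symm j)]
  · simp [perm]
  · intro l _ hl
    have : σ l ≠ j := fun h => hl (by rw [← h, Equiv.symm_apply_apply])
    simp [perm, this]
  · intro h; exact absurd (Finset.mem_univ _) h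

theorem permT_mul (N : Matrix (Fin n) (Fin n) ℝ) (P : Equiv.Perm (Fin n)) (i j : Fin n) :
    ((perm P).transpose * N) i j = N (P.symm i) j := by
  rw [Matrix.mul_apply, Finset.sum_eq_single (P.symm i)]
  · simp [perm]
  · intro l _ hl
    have : P l ≠ i := fun h => hl (by rw [← h, Equiv.symm_apply_apply])
    simp [perm, this]
  · intro h; exact absurd (Finset.mem_univ _) h

theorem conj_apply (N : Matrix (Fin n) (Fin n) ℝ) (P σ : Equiv.Perm (Fin n)) (i j : Fin n) :
    ((perm P).transpose * N * perm P * perm σ) i j = N (P.symm i) (P.symm (σ.symm j)) := by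
  rw [mul_perm, mul_perm, permT_mul]

theorem J_symm (hk : 1 ≤ k) (hkn : k ≤ n) (i j : Fin n) : J n k i j = J n k j i := by
  rw [J_eq hk hkn, J_eq hk hkn]
  by_cases h : bl hk hkn i = bl hk hkn j
  · rw [if_pos h, if_pos h.symm, h]
  · rw [if_neg h, if_neg (fun h' => h h'.symm)]

theorem conj_J_of_eq (hk : 1 ≤ k) (hkn : k ≤ n) (β : Fin n → Fin k)
    (hβ : ∀ e, size β e = n / k ∨ size β e = n / k + 1) :
    ∃ P : Equiv.Perm (Fin n), ∀ i j,
      (if β i = β j then 1 / (size β (β j) : ℝ) else 0) = J n k (P.symm i) (P.symm j) := by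
  obtain ⟨τ, Q, h1, h2⟩ := exists_equiv_bins β (bl hk hkn) hβ (size_bl_or hk hkn)
  refine ⟨Q.symm, ?_⟩
  intro i j
  rw [Equiv.symm_symm, J_eq hk hkn, h2, h2, h1]
  by_cases h : β i = β j
  · rw [if_pos h, if_pos (by rw [h])]
  · rw [if_neg h, if_neg (fun h' => h (τ.injective h'))]

/-- The main diagonal, row-stochastic or column-stochastic. -/
theorem main_diag (hk : 1 ≤ k) (hkn : k ≤ n) {B : Matrix (Fin n) (Fin n) ℝ}
    (hB : RowStochastic B ∨ ColStochastic B) (hrank : B.rank ≤ k) :
    ∏ i, B i i ≤ M n k ∧ (∏ i, B i i = M n k ↔ ∃ P : Equiv.Perm (Fin n), ∀ i j,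
      B i j = J n k (P.symm i) (P.symm j)) := by
  rcases hB with hB | hB
  · refine ⟨diag_bound hB hk hkn hrank, ?_, ?_⟩
    · intro h
      obtain ⟨β, h1, h2⟩ := diag_eq hB hk hkn hrank h
      obtain ⟨P, hP⟩ := conj_J_of_eq hk hkn β h1
      exact ⟨P, fun i j => by rw [h2, hP]⟩
    · rintro ⟨P, hP⟩
      rw [Finset.prod_congr rfl (fun i _ => hP i i), ← prod_J hk hkn]
      exact Equiv.prod_comp P.symm (fun i => J n k i i)
  · have hr : B.transpose.rank ≤ k := by rw [Matrix.rank_transpose]; exact hrank
    have hB' : RowStochastic B.transpose := hB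
    have hbd : ∏ i, B i i ≤ M n k := diag_bound (A := B.transpose) hB' hk hkn hr
    refine ⟨hbd, ?_, ?_⟩
    · intro h
      obtain ⟨β, h1, h2⟩ := diag_eq (A := B.transpose) hB' hk hkn hr h
      obtain ⟨P, hP⟩ := conj_J_of_eq hk hkn β h1
      refine ⟨P, fun i j => ?_⟩
      have := h2 j i
      rw [hP] at this
      rw [J_symm hk hkn]
      exact this
    · rintro ⟨P, hP⟩
      rw [Finset.prod_congr rfl (fun i _ => hP i i), ← prod_J hk hkn]
      exact Equiv.prod_comp P.symm (fun i => J n k i i)

theorem main_thm (hk : 1 ≤ k) (hkn : k ≤ n) (σ : Equiv.Perm (Fin n))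
    {A : Matrix (Fin n) (Fin n) ℝ} (hA : RowStochastic A ∨ ColStochastic A)
    (hrank : A.rank ≤ k) :
    ∏ i, A i (σ i) ≤ M n k ∧ (∏ i, A i (σ i) = M n k ↔ ∃ P : Equiv.Perm (Fin n),
      A = (perm P).transpose * J n k * perm P * perm σ) := by
  have hrk : (A.submatrix id σ).rank ≤ k := by
    have : (A.submatrix (Equiv.refl _) σ).rank = A.rank := Matrix.rank_submatrix A _ _
    rw [← Equiv.coe_refl, this]; exact hrank
  have hB : RowStochastic (A.submatrix id σ) ∨ ColStochastic (A.submatrix id σ) := by
    rcases hA with hA | hA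
    · left
      refine ⟨fun i j => hA.1 i (σ j), fun i => ?_⟩
      rw [← hA.2 i]
      exact Equiv.sum_comp σ (fun j => A i j)
    · right
      refine ⟨fun i j => hA.1 (σ i) j, fun i => ?_⟩
      exact hA.2 (σ i)
  obtain ⟨h1, h2⟩ := main_diag hk hkn hB hrk
  refine ⟨h1, ?_⟩
  have h3 : ∏ i, A i (σ i) = ∏ i, (A.submatrix id σ) i i := rfl
  rw [h3, h2]
  constructor
  · rintro ⟨P, hP⟩
    refine ⟨P, ?_⟩
    ext i j
    rw [conj_apply, ← hP]
    simp
  · rintro ⟨P, hP⟩
    refine ⟨P, ?_⟩
    intro i j
    have := congrFun (congrFun hP i) (σ j)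
    rw [conj_apply, Equiv.symm_apply_apply] at this
    exact this

end Q158.DiagProd
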