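import Mathlib

/-! Row- and column-stochastic matrices, the block matrices `J` and the number `M(n, k)`. -/

namespace Q158.DiagProd

/-- Nonnegative entries and every row sums to one. -/
def RowStochastic {n : ℕ} (A : Matrix (Fin n) (Fin n) ℝ) : Prop :=
  (∀ i j, 0 ≤ A i j) ∧ ∀ i, ∑ j, A i j = 1

/-- The transpose is row-stochastic. -/
def ColStochastic {n : ℕ} (A : Matrix (Fin n) (Fin n) ℝ) : Prop := RowStochastic A.transpose

/-- `M(n, k) = (1 / r^r)^(k-s) (1 / (r+1)^(r+1))^s` for `n = r k + s`, `0 ≤ s < k`. -/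
noncomputable def M (n k : ℕ) : ℝ :=
  (1 / ((n / k : ℕ) : ℝ) ^ (n / k)) ^ (k - n % k) *
    (1 / ((n / k + 1 : ℕ) : ℝ) ^ (n / k + 1)) ^ (n % k)

/-- The number of the block containing `i` when `n = r k + s` consecutive indices are cut into
`k - s` blocks of length `r` followed by `s` blocks of length `r + 1`. -/
def block (n k : ℕ) (i : Fin n) : ℕ :=
  if i.val < (k - n % k) * (n / k) then i.val / (n / k)
  else (k - n % k) + (i.val - (k - n % k) * (n / k)) / (n / k + 1)

/-- The block diagonal matrix with `k - s` blocks `J_r` followed by `s` blocks `J_(r+1)`, where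
`J_m` is the `m × m` matrix with all entries `1/m` and `n = r k + s`, `0 ≤ s < k`. -/
noncomputable def J (n k : ℕ) : Matrix (Fin n) (Fin n) ℝ := fun i j =>
  if block n k i = block n k j then
    (if i.val < (k - n % k) * (n / k) then 1 / ((n / k : ℕ) : ℝ) else 1 / ((n / k + 1 : ℕ) : ℝ))
  else 0

/-- The permutation matrix with entries `1` at the positions `(i, σ i)`. -/
def perm {n : ℕ} (σ : Equiv.Perm (Fin n)) : Matrix (Fin n) (Fin n) ℝ := fun i j =>
  if σ i = j then 1 else 0

end Q158.DiagProd
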