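import Pool.Agent.Q158.FLDimDefs

set_option autoImplicit false

namespace Q158.FLDim

open Finset

/-- second difference kernel -/
noncomputable def U (x : ℝ) : ℝ :=
  (x + 1) * Real.log (x + 1) + (x - 1) * Real.log (x - 1) - 2 * (x * Real.log x)

noncomputable def g (n : ℕ) : ℝ := (n : ℝ) * Real.log n

theorem U_nonneg {x : ℝ} (hx : 1 ≤ x) : 0 ≤ U x := by
  have h := Real.convexOn_mul_log.2 (show x + 1 ∈ Set.Ici (0 : ℝ) by simp; linarith)
    (show x - 1 ∈ Set.Ici (0 : ℝ) by simp; linarith)
    (show (0 : ℝ) ≤ 1 / 2 by norm_num) (show (0 : ℝ) ≤ 1 / 2 by norm_num) (by norm_num)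
  simp only [smul_eq_mul] at h
  have e : (1/2 : ℝ) * (x + 1) + 1/2 * (x - 1) = x := by ring
  rw [e] at h
  unfold U
  linarith

theorem U_anti : AntitoneOn U (Set.Ici 1) := by
  apply antitoneOn_of_deriv_nonpos (convex_Ici 1)
  · have h1 : Continuous fun x : ℝ => (x + 1) * Real.log (x + 1) :=
      Real.continuous_mul_log.comp (continuous_id.add continuous_const)
    have h2 : Continuous fun x : ℝ => (x - 1) * Real.log (x - 1) :=
      Real.continuous_mul_log.comp (continuous_id.sub continuous_const)
    have h3 : Continuous fun x : ℝ => 2 * (x * Real.log x) :=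
      continuous_const.mul Real.continuous_mul_log
    exact ((h1.add h2).sub h3).continuousOn
  · intro x hx
    rw [interior_Ici] at hx
    have hx1 : (1 : ℝ) < x := hx
    have hd : HasDerivAt U ((Real.log (x + 1) + 1) + (Real.log (x - 1) + 1)
        - 2 * (Real.log x + 1)) x := by
      have h1 : HasDerivAt (fun x : ℝ => (x + 1) * Real.log (x + 1)) (Real.log (x + 1) + 1) x := by
        have := (Real.hasDerivAt_mul_log (x := x + 1) (by linarith)).comp_add_const x 1
        simpa using this
      have h2 : HasDerivAt (fun x : ℝ => (x - 1) * Real.log (x - 1)) (Real.log (x - 1) + 1) x := by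
        have := (Real.hasDerivAt_mul_log (x := x - 1) (by linarith)).comp_sub_const x 1
        simpa using this
      have h3 : HasDerivAt (fun x : ℝ => 2 * (x * Real.log x)) (2 * (Real.log x + 1)) x :=
        (Real.hasDerivAt_mul_log (x := x) (by linarith)).const_mul 2
      exact (h1.add h2).sub h3
    exact hd.differentiableAt.differentiableWithinAt
  · intro x hx
    rw [interior_Ici] at hx
    have hx1 : (1 : ℝ) < x := hx
    have hd : HasDerivAt U ((Real.log (x + 1) + 1) + (Real.log (x - 1) + 1)
        - 2 * (Real.log x + 1)) x := by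
      have h1 : HasDerivAt (fun x : ℝ => (x + 1) * Real.log (x + 1)) (Real.log (x + 1) + 1) x := by
        have := (Real.hasDerivAt_mul_log (x := x + 1) (by linarith)).comp_add_const x 1
        simpa using this
      have h2 : HasDerivAt (fun x : ℝ => (x - 1) * Real.log (x - 1)) (Real.log (x - 1) + 1) x := by
        have := (Real.hasDerivAt_mul_log (x := x - 1) (by linarith)).comp_sub_const x 1
        simpa using this
      have h3 : HasDerivAt (fun x : ℝ => 2 * (x * Real.log x)) (2 * (Real.log x + 1)) x :=
        (Real.hasDerivAt_mul_log (x := x) (by linarith)).const_mul 2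
      exact (h1.add h2).sub h3
    rw [hd.deriv]
    have hl : Real.log (x + 1) + Real.log (x - 1) ≤ 2 * Real.log x := by
      rw [← Real.log_mul (by linarith) (by linarith)]
      have : 2 * Real.log x = Real.log (x * x) := by
        rw [Real.log_mul (by linarith) (by linarith)]; ring
      rw [this]
      apply Real.log_le_log
      · nlinarith
      · nlinarith
    linarith

theorem U_cast (d : ℕ) (hd : 1 ≤ d) : U d = g (d + 1) + g (d - 1) - 2 * g d := by
  unfold U g
  rw [Nat.cast_sub hd]
  push_cast
  ring

/-- sum of `U` over an initial segment of shifts -/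
theorem sum_shift (j c : ℕ) (hc : c ≤ j) :
    ∑ i ∈ range c, U ((j - i : ℕ) : ℝ) = (g (j + 1) - g j) - (g (j - c + 1) - g (j - c)) := by
  induction c with
  | zero => simp
  | succ c ih =>
    rw [sum_range_succ, ih (by omega), U_cast _ (by omega)]
    have e1 : j - c - 1 = j - (c + 1) := by omega
    have e2 : j - (c + 1) + 1 = j - c := by omega
    rw [e1, e2]
    ring

theorem sum_diff (n : ℕ) : ∑ k ∈ range n, (g (k + 1) - g k) = g n := by
  rw [Finset.sum_range_sub]
  simp [g]

theorem total (n : ℕ) :
    ∑ j ∈ range n, ∑ i ∈ range j, U ((j - i : ℕ) : ℝ) = g n := by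
  have : ∀ j ∈ range n, ∑ i ∈ range j, U ((j - i : ℕ) : ℝ) = g (j + 1) - g j := by
    intro j _
    rw [sum_shift j j le_rfl]
    simp [g]
  rw [sum_congr rfl this, sum_diff]

/-- a lower set of `Fin L` is an initial segment -/
theorem lower_iff {L : ℕ} (S : Finset (Fin L)) (hS : ∀ i ∈ S, ∀ j, j ≤ i → j ∈ S) (i : Fin L) :
    i ∈ S ↔ (i : ℕ) < S.card := by
  constructor
  · intro hi
    have h1 : Finset.Iic i ⊆ S := by
      intro j hj
      exact hS i hi j (Finset.mem_Iic.1 hj)
    have h2 := card_le_card h1
    rw [Fin.card_Iic] at h2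
    omega
  · intro hi
    by_contra hn
    have h1 : S ⊆ Finset.Iio i := by
      intro j hj
      rw [Finset.mem_Iio]
      by_contra hlt
      exact hn (hS j hj i (not_lt.1 hlt))
    have h2 := card_le_card h1
    rw [Fin.card_Iio] at h2
    omega

/-- The separated pairs of a monotone total function on `Fin L`. -/
theorem sep_total {L t : ℕ} (ht : 1 ≤ t) (F : Fin L → Fin t) (hF : Monotone F) :
    ∑ j : Fin L, ∑ i : Fin L, (if F i < F j then U (((j : ℕ) - (i : ℕ) : ℕ) : ℝ) else 0)
      ≤ Real.log t * L := by
  classical
  set c : Fin t → ℕ := fun b => (univ.filter fun i : Fin L => F i < b).card with hc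
  set a : Fin t → ℕ := fun b => (univ.filter fun i : Fin L => F i = b).card with ha
  have hlow : ∀ (b : Fin t) (i : Fin L), F i < b ↔ (i : ℕ) < c b := by
    intro b i
    have := lower_iff (univ.filter fun i : Fin L => F i < b)
      (by
        intro i hi j hj
        simp only [mem_filter, mem_univ, true_and] at hi ⊢
        exact lt_of_le_of_lt (hF hj) hi) i
    simpa using this
  have hlow2 : ∀ (b : Fin t) (i : Fin L), F i ≤ b ↔ (i : ℕ) < c b + a b := by
    intro b i
    have h1 := lower_iff (univ.filter fun i : Fin L => F i ≤ b)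
      (by
        intro i hi j hj
        simp only [mem_filter, mem_univ, true_and] at hi ⊢
        exact le_trans (hF hj) hi) i
    have h2 : (univ.filter fun i : Fin L => F i ≤ b).card = c b + a b := by
      rw [hc, ha]
      simp only
      rw [← card_union_of_disjoint]
      · congr 1
        ext i
        simp only [mem_filter, mem_univ, true_and, mem_union]
        exact le_iff_lt_or_eq
      · rw [disjoint_filter]
        intro i _ h h'
        exact absurd h' (ne_of_lt h)
    rw [h2] at h1
    simpa using h1
  -- inner sums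
  have hinner : ∀ j : Fin L,
      ∑ i : Fin L, (if F i < F j then U (((j : ℕ) - (i : ℕ) : ℕ) : ℝ) else 0)
        = (g ((j : ℕ) + 1) - g j) - (g ((j : ℕ) - c (F j) + 1) - g ((j : ℕ) - c (F j))) := by
    intro j
    have hcj : c (F j) ≤ j := by
      by_contra h
      push Not at h
      exact lt_irrefl _ ((hlow (F j) j).2 h)
    rw [← sum_shift j (c (F j)) hcj, ← sum_filter]
    symm
    apply sum_bij (fun (i : ℕ) (hi : i ∈ range (c (F j))) =>
      (⟨i, lt_of_lt_of_le (mem_range.1 hi) (le_trans hcj j.2.le)⟩ : Fin L))
    · intro i hi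
      simp only [mem_filter, mem_univ, true_and]
      exact (hlow (F j) _).2 (mem_range.1 hi)
    · intro i _ i' _ h
      simpa using h
    · intro i hi
      simp only [mem_filter, mem_univ, true_and] at hi
      exact ⟨i, mem_range.2 ((hlow (F j) i).1 hi), by simp⟩
    · intro i _
      rfl
  have hblock : ∀ b : Fin t, ∑ j : Fin L, (if F j = b then
      (g ((j : ℕ) - c (F j) + 1) - g ((j : ℕ) - c (F j))) else 0) = g (a b) := by
    intro b
    rw [← sum_filter, ← sum_diff (a b)]
    symm
    have hca : c b + a b ≤ L := by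
      have h2 : (univ.filter fun i : Fin L => F i ≤ b).card = c b + a b := by
        rw [hc, ha]
        simp only
        rw [← card_union_of_disjoint]
        · congr 1
          ext i
          simp only [mem_filter, mem_univ, true_and, mem_union]
          exact le_iff_lt_or_eq
        · rw [disjoint_filter]
          intro i _ h h'
          exact absurd h' (ne_of_lt h)
      rw [← h2]
      exact le_trans (card_le_univ _) (by simp)
    have hmem : ∀ k (hk : k < a b), F ⟨c b + k, by omega⟩ = b := by
      intro k hk
      apply le_antisymm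
      · rw [hlow2]; simp; omega
      · rw [← not_lt, hlow]; simp
    apply sum_bij (fun (k : ℕ) (hk : k ∈ range (a b)) =>
      (⟨c b + k, by have := mem_range.1 hk; omega⟩ : Fin L))
    · intro k hk
      simp only [mem_filter, mem_univ, true_and]
      exact hmem k (mem_range.1 hk)
    · intro k _ k' _ h
      simpa using h
    · intro i hi
      simp only [mem_filter, mem_univ, true_and] at hi
      have h1 : (i : ℕ) < c b + a b := (hlow2 b i).1 hi.le
      have h2 : c b ≤ i := by
        by_contra h
        push Not at h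
        exact absurd ((hlow b i).2 h) (by rw [hi]; exact lt_irrefl _)
      refine ⟨i - c b, mem_range.2 (by omega), ?_⟩
      ext
      simp
      omega
    · intro k hk
      have := hmem k (mem_range.1 hk)
      simp only [this]
      congr 2
      · congr 1
        simp
      · simp
  have hsum : ∑ j : Fin L, (g ((j : ℕ) - c (F j) + 1) - g ((j : ℕ) - c (F j)))
      = ∑ b : Fin t, g (a b) := by
    rw [← sum_congr rfl fun b _ => hblock b, sum_comm]
    apply sum_congr rfl
    intro j _
    simp
  have hgL : ∑ j : Fin L, (g ((j : ℕ) + 1) - g (j : ℕ)) = g L := by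
    rw [← sum_diff L, ← Fin.sum_univ_eq_sum_range (fun k => g (k + 1) - g k) L]
  rw [sum_congr rfl fun j _ => hinner j, sum_sub_distrib, hgL, hsum]
  -- Jensen
  have hasum : ∑ b : Fin t, (a b : ℝ) = L := by
    have : ∑ b : Fin t, a b = L := by
      rw [ha]
      simp only
      rw [← card_eq_sum_card_fiberwise (f := F) (s := univ) (t := univ) (by simp)]
      simp
    exact_mod_cast this
  have htpos : (0 : ℝ) < t := by exact_mod_cast ht
  have hJ := Real.convexOn_mul_log.map_sum_le (t := (univ : Finset (Fin t)))
    (w := fun _ => (1 : ℝ) / t) (p := fun b => (a b : ℝ))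
    (by intro i _; positivity) (by simp; field_simp)
    (by intro i _; simp)
  simp only [smul_eq_mul] at hJ
  rw [← mul_sum, ← mul_sum, hasum] at hJ
  have hJ2 : (L : ℝ) * Real.log (1 / t * L) ≤ ∑ b : Fin t, g (a b) := by
    have h3 := mul_le_mul_of_nonneg_left hJ htpos.le
    have e1 : (t : ℝ) * (1 / t * L * Real.log (1 / t * L)) = L * Real.log (1 / t * L) := by
      field_simp
    have e2 : (t : ℝ) * (1 / t * ∑ i : Fin t, (a i : ℝ) * Real.log (a i))
        = ∑ b : Fin t, g (a b) := by
      unfold g
      field_simp
    rw [e1, e2] at h3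
    exact h3
  rcases Nat.eq_zero_or_pos L with h0 | hpos
  · subst h0
    simp only [Nat.cast_zero, zero_mul] at hJ2
    simp only [Nat.cast_zero, mul_zero]
    have : g 0 = 0 := by simp [g]
    rw [this]
    linarith
  · have hLp : (0 : ℝ) < L := by exact_mod_cast hpos
    have e3 : Real.log (1 / t * L) = Real.log L - Real.log t := by
      rw [one_div, Real.log_mul (by positivity) (by positivity), Real.log_inv]
      ring
    rw [e3] at hJ2
    unfold g at hJ2 ⊢
    nlinarith

open Classical in
/-- The separated pairs of a monotone partial function. -/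
theorem sep_partial {m t : ℕ} (ht : 1 ≤ t) (f : Fin m → Option (Fin t)) (hf : IsMonoPartial f) :
    ∑ y : Fin m, ∑ x : Fin m, (if Separates f x y then U (((y : ℕ) - (x : ℕ) : ℕ) : ℝ) else 0)
      ≤ Real.log t * ((univ.filter fun x : Fin m => f x ≠ none).card : ℝ) := by
  set D := univ.filter fun x : Fin m => f x ≠ none with hD
  set L := D.card with hL
  let e : Fin L ↪o Fin m := D.orderEmbOfFin rfl
  have heD : ∀ i, e i ∈ D := fun i => D.orderEmbOfFin_mem rfl i
  have hne : ∀ i, f (e i) ≠ none := fun i => by
    have := heD i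
    rw [hD] at this
    simpa using this
  let F : Fin L → Fin t := fun i => (f (e i)).get (Option.isSome_iff_ne_none.2 (hne i))
  have hFe : ∀ i, f (e i) = some (F i) := fun i => by simp [F]
  have hF : Monotone F := fun i j hij => hf _ _ _ _ (hFe i) (hFe j) (e.monotone hij)
  have hstep : ∑ y : Fin m, ∑ x : Fin m,
      (if Separates f x y then U (((y : ℕ) - (x : ℕ) : ℕ) : ℝ) else 0)
      = ∑ j : Fin L, ∑ i : Fin L,
        (if F i < F j then U (((e j : ℕ) - (e i : ℕ) : ℕ) : ℝ) else 0) := by
    have hout : ∀ x y : Fin m, x ∉ D ∨ y ∉ D → ¬ Separates f x y := by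
      rintro x y h ⟨a, b, ha, hb, _⟩
      rcases h with h | h
      · apply h; rw [hD]; simp [ha]
      · apply h; rw [hD]; simp [hb]
    have h1 : ∀ G : Fin m → ℝ, (∀ y, y ∉ D → G y = 0) → ∑ y, G y = ∑ j : Fin L, G (e j) := by
      intro G hG
      rw [← sum_subset (subset_univ D) (fun y _ hy => hG y hy)]
      have : D = univ.map e.toEmbedding := by
        rw [eq_comm]
        apply eq_of_subset_of_card_le
        · intro z hz
          rw [mem_map] at hz
          obtain ⟨i, _, rfl⟩ := hz
          exact heD i
        · simp [L]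
      rw [this, sum_map]
      rfl
    rw [h1 _ (fun y hy => sum_eq_zero fun x _ => if_neg (hout x y (Or.inr hy)))]
    apply sum_congr rfl
    intro j _
    rw [h1 _ (fun x hx => if_neg (hout x (e j) (Or.inl hx)))]
    apply sum_congr rfl
    intro i _
    have : Separates f (e i) (e j) ↔ F i < F j := by
      constructor
      · rintro ⟨a, b, ha, hb, hab⟩
        rw [hFe] at ha hb
        cases ha; cases hb; exact hab
      · intro h
        exact ⟨_, _, hFe i, hFe j, h⟩
    simp only [this]
  rw [hstep]
  refine le_trans ?_ (sep_total ht F hF)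
  apply sum_le_sum
  intro j _
  apply sum_le_sum
  intro i _
  split_ifs with h
  · have hij : i < j := by
      by_contra hn
      exact absurd (hF (not_lt.1 hn)) (not_le.2 h)
    have hgap : ∀ i j : Fin L, i ≤ j → (j : ℕ) - i ≤ (e j : ℕ) - e i := by
      have hstrict : ∀ k : ℕ, ∀ i j : Fin L, (j : ℕ) = i + k → (i : ℕ) + k + e i ≤ e j + i := by
        intro k
        induction k with
        | zero =>
          intro i j hj
          have : j = i := Fin.ext (by simpa using hj)
          subst this
          omega
        | succ k ih =>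
          intro i j hj
          have hk : (i : ℕ) + k < L := by have := j.2; omega
          have h1 := ih i ⟨i + k, hk⟩ rfl
          have h2 : e ⟨i + k, hk⟩ < e j := e.strictMono (by
            rw [Fin.lt_def]; simp; omega)
          rw [Fin.lt_def] at h2
          omega
      intro i j hij
      have h1 := hstrict (j - i) i j (by rw [Fin.le_def] at hij; omega)
      rw [Fin.le_def] at hij
      omega
    have hg := hgap i j hij.le
    rw [Fin.lt_def] at hij
    apply U_anti
    · simp only [Set.mem_Ici]
      have : 1 ≤ (j : ℕ) - i := by omega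
      exact_mod_cast this
    · simp only [Set.mem_Ici]
      have : 1 ≤ (e j : ℕ) - e i := by omega
      exact_mod_cast this
    · exact_mod_cast hg
  · exact le_rfl

theorem total_fin (m : ℕ) :
    ∑ y : Fin m, ∑ x : Fin m, (if x < y then U (((y : ℕ) - (x : ℕ) : ℕ) : ℝ) else 0) = g m := by
  rw [← total m, ← Fin.sum_univ_eq_sum_range (fun j => ∑ i ∈ range j, U ((j - i : ℕ) : ℝ)) m]
  apply sum_congr rfl
  intro y _
  rw [← sum_filter]
  symm
  apply sum_bij (fun (i : ℕ) (hi : i ∈ range (y : ℕ)) =>
    (⟨i, lt_trans (mem_range.1 hi) y.2⟩ : Fin m))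
  · intro i hi
    simp only [mem_filter, mem_univ, true_and, Fin.lt_def]
    exact mem_range.1 hi
  · intro i _ i' _ h
    simpa using h
  · intro i hi
    simp only [mem_filter, mem_univ, true_and, Fin.lt_def] at hi
    exact ⟨i, mem_range.2 hi, by simp⟩
  · intro i _
    rfl

theorem lower_bound {t m : ℕ} (ht : 2 ≤ t) (hm : 1 ≤ m) (w : (Fin m → Option (Fin t)) → ℝ)
    (hw : IsRealiser w) (r : ℝ) (hr : ∀ x, load w x ≤ r) : Real.logb t m ≤ r := by
  classical
  obtain ⟨hw0, hwm, hws⟩ := hw
  have hmp : (0 : ℝ) < m := by exact_mod_cast hm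
  have htp : (1 : ℝ) < t := by exact_mod_cast ht
  have hlt : 0 < Real.log t := Real.log_pos htp
  -- total pairs
  have h1 : g m ≤ ∑ y : Fin m, ∑ x : Fin m, (∑ f : Fin m → Option (Fin t),
      if Separates f x y then w f * U (((y : ℕ) - (x : ℕ) : ℕ) : ℝ) else 0) := by
    rw [← total_fin m]
    apply sum_le_sum
    intro y _
    apply sum_le_sum
    intro x _
    split_ifs with hxy
    · have h2 := hws x y (not_le.2 hxy)
      have hU : 0 ≤ U (((y : ℕ) - (x : ℕ) : ℕ) : ℝ) := U_nonneg (by
        rw [Fin.lt_def] at hxy
        have : 1 ≤ (y : ℕ) - x := by omega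
        exact_mod_cast this)
      have h3 := mul_le_mul_of_nonneg_right h2 hU
      rw [one_mul, sum_mul] at h3
      refine le_trans h3 (le_of_eq ?_)
      apply sum_congr rfl
      intro f _
      split_ifs <;> simp
    · apply sum_nonneg
      intro f _
      split_ifs with hs
      · by_cases hfm : IsMonoPartial f
        · exfalso
          obtain ⟨a, b, ha, hb, hab⟩ := hs
          exact absurd (hfm y x b a hb ha (not_lt.1 hxy)) (not_le.2 hab)
        · rw [hwm f hfm]; simp
      · exact le_rfl
  have h2 : ∑ y : Fin m, ∑ x : Fin m, (∑ f : Fin m → Option (Fin t),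
      if Separates f x y then w f * U (((y : ℕ) - (x : ℕ) : ℕ) : ℝ) else 0)
      = ∑ f : Fin m → Option (Fin t), w f * ∑ y : Fin m, ∑ x : Fin m,
        (if Separates f x y then U (((y : ℕ) - (x : ℕ) : ℕ) : ℝ) else 0) := by
    simp_rw [mul_sum]
    have : ∀ y : Fin m, ∑ x : Fin m, ∑ f : Fin m → Option (Fin t),
        (if Separates f x y then w f * U (((y : ℕ) - (x : ℕ) : ℕ) : ℝ) else 0)
        = ∑ f : Fin m → Option (Fin t), ∑ x : Fin m,
          (if Separates f x y then w f * U (((y : ℕ) - (x : ℕ) : ℕ) : ℝ) else 0) :=
      fun y => sum_comm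
    rw [sum_congr rfl fun y _ => this y, sum_comm]
    apply sum_congr rfl
    intro f _
    apply sum_congr rfl
    intro y _
    apply sum_congr rfl
    intro x _
    split_ifs <;> simp
  have h3 : ∑ f : Fin m → Option (Fin t), w f * ∑ y : Fin m, ∑ x : Fin m,
        (if Separates f x y then U (((y : ℕ) - (x : ℕ) : ℕ) : ℝ) else 0)
      ≤ ∑ f : Fin m → Option (Fin t), w f * (Real.log t *
        ((univ.filter fun x : Fin m => f x ≠ none).card : ℝ)) := by
    apply sum_le_sum
    intro f _
    by_cases hfm : IsMonoPartial f
    · exact mul_le_mul_of_nonneg_left (sep_partial (by omega) f hfm) (hw0 f)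
    · rw [hwm f hfm]; simp
  have h4 : ∑ f : Fin m → Option (Fin t), w f * (Real.log t *
        ((univ.filter fun x : Fin m => f x ≠ none).card : ℝ))
      = Real.log t * ∑ x : Fin m, load w x := by
    unfold load
    rw [sum_comm, mul_sum]
    apply sum_congr rfl
    intro f _
    rw [← sum_filter, sum_const, nsmul_eq_mul]
    ring
  have h5 : ∑ x : Fin m, load w x ≤ m * r := by
    refine le_trans (sum_le_sum fun x _ => hr x) ?_
    simp
  have h6 : g m ≤ Real.log t * (m * r) := by
    refine le_trans h1 ?_
    rw [h2]
    refine le_trans h3 ?_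
    rw [h4]
    exact mul_le_mul_of_nonneg_left h5 hlt.le
  unfold g at h6
  have h7 : Real.log m ≤ Real.log t * r := by
    have : (m : ℝ) * Real.log m ≤ m * (Real.log t * r) := by nlinarith
    exact le_of_mul_le_mul_left this hmp
  unfold Real.logb
  rw [div_le_iff₀ hlt]
  linarith

open Classical in
theorem exists_realiser (t : ℕ) (ht : 2 ≤ t) (P : Type) [PartialOrder P] [Fintype P]
    [DecidableEq P] :
    ∃ w : (P → Option (Fin t)) → ℝ, IsRealiser w := by
  refine ⟨fun f => if IsMonoPartial f then 1 else 0, ?_, ?_, ?_⟩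
  · intro f; simp only; split_ifs <;> norm_num
  · intro f hf; simp [hf]
  · intro x y hxy
    let f : P → Option (Fin t) := fun z => if z ≤ x then some ⟨0, by omega⟩ else some ⟨1, by omega⟩
    have hfm : IsMonoPartial f := by
      intro a b c d ha hb hab
      simp only [f] at ha hb
      by_cases h1 : b ≤ x
      · have h2 : a ≤ x := le_trans hab h1
        rw [if_pos h2] at ha
        rw [if_pos h1] at hb
        cases ha; cases hb; exact le_rfl
      · rw [if_neg h1] at hb
        cases hb
        split_ifs at ha
        · cases ha; rw [Fin.le_def]; simp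
        · cases ha; exact le_rfl
    have hs : Separates f x y := by
      refine ⟨⟨0, by omega⟩, ⟨1, by omega⟩, by simp [f], by simp [f, hxy], ?_⟩
      rw [Fin.lt_def]; simp
    have hnn : ∀ f' : P → Option (Fin t),
        0 ≤ (if Separates f' x y then (if IsMonoPartial f' then (1 : ℝ) else 0) else 0) := by
      intro f'; split_ifs <;> norm_num
    have := single_le_sum (f := fun f' : P → Option (Fin t) =>
      (if Separates f' x y then (if IsMonoPartial f' then (1 : ℝ) else 0) else 0))
      (fun f' _ => hnn f') (mem_univ f)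
    simp only [hs, hfm, if_true] at this
    exact this

theorem logb_le_fldim {t m : ℕ} (ht : 2 ≤ t) (hm : 1 ≤ m) :
    Real.logb t m ≤ fldim t (Fin m) := by
  unfold fldim
  obtain ⟨w, hw⟩ := exists_realiser t ht (Fin m)
  apply le_csInf
  · obtain ⟨r, hr⟩ : ∃ r : ℝ, ∀ x, load w x ≤ r := by
      obtain ⟨r, hr⟩ := (Set.finite_range (load w)).bddAbove
      exact ⟨r, fun x => hr (Set.mem_range_self x)⟩
    exact ⟨r, w, hw, hr⟩
  · rintro r ⟨w', hw', hr'⟩
    exact lower_bound ht hm w' hw' r hr'

end Q158.FLDim
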