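import Mathlib

/-!
# Fractional local t-dimension of a finite poset (definitions)
-/

set_option autoImplicit false

namespace Q158.FLDim

/-- A monotone partial function from the poset `P` to the chain `Fin t` with `t` elements; the
value `none` means that the element is outside of the domain. -/
def IsMonoPartial {P : Type} [PartialOrder P] {t : ℕ} (f : P → Option (Fin t)) : Prop :=
  ∀ x y : P, ∀ a b : Fin t, f x = some a → f y = some b → x ≤ y → a ≤ b

/-- `x` and `y` are both in the domain of `f` and `f x < f y`. -/
def Separates {P : Type} {t : ℕ} (f : P → Option (Fin t)) (x y : P) : Prop :=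
  ∃ a b : Fin t, f x = some a ∧ f y = some b ∧ a < b

open Classical in
/-- A fractional local `t`-realiser of `P`: a nonnegative weighting of the monotone partial
functions from `P` to the `t`-element chain such that for all `x, y` with `x ≱ y` the functions
`f` with `x, y` in the domain and `f x < f y` have total weight at least `1`. -/
def IsRealiser {P : Type} [PartialOrder P] [Fintype P] [DecidableEq P] {t : ℕ}
    (w : (P → Option (Fin t)) → ℝ) : Prop :=
  (∀ f, 0 ≤ w f) ∧ (∀ f, ¬ IsMonoPartial f → w f = 0) ∧
    ∀ x y : P, ¬ (y ≤ x) → 1 ≤ ∑ f : P → Option (Fin t), if Separates f x y then w f else 0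

open Classical in
/-- The local weight at `x`: the total weight of the functions with `x` in their domain. -/
noncomputable def load {P : Type} [Fintype P] [DecidableEq P] {t : ℕ} (w : (P → Option (Fin t)) → ℝ)
    (x : P) : ℝ :=
  ∑ f : P → Option (Fin t), if f x ≠ none then w f else 0

/-- The fractional local `t`-dimension: the infimum, over all fractional local `t`-realisers, of
the largest local weight (written as the infimum of all upper bounds of the local weights). -/
noncomputable def fldim (t : ℕ) (P : Type) [PartialOrder P] [Fintype P] [DecidableEq P] : ℝ :=
  sInf {r : ℝ | ∃ w : (P → Option (Fin t)) → ℝ, IsRealiser w ∧ ∀ x : P, load w x ≤ r}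

end Q158.FLDim
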