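import Pool.Agent.Q158.FlagsDefs

namespace Q158.Flags

open Module

section

variable {K : Type*} [Field K] {V : Type*} [AddCommGroup V] [Module K V] {d : ℕ}

/-- The standard flag in coordinates `ψ`. -/
def flagOf (ψ : V ≃ₗ[K] (Fin d → K)) (n : ℕ) : Submodule K V :=
  (⨅ l ∈ {l : Fin d | n ≤ l.val}, LinearMap.ker (LinearMap.proj l : (Fin d → K) →ₗ[K] K)).comap
    ψ.toLinearMap

theorem mem_flagOf (ψ : V ≃ₗ[K] (Fin d → K)) (n : ℕ) (v : V) :
    v ∈ flagOf ψ n ↔ ∀ l : Fin d, n ≤ l.val → ψ v l = 0 := by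
  simp [flagOf, Submodule.mem_iInf]

theorem flagOf_mono (ψ : V ≃ₗ[K] (Fin d → K)) {n n' : ℕ} (h : n ≤ n') :
    flagOf ψ n ≤ flagOf ψ n' := by
  intro v hv
  rw [mem_flagOf] at hv ⊢
  intro l hl
  exact hv l (h.trans hl)

theorem finrank_flagOf (ψ : V ≃ₗ[K] (Fin d → K)) {n : ℕ} (h : n ≤ d) :
    finrank K (flagOf ψ n) = n := by
  unfold flagOf
  rw [LinearEquiv.finrank_eq (Submodule.comap_equiv_self_of_inj_of_le
    (f := ψ.toLinearMap) ψ.injective (by
      rw [LinearEquiv.range]; exact le_top))]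
  have hd : Disjoint {l : Fin d | l.val < n} {l : Fin d | n ≤ l.val} := by
    rw [Set.disjoint_left]
    intro l h1 h2
    have h1' : l.val < n := h1
    have h2' : n ≤ l.val := h2
    omega
  have hu : Set.univ ⊆ {l : Fin d | l.val < n} ∪ {l : Fin d | n ≤ l.val} := by
    intro l _
    rcases Nat.lt_or_ge l.val n with h | h
    · exact Or.inl h
    · exact Or.inr h
  rw [LinearEquiv.finrank_eq (LinearMap.iInfKerProjEquiv K (fun _ : Fin d => K) hd hu)]
  rw [finrank_fintype_fun_eq_card]
  rw [Fintype.card_subtype]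
  have : (Finset.univ.filter (fun l : Fin d => l ∈ {l : Fin d | l.val < n})) =
      Finset.univ.image (fun i : Fin n => (⟨i.val, by omega⟩ : Fin d)) := by
    ext l
    simp only [Finset.mem_filter, Finset.mem_univ, true_and, Finset.mem_image]
    constructor
    · intro hl
      exact ⟨⟨l.val, hl⟩, rfl⟩
    · rintro ⟨i, rfl⟩
      exact i.isLt
  rw [this, Finset.card_image_of_injective, Finset.card_univ, Fintype.card_fin]
  intro i j hij
  have h2 : (⟨i.val, by omega⟩ : Fin d) = ⟨j.val, by omega⟩ := hij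
  exact Fin.ext (Fin.mk.inj h2)

end

section Construction

variable {K : Type*} [Field K] {R : Type*} [CommRing R] [Algebra K R] {k b m : ℕ}

/-- coordinates: first `y`, then `z`, then `x` -/
noncomputable def cLin (ρ : R ≃ₗ[K] (Fin k → K)) (b : ℕ) :
    (R × R × (Fin b → K)) →ₗ[K] (Fin (k + (b + k)) → K) where
  toFun v := Fin.append (ρ v.2.1) (Fin.append v.2.2 (ρ v.1))
  map_add' v w := by
    ext l
    refine Fin.addCases (fun i => ?_) (fun i => ?_) l
    · simp [Fin.append_left]
    · refine Fin.addCases (fun i => ?_) (fun i => ?_) i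
      · simp [Fin.append_left, Fin.append_right]
      · simp [Fin.append_right]
  map_smul' a v := by
    ext l
    refine Fin.addCases (fun i => ?_) (fun i => ?_) l
    · simp [Fin.append_left]
    · refine Fin.addCases (fun i => ?_) (fun i => ?_) i
      · simp [Fin.append_left, Fin.append_right]
      · simp [Fin.append_right]

theorem cLin_apply (ρ : R ≃ₗ[K] (Fin k → K)) (b : ℕ) (v : R × R × (Fin b → K)) :
    cLin ρ b v = Fin.append (ρ v.2.1) (Fin.append v.2.2 (ρ v.1)) := rfl

theorem cLin_spec (ρ : R ≃ₗ[K] (Fin k → K)) (b s : ℕ) (hs : s ≤ b)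
    (v : R × R × (Fin b → K)) :
    (∀ l : Fin (k + (b + k)), k + s ≤ l.val → cLin ρ b v l = 0) ↔
      v.1 = 0 ∧ ∀ i : Fin b, s ≤ i.val → v.2.2 i = 0 := by
  rw [cLin_apply]
  constructor
  · intro h
    constructor
    · apply ρ.injective
      rw [map_zero]
      ext i
      have := h (Fin.natAdd k (Fin.natAdd b i)) (by simp; omega)
      simpa [Fin.append_right] using this
    · intro i hi
      have := h (Fin.natAdd k (Fin.castAdd k i)) (by simp; omega)
      simpa [Fin.append_right, Fin.append_left] using this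
  · rintro ⟨h1, h2⟩ l
    refine Fin.addCases (fun i => ?_) (fun i => ?_) l
    · intro hl
      have := i.isLt
      simp at hl
      omega
    · refine Fin.addCases (fun i => ?_) (fun i => ?_) i
      · intro hl
        simp only [Fin.val_natAdd, Fin.val_castAdd] at hl
        rw [Fin.append_right, Fin.append_left]
        exact h2 i (by omega)
      · intro _
        rw [Fin.append_right, Fin.append_right, h1, map_zero]
        rfl

theorem cLin_injective (ρ : R ≃ₗ[K] (Fin k → K)) (b : ℕ) : Function.Injective (cLin ρ b) := by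
  rw [← LinearMap.ker_eq_bot, LinearMap.ker_eq_bot']
  intro v hv
  have h1 := (cLin_spec ρ b 0 (Nat.zero_le _) v).1 (fun l _ => by rw [hv]; rfl)
  have h2 : v.2.1 = 0 := by
    apply ρ.injective
    rw [map_zero]
    ext i
    have := congrFun hv (Fin.castAdd (b + k) i)
    rw [cLin_apply, Fin.append_left] at this
    exact this
  exact Prod.ext h1.1 (Prod.ext h2 (funext fun i => h1.2 i (Nat.zero_le _)))

noncomputable def cEquiv (ρ : R ≃ₗ[K] (Fin k → K)) (b : ℕ) :
    (R × R × (Fin b → K)) ≃ₗ[K] (Fin (k + (b + k)) → K) := by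
  haveI : FiniteDimensional K R := Module.Finite.equiv ρ.symm
  exact LinearEquiv.ofInjectiveOfFinrankEq (cLin ρ b) (cLin_injective ρ b) (by
    have h1 : finrank K R = k := by rw [ρ.finrank_eq]; simp
    rw [finrank_prod, finrank_prod, h1]
    simp
    omega)

theorem cEquiv_apply (ρ : R ≃ₗ[K] (Fin k → K)) (b : ℕ) (v : R × R × (Fin b → K)) :
    cEquiv ρ b v = cLin ρ b v := rfl

/-- The shear `(x, y, z) ↦ (x + t y + t² ι z, y, z)`. -/
noncomputable def shear (ι : (Fin b → K) →ₗ[K] R) (t : R) :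
    (R × R × (Fin b → K)) ≃ₗ[K] (R × R × (Fin b → K)) where
  toFun v := (v.1 + t * v.2.1 + t ^ 2 * ι v.2.2, v.2.1, v.2.2)
  invFun v := (v.1 - t * v.2.1 - t ^ 2 * ι v.2.2, v.2.1, v.2.2)
  map_add' v w := by
    apply Prod.ext
    · simp only [Prod.fst_add, Prod.snd_add, map_add]; ring
    · rfl
  map_smul' a v := by
    apply Prod.ext
    · simp only [Prod.smul_fst, Prod.smul_snd, map_smul, RingHom.id_apply, mul_smul_comm,
        smul_add]
    · rfl
  left_inv v := by
    apply Prod.ext
    · simp only []; ring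
    · rfl
  right_inv v := by
    apply Prod.ext
    · simp only []; ring
    · rfl

/-- coordinates of the `j`-th flag -/
noncomputable def psi (ρ : R ≃ₗ[K] (Fin k → K)) (ι : (Fin b → K) →ₗ[K] R) (t : R) :
    (Fin (k + (b + k)) → K) ≃ₗ[K] (Fin (k + (b + k)) → K) :=
  (cEquiv ρ b).symm.trans ((shear ι t).trans (cEquiv ρ b))

theorem mem_level (ρ : R ≃ₗ[K] (Fin k → K)) (ι : (Fin b → K) →ₗ[K] R) (t : R) (s : ℕ)
    (hs : s ≤ b) (w : Fin (k + (b + k)) → K) :
    w ∈ flagOf (psi ρ ι t) (k + s) ↔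
      ((cEquiv ρ b).symm w).1 + t * ((cEquiv ρ b).symm w).2.1 +
        t ^ 2 * ι ((cEquiv ρ b).symm w).2.2 = 0 ∧
      ∀ i : Fin b, s ≤ i.val → ((cEquiv ρ b).symm w).2.2 i = 0 := by
  rw [mem_flagOf]
  have h := cLin_spec ρ b s hs (shear ι t ((cEquiv ρ b).symm w))
  exact h

end Construction

end Q158.Flags
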