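import Pool.Agent.Q158.Flags

namespace Q158.Flags

open Module Finset

section Count

variable {K : Type*} [Field K] {R : Type*} [CommRing R] [Algebra K R] {k b m : ℕ}

/-- No nonzero vector lies in three of the large subspaces. -/
theorem triple {t₁ t₂ t₃ x y z : R} (h12 : IsUnit (t₁ - t₂)) (h13 : IsUnit (t₁ - t₃))
    (h23 : IsUnit (t₂ - t₃)) (h1 : x + t₁ * y + t₁ ^ 2 * z = 0)
    (h2 : x + t₂ * y + t₂ ^ 2 * z = 0) (h3 : x + t₃ * y + t₃ ^ 2 * z = 0) : z = 0 := by
  have e1 : (t₁ - t₂) * (y + (t₁ + t₂) * z) = 0 := by linear_combination h1 - h2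
  have e2 : (t₁ - t₃) * (y + (t₁ + t₃) * z) = 0 := by linear_combination h1 - h3
  rw [h12.mul_right_eq_zero] at e1
  rw [h13.mul_right_eq_zero] at e2
  have e3 : (t₂ - t₃) * z = 0 := by linear_combination e1 - e2
  rwa [h23.mul_right_eq_zero] at e3

theorem double {t₁ t₂ x y : R} (h12 : IsUnit (t₁ - t₂)) (h1 : x + t₁ * y = 0)
    (h2 : x + t₂ * y = 0) : x = 0 ∧ y = 0 := by
  have e1 : (t₁ - t₂) * y = 0 := by linear_combination h1 - h2
  rw [h12.mul_right_eq_zero] at e1
  rw [e1] at h1
  exact ⟨by simpa using h1, e1⟩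

variable (ρ : R ≃ₗ[K] (Fin k → K)) (ι : (Fin b → K) →ₗ[K] R) (t : Fin m → R)

/-- The flags. -/
noncomputable def theFlag (j : Fin m) (n : ℕ) : Submodule K (Fin (k + (b + k)) → K) :=
  flagOf (psi ρ ι (t j)) n

variable {ρ ι t}

open Classical in
/-- A generating set has many vectors in the small subspaces. -/
theorem card_small (S : Finset (Fin (k + (b + k)) → K)) (j : Fin m)
    (hS : ∃ T ⊆ (S : Set (Fin (k + (b + k)) → K)), Submodule.span K T = theFlag ρ ι t j k) :
    k ≤ (S.filter (fun w => w ∈ theFlag ρ ι t j k ∧ w ≠ 0)).card := by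
  obtain ⟨T, hT, hspan⟩ := hS
  have h1 : Submodule.span K ((S.filter (fun w => w ∈ theFlag ρ ι t j k ∧ w ≠ 0) :
      Finset _) : Set (Fin (k + (b + k)) → K)) = theFlag ρ ι t j k := by
    apply le_antisymm
    · rw [Submodule.span_le]
      intro w hw
      rw [Finset.mem_coe, Finset.mem_filter] at hw
      exact hw.2.1
    · conv_lhs => rw [← hspan]
      rw [Submodule.span_le]
      intro w hw
      by_cases h0 : w = 0
      · rw [h0]; exact Submodule.zero_mem _
      · apply Submodule.subset_span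
        rw [Finset.mem_coe, Finset.mem_filter]
        refine ⟨hT hw, ?_, h0⟩
        rw [← hspan]
        exact Submodule.subset_span hw
  have h2 := finrank_span_finset_le_card (R := K)
    (S.filter (fun w => w ∈ theFlag ρ ι t j k ∧ w ≠ 0))
  unfold Set.finrank at h2
  rw [h1] at h2
  unfold theFlag at h2 ⊢
  rwa [finrank_flagOf _ (by omega)] at h2

/-- A generating set contains a vector at every level. -/
theorem exists_level (S : Finset (Fin (k + (b + k)) → K)) (j : Fin m) (n : ℕ)
    (hn : n < k + (b + k))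
    (hS : ∃ T ⊆ (S : Set (Fin (k + (b + k)) → K)), Submodule.span K T = theFlag ρ ι t j (n + 1)) :
    ∃ w ∈ S, w ∈ theFlag ρ ι t j (n + 1) ∧ w ∉ theFlag ρ ι t j n := by
  obtain ⟨T, hT, hspan⟩ := hS
  by_contra hcon
  push Not at hcon
  have h1 : theFlag ρ ι t j (n + 1) ≤ theFlag ρ ι t j n := by
    conv_lhs => rw [← hspan]
    rw [Submodule.span_le]
    intro w hw
    apply hcon w (hT hw)
    rw [← hspan]
    exact Submodule.subset_span hw
  have h2 := Submodule.finrank_mono h1
  unfold theFlag at h2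
  rw [finrank_flagOf _ (by omega), finrank_flagOf _ (by omega)] at h2
  omega

open Classical in
theorem count (hι : Function.Injective ι)
    (ht : ∀ i j, i ≠ j → IsUnit (t i - t j)) (S : Finset (Fin (k + (b + k)) → K))
    (hS : ∀ j n, n ≤ k + (b + k) → ∃ T ⊆ (S : Set (Fin (k + (b + k)) → K)),
      Submodule.span K T = theFlag ρ ι t j n) :
    m * k + b * ((m + 1) / 2) ≤ S.card := by
  set e := (cEquiv ρ b).symm with he
  -- vectors of the small subspaces
  set P : Fin m → Finset (Fin (k + (b + k)) → K) := fun j =>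
    S.filter (fun w => w ∈ theFlag ρ ι t j k ∧ w ≠ 0) with hP
  have hPz : ∀ j, ∀ w ∈ P j, (e w).1 + t j * (e w).2.1 = 0 ∧ (e w).2.2 = 0 := by
    intro j w hw
    rw [hP, Finset.mem_filter] at hw
    have h1 := (mem_level ρ ι (t j) 0 (Nat.zero_le _) w).1 hw.2.1
    have h2 : (e w).2.2 = 0 := funext fun i => h1.2 i (Nat.zero_le _)
    refine ⟨?_, h2⟩
    have h3 := h1.1
    rw [← he, h2, map_zero, mul_zero, add_zero] at h3
    exact h3
  have hPdisj : ∀ i ∈ (univ : Finset (Fin m)), ∀ j ∈ (univ : Finset (Fin m)), i ≠ j →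
      Disjoint (P i) (P j) := by
    intro i _ j _ hij
    rw [Finset.disjoint_left]
    intro w hwi hwj
    obtain ⟨h1, h2⟩ := hPz i w hwi
    obtain ⟨h3, -⟩ := hPz j w hwj
    obtain ⟨h4, h5⟩ := double (ht i j hij) h1 h3
    rw [hP, Finset.mem_filter] at hwi
    apply hwi.2.2
    apply e.injective
    rw [map_zero]
    exact Prod.ext h4 (Prod.ext h5 h2)
  -- vectors of the medium subspaces
  have hQ : ∀ (s : Fin b) (j : Fin m), ∃ w ∈ S, w ∈ theFlag ρ ι t j (k + s.val + 1) ∧
      w ∉ theFlag ρ ι t j (k + s.val) := by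
    intro s j
    have := s.isLt
    exact exists_level S j (k + s.val) (by omega) (hS j _ (by omega))
  choose q hq1 hq2 hq3 using hQ
  have hqz : ∀ s j, (e (q s j)).1 + t j * (e (q s j)).2.1 + t j ^ 2 * ι (e (q s j)).2.2 = 0 ∧
      (e (q s j)).2.2 s ≠ 0 ∧ ∀ i : Fin b, s < i → (e (q s j)).2.2 i = 0 := by
    intro s j
    have h1 := (mem_level ρ ι (t j) (s.val + 1) s.isLt (q s j)).1 (hq2 s j)
    have h2 := hq3 s j
    have h3 : ¬ (_ ∧ _) := fun h => h2 ((mem_level ρ ι (t j) s.val s.isLt.le (q s j)).2 h)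
    refine ⟨h1.1, ?_, fun i hi => h1.2 i hi⟩
    intro h0
    apply h3
    refine ⟨h1.1, fun i hi => ?_⟩
    rcases Nat.lt_or_ge s.val i.val with h | h
    · exact h1.2 i h
    · have : i = s := Fin.ext (by omega)
      rw [this]; exact h0
  set Q : Fin b → Finset (Fin (k + (b + k)) → K) := fun s => univ.image (q s) with hQ
  have hQcard : ∀ s, (m + 1) / 2 ≤ (Q s).card := by
    intro s
    have h1 : (univ : Finset (Fin m)).card ≤ 2 * (Q s).card := by
      apply Finset.card_le_mul_card_image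
      intro w hw
      by_contra hcon
      push Not at hcon
      rw [Finset.two_lt_card] at hcon
      obtain ⟨j₁, h1, j₂, h2, j₃, h3, h12, h13, h23⟩ := hcon
      rw [Finset.mem_filter] at h1 h2 h3
      have g1 := hqz s j₁
      have g2 := hqz s j₂
      have g3 := hqz s j₃
      rw [h1.2] at g1
      rw [h2.2] at g2
      rw [h3.2] at g3
      have h4 := triple (ht _ _ h12) (ht _ _ h13) (ht _ _ h23) g1.1 g2.1 g3.1
      have h5 : (e w).2.2 = 0 := hι (by rw [h4, map_zero])
      exact g1.2.1 (by rw [h5]; rfl)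
    rw [Finset.card_univ, Fintype.card_fin] at h1
    omega
  have hQdisj : ∀ i ∈ (univ : Finset (Fin b)), ∀ j ∈ (univ : Finset (Fin b)), i ≠ j →
      Disjoint (Q i) (Q j) := by
    intro s _ s' _ hss
    rw [Finset.disjoint_left]
    intro w hw hw'
    rw [hQ, Finset.mem_image] at hw hw'
    obtain ⟨j, -, hj⟩ := hw
    obtain ⟨j', -, hj'⟩ := hw'
    have g1 := hqz s j
    have g2 := hqz s' j'
    rw [hj] at g1
    rw [hj'] at g2
    rcases lt_trichotomy s s' with h | h | h
    · exact g2.2.1 (g1.2.2 s' h)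
    · exact hss h
    · exact g1.2.1 (g2.2.2 s h)
  have hsub : (univ.biUnion P) ∪ (univ.biUnion Q) ⊆ S := by
    intro w hw
    rw [Finset.mem_union, Finset.mem_biUnion, Finset.mem_biUnion] at hw
    rcases hw with ⟨j, -, hj⟩ | ⟨s, -, hs⟩
    · rw [hP, Finset.mem_filter] at hj
      exact hj.1
    · rw [hQ, Finset.mem_image] at hs
      obtain ⟨j, -, rfl⟩ := hs
      exact hq1 s j
  have hdisj : Disjoint (univ.biUnion P) (univ.biUnion Q) := by
    rw [Finset.disjoint_left]
    intro w hw hw'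
    rw [Finset.mem_biUnion] at hw hw'
    obtain ⟨j, -, hj⟩ := hw
    obtain ⟨s, -, hs⟩ := hw'
    rw [hQ, Finset.mem_image] at hs
    obtain ⟨j', -, rfl⟩ := hs
    exact (hqz s j').2.1 (by rw [(hPz j _ hj).2]; rfl)
  have h1 := Finset.card_le_card hsub
  rw [Finset.card_union_of_disjoint hdisj, Finset.card_biUnion hPdisj,
    Finset.card_biUnion hQdisj] at h1
  have h2 : m * k ≤ ∑ j, (P j).card := by
    have : ∑ j : Fin m, k ≤ ∑ j, (P j).card :=
      Finset.sum_le_sum (fun j _ => card_small S j (hS j k (by omega)))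
    simpa using this
  have h3 : b * ((m + 1) / 2) ≤ ∑ s, (Q s).card := by
    have : ∑ s : Fin b, ((m + 1) / 2) ≤ ∑ s, (Q s).card :=
      Finset.sum_le_sum (fun s _ => hQcard s)
    simpa using this
  omega

end Count

end Q158.Flags
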