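import Pool.Agent.Q158.FlagsB

namespace Q158.Flags

open Module Finset

/-- There are `m` complete flags which need `N` vectors. -/
def Needs (K : Type*) [Field K] (m d N : ℕ) : Prop :=
  ∃ U : Fin m → Fin (d + 1) → Submodule K (Fin d → K), (∀ j, IsCompleteFlag K (U j)) ∧
    ∀ S : Finset (Fin d → K), (∀ j, Generates K (S : Set (Fin d → K)) (U j)) → N ≤ S.card

theorem isCompleteFlag_flagOf {K : Type*} [Field K] {d : ℕ}
    (ψ : (Fin d → K) ≃ₗ[K] (Fin d → K)) :
    IsCompleteFlag K (fun i : Fin (d + 1) => flagOf ψ i.val) :=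
  ⟨fun _ _ h => flagOf_mono ψ h, fun i => finrank_flagOf ψ (by have := i.isLt; omega)⟩

theorem needs_of_algebra {K : Type*} [Field K] {R : Type*} [CommRing R] [Algebra K R]
    {k b m : ℕ} (hb : b ≤ k) (ρ : R ≃ₗ[K] (Fin k → K)) (t : Fin m → R)
    (ht : ∀ i j, i ≠ j → IsUnit (t i - t j)) :
    Needs K m (k + (b + k)) (m * k + b * ((m + 1) / 2)) := by
  let ι : (Fin b → K) →ₗ[K] R :=
    ρ.symm.toLinearMap.comp (Function.ExtendByZero.linearMap K (Fin.castLE hb))
  have hι : Function.Injective ι := by
    apply ρ.symm.injective.comp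
    intro f g h
    ext i
    have h1 := congrFun h (Fin.castLE hb i)
    simp only [Function.ExtendByZero.linearMap_apply] at h1
    rwa [(Fin.castLE_injective hb).extend_apply, (Fin.castLE_injective hb).extend_apply] at h1
  refine ⟨fun j i => theFlag ρ ι t j i.val, fun j => isCompleteFlag_flagOf _, ?_⟩
  intro S hS
  apply count hι ht S
  intro j n hn
  exact hS j ⟨n, by omega⟩

theorem exists_algebra (K : Type*) [Field K] (m k b : ℕ) (hk : 1 ≤ k) (hmk : m ≤ k)
    (hb : b ≤ k) : Needs K m (k + (b + k)) (m * k + b * ((m + 1) / 2)) := by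
  rcases finite_or_infinite K with hK | hK
  · haveI : Finite K := hK
    obtain ⟨p, hp⟩ := CharP.exists K
    haveI := hp
    haveI : Fact p.Prime := ⟨CharP.char_is_prime K p⟩
    haveI : NeZero k := ⟨by omega⟩
    have h1 : finrank K (FiniteField.Extension K p k) = k := FiniteField.finrank_extension K p k
    have h2 : finrank K (FiniteField.Extension K p k) = finrank K (Fin k → K) := by
      rw [h1]; simp
    let ρ : FiniteField.Extension K p k ≃ₗ[K] (Fin k → K) := LinearEquiv.ofFinrankEq _ _ h2
    have h3 : m ≤ Nat.card (FiniteField.Extension K p k) := by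
      rw [FiniteField.natCard_extension]
      have h4 : 2 ≤ Nat.card K := Finite.one_lt_card
      have h5 : 2 ^ k ≤ Nat.card K ^ k := Nat.pow_le_pow_left h4 k
      have h6 : k < 2 ^ k := Nat.lt_two_pow_self
      omega
    haveI : Fintype (FiniteField.Extension K p k) := Fintype.ofFinite _
    have h4 : Fintype.card (Fin m) ≤ Fintype.card (FiniteField.Extension K p k) := by
      rw [Fintype.card_fin, Fintype.card_eq_nat_card]; exact h3
    obtain ⟨t⟩ := Function.Embedding.nonempty_of_card_le h4
    apply needs_of_algebra hb ρ (fun j => t j)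
    intro i j hij
    exact (sub_ne_zero.2 (fun h => hij (t.injective h))).isUnit
  · let t := Infinite.natEmbedding K
    apply needs_of_algebra hb (LinearEquiv.refl K (Fin k → K))
      (fun (j : Fin m) => (fun _ => t j.val : Fin k → K))
    intro i j hij
    rw [Pi.isUnit_iff]
    intro l
    exact (sub_ne_zero.2 (fun h => hij (Fin.ext (t.injective h)))).isUnit

theorem needs_one (K : Type*) [Field K] (d : ℕ) : Needs K 1 d d := by
  refine ⟨fun _ i => flagOf (LinearEquiv.refl K (Fin d → K)) i.val,
    fun _ => isCompleteFlag_flagOf _, ?_⟩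
  intro S hS
  obtain ⟨T, hT, hspan⟩ := hS 0 ⟨d, by omega⟩
  have h1 : finrank K (Submodule.span K T) = d := by
    rw [hspan]; exact finrank_flagOf _ le_rfl
  have h2 : Submodule.span K T ≤ Submodule.span K (S : Set (Fin d → K)) :=
    Submodule.span_mono hT
  have h3 := Submodule.finrank_mono h2
  have h4 := finrank_span_finset_le_card (R := K) S
  unfold Set.finrank at h4
  omega

theorem needs_mu (K : Type*) [Field K] (m : ℕ) (hm : 1 ≤ m) :
    ∀ d, 3 * (m + 2) ≤ d → Needs K m d (mu m d) := by
  intro d hd
  by_cases hm1 : m = 1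
  · subst hm1
    have : mu 1 d = d := by simp [mu]
    rw [this]
    exact needs_one K d
  · obtain ⟨k, b, hk, hbk, hkb, hmk⟩ : ∃ k b, d = k + (b + k) ∧ b ≤ k ∧ k < b + 3 ∧ m ≤ k := by
      refine ⟨(d + 2) / 3, d - 2 * ((d + 2) / 3), ?_, ?_, ?_, ?_⟩ <;> omega
    have h := exists_algebra K m k b (by omega) hmk hbk
    rw [← hk] at h
    have h2 : mu m d = m * k + b * ((m + 1) / 2) := by
      unfold mu
      rw [if_neg (by omega)]
      rcases Nat.even_or_odd' m with ⟨a, ha | ha⟩
      · rw [if_pos (by omega)]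
        subst ha
        have e1 : 2 * a * d / 2 = a * d := by
          rw [mul_assoc, Nat.mul_div_cancel_left _ (by norm_num)]
        have e2 : (2 * a + 1) / 2 = a := by omega
        rw [e1, e2, hk]
        ring
      · rw [if_neg (by omega)]
        subst ha
        have e1 : (2 * a + 1 - 1) * d / 2 = a * d := by
          rw [Nat.add_sub_cancel, mul_assoc, Nat.mul_div_cancel_left _ (by norm_num)]
        have e2 : (2 * a + 1 + 1) / 2 = a + 1 := by omega
        have e3 : 2 * d / 3 = k + b := by omega
        rw [e1, e2, e3, hk]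
        ring
    rw [h2]
    exact h

/-- The set of admissible numbers is not empty. -/
theorem exists_bound (K : Type*) [Field K] (m d : ℕ) :
    ∃ n, ∀ U : Fin m → Fin (d + 1) → Submodule K (Fin d → K), (∀ j, IsCompleteFlag K (U j)) →
      ∃ S : Finset (Fin d → K), S.card ≤ n ∧ ∀ j, Generates K (S : Set (Fin d → K)) (U j) := by
  classical
  refine ⟨m * ((d + 1) * d), ?_⟩
  intro U hU
  have h1 : ∀ (j : Fin m) (i : Fin (d + 1)), ∃ T : Finset (Fin d → K), T.card ≤ d ∧
      Submodule.span K (T : Set (Fin d → K)) = U j i := by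
    intro j i
    let B := finBasis K (U j i)
    refine ⟨Finset.univ.image (fun l => ((B l : U j i) : Fin d → K)), ?_, ?_⟩
    · refine Finset.card_image_le.trans ?_
      rw [Finset.card_univ, Fintype.card_fin]
      refine (Submodule.finrank_le _).trans ?_
      simp
    · rw [Finset.coe_image, Finset.coe_univ, Set.image_univ]
      have h2 : (Set.range fun l => ((B l : U j i) : Fin d → K)) =
          (U j i).subtype '' (Set.range B) := by
        rw [← Set.range_comp]; rfl
      rw [h2, Submodule.span_image, B.span_eq, Submodule.map_top, Submodule.range_subtype]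
  choose T hT1 hT2 using h1
  refine ⟨Finset.univ.biUnion (fun j => Finset.univ.biUnion (fun i => T j i)), ?_, ?_⟩
  · refine Finset.card_biUnion_le.trans ?_
    have h3 : ∀ j : Fin m, (Finset.univ.biUnion (fun i => T j i)).card ≤ (d + 1) * d := by
      intro j
      refine Finset.card_biUnion_le.trans ?_
      have := Finset.sum_le_sum (fun (i : Fin (d + 1)) (_ : i ∈ Finset.univ) => hT1 j i)
      simpa using this
    have := Finset.sum_le_sum (fun (j : Fin m) (_ : j ∈ Finset.univ) => h3 j)
    simpa using this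
  · intro j i
    refine ⟨(T j i : Set (Fin d → K)), ?_, hT2 j i⟩
    intro w hw
    rw [Finset.mem_coe, Finset.mem_biUnion]
    exact ⟨j, Finset.mem_univ _, Finset.mem_biUnion.2 ⟨i, Finset.mem_univ _, hw⟩⟩

theorem le_muField (K : Type*) [Field K] (m d N : ℕ) (h : Needs K m d N) :
    N ≤ muField K m d := by
  obtain ⟨U, hU, hN⟩ := h
  have h1 := Nat.sInf_mem (s := {n | ∀ U : Fin m → Fin (d + 1) → Submodule K (Fin d → K),
    (∀ j, IsCompleteFlag K (U j)) →
      ∃ S : Finset (Fin d → K), S.card ≤ n ∧ ∀ j, Generates K (S : Set (Fin d → K)) (U j)})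
    (exists_bound K m d)
  obtain ⟨S, hS1, hS2⟩ := h1 U hU
  exact (hN S hS2).trans hS1

end Q158.Flags
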