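import Mathlib

/-! Sets of vectors which simultaneously generate several complete flags. -/

namespace Q158.Flags

/-- A complete flag in `K^d`: an increasing chain of subspaces `U 0, …, U d`, `dim (U i) = i`. -/
def IsCompleteFlag (K : Type*) [Field K] {d : ℕ} (U : Fin (d + 1) → Submodule K (Fin d → K)) :
    Prop :=
  Monotone U ∧ ∀ i, Module.finrank K (U i) = i

/-- Every member of the flag is spanned by some subset of `S`. -/
def Generates (K : Type*) [Field K] {d : ℕ} (S : Set (Fin d → K))
    (U : Fin (d + 1) → Submodule K (Fin d → K)) : Prop :=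
  ∀ i, ∃ T ⊆ S, Submodule.span K T = U i

/-- The least `n` such that every `m`-tuple of complete flags in `K^d` is simultaneously generated
by some set of at most `n` vectors. -/
noncomputable def muField (K : Type*) [Field K] (m d : ℕ) : ℕ :=
  sInf {n | ∀ U : Fin m → Fin (d + 1) → Submodule K (Fin d → K),
    (∀ j, IsCompleteFlag K (U j)) →
      ∃ S : Finset (Fin d → K), S.card ≤ n ∧ ∀ j, Generates K (S : Set (Fin d → K)) (U j)}

/-- The value over the real numbers: `d` if `m = 1` or `d = 1`, `m d / 2` for even `m`, and
`(m - 1) d / 2 + ⌊2 d / 3⌋` for odd `m`. -/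
def mu (m d : ℕ) : ℕ :=
  if m = 1 ∨ d = 1 then d
  else if m % 2 = 0 then m * d / 2
  else (m - 1) * d / 2 + 2 * d / 3

end Q158.Flags
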