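import Pool.Agent.Q158.GradedDefs

set_option autoImplicit false

namespace Q158.Graded

/-! ### Orders generated by consecutive-level edges -/

section

variable {n : ℕ} {E : Fin n → Fin n → Prop} {l : Fin n → ℕ}

theorem level_mono (hE : ∀ x y, E x y → l y = l x + 1) {x y : Fin n}
    (h : Relation.ReflTransGen E x y) : x = y ∨ l x < l y := by
  induction h with
  | refl => exact Or.inl rfl
  | tail _ hbc ih =>
    have := hE _ _ hbc
    rcases ih with rfl | h
    · right; omega
    · right; omega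

theorem isOrder (hE : ∀ x y, E x y → l y = l x + 1) : IsOrder (Relation.ReflTransGen E) where
  refl _ := Relation.ReflTransGen.refl
  antisymm x y h1 h2 := by
    rcases level_mono hE h1 with h | h
    · exact h
    · rcases level_mono hE h2 with h' | h'
      · exact h'.symm
      · omega
  trans _ _ _ h1 h2 := h1.trans h2

theorem covers_iff (hE : ∀ x y, E x y → l y = l x + 1) (x y : Fin n) :
    Covers (Relation.ReflTransGen E) x y ↔ E x y := by
  constructor
  · rintro ⟨h1, h2, h3⟩
    rcases Relation.ReflTransGen.cases_head h1 with h | ⟨z, hz, hzy⟩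
    · exact absurd h h2
    · rcases h3 z (Relation.ReflTransGen.single hz) hzy with h | h
      · subst h
        have := hE _ _ hz
        omega
      · exact h ▸ hz
  · intro h
    have hl := hE _ _ h
    refine ⟨Relation.ReflTransGen.single h, ?_, ?_⟩
    · rintro rfl
      omega
    · intro z h1 h2
      rcases level_mono hE h1 with h3 | h3
      · exact Or.inl h3.symm
      · rcases level_mono hE h2 with h4 | h4
        · exact Or.inr h4
        · omega

theorem eqvGen_mono {r s : Fin n → Fin n → Prop} (h : ∀ x y, r x y → s x y) {x y : Fin n}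
    (hxy : Relation.EqvGen r x y) : Relation.EqvGen s x y := by
  induction hxy with
  | rel _ _ h' => exact Relation.EqvGen.rel _ _ (h _ _ h')
  | refl _ => exact Relation.EqvGen.refl _
  | symm _ _ _ ih => exact ih.symm
  | trans _ _ _ _ _ ih1 ih2 => exact ih1.trans _ _ _ ih2

theorem isGrading (hE : ∀ x y, E x y → l y = l x + 1) (hpos : ∀ x, 1 ≤ l x) (v : Fin n)
    (hv : l v = 1) (hconn : ∀ x, Relation.EqvGen E x v) (k : ℕ)
    (hk : Set.range l = Set.Icc 1 k) : IsGrading k (Relation.ReflTransGen E) l where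
  pos := hpos
  mono x y h := by
    rcases level_mono hE h with rfl | h
    · exact le_rfl
    · exact h.le
  covers x y h := hE x y ((covers_iff hE x y).1 h)
  normal x := ⟨v, eqvGen_mono (fun _ _ h => Relation.ReflTransGen.single h) (hconn x), hv⟩
  levels := hk

/-- The level function is determined by the edges. -/
theorem level_unique {l' : Fin n → ℕ} (hE : ∀ x y, E x y → l y = l x + 1)
    (hE' : ∀ x y, E x y → l' y = l' x + 1) (hpos : ∀ x, 1 ≤ l x) (hpos' : ∀ x, 1 ≤ l' x)
    {v v' : Fin n} (hv : l v = 1) (hv' : l' v' = 1) (hconn : ∀ x, Relation.EqvGen E x v) :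
    l = l' := by
  have key : ∀ x y, Relation.EqvGen E x y → (l x : ℤ) - l' x = l y - l' y := by
    intro x y h
    induction h with
    | rel _ _ h => have := hE _ _ h; have := hE' _ _ h; omega
    | refl _ => rfl
    | symm _ _ _ ih => exact ih.symm
    | trans _ _ _ _ _ ih1 ih2 => exact ih1.trans ih2
  funext x
  have h1 := key x v (hconn x)
  have h2 := key v' v (hconn v')
  have := hpos' v
  have := hpos v'
  omega

end

/-! ### The family -/

/-- The nonempty subsets of an 8-set. -/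
abbrev NE : Type := {s : Fin 8 → Bool // ∃ i, s i = true}

/-- The ground set. -/
abbrev X (p q r : ℕ) : Type := (Unit ⊕ (Fin 8 ⊕ Fin p)) ⊕ ((Fin 8 ⊕ Fin q) ⊕ Fin r)

/-- The data. -/
abbrev D (p q r : ℕ) : Type :=
  (Fin p → Bool) × ((Fin 8 ⊕ Fin q) → NE) × (Fin p → NE × (Fin q → Bool)) ×
    (Fin r → NE × (Fin q → Bool))

def lev {p q r : ℕ} : X p q r → ℕ
  | Sum.inl (Sum.inl _) => 1
  | Sum.inl (Sum.inr _) => 2
  | Sum.inr (Sum.inl _) => 3
  | Sum.inr (Sum.inr _) => 4

/-- The edges. -/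
def edge {p q r : ℕ} (d : D p q r) : X p q r → X p q r → Prop
  | Sum.inl (Sum.inl _), Sum.inl (Sum.inr (Sum.inl _)) => True
  | Sum.inl (Sum.inl _), Sum.inl (Sum.inr (Sum.inr x)) => d.1 x = true
  | Sum.inl (Sum.inr (Sum.inl t)), Sum.inr (Sum.inl y) => (d.2.1 y).1 t = true
  | Sum.inl (Sum.inr (Sum.inr x)), Sum.inr (Sum.inl (Sum.inl w)) => (d.2.2.1 x).1.1 w = true
  | Sum.inl (Sum.inr (Sum.inr x)), Sum.inr (Sum.inl (Sum.inr y)) => (d.2.2.1 x).2 y = true
  | Sum.inr (Sum.inl (Sum.inl w)), Sum.inr (Sum.inr z) => (d.2.2.2 z).1.1 w = true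
  | Sum.inr (Sum.inl (Sum.inr y)), Sum.inr (Sum.inr z) => (d.2.2.2 z).2 y = true
  | _, _ => False

theorem edge_lev {p q r : ℕ} (d : D p q r) (x y : X p q r) (h : edge d x y) :
    lev y = lev x + 1 := by
  rcases x with (⟨⟩ | (t | x)) | ((w | y') | z) <;> rcases y with (⟨⟩ | (t' | x')) | ((w' | y'') | z')
    <;> simp_all [edge, lev]

theorem edge_inj {p q r : ℕ} {d d' : D p q r} (h : ∀ x y, edge d x y ↔ edge d' x y) : d = d' := by
  obtain ⟨d1, d2, d3, d4⟩ := d
  obtain ⟨e1, e2, e3, e4⟩ := d'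
  have hb : ∀ {u v : Bool}, (u = true ↔ v = true) → u = v := by decide
  refine Prod.ext ?_ (Prod.ext ?_ (Prod.ext ?_ ?_))
  · funext x
    exact hb (h (Sum.inl (Sum.inl ())) (Sum.inl (Sum.inr (Sum.inr x))))
  · funext y
    refine Subtype.ext (funext fun t => ?_)
    exact hb (h (Sum.inl (Sum.inr (Sum.inl t))) (Sum.inr (Sum.inl y)))
  · funext x
    refine Prod.ext (Subtype.ext (funext fun w => ?_)) (funext fun y => ?_)
    · exact hb (h (Sum.inl (Sum.inr (Sum.inr x))) (Sum.inr (Sum.inl (Sum.inl w))))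
    · exact hb (h (Sum.inl (Sum.inr (Sum.inr x))) (Sum.inr (Sum.inl (Sum.inr y))))
  · funext z
    refine Prod.ext (Subtype.ext (funext fun w => ?_)) (funext fun y => ?_)
    · exact hb (h (Sum.inr (Sum.inl (Sum.inl w))) (Sum.inr (Sum.inr z)))
    · exact hb (h (Sum.inr (Sum.inl (Sum.inr y))) (Sum.inr (Sum.inr z)))

theorem edge_conn {p q r : ℕ} (d : D p q r) (x : X p q r) :
    Relation.EqvGen (edge d) x (Sum.inl (Sum.inl ())) := by
  have h2 : ∀ t, Relation.EqvGen (edge d) (Sum.inl (Sum.inr (Sum.inl t))) (Sum.inl (Sum.inl ())) :=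
    fun t => (Relation.EqvGen.rel (Sum.inl (Sum.inl ())) (Sum.inl (Sum.inr (Sum.inl t))) trivial).symm
  have h3 : ∀ y, Relation.EqvGen (edge d) (Sum.inr (Sum.inl y)) (Sum.inl (Sum.inl ())) := by
    intro y
    obtain ⟨t, ht⟩ := (d.2.1 y).2
    exact (Relation.EqvGen.rel (Sum.inl (Sum.inr (Sum.inl t))) (Sum.inr (Sum.inl y)) ht).symm.trans
      _ _ _ (h2 t)
  rcases x with (⟨⟩ | (t | x)) | (y | z)
  · exact Relation.EqvGen.refl _
  · exact h2 t
  · obtain ⟨w, hw⟩ := (d.2.2.1 x).1.2
    exact (Relation.EqvGen.rel (Sum.inl (Sum.inr (Sum.inr x))) (Sum.inr (Sum.inl (Sum.inl w)))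
      hw).trans _ _ _ (h3 _)
  · exact h3 y
  · obtain ⟨w, hw⟩ := (d.2.2.2 z).1.2
    exact (Relation.EqvGen.rel (Sum.inr (Sum.inl (Sum.inl w))) (Sum.inr (Sum.inr z))
      hw).symm.trans _ _ _ (h3 _)

/-- The pulled back edges. -/
def pull {n p q r : ℕ} (e : Fin n ≃ X p q r) (d : D p q r) (x y : Fin n) : Prop :=
  edge d (e x) (e y)

theorem pull_conn {n p q r : ℕ} (e : Fin n ≃ X p q r) (d : D p q r) (x : Fin n) :
    Relation.EqvGen (pull e d) x (e.symm (Sum.inl (Sum.inl ()))) := by
  have key : ∀ a b : X p q r, Relation.EqvGen (edge d) a b →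
      Relation.EqvGen (pull e d) (e.symm a) (e.symm b) := by
    intro a b h
    induction h with
    | rel a b h => exact Relation.EqvGen.rel _ _ (by simpa [pull] using h)
    | refl _ => exact Relation.EqvGen.refl _
    | symm _ _ _ ih => exact ih.symm
    | trans _ _ _ _ _ ih1 ih2 => exact ih1.trans _ _ _ ih2
  simpa using key (e x) _ (edge_conn d (e x))

theorem range_lev {p q r : ℕ} (hr : 0 < r) : Set.range (lev (p := p) (q := q) (r := r)) =
    Set.Icc 1 4 := by
  ext m
  constructor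
  · rintro ⟨x, rfl⟩
    rcases x with (⟨⟩ | x) | (x | x) <;> simp [lev]
  · rintro ⟨h1, h2⟩
    obtain rfl | rfl | rfl | rfl : m = 1 ∨ m = 2 ∨ m = 3 ∨ m = 4 := by omega
    · exact ⟨Sum.inl (Sum.inl ()), rfl⟩
    · exact ⟨Sum.inl (Sum.inr (Sum.inl 0)), rfl⟩
    · exact ⟨Sum.inr (Sum.inl (Sum.inl 0)), rfl⟩
    · exact ⟨Sum.inr (Sum.inr ⟨0, hr⟩), rfl⟩

theorem lev_pos {p q r : ℕ} (x : X p q r) : 1 ≤ lev x := by
  rcases x with (⟨⟩ | x) | (x | x) <;> simp [lev]

/-- The family injects into the graded orders. -/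
theorem count_ge {n p q r : ℕ} (hr : 0 < r) {ι : Type} [Fintype ι] (e : ι → (Fin n ≃ X p q r))
    (he : ∀ i j, (∀ x, lev (e i x) = lev (e j x)) → i = j) :
    Fintype.card ι * Fintype.card (D p q r) ≤ a 4 n := by
  classical
  unfold a
  rw [← Fintype.card_prod, ← Nat.card_eq_fintype_card]
  have hE : ∀ (i : ι) (d : D p q r) (x y : Fin n), pull (e i) d x y →
      lev (e i y) = lev (e i x) + 1 := fun i d x y h => edge_lev d _ _ h
  refine Nat.card_le_card_of_injective (fun id : ι × D p q r =>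
    (⟨Relation.ReflTransGen (pull (e id.1) id.2), isOrder (l := fun x => lev (e id.1 x))
      (hE id.1 id.2), fun x => lev (e id.1 x),
      isGrading (hE id.1 id.2) (fun x => lev_pos _) ((e id.1).symm (Sum.inl (Sum.inl ())))
        (by simp [lev]) (pull_conn _ _) 4 (by
          rw [← range_lev (p := p) (q := q) hr]
          exact (e id.1).surjective.range_comp lev)⟩ :
      {r : Fin n → Fin n → Prop // IsOrder r ∧ ∃ g, IsGrading 4 r g})) ?_
  rintro ⟨i, d⟩ ⟨j, d'⟩ h
  have h1 : Relation.ReflTransGen (pull (e i) d) = Relation.ReflTransGen (pull (e j) d') :=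
    congrArg Subtype.val h
  have h2 : ∀ x y, pull (e i) d x y ↔ pull (e j) d' x y := by
    intro x y
    rw [← covers_iff (l := fun x => lev (e i x)) (hE i d), h1,
      covers_iff (l := fun x => lev (e j x)) (hE j d')]
  have h3 : (fun x => lev (e i x)) = fun x => lev (e j x) :=
    level_unique (hE i d) (fun x y hxy => hE j d' x y ((h2 x y).1 hxy))
      (fun x => lev_pos _) (fun x => lev_pos _) (v := (e i).symm (Sum.inl (Sum.inl ())))
      (v' := (e j).symm (Sum.inl (Sum.inl ()))) (by simp [lev]) (by simp [lev]) (pull_conn _ _)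
  have h4 : i = j := he i j fun x => congrFun h3 x
  subst h4
  have h5 : d = d' := edge_inj fun x y => by
    have := h2 ((e i).symm x) ((e i).symm y)
    simpa [pull] using this
  rw [h5]

end Q158.Graded
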