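import Pool.Agent.Q158.Graded

set_option autoImplicit false

namespace Q158.Graded

open Finset

/-- The index type: the third and the fourth level. -/
abbrev Idx (n q r : ℕ) : Type :=
  Σ A : {A : Finset (Fin n) // A ∈ powersetCard (8 + q) univ},
    {B : Finset (Fin n) // B ∈ powersetCard r (univ \ A.1)}

theorem card_Idx (n q r : ℕ) :
    Fintype.card (Idx n q r) = n.choose (8 + q) * (n - (8 + q)).choose r := by
  classical
  rw [Fintype.card_sigma]
  refine (sum_congr rfl fun A _ => (?_ : _ = (n - (8 + q)).choose r)).trans ?_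
  · rw [Fintype.card_coe, card_powersetCard, card_sdiff_of_subset (subset_univ _), card_univ,
      Fintype.card_fin, (mem_powersetCard.1 A.2).2]
  · rw [sum_const, card_univ, Fintype.card_coe, card_powersetCard,
      card_univ, Fintype.card_fin, smul_eq_mul]

/-- The remaining elements. -/
def rest {n q r : ℕ} (i : Idx n q r) : Finset (Fin n) := (univ \ i.1.1) \ i.2.1

theorem card_rest {n q r : ℕ} (i : Idx n q r) : (rest i).card = n - (8 + q) - r := by
  rw [rest, card_sdiff_of_subset (mem_powersetCard.1 i.2.2).1,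
    card_sdiff_of_subset (subset_univ _), card_univ, Fintype.card_fin,
    (mem_powersetCard.1 i.1.2).2, (mem_powersetCard.1 i.2.2).2]

/-- The level function of an index. -/
def lv {n q r : ℕ} (i : Idx n q r) (h : (rest i).Nonempty) (x : Fin n) : ℕ :=
  if x ∈ i.1.1 then 3 else if x ∈ i.2.1 then 4 else if x = (rest i).min' h then 1 else 2

theorem lv_cards {n p q r : ℕ} (hn : n = 17 + p + q + r) (i : Idx n q r) (h : (rest i).Nonempty)
    (m : ℕ) : Fintype.card {x // lv i h x = m} = Fintype.card {y : X p q r // lev y = m} := by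
  classical
  have hA := (mem_powersetCard.1 i.1.2).2
  have hB := mem_powersetCard.1 i.2.2
  have hR := card_rest i
  have hdisj : ∀ x, x ∈ i.2.1 → x ∉ i.1.1 := fun x hx => (mem_sdiff.1 (hB.1 hx)).2
  have hmin := (rest i).min'_mem h
  have hmem : ∀ x, x ∈ rest i ↔ x ∉ i.1.1 ∧ x ∉ i.2.1 := by
    intro x; simp [rest]
  have hmin' := (hmem _).1 hmin
  have e1 : (univ.filter fun x => lv i h x = 1) = {(rest i).min' h} := by
    ext x
    simp only [mem_filter, mem_univ, true_and, mem_singleton]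
    unfold lv
    constructor
    · intro hx
      split_ifs at hx with h1 h2 h3 <;> omega
    · rintro rfl
      rw [if_neg hmin'.1, if_neg hmin'.2, if_pos rfl]
  have e2 : (univ.filter fun x => lv i h x = 2) = (rest i).erase ((rest i).min' h) := by
    ext x
    simp only [mem_filter, mem_univ, true_and, mem_erase, hmem]
    unfold lv
    split_ifs with h1 h2 h3 <;> simp_all
  have e3 : (univ.filter fun x => lv i h x = 3) = i.1.1 := by
    ext x
    simp only [mem_filter, mem_univ, true_and]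
    unfold lv
    split_ifs with h1 h2 h3 <;> simp_all
  have e4 : (univ.filter fun x => lv i h x = 4) = i.2.1 := by
    ext x
    simp only [mem_filter, mem_univ, true_and]
    unfold lv
    split_ifs with h1 h2 h3
    · have := fun hx => hdisj x hx h1
      simp_all
    · simp_all
    · simp_all
    · simp_all
  rw [Fintype.card_subtype, Fintype.card_subtype]
  by_cases h1 : m = 1
  · subst h1
    have f1 : (univ.filter fun y : X p q r => lev y = 1) = {Sum.inl (Sum.inl ())} := by
      ext x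
      rw [mem_filter]
      rcases x with (⟨⟩ | x) | (x | x) <;> simp [lev]
    rw [e1, f1]
    rfl
  by_cases h2 : m = 2
  · subst h2
    have f2 : (univ.filter fun y : X p q r => lev y = 2) =
        (univ : Finset (Fin 8 ⊕ Fin p)).image (fun x => Sum.inl (Sum.inr x)) := by
      ext x
      rw [mem_filter]
      rcases x with (⟨⟩ | x) | (x | x) <;> simp [lev]
    rw [e2, f2, card_erase_of_mem hmin, hR,
      card_image_of_injective _ (fun a b h => by simpa using h), card_univ]
    simp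
    omega
  by_cases h3 : m = 3
  · subst h3
    have f3 : (univ.filter fun y : X p q r => lev y = 3) =
        (univ : Finset (Fin 8 ⊕ Fin q)).image (fun x => Sum.inr (Sum.inl x)) := by
      ext x
      rw [mem_filter]
      rcases x with (⟨⟩ | x) | (x | x) <;> simp [lev]
    rw [e3, f3, hA, card_image_of_injective _ (fun a b h => by simpa using h), card_univ]
    simp
  by_cases h4 : m = 4
  · subst h4
    have f4 : (univ.filter fun y : X p q r => lev y = 4) =
        (univ : Finset (Fin r)).image (fun x => Sum.inr (Sum.inr x)) := by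
      ext x
      rw [mem_filter]
      rcases x with (⟨⟩ | x) | (x | x) <;> simp [lev]
    rw [e4, f4, hB.2, card_image_of_injective _ (fun a b h => by simpa using h), card_univ]
    simp
  · have g1 : (univ.filter fun x => lv i h x = m) = ∅ := by
      ext x
      simp only [mem_filter, mem_univ, true_and, notMem_empty, iff_false]
      unfold lv
      split_ifs <;> omega
    have g2 : (univ.filter fun y : X p q r => lev y = m) = ∅ := by
      ext x
      simp only [mem_filter, mem_univ, true_and, notMem_empty, iff_false]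
      rcases x with (⟨⟩ | x) | (x | x) <;> simp only [lev] <;> omega
    rw [g1, g2]
    rfl

theorem exists_equiv {n p q r : ℕ} (hn : n = 17 + p + q + r) (i : Idx n q r)
    (h : (rest i).Nonempty) : ∃ e : Fin n ≃ X p q r, ∀ x, lev (e x) = lv i h x := by
  classical
  let e := Equiv.ofFiberEquiv (f := lv i h) (g := lev (p := p) (q := q) (r := r))
    (fun m => Fintype.equivOfCardEq (lv_cards hn i h m))
  exact ⟨e, fun x => Equiv.ofFiberEquiv_map _ x⟩

theorem count_ge' {n p q r : ℕ} (hn : n = 17 + p + q + r) (hr : 0 < r) :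
    n.choose (8 + q) * (n - (8 + q)).choose r * Fintype.card (D p q r) ≤ a 4 n := by
  classical
  have hne : ∀ i : Idx n q r, (rest i).Nonempty := by
    intro i
    rw [← card_pos, card_rest]
    omega
  choose e he using fun i : Idx n q r => exists_equiv (p := p) hn i (hne i)
  rw [← card_Idx]
  refine count_ge hr e ?_
  intro i j hij
  simp only [he] at hij
  have h1 : i.1.1 = j.1.1 := by
    ext x
    have hx := hij x
    have key : ∀ i : Idx n q r, x ∈ i.1.1 ↔ lv i (hne i) x = 3 := by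
      intro i
      unfold lv
      split_ifs <;> simp_all
    rw [key i, key j, hx]
  have h2 : i.2.1 = j.2.1 := by
    ext x
    have hx := hij x
    have key : ∀ i : Idx n q r, x ∈ i.2.1 ↔ lv i (hne i) x = 4 := by
      intro i
      have hB := mem_powersetCard.1 i.2.2
      have hdisj : x ∈ i.2.1 → x ∉ i.1.1 := fun hx => (mem_sdiff.1 (hB.1 hx)).2
      unfold lv
      split_ifs with h1 h2 h3
      · have := fun hx => hdisj hx h1
        simp_all
      · simp_all
      · simp_all
      · simp_all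
    rw [key i, key j, hx]
  obtain ⟨⟨A, hA⟩, ⟨B, hB⟩⟩ := i
  obtain ⟨⟨A', hA'⟩, ⟨B', hB'⟩⟩ := j
  simp only at h1 h2
  subst h1
  subst h2
  rfl

theorem card_D (p q r : ℕ) : Fintype.card (D p q r) =
    2 ^ p * (255 ^ (8 + q) * ((255 * 2 ^ q) ^ p * (255 * 2 ^ q) ^ r)) := by
  have h : Fintype.card NE = 255 := by decide +kernel
  simp only [D, Fintype.card_prod, Fintype.card_fun, Fintype.card_fin, Fintype.card_sum,
    Fintype.card_bool, h]

theorem six_pow_le (m : ℕ) (hm : 4 ≤ m) : 6 ^ m ≤ 3 * (3 * m).choose m := by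
  induction m, hm using Nat.le_induction with
  | base => decide
  | succ m hm ih =>
    -- C(3m+3, m+1) (m+1) (2m+2) (2m+1) = C(3m, m) (3m+3)(3m+2)(3m+1)
    have h1 : (3 * (m + 1)).choose (m + 1) * (m + 1).factorial * (2 * m + 2).factorial =
        (3 * (m + 1)).factorial := by
      have := Nat.choose_mul_factorial_mul_factorial (show m + 1 ≤ 3 * (m + 1) by omega)
      rwa [show 3 * (m + 1) - (m + 1) = 2 * m + 2 by omega] at this
    have h2 : (3 * m).choose m * m.factorial * (2 * m).factorial = (3 * m).factorial := by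
      have := Nat.choose_mul_factorial_mul_factorial (show m ≤ 3 * m by omega)
      rwa [show 3 * m - m = 2 * m by omega] at this
    have e1 : (m + 1).factorial = (m + 1) * m.factorial := Nat.factorial_succ m
    have e2 : (2 * m + 2).factorial = (2 * m + 2) * ((2 * m + 1) * (2 * m).factorial) := by
      rw [Nat.factorial_succ, Nat.factorial_succ]
    have e3 : (3 * (m + 1)).factorial = (3 * m + 3) * ((3 * m + 2) * ((3 * m + 1) *
        (3 * m).factorial)) := by
      rw [show 3 * (m + 1) = 3 * m + 3 by ring, Nat.factorial_succ, Nat.factorial_succ,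
        Nat.factorial_succ]
    have hpos : 0 < m.factorial * (2 * m).factorial := Nat.mul_pos m.factorial_pos (2 * m).factorial_pos
    have h3 : (3 * (m + 1)).choose (m + 1) * ((m + 1) * ((2 * m + 2) * (2 * m + 1))) =
        (3 * m).choose m * ((3 * m + 3) * ((3 * m + 2) * (3 * m + 1))) := by
      apply Nat.eq_of_mul_eq_mul_right hpos
      calc (3 * (m + 1)).choose (m + 1) * ((m + 1) * ((2 * m + 2) * (2 * m + 1))) *
            (m.factorial * (2 * m).factorial)
          = (3 * (m + 1)).choose (m + 1) * ((m + 1) * m.factorial) *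
            ((2 * m + 2) * ((2 * m + 1) * (2 * m).factorial)) := by ring
        _ = (3 * m + 3) * ((3 * m + 2) * ((3 * m + 1) * (3 * m).factorial)) := by
            rw [← e1, ← e2, h1, e3]
        _ = _ := by rw [← h2]; ring
    have h4 : 6 * ((m + 1) * ((2 * m + 2) * (2 * m + 1))) ≤
        (3 * m + 3) * ((3 * m + 2) * (3 * m + 1)) := by
      obtain ⟨k, rfl⟩ := Nat.exists_eq_add_of_le hm
      nlinarith [Nat.zero_le k, Nat.zero_le (k * k), Nat.zero_le (k * k * k)]
    have hpos2 : 0 < (m + 1) * ((2 * m + 2) * (2 * m + 1)) := by positivity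
    apply Nat.le_of_mul_le_mul_right _ hpos2
    calc 6 ^ (m + 1) * ((m + 1) * ((2 * m + 2) * (2 * m + 1)))
        = 6 ^ m * (6 * ((m + 1) * ((2 * m + 2) * (2 * m + 1)))) := by ring
      _ ≤ (3 * (3 * m).choose m) * ((3 * m + 3) * ((3 * m + 2) * (3 * m + 1))) :=
          Nat.mul_le_mul ih h4
      _ = 3 * ((3 * m).choose m * ((3 * m + 3) * ((3 * m + 2) * (3 * m + 1)))) := by ring
      _ = 3 * ((3 * (m + 1)).choose (m + 1) * ((m + 1) * ((2 * m + 2) * (2 * m + 1)))) := by rw [h3]
      _ = _ := by ring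

/-- The integer form of the lower bound. -/
theorem a_lower (m : ℕ) (hm : 4 ≤ m) :
    (1536 * 255 ^ 6) ^ m * 2 ^ (9 * m ^ 2) ≤ a 4 (6 * m + 1) * (4608 * m * 2 ^ (48 * m)) := by
  have h1 := count_ge' (n := 6 * m + 1) (p := 2 * m - 8) (q := 3 * m - 8) (r := m) (by omega)
    (by omega)
  have e1 : 8 + (3 * m - 8) = 3 * m := by omega
  have e2 : 6 * m + 1 - 3 * m = 3 * m + 1 := by omega
  rw [card_D, e1, e2] at h1
  have h2 : 64 ^ m ≤ 6 * m * (6 * m + 1).choose (3 * m) := by
    have h3 := Nat.four_pow_le_two_mul_self_mul_centralBinom (3 * m) (by omega)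
    rw [Nat.centralBinom_eq_two_mul_choose] at h3
    have h4 : (2 * (3 * m)).choose (3 * m) ≤ (6 * m + 1).choose (3 * m) :=
      Nat.choose_le_choose _ (by omega)
    calc 64 ^ m = 4 ^ (3 * m) := by rw [pow_mul]; norm_num
      _ ≤ 2 * (3 * m) * (2 * (3 * m)).choose (3 * m) := h3
      _ ≤ 2 * (3 * m) * (6 * m + 1).choose (3 * m) := Nat.mul_le_mul_left _ h4
      _ = _ := by ring
  have h3 : 6 ^ m ≤ 3 * (3 * m + 1).choose m :=
    (six_pow_le m hm).trans (Nat.mul_le_mul_left _ (Nat.choose_le_choose _ (by omega)))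
  set Dm := 2 ^ (2 * m - 8) * (255 ^ (3 * m) * ((255 * 2 ^ (3 * m - 8)) ^ (2 * m - 8) *
    (255 * 2 ^ (3 * m - 8)) ^ m)) with hDm
  have h4 : (4 * 255 ^ 6) ^ m * 2 ^ (9 * m ^ 2) ≤ Dm * (2 ^ 8 * 2 ^ (48 * m)) := by
    obtain ⟨k, rfl⟩ := Nat.exists_eq_add_of_le hm
    -- work with the exponents of 2 and of 255
    have d1 : Dm = 2 ^ (2 * k + (3 * k + 4) * (2 * k) + (3 * k + 4) * (4 + k)) *
        255 ^ (3 * (4 + k) + 2 * k + (4 + k)) := by
      rw [hDm, show 2 * (4 + k) - 8 = 2 * k by omega, show 3 * (4 + k) - 8 = 3 * k + 4 by omega]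
      rw [mul_pow, mul_pow, ← pow_mul, ← pow_mul]
      rw [pow_add, pow_add, pow_add, pow_add]
      ring
    rw [d1, mul_pow, ← pow_mul, show (4 : ℕ) = 2 ^ 2 by norm_num, ← pow_mul]
    have d2 : 255 ^ 8 ≤ 2 ^ 64 := by norm_num
    calc 2 ^ (2 * (4 + k)) * 255 ^ (6 * (4 + k)) * 2 ^ (9 * (4 + k) ^ 2)
        = 2 ^ (2 * (4 + k) + 9 * (4 + k) ^ 2) * (255 ^ (3 * (4 + k) + 2 * k + (4 + k)) * 255 ^ 8) := by
          rw [pow_add 2, ← pow_add 255]
          rw [show 3 * (4 + k) + 2 * k + (4 + k) + 8 = 6 * (4 + k) by ring]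
          ring
      _ ≤ 2 ^ (2 * (4 + k) + 9 * (4 + k) ^ 2) * (255 ^ (3 * (4 + k) + 2 * k + (4 + k)) * 2 ^ 64) := by
          gcongr
      _ = 2 ^ (2 * (4 + k) + 9 * (4 + k) ^ 2 + 64) * 255 ^ (3 * (4 + k) + 2 * k + (4 + k)) := by
          rw [pow_add 2 _ 64]; ring
      _ = 2 ^ (2 * k + (3 * k + 2 ^ 2) * (2 * k) + (3 * k + 2 ^ 2) * (2 ^ 2 + k)) *
          255 ^ (3 * (2 ^ 2 + k) + 2 * k + (2 ^ 2 + k)) * (2 ^ 8 * 2 ^ (48 * (2 ^ 2 + k))) := by
          have : 2 * (4 + k) + 9 * (4 + k) ^ 2 + 64 =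
              (2 * k + (3 * k + 2 ^ 2) * (2 * k) + (3 * k + 2 ^ 2) * (2 ^ 2 + k)) +
                (8 + 48 * (2 ^ 2 + k)) := by ring
          rw [this, pow_add 2 _ (8 + 48 * (2 ^ 2 + k)), pow_add 2 8]
          norm_num
          ring
  calc (1536 * 255 ^ 6) ^ m * 2 ^ (9 * m ^ 2)
      = 64 ^ m * 6 ^ m * ((4 * 255 ^ 6) ^ m * 2 ^ (9 * m ^ 2)) := by
        rw [← mul_assoc, ← mul_pow, ← mul_pow]; norm_num
    _ ≤ (6 * m * (6 * m + 1).choose (3 * m)) * (3 * (3 * m + 1).choose m) *
        (Dm * (2 ^ 8 * 2 ^ (48 * m))) := by gcongr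
    _ = ((6 * m + 1).choose (3 * m) * (3 * m + 1).choose m * Dm) * (4608 * m * 2 ^ (48 * m)) := by
        ring
    _ ≤ a 4 (6 * m + 1) * (4608 * m * 2 ^ (48 * m)) := Nat.mul_le_mul_right _ h1

/-- The logarithmic form of the lower bound. -/
theorem log_lower (m : ℕ) (hm : 4 ≤ m) :
    9 * (m : ℝ) ^ 2 + 527 / 50 * m - Real.logb 2 (4608 * m) ≤ Real.logb 2 (a 4 (6 * m + 1)) := by
  have hm0 : (0 : ℝ) < m := by
    have : 0 < m := by omega
    exact_mod_cast this
  have h1 := a_lower m hm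
  have hpos : 0 < a 4 (6 * m + 1) := by
    rcases Nat.eq_zero_or_pos (a 4 (6 * m + 1)) with h | h
    · rw [h, Nat.zero_mul] at h1
      have : 0 < (1536 * 255 ^ 6) ^ m * 2 ^ (9 * m ^ 2) := by positivity
      omega
    · exact h
  have hpos' : (0 : ℝ) < a 4 (6 * m + 1) := by exact_mod_cast hpos
  have h2 : ((1536 * 255 ^ 6 : ℝ)) ^ m * 2 ^ (9 * m ^ 2) ≤
      (a 4 (6 * m + 1) : ℝ) * (4608 * m * 2 ^ (48 * m)) := by exact_mod_cast h1
  have h3 := Real.logb_le_logb_of_le (b := 2) (by norm_num) (by positivity) h2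
  rw [Real.logb_mul (by positivity) (by positivity), Real.logb_mul (by positivity) (by positivity),
    Real.logb_mul (x := 4608 * (m : ℝ)) (by positivity) (by positivity), Real.logb_pow,
    Real.logb_pow, Real.logb_pow, Real.logb_self_eq_one (by norm_num)] at h3
  have h4 : (2927 / 50 : ℝ) ≤ Real.logb 2 (1536 * 255 ^ 6) := by
    rw [Real.le_logb_iff_rpow_le (by norm_num) (by norm_num)]
    have h5 : ((2 : ℝ) ^ (2927 / 50 : ℝ)) ^ 50 ≤ (1536 * 255 ^ 6 : ℝ) ^ 50 := by
      rw [← Real.rpow_natCast, ← Real.rpow_mul (by norm_num)]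
      have h6 : (2927 / 50 : ℝ) * ((50 : ℕ) : ℝ) = ((2927 : ℕ) : ℝ) := by norm_num
      rw [h6, Real.rpow_natCast]
      have h7 : 2 ^ 2927 ≤ (1536 * 255 ^ 6) ^ 50 := by decide +kernel
      exact_mod_cast h7
    exact le_of_pow_le_pow_left₀ (by norm_num) (by positivity) h5
  have h5 : (m : ℝ) * (2927 / 50) ≤ m * Real.logb 2 (1536 * 255 ^ 6) :=
    mul_le_mul_of_nonneg_left h4 hm0.le
  push_cast at h3
  generalize Real.logb 2 (1536 * 255 ^ 6 : ℝ) = B at h3 h5
  generalize Real.logb 2 (4608 * (m : ℝ)) = B' at h3 ⊢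
  linarith

theorem exists_m0 (c : ℝ) : ∃ m₀ : ℕ, ∀ m ≥ m₀,
    Real.logb 2 (4608 * m) + c ≤ (1 / 100) * m := by
  have h1 : Filter.Tendsto (fun x : ℝ => Real.log x / x) Filter.atTop (nhds 0) := by
    have := Real.isLittleO_log_id_atTop.tendsto_div_nhds_zero
    simpa using this
  have h2 : ∀ᶠ x : ℝ in Filter.atTop, Real.log x / x < 1 / 200 * Real.log 2 :=
    h1.eventually_lt_const (by have := Real.log_pos (show (1 : ℝ) < 2 by norm_num); positivity)
  have h3 : ∀ᶠ m : ℕ in Filter.atTop, Real.log m / m < 1 / 200 * Real.log 2 :=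
    tendsto_natCast_atTop_atTop.eventually h2
  obtain ⟨m1, hm1⟩ := Filter.eventually_atTop.1 h3
  refine ⟨max m1 (max ⌈200 * (Real.logb 2 4608 + c)⌉₊ 1), fun m hm => ?_⟩
  simp only [ge_iff_le, max_le_iff] at hm
  obtain ⟨ha, hb, hc⟩ := hm
  have hm0 : (0 : ℝ) < m := by exact_mod_cast hc
  have h4 := hm1 m ha
  have h5 := Nat.ceil_le.1 hb
  rw [Real.logb_mul (by norm_num) hm0.ne']
  have h6 : Real.logb 2 m ≤ 1 / 200 * m := by
    have hl := Real.log_pos (show (1 : ℝ) < 2 by norm_num)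
    rw [Real.logb, div_le_iff₀ hl]
    rw [div_lt_iff₀ hm0] at h4
    linarith
  linarith

theorem main_lower : ∃ m₀ : ℕ, ∀ m ≥ m₀, ((6 * m + 1 : ℕ) : ℝ) ^ 2 / 4 +
    (5 / 4 + 1 / 200) * ((6 * m + 1 : ℕ) : ℝ) ≤ Real.logb 2 (a 4 (6 * m + 1)) := by
  obtain ⟨m0, h0⟩ := exists_m0 2
  refine ⟨max m0 4, fun m hm => ?_⟩
  simp only [ge_iff_le, max_le_iff] at hm
  have h1 := h0 m hm.1
  have h2 := log_lower m hm.2
  push_cast
  have : (0 : ℝ) ≤ m := Nat.cast_nonneg m
  nlinarith

theorem main_neg (C : ℝ) (n₀ : ℕ) : ∃ n ≥ n₀, C * Real.log n <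
    |Real.logb 2 (a 4 n) - (n : ℝ) ^ 2 / 4 - 5 / 4 * n| := by
  obtain ⟨m0, h0⟩ := main_lower
  have h1 : Filter.Tendsto (fun x : ℝ => Real.log x / x) Filter.atTop (nhds 0) := by
    have := Real.isLittleO_log_id_atTop.tendsto_div_nhds_zero
    simpa using this
  have h2 : ∀ᶠ x : ℝ in Filter.atTop, Real.log x / x < 1 / (200 * (|C| + 1)) :=
    h1.eventually_lt_const (by positivity)
  have h3 : ∀ᶠ m : ℕ in Filter.atTop, Real.log m / m < 1 / (200 * (|C| + 1)) :=
    tendsto_natCast_atTop_atTop.eventually h2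
  obtain ⟨m1, hm1⟩ := Filter.eventually_atTop.1 h3
  let m := max m0 (max m1 n₀)
  refine ⟨6 * m + 1, by omega, ?_⟩
  have e1 := h0 m (le_max_left _ _)
  have e2 := hm1 (6 * m + 1) (by omega)
  set n : ℝ := ((6 * m + 1 : ℕ) : ℝ) with hn
  have hn0 : 0 < n := by rw [hn]; positivity
  have hn1 : 1 ≤ n := by rw [hn]; push_cast; linarith [Nat.cast_nonneg (α := ℝ) m]
  have e3 : 1 / 200 * n ≤ Real.logb 2 (a 4 (6 * m + 1)) - n ^ 2 / 4 - 5 / 4 * n := by linarith
  refine lt_of_lt_of_le ?_ (le_abs_self _)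
  refine lt_of_lt_of_le ?_ e3
  rw [div_lt_iff₀ hn0] at e2
  have hlog : 0 ≤ Real.log n := Real.log_nonneg hn1
  have hC : C ≤ |C| := le_abs_self C
  have hC1 : 0 < |C| + 1 := by positivity
  calc C * Real.log n ≤ (|C| + 1) * Real.log n := by
        apply mul_le_mul_of_nonneg_right _ hlog; linarith
    _ < (|C| + 1) * (1 / (200 * (|C| + 1)) * n) := by
        apply mul_lt_mul_of_pos_left e2 hC1
    _ = 1 / 200 * n := by field_simp

end Q158.Graded
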