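import Mathlib

set_option autoImplicit false

namespace Q158.Graded

/-- `r` is a partial order on `Fin n` (as a reflexive relation). -/
structure IsOrder {n : ℕ} (r : Fin n → Fin n → Prop) : Prop where
  refl : ∀ x, r x x
  antisymm : ∀ x y, r x y → r y x → x = y
  trans : ∀ x y z, r x y → r y z → r x z

/-- `y` covers `x`. -/
def Covers {n : ℕ} (r : Fin n → Fin n → Prop) (x y : Fin n) : Prop :=
  r x y ∧ x ≠ y ∧ ∀ z, r x z → r z y → z = x ∨ z = y

/-- `g` is the (normalised) grading of the order `r`, and there are exactly `k` grade levels.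
The components of the comparability graph are the classes of the equivalence relation generated
by `r`. -/
structure IsGrading {n : ℕ} (k : ℕ) (r : Fin n → Fin n → Prop) (g : Fin n → ℕ) : Prop where
  pos : ∀ x, 1 ≤ g x
  mono : ∀ x y, r x y → g x ≤ g y
  covers : ∀ x y, Covers r x y → g y = g x + 1
  normal : ∀ x, ∃ b, Relation.EqvGen r x b ∧ g b = 1
  levels : Set.range g = Set.Icc 1 k

/-- `a k n` is the number of partial orders on an `n`-set that are graded with exactly `k` grade
levels. -/
noncomputable def a (k n : ℕ) : ℕ :=
  Nat.card {r : Fin n → Fin n → Prop // IsOrder r ∧ ∃ g, IsGrading k r g}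

end Q158.Graded
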