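import Pool.Agent.Q158.GridDefs

/-! A large strong diamond-free family in `[k]^2`. -/

namespace Q158.Grid

open Finset Filter

/-- Upper row, right column and antidiagonal, without the top corner. -/
def Fam (k : ℕ) : Finset (Fin 2 → Fin k) :=
  univ.filter (fun x : Fin 2 → Fin k => ((x 0 : ℕ) + 1 = k ∨ (x 1 : ℕ) + 1 = k ∨
    (x 0 : ℕ) + (x 1 : ℕ) + 1 = k) ∧ ¬ ((x 0 : ℕ) + 1 = k ∧ (x 1 : ℕ) + 1 = k))

theorem fam_free (k : ℕ) : StrongFree Diamond (Fam k) := by
  rintro ⟨f, hinj, hmem, hle⟩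
  have hm : ∀ p, (((f p 0 : Fin k) : ℕ) + 1 = k ∨ ((f p 1 : Fin k) : ℕ) + 1 = k ∨
      ((f p 0 : Fin k) : ℕ) + ((f p 1 : Fin k) : ℕ) + 1 = k) ∧
      ¬ (((f p 0 : Fin k) : ℕ) + 1 = k ∧ ((f p 1 : Fin k) : ℕ) + 1 = k) := by
    intro p
    have := hmem p
    simpa only [Fam, mem_filter, mem_univ, true_and] using this
  -- strictness in terms of sums
  have key : ∀ p q : Diamond, p ≤ q → p ≠ q →
      ((f p 0 : Fin k) : ℕ) ≤ ((f q 0 : Fin k) : ℕ) ∧ ((f p 1 : Fin k) : ℕ) ≤ ((f q 1 : Fin k) : ℕ) ∧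
      ((f p 0 : Fin k) : ℕ) + ((f p 1 : Fin k) : ℕ) <
        ((f q 0 : Fin k) : ℕ) + ((f q 1 : Fin k) : ℕ) := by
    intro p q hpq hne
    have h1 := (hle p q).1 hpq
    have h2 : ((f p 0 : Fin k) : ℕ) ≤ ((f q 0 : Fin k) : ℕ) := h1 0
    have h3 : ((f p 1 : Fin k) : ℕ) ≤ ((f q 1 : Fin k) : ℕ) := h1 1
    refine ⟨h2, h3, ?_⟩
    by_contra hc
    apply hne
    apply hinj
    funext i
    fin_cases i
    · apply Fin.ext
      show ((f p 0 : Fin k) : ℕ) = ((f q 0 : Fin k) : ℕ)
      omega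
    · apply Fin.ext
      show ((f p 1 : Fin k) : ℕ) = ((f q 1 : Fin k) : ℕ)
      omega
  have hbc : ∀ p q : Diamond, ¬ p ≤ q → ¬ (((f p 0 : Fin k) : ℕ) ≤ ((f q 0 : Fin k) : ℕ) ∧
      ((f p 1 : Fin k) : ℕ) ≤ ((f q 1 : Fin k) : ℕ)) := by
    intro p q hpq h
    apply hpq
    rw [hle]
    intro i
    fin_cases i
    · exact h.1
    · exact h.2
  have a := hm (false, false)
  have b := hm (true, false)
  have c := hm (false, true)
  have e := hm (true, true)
  have ab := key (false, false) (true, false) (by decide) (by decide)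
  have ac := key (false, false) (false, true) (by decide) (by decide)
  have be := key (true, false) (true, true) (by decide) (by decide)
  have ce := key (false, true) (true, true) (by decide) (by decide)
  have bc := hbc (true, false) (false, true) (by decide)
  have cb := hbc (false, true) (true, false) (by decide)
  have l0 : ∀ p, ((f p 0 : Fin k) : ℕ) < k := fun p => (f p 0).2
  have l1 : ∀ p, ((f p 1 : Fin k) : ℕ) < k := fun p => (f p 1).2
  have m1 := l0 (true, true)
  have m2 := l1 (true, true)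
  omega

theorem fam_card (k : ℕ) (hk : 2 ≤ k) : 3 * k - 4 ≤ (Fam k).card := by
  classical
  let g : ℕ → (Fin 2 → Fin k) := fun i =>
    if i < k - 1 then ![⟨i % k, Nat.mod_lt _ (by omega)⟩, ⟨k - 1, by omega⟩]
    else if i < 2 * (k - 1) then ![⟨k - 1, by omega⟩, ⟨(i - (k - 1)) % k, Nat.mod_lt _ (by omega)⟩]
    else ![⟨(i - 2 * (k - 1) + 1) % k, Nat.mod_lt _ (by omega)⟩,
      ⟨(k - 2 - (i - 2 * (k - 1))) % k, Nat.mod_lt _ (by omega)⟩]
  have hg0 : ∀ i < 3 * k - 4, ((g i 0 : Fin k) : ℕ) =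
      if i < k - 1 then i else if i < 2 * (k - 1) then k - 1 else i - 2 * (k - 1) + 1 := by
    intro i hi
    simp only [g]
    split_ifs with h1 h2
    · show i % k = i
      exact Nat.mod_eq_of_lt (by omega)
    · rfl
    · show (i - 2 * (k - 1) + 1) % k = _
      exact Nat.mod_eq_of_lt (by omega)
  have hg1 : ∀ i < 3 * k - 4, ((g i 1 : Fin k) : ℕ) =
      if i < k - 1 then k - 1 else if i < 2 * (k - 1) then i - (k - 1)
        else k - 2 - (i - 2 * (k - 1)) := by
    intro i hi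
    simp only [g]
    split_ifs with h1 h2
    · rfl
    · show (i - (k - 1)) % k = _
      exact Nat.mod_eq_of_lt (by omega)
    · show (k - 2 - (i - 2 * (k - 1))) % k = _
      exact Nat.mod_eq_of_lt (by omega)
  have h := card_le_card_of_injOn (s := range (3 * k - 4)) (t := Fam k) g (by
    intro i hi
    have hi' : i < 3 * k - 4 := by simpa using hi
    simp only [Fam, coe_filter, mem_univ, true_and, Set.mem_ofPred_eq]
    rw [hg0 i hi', hg1 i hi']
    split_ifs <;> omega) (by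
    intro i hi j hj hij
    have hi' : i < 3 * k - 4 := by simpa using hi
    have hj' : j < 3 * k - 4 := by simpa using hj
    have e0 : ((g i 0 : Fin k) : ℕ) = ((g j 0 : Fin k) : ℕ) := by rw [hij]
    have e1 : ((g i 1 : Fin k) : ℕ) = ((g j 1 : Fin k) : ℕ) := by rw [hij]
    rw [hg0 i hi', hg0 j hj'] at e0
    rw [hg1 i hi', hg1 j hj'] at e1
    split_ifs at e0 e1 <;> omega)
  rwa [card_range] at h

theorem le_LaStar (k : ℕ) (hk : 2 ≤ k) : 3 * k - 4 ≤ LaStar Diamond k 2 := by
  refine (fam_card k hk).trans ?_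
  apply le_csSup
  · refine ⟨Fintype.card (Fin 2 → Fin k), ?_⟩
    rintro n ⟨F, -, rfl⟩
    exact card_le_univ F
  · exact ⟨Fam k, fam_free k, rfl⟩

theorem width_two (k : ℕ) : width k 2 = k := by
  classical
  have hbd : ∀ n ∈ {n | ∃ A : Finset (Fin 2 → Fin k),
      IsAntichain (· ≤ ·) (A : Set (Fin 2 → Fin k)) ∧ A.card = n}, n ≤ k := by
    rintro n ⟨A, hA, rfl⟩
    have h := card_le_card_of_injOn (s := A) (t := (univ : Finset (Fin k))) (fun x => x 0)
      (fun _ _ => mem_coe.2 (mem_univ _)) (by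
      intro x hx y hy hxy
      by_contra hne
      have hxy' : x 0 = y 0 := hxy
      rcases le_total (x 1) (y 1) with h1 | h1
      · apply hA hx hy hne
        intro i
        fin_cases i
        · exact hxy'.le
        · exact h1
      · apply hA hy hx (Ne.symm hne)
        intro i
        fin_cases i
        · exact hxy'.ge
        · exact h1)
    simpa using h
  apply le_antisymm
  · apply csSup_le'
    exact hbd
  · apply le_csSup ⟨k, hbd⟩
    refine ⟨univ.image (fun i : Fin k => ![i, Fin.rev i]), ?_, ?_⟩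
    · intro x hx y hy hne hle
      simp only [coe_image, coe_univ, Set.image_univ, Set.mem_range] at hx hy
      obtain ⟨i, rfl⟩ := hx
      obtain ⟨j, rfl⟩ := hy
      have h0 : i ≤ j := hle 0
      have h1 : Fin.rev i ≤ Fin.rev j := hle 1
      rw [Fin.rev_le_rev] at h1
      have : i = j := le_antisymm h0 h1
      exact hne (by rw [this])
    · rw [card_image_of_injective]
      · simp
      · intro i j h
        have := congrFun h 0
        simpa using this

theorem not_tendsto : ¬ Tendsto (fun k : ℕ => (LaStar Diamond k 2 : ℝ) / (width k 2 : ℝ)) atTop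
    (nhds (2 + 1 / 2)) := by
  intro h
  have h1 := h.eventually (gt_mem_nhds (show (2 : ℝ) + 1 / 2 < 2.6 by norm_num))
  obtain ⟨k, h2, h3⟩ := (h1.and (eventually_ge_atTop 20)).exists
  have h4 := le_LaStar k (by omega)
  rw [width_two] at h2
  have h5 : (3 * (k : ℝ) - 4) ≤ (LaStar Diamond k 2 : ℝ) := by
    have h6 : 3 * k ≤ LaStar Diamond k 2 + 4 := by omega
    have h7 : (3 : ℝ) * k ≤ (LaStar Diamond k 2 : ℝ) + 4 := by exact_mod_cast h6
    linarith
  have h8 : (20 : ℝ) ≤ k := by exact_mod_cast h3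
  rw [div_lt_iff₀ (by linarith)] at h2
  linarith

theorem result_aux :
    (∀ k : ℕ, 2 ≤ k → 3 * k - 4 ≤ LaStar Diamond k 2) ∧
    (∀ k : ℕ, width k 2 = k) ∧
    (¬ Tendsto (fun k : ℕ => (LaStar Diamond k 2 : ℝ) / (width k 2 : ℝ)) atTop
      (nhds (2 + 1 / 2))) ∧
    ¬ ∀ d : ℕ, 2 ≤ d →
      Tendsto (fun k : ℕ => (La Diamond k d : ℝ) / (width k d : ℝ)) atTop
        (nhds (2 + 1 / (d : ℝ))) ∧
      Tendsto (fun k : ℕ => (LaStar Diamond k d : ℝ) / (width k d : ℝ)) atTop
        (nhds (2 + 1 / (d : ℝ))) := by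
  refine ⟨le_LaStar, width_two, not_tendsto, fun h => ?_⟩
  have := (h 2 le_rfl).2
  norm_num only [Nat.cast_ofNat] at this
  apply not_tendsto
  norm_num only
  exact this

end Q158.Grid
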