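import Mathlib

/-! Families in the grid `[k]^d` without weak or strong copies of a poset. -/

namespace Q158.Grid

/-- `F` contains no weak copy of `P`. -/
def WeakFree (P : Type) [PartialOrder P] {k d : ℕ} (F : Finset (Fin d → Fin k)) : Prop :=
  ¬ ∃ f : P → (Fin d → Fin k), Function.Injective f ∧ (∀ p, f p ∈ F) ∧
    ∀ p q, p ≤ q → f p ≤ f q

/-- `F` contains no strong (induced) copy of `P`. -/
def StrongFree (P : Type) [PartialOrder P] {k d : ℕ} (F : Finset (Fin d → Fin k)) : Prop :=
  ¬ ∃ f : P → (Fin d → Fin k), Function.Injective f ∧ (∀ p, f p ∈ F) ∧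
    ∀ p q, p ≤ q ↔ f p ≤ f q

/-- Maximum size of a weak `P`-free family in `[k]^d`. -/
noncomputable def La (P : Type) [PartialOrder P] (k d : ℕ) : ℕ :=
  sSup {n | ∃ F : Finset (Fin d → Fin k), WeakFree P F ∧ F.card = n}

/-- Maximum size of a strong `P`-free family in `[k]^d`. -/
noncomputable def LaStar (P : Type) [PartialOrder P] (k d : ℕ) : ℕ :=
  sSup {n | ∃ F : Finset (Fin d → Fin k), StrongFree P F ∧ F.card = n}

/-- The width of `[k]^d`. -/
noncomputable def width (k d : ℕ) : ℕ :=
  sSup {n | ∃ A : Finset (Fin d → Fin k),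
    IsAntichain (· ≤ ·) (A : Set (Fin d → Fin k)) ∧ A.card = n}

/-- The diamond: `(false,false) < (true,false), (false,true) < (true,true)`. -/
abbrev Diamond : Type := Bool × Bool

end Q158.Grid
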