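import Pool.Agent.Q158.HyperSatDefs

set_option autoImplicit false

namespace Q158.HyperSat

/-! ### Copies of chains -/

/-- A strictly increasing sequence of length `k` gives an order embedding of `Fin k`. -/
theorem exists_embedding {G : Type} [PartialOrder G] (k : ℕ) (g : ℕ → G)
    (S : Set G) (hS : ∀ i < k, g i ∈ S) (hg : ∀ i, i + 1 < k → g i < g (i + 1)) :
    ∃ φ : Fin k ↪o G, ∀ x, φ x ∈ S := by
  have key : ∀ i j, i < j → j < k → g i < g j := by
    intro i j hij
    induction j, hij using Nat.le_induction with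
    | base => exact fun h => hg i h
    | succ j hj ih => exact fun h => (ih (by omega)).trans (hg j h)
  exact ⟨OrderEmbedding.ofStrictMono (fun i : Fin k => g i)
    (fun i j hij => key i j hij j.2), fun x => hS x x.2⟩

/-! ### Gadgets -/

/-- A gadget of height `M`. -/
structure Gadget (Y : Type) [PartialOrder Y] (M : ℕ) (H : Y → ℕ) (S L : Set Y) : Prop where
  mono : ∀ a b, a ≤ b → H a ≤ H b
  le : ∀ a, H a ≤ M
  strS : ∀ a b, b ∈ S → a < b → H a < H b
  strL : ∀ a b, a ∈ L → a < b → H a < H b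
  toS : ∀ a, ∃ b ∈ S, b ≤ a ∧ H b = H a
  toL : ∀ a, ∃ b ∈ L, a ≤ b ∧ H b = H a
  down : ∀ a, H a ≠ 0 → ∃ b, b < a ∧ H b + 1 = H a
  up : ∀ a, H a < M → ∃ b, a < b ∧ H b = H a + 1

theorem Gadget.chainS {Y : Type} [PartialOrder Y] {M : ℕ} {H : Y → ℕ} {S L : Set Y}
    (hG : Gadget Y M H S L) (v : ℕ) : ∀ a, H a = v →
    ∃ g : ℕ → Y, (∀ i ≤ v, g i ∈ S) ∧ (∀ i < v, g i < g (i + 1)) ∧ g v ≤ a := by
  induction v with
  | zero =>
    intro a ha
    obtain ⟨b, hb, hba, -⟩ := hG.toS a
    exact ⟨fun _ => b, fun i _ => hb, fun i hi => absurd hi (Nat.not_lt_zero i), hba⟩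
  | succ v ih =>
    intro a ha
    obtain ⟨b, hb, hba, hbv⟩ := hG.toS a
    obtain ⟨c, hcb, hc⟩ := hG.down b (by omega)
    obtain ⟨g, hg1, hg2, hg3⟩ := ih c (by omega)
    refine ⟨fun i => if i ≤ v then g i else b, ?_, ?_, ?_⟩
    · intro i hi
      by_cases h : i ≤ v
      · simpa [h] using hg1 i h
      · simpa [h] using hb
    · intro i hi
      by_cases h : i + 1 ≤ v
      · simpa [h, (by omega : i ≤ v)] using hg2 i (by omega)
      · have : i = v := by omega
        subst this
        simpa [h] using lt_of_le_of_lt hg3 hcb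
    · simpa using hba

theorem Gadget.chainL {Y : Type} [PartialOrder Y] {M : ℕ} {H : Y → ℕ} {S L : Set Y}
    (hG : Gadget Y M H S L) (w : ℕ) : ∀ a, H a + w = M →
    ∃ g : ℕ → Y, (∀ i ≤ w, g i ∈ L) ∧ (∀ i < w, g i < g (i + 1)) ∧ a ≤ g 0 := by
  induction w with
  | zero =>
    intro a ha
    obtain ⟨b, hb, hba, -⟩ := hG.toL a
    exact ⟨fun _ => b, fun i _ => hb, fun i hi => absurd hi (Nat.not_lt_zero i), hba⟩
  | succ w ih =>
    intro a ha
    obtain ⟨b, hb, hba, hbv⟩ := hG.toL a
    obtain ⟨c, hcb, hc⟩ := hG.up b (by omega)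
    obtain ⟨g, hg1, hg2, hg3⟩ := ih c (by omega)
    refine ⟨fun i => if i = 0 then b else g (i - 1), ?_, ?_, ?_⟩
    · intro i hi
      by_cases h : i = 0
      · simpa [h] using hb
      · simpa [h] using hg1 (i - 1) (by omega)
    · intro i hi
      by_cases h : i = 0
      · subst h
        simpa using lt_of_lt_of_le hcb hg3
      · have h2 := hg2 (i - 1) (by omega)
        rw [Nat.sub_add_cancel (by omega : 1 ≤ i)] at h2
        simpa [h] using h2
    · simpa using hba

/-- Products of gadgets. -/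
theorem Gadget.pi {X : Type} [PartialOrder X] {M : ℕ} {H : X → ℕ} {S L : Set X}
    (hG : Gadget X M H S L) (J : ℕ) :
    Gadget (Fin J → X) (J * M) (fun y => ∑ j, H (y j)) {y | ∀ j, y j ∈ S} {y | ∀ j, y j ∈ L} where
  mono a b hab := Finset.sum_le_sum fun j _ => hG.mono _ _ (hab j)
  le a := by
    calc ∑ j, H (a j) ≤ ∑ _j : Fin J, M := Finset.sum_le_sum fun j _ => hG.le _
      _ = J * M := by simp
  strS a b hb hab := by
    obtain ⟨h1, j, h2⟩ := Pi.lt_def.1 hab
    exact Finset.sum_lt_sum (fun j _ => hG.mono _ _ (h1 j))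
      ⟨j, Finset.mem_univ _, hG.strS _ _ (hb j) h2⟩
  strL a b ha hab := by
    obtain ⟨h1, j, h2⟩ := Pi.lt_def.1 hab
    exact Finset.sum_lt_sum (fun j _ => hG.mono _ _ (h1 j))
      ⟨j, Finset.mem_univ _, hG.strL _ _ (ha j) h2⟩
  toS a := by
    choose f hf1 hf2 hf3 using hG.toS
    exact ⟨fun j => f (a j), fun j => hf1 _, fun j => hf2 _,
      Finset.sum_congr rfl fun j _ => hf3 _⟩
  toL a := by
    choose f hf1 hf2 hf3 using hG.toL
    exact ⟨fun j => f (a j), fun j => hf1 _, fun j => hf2 _,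
      Finset.sum_congr rfl fun j _ => hf3 _⟩
  down a ha := by
    obtain ⟨j, -, hj⟩ := Finset.exists_ne_zero_of_sum_ne_zero ha
    obtain ⟨b, hb1, hb2⟩ := hG.down (a j) hj
    refine ⟨Function.update a j b, ?_, ?_⟩
    · exact update_lt_self_iff.2 hb1
    · have e1 : (fun i => H (Function.update a j b i)) =
          Function.update (fun i => H (a i)) j (H b) := by
        funext i
        by_cases h : i = j
        · subst h; simp
        · simp [h]
      rw [e1, Finset.sum_update_of_mem (Finset.mem_univ j),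
        ← Finset.add_sum_erase _ _ (Finset.mem_univ j), ← Finset.sdiff_singleton_eq_erase]
      omega
  up a ha := by
    obtain ⟨j, -, hj⟩ : ∃ j ∈ Finset.univ, H (a j) < M := by
      by_contra hcon
      push Not at hcon
      have : ∑ _j : Fin J, M ≤ ∑ j, H (a j) := Finset.sum_le_sum fun j hj => hcon j hj
      simp at this
      omega
    obtain ⟨b, hb1, hb2⟩ := hG.up (a j) hj
    refine ⟨Function.update a j b, ?_, ?_⟩
    · exact lt_update_self_iff.2 hb1
    · have e1 : (fun i => H (Function.update a j b i)) =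
          Function.update (fun i => H (a i)) j (H b) := by
        funext i
        by_cases h : i = j
        · subst h; simp
        · simp [h]
      rw [e1, Finset.sum_update_of_mem (Finset.mem_univ j),
        ← Finset.add_sum_erase _ _ (Finset.mem_univ j), ← Finset.sdiff_singleton_eq_erase]
      omega

/-- The family attached to a gadget. -/
def fam {Y W : Type} (S L : Set Y) (bot top : W) : Set (Y × W) :=
  {p | (p.1 ∈ S ∧ p.2 = bot) ∨ (p.1 ∈ L ∧ p.2 = top)}

theorem fam_free {Y W : Type} [PartialOrder Y] [PartialOrder W] {M : ℕ} {H : Y → ℕ}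
    {S L : Set Y} (hG : Gadget Y M H S L) (bot top : W) (hb : ∀ w, bot ≤ w)
    (hbt : bot ≠ top) : ¬ ∃ φ : Fin (M + 3) ↪o Y × W, ∀ x, φ x ∈ fam S L bot top := by
  classical
  rintro ⟨φ, hφ⟩
  have hnt : ¬ top ≤ bot := fun h => hbt (le_antisymm (hb _) h)
  let τ : Y × W → ℕ := fun p => H p.1 + if p.2 = top then 1 else 0
  have hτ : ∀ p ∈ fam S L bot top, ∀ q ∈ fam S L bot top, p < q → τ p < τ q := by
    rintro ⟨a, u⟩ hp ⟨b, w⟩ hq hpq
    obtain ⟨h1, h2⟩ := Prod.le_def.1 hpq.le
    simp only at h1 h2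
    have hne : (a, u) ≠ (b, w) := hpq.ne
    rcases hp with ⟨ha, hu⟩ | ⟨ha, hu⟩ <;> rcases hq with ⟨hb', hw⟩ | ⟨hb', hw⟩ <;>
      simp only at ha hu hb' hw <;> subst hu <;> subst hw
    · have hab : a < b := lt_of_le_of_ne h1 (fun h => hne (by rw [h]))
      have := hG.strS a b hb' hab
      simp only [τ, if_neg hbt]; omega
    · have := hG.mono a b h1
      simp only [τ, if_neg hbt, if_true]; omega
    · exact absurd h2 hnt
    · have hab : a < b := lt_of_le_of_ne h1 (fun h => hne (by rw [h]))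
      have := hG.strL a b ha hab
      simp only [τ, if_true]; omega
  have hmono : StrictMono fun i : Fin (M + 3) => τ (φ i) := fun i j hij =>
    hτ _ (hφ i) _ (hφ j) (φ.lt_iff_lt.2 hij)
  have hle : ∀ i : Fin (M + 3), (i : ℕ) ≤ τ (φ i) := by
    rintro ⟨i, hi⟩
    induction i with
    | zero => exact Nat.zero_le _
    | succ i ih =>
      have h1 := ih (by omega)
      have h2 := @hmono ⟨i, by omega⟩ ⟨i + 1, hi⟩ (by simp)
      simp only at h1 h2 ⊢
      omega
  have h3 := hle ⟨M + 2, by omega⟩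
  have h4 := hG.le (φ ⟨M + 2, by omega⟩).1
  simp only [τ] at h3
  split_ifs at h3 <;> omega

theorem fam_sat {Y W : Type} [PartialOrder Y] [PartialOrder W] {M : ℕ} {H : Y → ℕ}
    {S L : Set Y} (hG : Gadget Y M H S L) (bot top : W) (hb : ∀ w, bot ≤ w) (ht : ∀ w, w ≤ top)
    (x : Y × W) (hx : x ∉ fam S L bot top) :
    ∃ φ : Fin (M + 3) ↪o Y × W, ∀ i, φ i ∈ insert x (fam S L bot top) := by
  obtain ⟨a, u⟩ := x
  have hM := hG.le a
  obtain ⟨g, hg1, hg2, hg3⟩ := hG.chainS (H a) a rfl
  obtain ⟨g', hg1', hg2', hg3'⟩ := hG.chainL (M - H a) a (by omega)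
  have hlow : (g (H a), bot) < (a, u) := by
    refine lt_of_le_of_ne (Prod.mk_le_mk.2 ⟨hg3, hb u⟩) ?_
    intro h
    exact hx (by rw [← h]; exact Or.inl ⟨hg1 _ le_rfl, rfl⟩)
  have hhigh : (a, u) < (g' 0, top) := by
    refine lt_of_le_of_ne (Prod.mk_le_mk.2 ⟨hg3', ht u⟩) ?_
    intro h
    exact hx (by rw [h]; exact Or.inr ⟨hg1' _ (Nat.zero_le _), rfl⟩)
  refine exists_embedding (M + 3)
    (fun i => if i ≤ H a then (g i, bot) else if i = H a + 1 then (a, u) else
      (g' (i - (H a + 2)), top)) _ ?_ ?_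
  · intro i hi
    split_ifs with h1 h2
    · exact Or.inr (Or.inl ⟨hg1 i h1, rfl⟩)
    · exact Or.inl rfl
    · exact Or.inr (Or.inr ⟨hg1' _ (by omega), rfl⟩)
  · intro i hi
    rcases lt_trichotomy i (H a) with h | h | h
    · rw [if_pos (by omega), if_pos (by omega)]
      exact Prod.mk_lt_mk_iff_left.2 (hg2 i h)
    · subst h
      rw [if_pos le_rfl, if_neg (by omega), if_pos rfl]
      exact hlow
    · rcases Nat.eq_or_lt_of_le (Nat.succ_le_of_lt h) with h2 | h2
      · rw [if_neg (by omega), if_pos (by omega), if_neg (by omega), if_neg (by omega)]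
        have : i + 1 - (H a + 2) = 0 := by omega
        rw [this]
        exact hhigh
      · rw [if_neg (by omega), if_neg (by omega), if_neg (by omega), if_neg (by omega)]
        have : i + 1 - (H a + 2) = (i - (H a + 2)) + 1 := by omega
        rw [this]
        exact Prod.mk_lt_mk_iff_left.2 (hg2' _ (by omega))

end Q158.HyperSat
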