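import Pool.Agent.Q158.HyperSat

set_option autoImplicit false

namespace Q158.HyperSat

/-! ### The two base gadgets -/

def code (f : Fin 6 → Fin 2) : ℕ :=
  f 0 + 2 * f 1 + 4 * f 2 + 8 * f 3 + 16 * f 4 + 32 * f 5

def tab : List ℕ :=
  [0, 0, 1, 1, 1, 1, 1, 1, 1, 1, 2, 2, 2, 2, 3, 3, 1, 2, 1, 2, 1, 2, 1, 2, 1, 3, 2, 3, 2, 3, 3,
   3, 0, 0, 2, 2, 2, 2, 3, 3, 1, 1, 2, 2, 2, 2, 4, 4, 1, 3, 2, 3, 2, 3, 3, 3, 1, 3, 2, 3, 2, 3,
   4, 4]

def H2 (f : Fin 6 → Fin 2) : ℕ := tab.getD (code f) 0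

def lS : List ℕ := [0, 2, 4, 8, 16, 10, 12, 17, 34, 36, 14, 25, 38, 49, 46]
def lL : List ℕ := [7, 22, 23, 31, 33, 41, 43, 45, 55, 56, 58, 59, 60, 61, 63]

def S2 : Finset (Fin 6 → Fin 2) := Finset.univ.filter fun f => code f ∈ lS
def L2 : Finset (Fin 6 → Fin 2) := Finset.univ.filter fun f => code f ∈ lL

theorem card_S2 : S2.card = 15 := by decide +kernel
theorem card_L2 : L2.card = 15 := by decide +kernel

theorem gadget2 : Gadget (Fin 6 → Fin 2) 4 H2 (S2 : Set (Fin 6 → Fin 2)) L2 where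
  mono := by
    have h : ∀ a b : Fin 6 → Fin 2, (∀ i, a i ≤ b i) → H2 a ≤ H2 b := by decide +kernel
    exact fun a b hab => h a b hab
  le := by decide +kernel
  strS := by
    have h : ∀ a b : Fin 6 → Fin 2, code b ∈ lS → (∀ i, a i ≤ b i) → a ≠ b → H2 a < H2 b := by
      decide +kernel
    intro a b hb hab
    exact h a b (by simpa [S2] using hb) hab.le hab.ne
  strL := by
    have h : ∀ a b : Fin 6 → Fin 2, code a ∈ lL → (∀ i, a i ≤ b i) → a ≠ b → H2 a < H2 b := by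
      decide +kernel
    intro a b hb hab
    exact h a b (by simpa [L2] using hb) hab.le hab.ne
  toS := by
    have h : ∀ a : Fin 6 → Fin 2, ∃ b : Fin 6 → Fin 2, code b ∈ lS ∧ (∀ i, b i ≤ a i) ∧
        H2 b = H2 a := by decide +kernel
    intro a
    obtain ⟨b, h1, h2, h3⟩ := h a
    exact ⟨b, by simpa [S2] using h1, h2, h3⟩
  toL := by
    have h : ∀ a : Fin 6 → Fin 2, ∃ b : Fin 6 → Fin 2, code b ∈ lL ∧ (∀ i, a i ≤ b i) ∧
        H2 b = H2 a := by decide +kernel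
    intro a
    obtain ⟨b, h1, h2, h3⟩ := h a
    exact ⟨b, by simpa [L2] using h1, h2, h3⟩
  down := by
    have h : ∀ a : Fin 6 → Fin 2, H2 a ≠ 0 → ∃ b : Fin 6 → Fin 2, ((∀ i, b i ≤ a i) ∧ b ≠ a) ∧
        H2 b + 1 = H2 a := by decide +kernel
    intro a ha
    obtain ⟨b, ⟨h1, h2⟩, h3⟩ := h a ha
    exact ⟨b, lt_of_le_of_ne h1 h2, h3⟩
  up := by
    have h : ∀ a : Fin 6 → Fin 2, H2 a < 4 → ∃ b : Fin 6 → Fin 2, ((∀ i, a i ≤ b i) ∧ a ≠ b) ∧
        H2 b = H2 a + 1 := by decide +kernel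
    intro a ha
    obtain ⟨b, ⟨h1, h2⟩, h3⟩ := h a ha
    exact ⟨b, lt_of_le_of_ne h1 h2, h3⟩

theorem gadget3 : Gadget (Fin 3) 2 (fun a => (a : ℕ)) ((Finset.univ : Finset (Fin 3)) : Set (Fin 3))
    (Finset.univ : Finset (Fin 3)) where
  mono a b hab := hab
  le := by decide
  strS a b _ hab := hab
  strL a b _ hab := hab
  toS a := ⟨a, by simp, le_rfl, rfl⟩
  toL a := ⟨a, by simp, le_rfl, rfl⟩
  down := by decide
  up := by decide

/-! ### Saturated families in grids from gadgets -/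

theorem hasCopy_iff_of_orderIso {G : Type} [PartialOrder G] {t n k : ℕ} (e : G ≃o Grid t n)
    (F : Set (Grid t n)) :
    HasCopy (Fin k) F ↔ ∃ φ : Fin k ↪o G, ∀ x, φ x ∈ e ⁻¹' F := by
  constructor
  · rintro ⟨φ, hφ⟩
    exact ⟨φ.trans e.symm.toOrderEmbedding, fun x => by simpa using hφ x⟩
  · rintro ⟨φ, hφ⟩
    exact ⟨φ.trans e.toOrderEmbedding, fun x => by simpa using hφ x⟩

/-- From a gadget on `Y`, a saturated family in the grid `[t]^n ≃o Y × W`. -/
theorem exists_saturated {Y W : Type} [PartialOrder Y] [PartialOrder W] {M : ℕ} {H : Y → ℕ}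
    (S L : Finset Y) (hG : Gadget Y M H (S : Set Y) L) (bot top : W) (hb : ∀ w, bot ≤ w)
    (ht : ∀ w, w ≤ top) (hbt : bot ≠ top) {t n : ℕ} (e : Y × W ≃o Grid t n) :
    ∃ F : Finset (Grid t n), Saturated (Fin (M + 3)) (F : Set (Grid t n)) ∧
      F.card ≤ S.card + L.card := by
  classical
  let F : Finset (Grid t n) := (S.image fun y => e (y, bot)) ∪ (L.image fun y => e (y, top))
  have hF : e ⁻¹' (F : Set (Grid t n)) = fam (S : Set Y) L bot top := by
    ext ⟨a, u⟩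
    simp only [F, fam, Set.mem_preimage, Finset.coe_union, Finset.coe_image, Set.mem_union,
      Set.mem_image, Finset.mem_coe]
    constructor
    · rintro (⟨y, hy, h⟩ | ⟨y, hy, h⟩)
      · obtain ⟨rfl, rfl⟩ := Prod.mk.inj (e.injective h)
        exact Or.inl ⟨hy, rfl⟩
      · obtain ⟨rfl, rfl⟩ := Prod.mk.inj (e.injective h)
        exact Or.inr ⟨hy, rfl⟩
    · rintro (⟨h1, rfl⟩ | ⟨h1, rfl⟩)
      · exact Or.inl ⟨a, h1, rfl⟩
      · exact Or.inr ⟨a, h1, rfl⟩
  refine ⟨F, ⟨?_, ?_⟩, ?_⟩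
  · rw [hasCopy_iff_of_orderIso e, hF]
    exact fam_free hG bot top hb hbt
  · intro f hf
    rw [hasCopy_iff_of_orderIso e]
    have h1 : e ⁻¹' (insert f (F : Set (Grid t n))) = insert (e.symm f) (fam (S : Set Y) L bot top) := by
      rw [← hF]
      ext x
      simp only [Set.mem_preimage, Set.mem_insert_iff]
      exact or_congr ⟨fun h => by rw [← h]; simp, fun h => by rw [h]; simp⟩ Iff.rfl
    rw [h1]
    refine fam_sat hG bot top hb ht _ ?_
    rw [← hF]
    simpa using hf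
  · exact (Finset.card_union_le _ _).trans (Nat.add_le_add Finset.card_image_le Finset.card_image_le)

theorem exists_saturated_pi {X W : Type} [PartialOrder X] [PartialOrder W] {M : ℕ} {H : X → ℕ}
    (S L : Finset X) (hG : Gadget X M H (S : Set X) L) (J : ℕ) (bot top : W) (hb : ∀ w, bot ≤ w)
    (ht : ∀ w, w ≤ top) (hbt : bot ≠ top) {t n : ℕ} (e : (Fin J → X) × W ≃o Grid t n) :
    ∃ F : Finset (Grid t n), Saturated (Fin (J * M + 3)) (F : Set (Grid t n)) ∧
      F.card ≤ S.card ^ J + L.card ^ J := by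
  classical
  have h := hG.pi J
  have e1 : {y : Fin J → X | ∀ j, y j ∈ (S : Set X)} = ((Fintype.piFinset fun _ : Fin J => S : Finset (Fin J → X)) : Set (Fin J → X)) := by
    ext y; simp
  have e2 : {y : Fin J → X | ∀ j, y j ∈ (L : Set X)} = ((Fintype.piFinset fun _ : Fin J => L : Finset (Fin J → X)) : Set (Fin J → X)) := by
    ext y; simp
  rw [e1, e2] at h
  obtain ⟨F, hF, hc⟩ := exists_saturated _ _ h bot top hb ht hbt e
  refine ⟨F, hF, ?_⟩
  simpa [Fintype.card_piFinset] using hc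

/-- `([t]^a)^J × [t]^b` is `[t]^(J a + b)`. -/
def gridIso (t J a b n : ℕ) (σ : (Fin J × Fin a) ⊕ Fin b ≃ Fin n) :
    (Fin J → (Fin a → Fin t)) × (Fin b → Fin t) ≃o Grid t n where
  toFun p := fun i => Sum.elim (fun q => p.1 q.1 q.2) p.2 (σ.symm i)
  invFun f := (fun j i => f (σ (Sum.inl (j, i))), fun i => f (σ (Sum.inr i)))
  left_inv p := by
    rcases p with ⟨p, q⟩
    simp
  right_inv f := by
    funext i
    obtain ⟨x, rfl⟩ := σ.surjective i
    rcases x with ⟨j, k⟩ | k <;> simp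
  map_rel_iff' := by
    rintro ⟨p, q⟩ ⟨p', q'⟩
    simp only [Equiv.coe_fn_mk, Pi.le_def, Prod.mk_le_mk]
    constructor
    · intro h
      refine ⟨fun j i => ?_, fun i => ?_⟩
      · simpa using h (σ (Sum.inl (j, i)))
      · simpa using h (σ (Sum.inr i))
    · rintro ⟨h1, h2⟩ i
      obtain ⟨x, rfl⟩ := σ.surjective i
      rcases x with ⟨j, k⟩ | k
      · simpa using h1 j k
      · simpa using h2 k

/-- `[t]^J × [t]^b` is `[t]^(J + b)`. -/
def gridIso' (t J b n : ℕ) (σ : Fin J ⊕ Fin b ≃ Fin n) :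
    (Fin J → Fin t) × (Fin b → Fin t) ≃o Grid t n where
  toFun p := fun i => Sum.elim p.1 p.2 (σ.symm i)
  invFun f := (fun j => f (σ (Sum.inl j)), fun i => f (σ (Sum.inr i)))
  left_inv p := by
    rcases p with ⟨p, q⟩
    simp
  right_inv f := by
    funext i
    obtain ⟨x, rfl⟩ := σ.surjective i
    rcases x with j | k <;> simp
  map_rel_iff' := by
    rintro ⟨p, q⟩ ⟨p', q'⟩
    simp only [Equiv.coe_fn_mk, Pi.le_def, Prod.mk_le_mk]
    constructor
    · intro h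
      refine ⟨fun j => ?_, fun i => ?_⟩
      · simpa using h (σ (Sum.inl j))
      · simpa using h (σ (Sum.inr i))
    · rintro ⟨h1, h2⟩ i
      obtain ⟨x, rfl⟩ := σ.surjective i
      rcases x with j | k
      · simpa using h1 j
      · simpa using h2 k

theorem upper2 (J b n : ℕ) (hn : J * 6 + b = n) (hb : 0 < b) :
    ∃ F : Finset (Grid 2 n), Saturated (Fin (J * 4 + 3)) (F : Set (Grid 2 n)) ∧
      F.card ≤ 15 ^ J + 15 ^ J := by
  have e := gridIso 2 J 6 b n
    ((Equiv.sumCongr finProdFinEquiv (Equiv.refl _)).trans (finSumFinEquiv.trans (finCongr hn)))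
  have h := exists_saturated_pi S2 L2 gadget2 J (fun _ : Fin b => (0 : Fin 2)) (fun _ => 1)
    (fun w i => Fin.zero_le _) (fun w i => Fin.le_last _)
    (fun h => by simpa using congrFun h ⟨0, hb⟩) e
  rwa [card_S2, card_L2] at h

theorem upper3 (J b n : ℕ) (hn : J + b = n) (hb : 0 < b) :
    ∃ F : Finset (Grid 3 n), Saturated (Fin (J * 2 + 3)) (F : Set (Grid 3 n)) ∧
      F.card ≤ 3 ^ J + 3 ^ J := by
  have e := gridIso' 3 J b n (finSumFinEquiv.trans (finCongr hn))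
  have h := exists_saturated_pi _ _ gadget3 J (fun _ : Fin b => (0 : Fin 3)) (fun _ => 2)
    (fun w i => Fin.zero_le _) (fun w i => Fin.le_last _)
    (fun h => by simpa using congrFun h ⟨0, hb⟩) e
  simpa using h

end Q158.HyperSat
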