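import Mathlib

set_option autoImplicit false

namespace Q158.HyperSat

/-- The hypergrid `[t]^n`: all functions from an `n`-set to the chain `Fin t` with `t` elements,
ordered coordinatewise. -/
abbrev Grid (t n : ℕ) : Type := Fin n → Fin t

/-- The family `F` contains (the image of) an induced copy of `P`. -/
def HasCopy (P : Type) [PartialOrder P] {t n : ℕ} (F : Set (Grid t n)) : Prop :=
  ∃ φ : P ↪o Grid t n, ∀ x, φ x ∈ F

/-- The family `F` is induced `P`-saturated. -/
def Saturated (P : Type) [PartialOrder P] {t n : ℕ} (F : Set (Grid t n)) : Prop :=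
  ¬ HasCopy P F ∧ ∀ f, f ∉ F → HasCopy P (insert f F)

/-- `m` is the minimum size of an induced `P`-saturated family in `[t]^n`. -/
def IsSat (P : Type) [PartialOrder P] (t n m : ℕ) : Prop :=
  IsLeast {k | ∃ F : Finset (Grid t n), Saturated P (F : Set (Grid t n)) ∧ F.card = k} m

end Q158.HyperSat
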