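import Pool.Agent.Q158.HyperSatDefs

set_option autoImplicit false

namespace Q158.HyperSat

/-! ### The lower bound for the longest chain of the Boolean lattice -/

def wt {n : ℕ} (f : Grid 2 n) : ℕ := ∑ i, (f i : ℕ)

theorem wt_lt {n : ℕ} {f g : Grid 2 n} (h : f < g) : wt f < wt g := by
  obtain ⟨h1, i, h2⟩ := Pi.lt_def.1 h
  exact Finset.sum_lt_sum (fun j _ => h1 j) ⟨i, Finset.mem_univ _, h2⟩

theorem wt_le {n : ℕ} (f : Grid 2 n) : wt f ≤ n := by
  calc wt f ≤ ∑ _i : Fin n, 1 := Finset.sum_le_sum fun i _ => by omega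
    _ = n := by simp

theorem wt_chain {n : ℕ} (φ : Fin (n + 1) ↪o Grid 2 n) (i : Fin (n + 1)) : wt (φ i) = i := by
  have hlow : ∀ i : Fin (n + 1), (i : ℕ) ≤ wt (φ i) := by
    rintro ⟨i, hi⟩
    induction i with
    | zero => exact Nat.zero_le _
    | succ i ih =>
      have h1 := ih (by omega)
      have h2 : wt (φ ⟨i, by omega⟩) < wt (φ ⟨i + 1, hi⟩) :=
        wt_lt (φ.lt_iff_lt.2 (by simp))
      simp only at h1 ⊢
      omega
  have hup : ∀ k : ℕ, ∀ hk : k ≤ n, wt (φ ⟨n - k, by omega⟩) + k ≤ n := by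
    intro k
    induction k with
    | zero => intro _; simpa using wt_le _
    | succ k ih =>
      intro hk
      have h1 := ih (by omega)
      have h2 : wt (φ ⟨n - (k + 1), by omega⟩) < wt (φ ⟨n - k, by omega⟩) :=
        wt_lt (φ.lt_iff_lt.2 (by simp only [Fin.mk_lt_mk]; omega))
      omega
  have h3 := hup (n - i) (by omega)
  have h4 := hlow i
  have h5 : (⟨n - (n - (i : ℕ)), by omega⟩ : Fin (n + 1)) = i := by ext; simp only; omega
  rw [h5] at h3
  omega

theorem wt_eq_zero {n : ℕ} {f : Grid 2 n} (h : wt f = 0) : f = 0 := by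
  funext i
  have := (Finset.sum_eq_zero_iff.1 h) i (Finset.mem_univ _)
  ext
  simpa using this

/-- If `y < x` and the weights differ by one, then `x` is an update of `y`. -/
theorem eq_update {n : ℕ} {x y : Grid 2 n} (h : y < x) (hw : wt y + 1 = wt x) :
    ∃ i, x = Function.update y i 1 := by
  classical
  obtain ⟨h1, i, h2⟩ := Pi.lt_def.1 h
  refine ⟨i, ?_⟩
  have hyi : y i = 0 := by
    have := h2; ext; simp only [Fin.lt_def] at this; simp only [Fin.val_zero]; omega
  have hxi : x i = 1 := by
    have := h2; ext; simp only [Fin.lt_def] at this; simp only [Fin.val_one]; omega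
  by_contra hne
  have hle : Function.update y i 1 ≤ x := by
    intro j
    by_cases hj : j = i
    · subst hj; simp [hxi]
    · simpa [hj] using h1 j
  have hlt : Function.update y i 1 < x := lt_of_le_of_ne hle (fun h => hne h.symm)
  have h3 := wt_lt hlt
  have h4 : y < Function.update y i 1 := by
    refine lt_update_self_iff.2 ?_
    rw [hyi]; decide
  have h5 := wt_lt h4
  omega

theorem lower {n : ℕ} (F : Finset (Grid 2 n))
    (hF : Saturated (Fin (n + 1)) (F : Set (Grid 2 n))) : 2 ^ n ≤ (n + 1) * F.card + 1 := by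
  classical
  obtain ⟨hfree, hsat⟩ := hF
  have key : ∀ x : Grid 2 n, x ∉ F → x ≠ 0 → ∃ y ∈ F, ∃ i, x = Function.update y i 1 := by
    intro x hx hx0
    obtain ⟨φ, hφ⟩ := hsat x (by simpa using hx)
    obtain ⟨i, hi⟩ : ∃ i, φ i = x := by
      by_contra hcon
      push Not at hcon
      refine hfree ⟨φ, fun i => ?_⟩
      have := hφ i
      rw [Set.mem_insert_iff] at this
      exact this.resolve_left (hcon i)
    have hi0 : (i : ℕ) ≠ 0 := by
      intro h0
      apply hx0
      apply wt_eq_zero
      rw [← hi, wt_chain, h0]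
    have hj : (i : ℕ) - 1 < n + 1 := by omega
    have hlt : φ ⟨i - 1, hj⟩ < φ i := φ.lt_iff_lt.2 (by rw [Fin.lt_def]; simp only; omega)
    have hmem := hφ ⟨i - 1, hj⟩
    rw [Set.mem_insert_iff] at hmem
    refine ⟨φ ⟨i - 1, hj⟩, ?_, ?_⟩
    · rcases hmem with h | h
      · rw [h, hi] at hlt
        exact absurd hlt (lt_irrefl _)
      · simpa using h
    · refine eq_update (by rw [← hi]; exact hlt) ?_
      rw [← hi, wt_chain, wt_chain]
      simp only
      omega
  have hsub : (Finset.univ : Finset (Grid 2 n)) ⊆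
      (F ∪ {0}) ∪ (F ×ˢ (Finset.univ : Finset (Fin n))).image
        (fun p => Function.update p.1 p.2 1) := by
    intro x _
    rw [Finset.mem_union, Finset.mem_union, Finset.mem_singleton]
    by_cases hx : x ∈ F
    · exact Or.inl (Or.inl hx)
    by_cases hx0 : x = 0
    · exact Or.inl (Or.inr hx0)
    obtain ⟨y, hy, i, hi⟩ := key x hx hx0
    refine Or.inr (Finset.mem_image.2 ⟨(y, i), ?_, hi.symm⟩)
    simp [hy]
  have hc := Finset.card_le_card hsub
  have h1 : (Finset.univ : Finset (Grid 2 n)).card = 2 ^ n := by simp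
  rw [h1] at hc
  have h2 := Finset.card_union_le (F ∪ {0}) ((F ×ˢ (Finset.univ : Finset (Fin n))).image
        (fun p => Function.update p.1 p.2 1))
  have h3 := Finset.card_union_le F {(0 : Grid 2 n)}
  have h4 : ((F ×ˢ (Finset.univ : Finset (Fin n))).image
        (fun p => Function.update p.1 p.2 1)).card ≤ F.card * n := by
    refine Finset.card_image_le.trans ?_
    simp [Finset.card_product]
  simp only [Finset.card_singleton] at h3
  nlinarith

/-! ### Existence of the saturation number -/

theorem exists_isSat (P : Type) [PartialOrder P] [Nonempty P] (t n : ℕ) : ∃ m, IsSat P t n m := by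
  classical
  have h : ∃ k, ∃ F : Finset (Grid t n), Saturated P (F : Set (Grid t n)) ∧ F.card = k := by
    let T : Finset (Finset (Grid t n)) := Finset.univ.filter fun F => ¬ HasCopy P (F : Set (Grid t n))
    have hT : T.Nonempty := by
      refine ⟨∅, ?_⟩
      simp only [T, Finset.mem_filter, Finset.mem_univ, true_and]
      rintro ⟨φ, hφ⟩
      obtain ⟨x⟩ := ‹Nonempty P›
      simpa using hφ x
    obtain ⟨F, hF, hmax⟩ := Finset.exists_max_image T Finset.card hT
    simp only [T, Finset.mem_filter, Finset.mem_univ, true_and] at hF hmax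
    refine ⟨F.card, F, ⟨hF, fun f hf => ?_⟩, rfl⟩
    by_contra hcon
    have h2 := hmax (insert f F) (by simpa using hcon)
    rw [Finset.card_insert_of_notMem (by simpa using hf)] at h2
    omega
  exact ⟨Nat.find h, Nat.find_spec h, fun k hk => Nat.find_min' h hk⟩

theorem IsSat.le_card {P : Type} [PartialOrder P] {t n m : ℕ} (h : IsSat P t n m)
    (F : Finset (Grid t n)) (hF : Saturated P (F : Set (Grid t n))) : m ≤ F.card :=
  h.2 ⟨F, hF, rfl⟩

/-- The chain with `n + 1` elements embeds into `[t]^n` for `t ≥ 2`. -/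
theorem exists_embed (k n : ℕ) (h : k ≤ n) : Nonempty (Fin (k + 1) ↪o Grid 2 n) := by
  refine ⟨OrderEmbedding.ofStrictMono (fun i j => if (j : ℕ) < i then 1 else 0) ?_⟩
  intro a b hab
  rw [Pi.lt_def]
  refine ⟨fun j => ?_, ⟨a, by omega⟩, ?_⟩
  · have : (a : ℕ) < b := hab
    by_cases h1 : (j : ℕ) < a
    · simp [h1, h1.trans this]
    · simp [h1]
  · have : (a : ℕ) < b := hab
    simp [this]

end Q158.HyperSat
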