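import Pool.Agent.Q158.IntQDefs

namespace Q158.IntQ

open Finset

/-! ### Algebra in a commutative ring -/

section Ring

variable {R : Type*} [CommRing R]

theorem poch_zero (a q : R) : poch a q 0 = 1 := by simp [poch]

theorem poch_succ (a q : R) (n : ℕ) : poch a q (n + 1) = poch a q n * (1 - a * q ^ n) := by
  simp [poch, Finset.prod_range_succ]

theorem poch_succ' (a q : R) (n : ℕ) : poch a q (n + 1) = (1 - a) * poch (a * q) q n := by
  unfold poch
  rw [Finset.prod_range_succ', mul_comm]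
  congr 1
  · simp
  · apply Finset.prod_congr rfl
    intro k _
    rw [pow_succ]; ring

/-- partial sums -/
def hS (Y Q : R) (M : ℕ) : R := ∑ n ∈ range M, poch Y Q n
def gS (y Q : R) (M : ℕ) : R := ∑ n ∈ range M, (y * Q) ^ (n + 1) * poch Q Q n
def lS (y q : R) (M : ℕ) : R := ∑ n ∈ range M, y * q ^ n * poch y q n * poch q q n

theorem hS_eq (Y Q : R) (M : ℕ) :
    hS Y Q M = 1 - poch Y Q M + (1 - Y) * hS (Y * Q) Q M := by
  unfold hS
  rw [Finset.mul_sum]
  simp only [← poch_succ']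
  have h1 := Finset.sum_range_succ (fun n => poch Y Q n) M
  have h2 := Finset.sum_range_succ' (fun n => poch Y Q n) M
  rw [poch_zero] at h2
  rw [h1] at h2
  linear_combination h2

theorem gS_eq (y Y q Q : R) (h1 : y * Y = 1) (h2 : q * Q = 1) (M : ℕ) :
    gS y Q M = 1 - y ^ M * poch Q Q M + (1 - Y) * gS (y * q) Q M := by
  have h3 : gS (y * q) Q M = ∑ n ∈ range M, y ^ (n + 1) * poch Q Q n := by
    unfold gS
    apply Finset.sum_congr rfl
    intro n _
    rw [mul_assoc, h2, mul_one]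
  have h4 : (1 - Y) * gS (y * q) Q M = ∑ n ∈ range M, (y ^ (n + 1) - y ^ n) * poch Q Q n := by
    rw [h3, Finset.mul_sum]
    apply Finset.sum_congr rfl
    intro n _
    rw [pow_succ]
    linear_combination (-(y ^ n) * poch Q Q n) * h1
  have h5 : gS y Q M = ∑ n ∈ range M, (y ^ (n + 1) * poch Q Q n - y ^ (n + 1) * poch Q Q (n + 1)) := by
    unfold gS
    apply Finset.sum_congr rfl
    intro n _
    rw [poch_succ, mul_pow]
    ring
  have h6 := Finset.sum_range_succ (fun n => y ^ n * poch Q Q n) M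
  have h7 := Finset.sum_range_succ' (fun n => y ^ n * poch Q Q n) M
  rw [poch_zero, pow_zero, mul_one] at h7
  rw [h6] at h7
  rw [h4, h5]
  simp only [sub_mul]
  rw [Finset.sum_sub_distrib, Finset.sum_sub_distrib]
  linear_combination h7

theorem lS_eq (y Y q : R) (h1 : y * Y = 1) (M : ℕ) :
    lS y q M = 1 - poch y q M * poch q q M + (1 - Y) * lS (y * q) q M := by
  have h2 : (1 - y) * lS (y * q) q M =
      ∑ n ∈ range M, y * q ^ (n + 1) * poch y q (n + 1) * poch q q n := by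
    unfold lS
    rw [Finset.mul_sum]
    apply Finset.sum_congr rfl
    intro n _
    rw [poch_succ' y]
    ring
  have h3 : y * lS y q M + (1 - y) * lS (y * q) q M =
      y * ∑ n ∈ range M, (poch y q n * poch q q n - poch y q (n + 1) * poch q q (n + 1)) := by
    rw [h2]
    unfold lS
    rw [Finset.mul_sum, Finset.mul_sum, ← Finset.sum_add_distrib]
    apply Finset.sum_congr rfl
    intro n _
    rw [poch_succ, poch_succ]
    ring
  have h6 := Finset.sum_range_succ (fun n => poch y q n * poch q q n) M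
  have h7 := Finset.sum_range_succ' (fun n => poch y q n * poch q q n) M
  rw [poch_zero, poch_zero, mul_one] at h7
  rw [h6] at h7
  rw [Finset.sum_sub_distrib] at h3
  linear_combination Y * h3 + (-(lS y q M) + lS (y * q) q M + (∑ n ∈ range M, poch y q n * poch q q n) - (∑ n ∈ range M, poch y q (n + 1) * poch q q (n + 1))) * h1 + h7

/-- Iterating a first order recursion. -/
theorem iterate (d e c : ℕ → R) (h : ∀ i, d i = e i + c i * d (i + 1)) (N : ℕ) :
    d 0 = ∑ i ∈ range N, (∏ j ∈ range i, c j) * e i + (∏ j ∈ range N, c j) * d N := by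
  induction N with
  | zero => simp
  | succ N ih =>
    rw [Finset.sum_range_succ, Finset.prod_range_succ]
    conv_lhs => rw [ih, h N]
    ring

variable (I : Ideal R)

/-- Products with a factor in `I` in every window. -/
theorem prod_window (f : ℕ → R) (k : ℕ) (hf : ∀ i, ∃ j, i ≤ j ∧ j < i + k ∧ f j ∈ I) (J M : ℕ)
    (hM : k * J ≤ M) : ∏ i ∈ range M, f i ∈ I ^ J := by
  have h1 : ∀ J, ∏ i ∈ range (k * J), f i ∈ I ^ J := by
    intro J
    induction J with
    | zero => simp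
    | succ J ih =>
      rw [Nat.mul_succ, Finset.prod_range_add, pow_succ]
      apply Ideal.mul_mem_mul ih
      obtain ⟨j, hj1, hj2, hj3⟩ := hf (k * J)
      have h2 : j - k * J ∈ range k := by rw [Finset.mem_range]; omega
      rw [← Finset.mul_prod_erase _ _ h2]
      apply Ideal.mul_mem_right
      rwa [Nat.add_sub_cancel' hj1]
  obtain ⟨t, rfl⟩ := Nat.exists_eq_add_of_le hM
  rw [Finset.prod_range_add]
  exact Ideal.mul_mem_right _ _ (h1 J)

theorem pow_sub_mem {q : R} {k : ℕ} (hq : 1 - q ^ k ∈ I) (m : ℕ) : 1 - q ^ (k * m) ∈ I := by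
  rw [pow_mul]
  have h := sub_dvd_pow_sub_pow 1 (q ^ k) m
  rw [one_pow] at h
  obtain ⟨c, hc⟩ := h
  rw [hc]
  exact Ideal.mul_mem_right _ _ hq

theorem one_sub_mem_of_modEq {Y Q : R} {k j b : ℕ} (hQ : 1 - Q ^ k ∈ I)
    (hY : 1 - Y * Q ^ j ∈ I) (hb : b ≡ j [MOD k]) : 1 - Y * Q ^ b ∈ I := by
  rcases le_total j b with h | h
  · obtain ⟨m, hm⟩ := (Nat.modEq_iff_dvd' h).1 hb.symm
    have h1 : b = j + k * m := by omega
    have h2 : 1 - Y * Q ^ b = (1 - Y * Q ^ j) + Y * Q ^ j * (1 - Q ^ (k * m)) := by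
      rw [h1, pow_add]; ring
    rw [h2]
    exact I.add_mem hY (Ideal.mul_mem_left _ _ (pow_sub_mem I hQ m))
  · obtain ⟨m, hm⟩ := (Nat.modEq_iff_dvd' h).1 hb
    have h1 : j = b + k * m := by omega
    have h2 : 1 - Y * Q ^ b = (1 - Y * Q ^ j) - Y * Q ^ b * (1 - Q ^ (k * m)) := by
      rw [h1, pow_add]; ring
    rw [h2]
    exact I.sub_mem hY (Ideal.mul_mem_left _ _ (pow_sub_mem I hQ m))

/-- `(Y; Q)_M` is small if `Y Q^j` and `Q^k` are close to one. -/
theorem poch_mem {Y Q : R} {k j : ℕ} (hk : 1 ≤ k) (hQ : 1 - Q ^ k ∈ I) (hY : 1 - Y * Q ^ j ∈ I)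
    (i J M : ℕ) (hM : k * J ≤ M) : poch (Y * Q ^ i) Q M ∈ I ^ J := by
  unfold poch
  apply prod_window I _ k _ J M hM
  intro a
  refine ⟨a + (j + (k - 1) * (i + a)) % k, by omega, ?_, ?_⟩
  · have := Nat.mod_lt (j + (k - 1) * (i + a)) (y := k) (by omega)
    omega
  · rw [mul_assoc, ← pow_add]
    apply one_sub_mem_of_modEq I hQ hY
    have h1 : (j + (k - 1) * (i + a)) % k ≡ j + (k - 1) * (i + a) [MOD k] := Nat.mod_modEq _ _
    have h2 : i + (a + (j + (k - 1) * (i + a)) % k) ≡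
        i + (a + (j + (k - 1) * (i + a))) [MOD k] := (h1.add_left a).add_left i
    refine h2.trans ?_
    have h3 : i + (a + (j + (k - 1) * (i + a))) = j + k * (i + a) := by
      obtain ⟨k', rfl⟩ : ∃ k', k = k' + 1 := ⟨k - 1, by omega⟩
      simp only [Nat.add_sub_cancel]
      ring
    rw [h3]
    exact (Nat.modEq_iff_dvd' (by omega)).2 ⟨i + a, by omega⟩ |>.symm

theorem pochQ_mem {Q : R} {k : ℕ} (hk : 1 ≤ k) (hQ : 1 - Q ^ k ∈ I) (J M : ℕ)
    (hM : k * J ≤ M) : poch Q Q M ∈ I ^ J := by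
  have h := poch_mem I (Y := 1) (Q := Q) (k := k) (j := k) hk hQ (by rwa [one_mul]) 1 J M hM
  rwa [pow_one, one_mul] at h

/-- Difference of `H` and `G`. -/
theorem hg_mem {p P q Q : R} (hp : p * P = 1) (hq : q * Q = 1) {k j : ℕ} (hk : 1 ≤ k)
    (hQ : 1 - Q ^ k ∈ I) (hP : 1 - P * Q ^ j ∈ I) (J M : ℕ) (hM : k * J ≤ M) :
    hS P Q M - gS p Q M ∈ I ^ J := by
  have hy : ∀ i, (p * q ^ i) * (P * Q ^ i) = 1 := by
    intro i
    have : (p * q ^ i) * (P * Q ^ i) = (p * P) * (q * Q) ^ i := by rw [mul_pow]; ring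
    rw [this, hp, hq]; simp
  have h := iterate (fun i => hS (P * Q ^ i) Q M - gS (p * q ^ i) Q M)
    (fun i => -poch (P * Q ^ i) Q M + (p * q ^ i) ^ M * poch Q Q M) (fun i => 1 - P * Q ^ i)
    (by
      intro i
      have h1 := hS_eq (P * Q ^ i) Q M
      have h2 := gS_eq (p * q ^ i) (P * Q ^ i) q Q (hy i) hq M
      have h3 : P * Q ^ i * Q = P * Q ^ (i + 1) := by rw [pow_succ]; ring
      have h4 : p * q ^ i * q = p * q ^ (i + 1) := by rw [pow_succ]; ring
      rw [h3] at h1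
      rw [h4] at h2
      show hS (P * Q ^ i) Q M - gS (p * q ^ i) Q M = _
      linear_combination h1 - h2) (k * J)
  simp only [pow_zero, mul_one] at h
  rw [h]
  apply (I ^ J).add_mem
  · apply (I ^ J).sum_mem
    intro i _
    apply Ideal.mul_mem_left
    apply (I ^ J).add_mem
    · exact (I ^ J).neg_mem (poch_mem I hk hQ hP i J M hM)
    · exact Ideal.mul_mem_left _ _ (pochQ_mem I hk hQ J M hM)
  · apply Ideal.mul_mem_right
    have h5 := poch_mem I hk hQ hP 0 J (k * J) le_rfl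
    rw [pow_zero, mul_one] at h5
    exact h5

/-- Difference of `L` and `G`. -/
theorem lg_mem {p P q Q : R} (hp : p * P = 1) (hq : q * Q = 1) {k j : ℕ} (hk : 1 ≤ k)
    (hQ : 1 - Q ^ k ∈ I) (hqk : 1 - q ^ k ∈ I) (hP : 1 - P * Q ^ j ∈ I) (J M : ℕ)
    (hM : k * J ≤ M) : lS p q M - gS p Q M ∈ I ^ J := by
  have hy : ∀ i, (p * q ^ i) * (P * Q ^ i) = 1 := by
    intro i
    have : (p * q ^ i) * (P * Q ^ i) = (p * P) * (q * Q) ^ i := by rw [mul_pow]; ring
    rw [this, hp, hq]; simp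
  have h := iterate (fun i => lS (p * q ^ i) q M - gS (p * q ^ i) Q M)
    (fun i => -(poch (p * q ^ i) q M * poch q q M) + (p * q ^ i) ^ M * poch Q Q M)
    (fun i => 1 - P * Q ^ i)
    (by
      intro i
      have h1 := lS_eq (p * q ^ i) (P * Q ^ i) q (hy i) M
      have h2 := gS_eq (p * q ^ i) (P * Q ^ i) q Q (hy i) hq M
      have h4 : p * q ^ i * q = p * q ^ (i + 1) := by rw [pow_succ]; ring
      rw [h4] at h1 h2
      show lS (p * q ^ i) q M - gS (p * q ^ i) Q M = _
      linear_combination h1 - h2) (k * J)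
  simp only [pow_zero, mul_one] at h
  rw [h]
  apply (I ^ J).add_mem
  · apply (I ^ J).sum_mem
    intro i _
    apply Ideal.mul_mem_left
    apply (I ^ J).add_mem
    · exact (I ^ J).neg_mem (Ideal.mul_mem_left _ _ (pochQ_mem I hk hqk J M hM))
    · exact Ideal.mul_mem_left _ _ (pochQ_mem I hk hQ J M hM)
  · apply Ideal.mul_mem_right
    have h5 := poch_mem I hk hQ hP 0 J (k * J) le_rfl
    rw [pow_zero, mul_one] at h5
    exact h5

end Ring

end Q158.IntQ
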