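import Pool.Agent.Q158.IntQ

namespace Q158.IntQ

open Finset

/-! ### The first identity -/

section Two

open MvPowerSeries

/-- the maximal ideal -/
noncomputable def I₂ : Ideal (MvPowerSeries (Fin 2) ℂ) :=
  RingHom.ker (constantCoeff : MvPowerSeries (Fin 2) ℂ →+* ℂ)

theorem mem_I₂ (F : MvPowerSeries (Fin 2) ℂ) : F ∈ I₂ ↔ constantCoeff F = 0 := Iff.rfl

theorem order_of_mem (J : ℕ) : ∀ F ∈ I₂ ^ J, (J : ℕ∞) ≤ F.order := by
  induction J with
  | zero => intro F _; simp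
  | succ J ih =>
    intro F hF
    rw [pow_succ] at hF
    refine Submodule.mul_induction_on hF ?_ ?_
    · intro a ha b hb
      have h1 := ih a ha
      have h2 : 1 ≤ b.order := one_le_order_iff_constCoeff_eq_zero.2 hb
      push_cast
      exact le_trans (add_le_add h1 h2) le_order_mul
    · intro x y hx hy
      exact le_trans (le_min hx hy) min_order_le_add

theorem coeff_of_mem {J : ℕ} {F : MvPowerSeries (Fin 2) ℂ} (hF : F ∈ I₂ ^ J)
    (m : Fin 2 →₀ ℕ) (hm : m.degree < J) : coeff m F = 0 := by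
  apply coeff_of_lt_order
  exact lt_of_lt_of_le (by exact_mod_cast hm) (order_of_mem J F hF)

variable {p₀ q₀ : ℂ}

theorem constantCoeff_pp : constantCoeff (pp p₀) = p₀ := by simp [pp]

theorem constantCoeff_qq : constantCoeff (qq q₀) = q₀ := by simp [qq]

theorem pp_mul (h : p₀ ≠ 0) : pp p₀ * (pp p₀)⁻¹ = 1 :=
  MvPowerSeries.mul_inv_cancel _ (by rwa [constantCoeff_pp])

theorem qq_mul (h : q₀ ≠ 0) : qq q₀ * (qq q₀)⁻¹ = 1 :=
  MvPowerSeries.mul_inv_cancel _ (by rwa [constantCoeff_qq])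

theorem hQ₂ {k : ℕ} (h : q₀ ^ k = 1) : 1 - (qq q₀)⁻¹ ^ k ∈ I₂ := by
  rw [mem_I₂, map_sub, map_pow, MvPowerSeries.constantCoeff_inv, constantCoeff_qq, inv_pow, h]
  simp

theorem hP₂ {j : ℕ} (h : p₀ * q₀ ^ j = 1) : 1 - (pp p₀)⁻¹ * (qq q₀)⁻¹ ^ j ∈ I₂ := by
  rw [mem_I₂, map_sub, map_mul, map_pow, MvPowerSeries.constantCoeff_inv,
    MvPowerSeries.constantCoeff_inv, constantCoeff_qq, constantCoeff_pp, inv_pow, ← mul_inv, h]
  simp

theorem converges_of {f : ℕ → MvPowerSeries (Fin 2) ℂ} {k : ℕ}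
    (hf : ∀ J M, k * J ≤ M → f M ∈ I₂ ^ J) : Converges₂ f := by
  intro m
  apply (Finset.finite_toSet (range (k * (m.degree + 1)))).subset
  intro n hn
  rw [Finset.mem_coe, Finset.mem_range]
  by_contra hcon
  push Not at hcon
  exact hn (coeff_of_mem (hf (m.degree + 1) n hcon) m (Nat.lt_succ_self _))

theorem coeff_value {f : ℕ → MvPowerSeries (Fin 2) ℂ} {k : ℕ}
    (hf : ∀ J M, k * J ≤ M → f M ∈ I₂ ^ J) (m : Fin 2 →₀ ℕ) :
    coeff m (value₂ f) = ∑ n ∈ range (k * (m.degree + 1)), coeff m (f n) := by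
  show ∑ᶠ n, coeff m (f n) = _
  apply finsum_eq_sum_of_support_subset
  intro n hn
  rw [Finset.mem_coe, Finset.mem_range]
  by_contra hcon
  push Not at hcon
  exact hn (coeff_of_mem (hf (m.degree + 1) n hcon) m (Nat.lt_succ_self _))

theorem rhs₁_mem {k : ℕ} (hk : 1 ≤ k) (hq : q₀ ^ k = 1) (J M : ℕ) (hM : k * J ≤ M) :
    rhs₁ p₀ q₀ M ∈ I₂ ^ J :=
  Ideal.mul_mem_left _ _ (pochQ_mem I₂ hk (hQ₂ hq) J M hM)

theorem lhs₁_mem {k j : ℕ} (hk : 1 ≤ k) (hq : q₀ ^ k = 1) (hj : p₀ * q₀ ^ j = 1) (J M : ℕ)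
    (hM : k * J ≤ M) : lhs₁ p₀ q₀ M ∈ I₂ ^ J := by
  have h := poch_mem I₂ hk (hQ₂ hq) (hP₂ hj) 0 J M hM
  rwa [pow_zero, mul_one] at h

theorem not_converges (hp : p₀ ≠ 0) (h : ∀ j : ℕ, p₀ * q₀ ^ j ≠ 1) (hq : q₀ ≠ 0) :
    ¬ Converges₂ (lhs₁ p₀ q₀) := by
  intro hc
  have h1 := hc 0
  have h2 : {n | coeff 0 (lhs₁ p₀ q₀ n) ≠ 0} = Set.univ := by
    rw [Set.eq_univ_iff_forall]
    intro n
    show coeff 0 (lhs₁ p₀ q₀ n) ≠ 0
    rw [coeff_zero_eq_constantCoeff_apply]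
    unfold lhs₁ poch
    rw [map_prod, Finset.prod_ne_zero_iff]
    intro j _
    rw [map_sub, map_mul, map_pow, MvPowerSeries.constantCoeff_inv,
      MvPowerSeries.constantCoeff_inv, constantCoeff_qq, constantCoeff_pp, inv_pow, ← mul_inv,
      map_one]
    intro h3
    apply h j
    have h4 : (p₀ * q₀ ^ j)⁻¹ = 1 := by linear_combination -h3
    rwa [inv_eq_one] at h4
  rw [h2] at h1
  exact Set.infinite_univ h1

theorem first {k : ℕ} (hk : 1 ≤ k) (hp : p₀ ^ k = 1) (hq : q₀ ^ k = 1) :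
    Converges₂ (rhs₁ p₀ q₀) ∧ (Converges₂ (lhs₁ p₀ q₀) ↔ ∃ j : ℕ, p₀ * q₀ ^ j = 1) ∧
      (Converges₂ (lhs₁ p₀ q₀) → value₂ (lhs₁ p₀ q₀) = value₂ (rhs₁ p₀ q₀)) := by
  have hp0 : p₀ ≠ 0 := by
    rintro rfl
    rw [zero_pow (by omega)] at hp
    exact zero_ne_one hp
  have hq0 : q₀ ≠ 0 := by
    rintro rfl
    rw [zero_pow (by omega)] at hq
    exact zero_ne_one hq
  have hr : ∀ J M, k * J ≤ M → rhs₁ p₀ q₀ M ∈ I₂ ^ J := fun J M => rhs₁_mem hk hq J M
  have hiff : Converges₂ (lhs₁ p₀ q₀) ↔ ∃ j : ℕ, p₀ * q₀ ^ j = 1 := by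
    constructor
    · intro h
      by_contra hcon
      push Not at hcon
      exact not_converges hp0 hcon hq0 h
    · rintro ⟨j, hj⟩
      exact converges_of (fun J M => lhs₁_mem hk hq hj J M)
  refine ⟨converges_of hr, hiff, ?_⟩
  intro hc
  obtain ⟨j, hj⟩ := hiff.1 hc
  have hl : ∀ J M, k * J ≤ M → lhs₁ p₀ q₀ M ∈ I₂ ^ J := fun J M => lhs₁_mem hk hq hj J M
  apply MvPowerSeries.ext
  intro m
  rw [coeff_value hr, coeff_value hl, ← sub_eq_zero, ← map_sum, ← map_sum, ← map_sub]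
  apply coeff_of_mem (J := m.degree + 1) _ m (Nat.lt_succ_self _)
  exact hg_mem I₂ (pp_mul hp0) (qq_mul hq0) hk (hQ₂ hq) (hP₂ hj) _ _ le_rfl

end Two

/-! ### The second identity -/

section One

open PowerSeries

/-- the maximal ideal of `ℂ[[u]][[v]]` -/
noncomputable def I₁ : Ideal (PowerSeries (PowerSeries ℂ)) :=
  RingHom.ker ((constantCoeff : PowerSeries ℂ →+* ℂ).comp
    (constantCoeff : PowerSeries (PowerSeries ℂ) →+* PowerSeries ℂ))

theorem mem_I₁ (F : PowerSeries (PowerSeries ℂ)) :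
    F ∈ I₁ ↔ constantCoeff (constantCoeff F) = 0 := Iff.rfl

/-- Vanishing of the coefficients of total degree less than `J`. -/
noncomputable def K₁ (J : ℕ) : Ideal (PowerSeries (PowerSeries ℂ)) where
  carrier := {F | ∀ a b, a + b < J → coeff a (coeff b F) = 0}
  add_mem' := by
    intro F G hF hG a b hab
    rw [map_add, map_add, hF a b hab, hG a b hab, add_zero]
  zero_mem' := by intro a b _; simp
  smul_mem' := by
    intro c F hF a b hab
    rw [smul_eq_mul, PowerSeries.coeff_mul, map_sum]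
    apply Finset.sum_eq_zero
    intro x hx
    replace hx : x.1 + x.2 = b := by simpa using hx
    rw [PowerSeries.coeff_mul]
    apply Finset.sum_eq_zero
    intro y hy
    replace hy : y.1 + y.2 = a := by simpa using hy
    rw [hF y.2 x.2 (by omega), mul_zero]

theorem pow_le (J : ℕ) : I₁ ^ J ≤ K₁ J := by
  induction J with
  | zero => intro F _ a b hab; omega
  | succ J ih =>
    rw [pow_succ, Ideal.mul_le]
    intro F hF G hG a b hab
    have h1 := ih hF
    rw [mem_I₁] at hG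
    rw [PowerSeries.coeff_mul, map_sum]
    apply Finset.sum_eq_zero
    intro x hx
    replace hx : x.1 + x.2 = b := by simpa using hx
    rw [PowerSeries.coeff_mul]
    apply Finset.sum_eq_zero
    intro y hy
    replace hy : y.1 + y.2 = a := by simpa using hy
    by_cases h : y.1 + x.1 < J
    · rw [h1 y.1 x.1 h, zero_mul]
    · have h2 : y.2 = 0 := by omega
      have h3 : x.2 = 0 := by omega
      rw [h2, h3]
      rw [PowerSeries.coeff_zero_eq_constantCoeff_apply,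
        PowerSeries.coeff_zero_eq_constantCoeff_apply, hG, mul_zero]

/-- `p ↦ 1 + u`. -/
noncomputable def psi : Polynomial ℂ →+* PowerSeries ℂ :=
  (Polynomial.aeval (1 + X : PowerSeries ℂ)).toRingHom

theorem psi_eq (f : Polynomial ℂ) :
    psi f = ((f.comp (1 + Polynomial.X) : Polynomial ℂ) : PowerSeries ℂ) := by
  unfold psi
  show Polynomial.aeval (1 + X : PowerSeries ℂ) f = _
  have h1 : (1 + X : PowerSeries ℂ) =
      Polynomial.coeToPowerSeries.algHom ℂ (1 + Polynomial.X : Polynomial ℂ) := by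
    simp [Polynomial.coeToPowerSeries.algHom_apply]
  rw [h1, Polynomial.aeval_algHom_apply]
  simp [Polynomial.coeToPowerSeries.algHom_apply, Polynomial.comp, Polynomial.aeval_def]

theorem psi_injective (f : Polynomial ℂ) (h : psi f = 0) : f = 0 := by
  rw [psi_eq] at h
  have h1 : f.comp (1 + Polynomial.X) = 0 := by
    exact_mod_cast h
  have h2 : (f.comp (1 + Polynomial.X)).comp (Polynomial.X - 1) = f := by
    rw [Polynomial.comp_assoc]
    simp
  rw [← h2, h1, Polynomial.zero_comp]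

/-- `ℂ[p][[v]] → ℂ[[u]][[v]]`. -/
noncomputable def Psi : PowerSeries (Polynomial ℂ) →+* PowerSeries (PowerSeries ℂ) :=
  PowerSeries.map psi

theorem map_poch {R S : Type*} [CommRing R] [CommRing S] (f : R →+* S) (a q : R) (n : ℕ) :
    f (poch a q n) = poch (f a) (f q) n := by
  simp [poch, map_prod]

variable {q₀ : ℂ}

theorem psi_C (c : ℂ) : psi (Polynomial.C c) = PowerSeries.C c := by
  rw [psi_eq]; simp

theorem psi_X : psi Polynomial.X = 1 + X := by
  rw [psi_eq]; simp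

noncomputable def pT : PowerSeries (PowerSeries ℂ) := C (1 + X)
noncomputable def PT : PowerSeries (PowerSeries ℂ) := C ((1 + X : PowerSeries ℂ)⁻¹)

theorem Psi_pI : Psi pI = pT := by
  unfold Psi pI pT
  rw [PowerSeries.map_C, psi_X]

theorem pT_mul : pT * PT = 1 := by
  unfold pT PT
  rw [← map_mul, PowerSeries.mul_inv_cancel _ (by simp), map_one]

theorem q_mul (h : q₀ ≠ 0) : qI q₀ * qInv q₀ = 1 := by
  have h1 : qI q₀ = PowerSeries.map Polynomial.C (C q₀ + X : PowerSeries ℂ) := by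
    unfold qI
    rw [map_add, PowerSeries.map_C, PowerSeries.map_X]
  unfold qInv
  rw [h1, ← map_mul, PowerSeries.mul_inv_cancel _ (by simpa using h), map_one]

theorem constantCoeff_qI : constantCoeff (qI q₀) = Polynomial.C q₀ := by
  simp [qI]

theorem constantCoeff_qInv : constantCoeff (qInv q₀) = Polynomial.C q₀⁻¹ := by
  unfold qInv
  rw [← PowerSeries.coeff_zero_eq_constantCoeff_apply, PowerSeries.coeff_map,
    PowerSeries.coeff_zero_eq_constantCoeff_apply, PowerSeries.constantCoeff_inv]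
  simp

theorem constantCoeff_Psi (F : PowerSeries (Polynomial ℂ)) :
    constantCoeff (Psi F) = psi (constantCoeff F) := by
  unfold Psi
  rw [← PowerSeries.coeff_zero_eq_constantCoeff_apply, PowerSeries.coeff_map,
    PowerSeries.coeff_zero_eq_constantCoeff_apply]

theorem hq₁ {k : ℕ} (h : q₀ ^ k = 1) : 1 - Psi (qI q₀) ^ k ∈ I₁ := by
  rw [mem_I₁, map_sub, map_pow, constantCoeff_Psi, constantCoeff_qI, psi_C, map_sub, map_pow,
    map_one, map_one, PowerSeries.constantCoeff_C, h, sub_self]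

theorem hQ₁ {k : ℕ} (h : q₀ ^ k = 1) : 1 - Psi (qInv q₀) ^ k ∈ I₁ := by
  rw [mem_I₁, map_sub, map_pow, constantCoeff_Psi, constantCoeff_qInv, psi_C, map_sub, map_pow,
    map_one, map_one, PowerSeries.constantCoeff_C, inv_pow, h, inv_one, sub_self]

theorem hP₁ : 1 - PT * Psi (qInv q₀) ^ 0 ∈ I₁ := by
  rw [mem_I₁, pow_zero, mul_one]
  unfold PT
  rw [map_sub, map_sub, PowerSeries.constantCoeff_C, PowerSeries.constantCoeff_inv]
  simp

/-- The ideal `(v)` of `ℂ[p][[v]]`. -/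
noncomputable def I₀ : Ideal (PowerSeries (Polynomial ℂ)) := Ideal.span {X}

theorem coeff_of_mem₀ {J : ℕ} {F : PowerSeries (Polynomial ℂ)} (hF : F ∈ I₀ ^ J) (m : ℕ)
    (hm : m < J) : coeff m F = 0 := by
  unfold I₀ at hF
  rw [Ideal.span_singleton_pow, Ideal.mem_span_singleton] at hF
  exact PowerSeries.X_pow_dvd_iff.1 hF m hm

theorem mem_I₀ (F : PowerSeries (Polynomial ℂ)) : F ∈ I₀ ↔ constantCoeff F = 0 := by
  unfold I₀
  rw [Ideal.mem_span_singleton, PowerSeries.X_dvd_iff]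

theorem hq₀ {k : ℕ} (h : q₀ ^ k = 1) : 1 - qI q₀ ^ k ∈ I₀ := by
  rw [mem_I₀, map_sub, map_pow, constantCoeff_qI, map_one, ← map_pow, h, map_one, sub_self]

theorem hQ₀ {k : ℕ} (h : q₀ ^ k = 1) : 1 - qInv q₀ ^ k ∈ I₀ := by
  rw [mem_I₀, map_sub, map_pow, constantCoeff_qInv, map_one, ← map_pow, inv_pow, h, inv_one,
    map_one, sub_self]

theorem lhs₂_mem {k : ℕ} (hk : 1 ≤ k) (hq : q₀ ^ k = 1) (J M : ℕ) (hM : k * J ≤ M) :
    lhs₂ q₀ M ∈ I₀ ^ J :=
  Ideal.mul_mem_left _ _ (pochQ_mem I₀ hk (hq₀ hq) J M hM)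

theorem rhs₂_mem {k : ℕ} (hk : 1 ≤ k) (hq : q₀ ^ k = 1) (J M : ℕ) (hM : k * J ≤ M) :
    rhs₂ q₀ M ∈ I₀ ^ J :=
  Ideal.mul_mem_left _ _ (pochQ_mem I₀ hk (hQ₀ hq) J M hM)

theorem converges_of₁ {f : ℕ → PowerSeries (Polynomial ℂ)} {k : ℕ}
    (hf : ∀ J M, k * J ≤ M → f M ∈ I₀ ^ J) : Converges₁ f := by
  intro m
  apply (Finset.finite_toSet (range (k * (m + 1)))).subset
  intro n hn
  rw [Finset.mem_coe, Finset.mem_range]
  by_contra hcon
  push Not at hcon
  exact hn (coeff_of_mem₀ (hf (m + 1) n hcon) m (Nat.lt_succ_self _))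

theorem coeff_value₁ {f : ℕ → PowerSeries (Polynomial ℂ)} {k : ℕ}
    (hf : ∀ J M, k * J ≤ M → f M ∈ I₀ ^ J) (m M : ℕ) (hM : k * (m + 1) ≤ M) :
    coeff m (value₁ f) = ∑ n ∈ range M, coeff m (f n) := by
  unfold value₁
  rw [PowerSeries.coeff_mk]
  apply finsum_eq_sum_of_support_subset
  intro n hn
  rw [Finset.mem_coe, Finset.mem_range]
  by_contra hcon
  push Not at hcon
  exact hn (coeff_of_mem₀ (hf (m + 1) n (by omega)) m (Nat.lt_succ_self _))

theorem second {k : ℕ} (hk : 1 ≤ k) (hq : q₀ ^ k = 1) :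
    Converges₁ (lhs₂ q₀) ∧ Converges₁ (rhs₂ q₀) ∧ value₁ (lhs₂ q₀) = value₁ (rhs₂ q₀) := by
  have hq0 : q₀ ≠ 0 := by
    rintro rfl
    rw [zero_pow (by omega)] at hq
    exact zero_ne_one hq
  have hl : ∀ J M, k * J ≤ M → lhs₂ q₀ M ∈ I₀ ^ J := fun J M => lhs₂_mem hk hq J M
  have hr : ∀ J M, k * J ≤ M → rhs₂ q₀ M ∈ I₀ ^ J := fun J M => rhs₂_mem hk hq J M
  refine ⟨converges_of₁ hl, converges_of₁ hr, ?_⟩
  apply PowerSeries.ext
  intro b
  rw [← sub_eq_zero, ← map_sub]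
  apply psi_injective
  apply PowerSeries.ext
  intro a
  rw [map_zero]
  set M := k * (a + b + 1) with hM
  have hMb : k * (b + 1) ≤ M := Nat.mul_le_mul_left _ (by omega)
  have h1 : coeff b (value₁ (lhs₂ q₀) - value₁ (rhs₂ q₀)) =
      coeff b (lS pI (qI q₀) M - gS pI (qInv q₀) M) := by
    rw [map_sub, coeff_value₁ hl b M hMb, coeff_value₁ hr b M hMb, map_sub]
    unfold lS gS
    rw [map_sum, map_sum]
    rfl
  have h2 : psi (coeff b (lS pI (qI q₀) M - gS pI (qInv q₀) M)) =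
      coeff b (lS pT (Psi (qI q₀)) M - gS pT (Psi (qInv q₀)) M) := by
    have h3 : Psi (lS pI (qI q₀) M - gS pI (qInv q₀) M) =
        lS pT (Psi (qI q₀)) M - gS pT (Psi (qInv q₀)) M := by
      unfold lS gS
      simp only [map_sub, map_sum, map_mul, map_pow, map_poch, Psi_pI]
    rw [← h3]
    unfold Psi
    rw [PowerSeries.coeff_map]
  rw [h1, h2]
  have h4 := lg_mem I₁ (k := k) (j := 0) pT_mul (q := Psi (qI q₀)) (Q := Psi (qInv q₀))
    (by rw [← map_mul, q_mul hq0, map_one]) hk (hQ₁ hq) (hq₁ hq) hP₁ (a + b + 1) M le_rfl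
  exact pow_le _ h4 a b (by omega)

end One

end Q158.IntQ
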