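import Mathlib

/-! Coefficientwise sums of power series, and the summands of the two identities of interval
orders. -/

namespace Q158.IntQ

/-- `(a; q)_n = ∏_{k < n} (1 - a q^k)`. -/
def poch {R : Type*} [CommRing R] (a q : R) (n : ℕ) : R :=
  ∏ k ∈ Finset.range n, (1 - a * q ^ k)

section Two

open MvPowerSeries

/-- A sum of power series in `u = X 0`, `v = X 1` converges: every monomial occurs in finitely
many summands only. -/
def Converges₂ (f : ℕ → MvPowerSeries (Fin 2) ℂ) : Prop :=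
  ∀ m, {n | coeff m (f n) ≠ 0}.Finite

/-- The coefficientwise sum. -/
noncomputable def value₂ (f : ℕ → MvPowerSeries (Fin 2) ℂ) : MvPowerSeries (Fin 2) ℂ :=
  fun m => ∑ᶠ n, coeff m (f n)

/-- `p = p₀ + u`. -/
noncomputable def pp (p₀ : ℂ) : MvPowerSeries (Fin 2) ℂ := C p₀ + X 0

/-- `q = q₀ + v`. -/
noncomputable def qq (q₀ : ℂ) : MvPowerSeries (Fin 2) ℂ := C q₀ + X 1

/-- The `n`-th summand `(1/p; 1/q)_n` of the left-hand side of (1), expanded at `(p₀, q₀)`. -/
noncomputable def lhs₁ (p₀ q₀ : ℂ) (n : ℕ) : MvPowerSeries (Fin 2) ℂ :=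
  poch (pp p₀)⁻¹ (qq q₀)⁻¹ n

/-- The `n`-th summand `(p/q)^(n+1) (1/q; 1/q)_n` of the right-hand side of (1), expanded at
`(p₀, q₀)`. -/
noncomputable def rhs₁ (p₀ q₀ : ℂ) (n : ℕ) : MvPowerSeries (Fin 2) ℂ :=
  (pp p₀ * (qq q₀)⁻¹) ^ (n + 1) * poch (qq q₀)⁻¹ (qq q₀)⁻¹ n

end Two

section One

open PowerSeries

/-- A sum of power series in `v` with coefficients in `ℂ[p]` converges: every power of `v`
occurs in finitely many summands only. -/
def Converges₁ (f : ℕ → PowerSeries (Polynomial ℂ)) : Prop :=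
  ∀ m, {n | coeff m (f n) ≠ 0}.Finite

/-- The coefficientwise sum. -/
noncomputable def value₁ (f : ℕ → PowerSeries (Polynomial ℂ)) : PowerSeries (Polynomial ℂ) :=
  PowerSeries.mk fun m => ∑ᶠ n, coeff m (f n)

/-- The indeterminate `p`. -/
noncomputable def pI : PowerSeries (Polynomial ℂ) := C Polynomial.X

/-- `q = q₀ + v`. -/
noncomputable def qI (q₀ : ℂ) : PowerSeries (Polynomial ℂ) := C (Polynomial.C q₀) + X

/-- `1/q`, the image of the inverse of `q₀ + v` in `ℂ[[v]]`. -/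
noncomputable def qInv (q₀ : ℂ) : PowerSeries (Polynomial ℂ) :=
  PowerSeries.map Polynomial.C ((C q₀ + X : PowerSeries ℂ)⁻¹)

/-- The `n`-th summand `p q^n (p; q)_n (q; q)_n` of the left-hand side of (2). -/
noncomputable def lhs₂ (q₀ : ℂ) (n : ℕ) : PowerSeries (Polynomial ℂ) :=
  pI * qI q₀ ^ n * poch pI (qI q₀) n * poch (qI q₀) (qI q₀) n

/-- The `n`-th summand `(p/q)^(n+1) (1/q; 1/q)_n` of the right-hand side of (2). -/
noncomputable def rhs₂ (q₀ : ℂ) (n : ℕ) : PowerSeries (Polynomial ℂ) :=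
  (pI * qInv q₀) ^ (n + 1) * poch (qInv q₀) (qInv q₀) n

end One

end Q158.IntQ
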