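import Pool.Agent.Q158.JumpDefs

namespace Q158.Jump

section general

variable {α : Type} [PartialOrder α]

theorem jumpNumber_le {S : Set α} {l : List α} {k : ℕ} (h : LinExt S l) (hk : jumps l ≤ k) :
    jumpNumber S ≤ k := by
  have h1 : jumps l ∈ {k : ℕ | ∃ l : List α, LinExt S l ∧ jumps l = k} := ⟨l, h, rfl⟩
  exact (Nat.sInf_le h1).trans hk

theorem le_jumpNumber {S : Set α} {k : ℕ} (hne : ∃ l, LinExt S l)
    (h : ∀ l, LinExt S l → k ≤ jumps l) : k ≤ jumpNumber S := by
  obtain ⟨l, hl⟩ := hne
  have h1 : {k : ℕ | ∃ l : List α, LinExt S l ∧ jumps l = k}.Nonempty := ⟨jumps l, l, hl, rfl⟩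
  unfold jumpNumber
  apply le_csInf h1
  rintro _ ⟨l', hl', rfl⟩
  exact h l' hl'

end general

/-! ### The search procedure -/

section search

variable {α : Type} [DecidableEq α]

/-- jumps with a Boolean relation -/
def bj (lt : α → α → Bool) : List α → ℕ
  | [] => 0
  | [_] => 0
  | a :: b :: l => (if lt a b then 0 else 1) + bj lt (b :: l)

/-- minimal number of jumps of `a :: l` over linear extensions `l` of the list `R`. -/
def minJ (lt : α → α → Bool) : ℕ → List α → α → ℕ
  | 0, _, _ => 0
  | k + 1, R, a =>
    (R.filter (fun x => R.all (fun y => !lt y x))).foldr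
      (fun x m => min ((if lt a x then 0 else 1) + minJ lt k (R.erase x) x) m) 100

theorem foldr_min_le {β : Type} (f : β → ℕ) (l : List β) (c : ℕ) (x : β) (hx : x ∈ l) :
    l.foldr (fun x m => min (f x) m) c ≤ f x := by
  induction l with
  | nil => simp at hx
  | cons a l ih =>
    rw [List.foldr_cons]
    rcases List.mem_cons.1 hx with rfl | h
    · exact min_le_left _ _
    · exact (min_le_right _ _).trans (ih h)

theorem minJ_le (lt : α → α → Bool) : ∀ (l R : List α) (a : α), l.Perm R →
    l.Pairwise (fun a b => ¬ lt b a = true) → (∀ a, lt a a = false) →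
    minJ lt l.length R a ≤ bj lt (a :: l) := by
  intro l
  induction l with
  | nil => intro R a _ _ _; simp [minJ]
  | cons x l ih =>
    intro R a hp hpw hirr
    rw [List.length_cons, minJ]
    have hxR : x ∈ R := hp.subset (by simp)
    have hmem : x ∈ R.filter (fun x => R.all (fun y => !lt y x)) := by
      rw [List.mem_filter]
      refine ⟨hxR, ?_⟩
      rw [List.all_eq_true]
      intro y hy
      have hy' : y ∈ x :: l := hp.symm.subset hy
      rcases List.mem_cons.1 hy' with rfl | h
      · simp [hirr]
      · have := (List.pairwise_cons.1 hpw).1 y h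
        simpa using this
    refine (foldr_min_le (fun x => (if lt a x then 0 else 1) + minJ lt l.length (R.erase x) x)
      _ 100 x hmem).trans ?_
    rw [bj]
    have h1 : l.Perm (R.erase x) := by
      have := hp.erase x
      simpa using this
    exact Nat.add_le_add_left (ih (R.erase x) x h1 (List.pairwise_cons.1 hpw).2 hirr) _

end search

/-! ### The seven element example -/

/-- The strict order: `0 < 2, 3, 4`; `1 < 3, 5`; `2 < 5, 6`; `3 < 6`; `4 < 6` and its
transitive closure. -/
def lt7 : Fin 7 → Fin 7 → Bool := fun a b =>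
  (a, b) ∈ ([(0, 2), (0, 3), (0, 4), (0, 5), (0, 6), (1, 3), (1, 5), (1, 6), (2, 5), (2, 6),
    (3, 6), (4, 6)] : List (Fin 7 × Fin 7))

/-- The seven element poset. -/
def P7 : Type := Fin 7

instance : DecidableEq P7 := inferInstanceAs (DecidableEq (Fin 7))
instance : Fintype P7 := inferInstanceAs (Fintype (Fin 7))

instance : PartialOrder P7 where
  le a b := a = b ∨ lt7 a b = true
  lt a b := lt7 a b = true
  le_refl a := Or.inl rfl
  le_trans := by
    show ∀ a b c : Fin 7, (a = b ∨ lt7 a b = true) → (b = c ∨ lt7 b c = true) →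
      (a = c ∨ lt7 a c = true)
    decide
  le_antisymm := by
    show ∀ a b : Fin 7, (a = b ∨ lt7 a b = true) → (b = a ∨ lt7 b a = true) → a = b
    decide
  lt_iff_le_not_ge := by
    show ∀ a b : Fin 7, (lt7 a b = true) ↔ ((a = b ∨ lt7 a b = true) ∧ ¬ (b = a ∨ lt7 b a = true))
    decide

/-- The order relation of `P7` as a Boolean function. -/
def ltP : P7 → P7 → Bool := lt7

theorem lt7_iff (a b : P7) : a < b ↔ ltP a b = true := Iff.rfl

theorem jumps_eq (l : List P7) : jumps l = bj ltP l := by
  induction l with
  | nil => simp [jumps, bj]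
  | cons a l ih =>
    cases l with
    | nil => simp [jumps, bj]
    | cons b l =>
      rw [jumps, bj, ih]
      congr 1
      by_cases h : ltP a b = true
      · rw [if_pos ((lt7_iff a b).2 h), if_pos h]
      · rw [if_neg (fun h' => h ((lt7_iff a b).1 h')), if_neg h]

def all7 : List P7 := ([0, 1, 2, 3, 4, 5, 6] : List (Fin 7))

theorem mem_all7 : ∀ a : P7, a ∈ all7 := by decide

theorem check7 : ∀ x : P7, 3 ≤ minJ ltP 6 (List.erase all7 x) x ∨
    ∃ y : P7, ltP y x = true := by
  decide

theorem ltP_irr : ∀ a : P7, ltP a a = false := by decide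

theorem lower7 (l : List P7) (h : LinExt (Set.univ : Set P7) l) : 3 ≤ jumps l := by
  obtain ⟨hn, hm, hp⟩ := h
  rw [jumps_eq]
  have hperm : l.Perm all7 := by
    rw [List.perm_ext_iff_of_nodup hn (by decide)]
    exact fun a => ⟨fun _ => mem_all7 a, fun _ => (hm a).2 trivial⟩
  cases l with
  | nil => have := hperm.length_eq; simp [all7] at this
  | cons x l =>
    have hlen : l.length = 6 := by
      have h0 := hperm.length_eq
      have h1 : all7.length = 7 := rfl
      rw [h1, List.length_cons] at h0
      omega
    have h1 : l.Perm (all7.erase x) := by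
      have := hperm.erase x
      simpa using this
    have hpw := List.pairwise_cons.1 hp
    have h2 := minJ_le ltP l (all7.erase x) x h1 (hpw.2.imp (fun {a b} h => h)) ltP_irr
    rw [hlen] at h2
    rcases check7 x with h3 | ⟨y, hy⟩
    · exact h3.trans h2
    · exfalso
      have hyl : y ∈ x :: l := (hm y).2 trivial
      rcases List.mem_cons.1 hyl with h4 | h4
      · rw [h4, ltP_irr] at hy
        exact absurd hy (by simp)
      · exact hpw.1 y h4 hy

/-- Linear extensions with at most two jumps after deleting a point. -/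
def ext7 : P7 → List P7 := fun x =>
  (([[1, 3, 2, 5, 4, 6], [0, 2, 5, 3, 4, 6], [0, 4, 1, 3, 6, 5], [0, 2, 1, 5, 4, 6],
    [0, 2, 1, 3, 6, 5], [0, 2, 1, 3, 4, 6], [0, 4, 1, 3, 2, 5]] :
      List (List (Fin 7))).getD (Fin.val (n := 7) x) [])

theorem ext7_spec : ∀ x : P7, (ext7 x).Nodup ∧ (∀ a : P7, a ∈ ext7 x ↔ a ≠ x) ∧
    (ext7 x).Pairwise (fun a b => ¬ ltP b a = true) ∧ bj ltP (ext7 x) ≤ 2 := by
  decide

theorem all7_spec : all7.Nodup ∧ all7.Pairwise (fun a b => ¬ ltP b a = true) := by
  decide

theorem upper7 (x : P7) : jumpNumber {y : P7 | y ≠ x} ≤ 2 := by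
  obtain ⟨h1, h2, h3, h4⟩ := ext7_spec x
  refine jumpNumber_le (l := ext7 x) ⟨h1, h2, h3⟩ ?_
  rw [jumps_eq]; exact h4

theorem critical7 : JumpCritical P7 := by
  have h : 3 ≤ jumpNumber (Set.univ : Set P7) :=
    le_jumpNumber ⟨all7, all7_spec.1, fun a => ⟨fun _ => trivial, fun _ => mem_all7 a⟩,
      all7_spec.2⟩ lower7
  exact ⟨by omega, fun x => lt_of_le_of_lt (upper7 x) (by omega)⟩

set_option maxRecDepth 100000 in
theorem prime7_aux : ∀ A : Finset P7,
    (∀ z, z ∉ A → ∀ x ∈ A, ∀ y ∈ A, (ltP z x = ltP z y) ∧ (ltP x z = ltP y z)) →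
      A.card ≤ 1 ∨ A = Finset.univ := by
  decide

theorem prime7 : IsPrime P7 := by
  intro A hA h
  classical
  have h1 := prime7_aux A.toFinset (by
    intro z hz x hx y hy
    rw [Set.mem_toFinset] at hz hx hy
    obtain ⟨h1, h2⟩ := h z hz x hx y hy
    rw [lt7_iff, lt7_iff] at h1 h2
    exact ⟨Bool.eq_iff_iff.2 h1, Bool.eq_iff_iff.2 h2⟩)
  rcases h1 with h1 | h1
  · obtain ⟨x, hx, y, hy, hxy⟩ := hA
    exfalso
    apply hxy
    exact Finset.card_le_one.1 h1 x (by simpa using hx) y (by simpa using hy)
  · rw [← Set.coe_toFinset A, h1]; simp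

theorem chain7 : ∃ x y z : P7, x < y ∧ y < z :=
  ⟨(0 : Fin 7), (2 : Fin 7), (5 : Fin 7), by rw [lt7_iff]; decide, by rw [lt7_iff]; decide⟩

/-! ### Ordinal sums of two-element antichains -/

/-- `n` levels of two elements each. -/
structure Lv (n : ℕ) where
  lvl : Fin n
  side : Bool
deriving DecidableEq

instance (n : ℕ) : PartialOrder (Lv n) where
  le a b := a = b ∨ a.lvl < b.lvl
  lt a b := a.lvl < b.lvl
  le_refl a := Or.inl rfl
  le_trans a b c h1 h2 := by
    rcases h1 with rfl | h1
    · exact h2
    · rcases h2 with rfl | h2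
      · exact Or.inr h1
      · exact Or.inr (h1.trans h2)
  le_antisymm a b h1 h2 := by
    rcases h1 with rfl | h1
    · rfl
    · rcases h2 with h2 | h2
      · exact h2.symm
      · exact absurd (h1.trans h2) (lt_irrefl _)
  lt_iff_le_not_ge a b := by
    constructor
    · intro h
      refine ⟨Or.inr h, ?_⟩
      rintro (rfl | h')
      · exact absurd h (lt_irrefl _)
      · exact absurd (h.trans h') (lt_irrefl _)
    · rintro ⟨rfl | h, h2⟩
      · exact absurd (Or.inl rfl) h2
      · exact h

theorem Lv.lt_def {n : ℕ} (a b : Lv n) : a < b ↔ a.lvl < b.lvl := Iff.rfl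

instance (n : ℕ) : Finite (Lv n) :=
  Finite.of_injective (fun a : Lv n => (a.lvl, a.side)) (by
    rintro ⟨a, b⟩ ⟨c, d⟩ h
    simp only [Prod.mk.injEq] at h
    rw [h.1, h.2])

theorem jumps_cons_le {α : Type} [PartialOrder α] (a : α) (l : List α) :
    jumps l ≤ jumps (a :: l) := by
  cases l with
  | nil => simp [jumps]
  | cons b l => rw [jumps]; omega

theorem lower_Lv (n : ℕ) : ∀ (m k : ℕ), k + m = n → ∀ l : List (Lv n),
    LinExt {x : Lv n | k ≤ x.lvl.val} l → m ≤ jumps l := by
  intro m
  induction m with
  | zero => intro k _ l _; omega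
  | succ m ih =>
    intro k hk l hl
    obtain ⟨hn, hm, hp⟩ := hl
    have hk' : k < n := by omega
    have hmem : ∀ b : Bool, (⟨⟨k, hk'⟩, b⟩ : Lv n) ∈ l := fun b => (hm _).2 (le_refl k)
    cases l with
    | nil => have := hmem true; simp at this
    | cons x l =>
      rw [List.pairwise_cons] at hp
      have hxS : k ≤ x.lvl.val := (hm x).1 (by simp)
      have hx : x.lvl.val = k := by
        by_contra hne
        have hb := hmem true
        rcases List.mem_cons.1 hb with h | h
        · rw [← h] at hne; exact hne rfl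
        · exact hp.1 _ h ((Lv.lt_def _ _).2 (Fin.lt_def.2 (by simp only; omega)))
      have hother : (⟨⟨k, hk'⟩, !x.side⟩ : Lv n) ∈ l := by
        rcases List.mem_cons.1 (hmem (!x.side)) with h | h
        · have := congrArg Lv.side h
          simp at this
        · exact h
      cases l with
      | nil => simp at hother
      | cons y l =>
        have hp2 := List.pairwise_cons.1 hp.2
        have hyS : k ≤ y.lvl.val := (hm y).1 (by simp)
        have hy : y.lvl.val = k := by
          by_contra hne
          rcases List.mem_cons.1 hother with h | h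
          · rw [← h] at hne; exact hne rfl
          · exact hp2.1 _ h ((Lv.lt_def _ _).2 (Fin.lt_def.2 (by simp only; omega)))
        have hxy : ¬ x < y := by
          rw [Lv.lt_def, Fin.lt_def]; omega
        rw [jumps, if_neg hxy]
        have hrec := ih (k + 1) (by omega) l ⟨(List.nodup_cons.1 (List.nodup_cons.1 hn).2).2, ?_,
          hp2.2⟩
        · have := jumps_cons_le y l
          omega
        · intro a
          constructor
          · intro ha
            have h1 : k ≤ a.lvl.val := (hm a).1 (by simp [ha])
            show k + 1 ≤ a.lvl.val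
            by_contra hcon
            have h2 : a.lvl.val = k := by omega
            have hax : a ≠ x := by
              rintro rfl
              exact (List.nodup_cons.1 hn).1 (by simp [ha])
            have hay : a ≠ y := by
              rintro rfl
              exact (List.nodup_cons.1 (List.nodup_cons.1 hn).2).1 ha
            have hyx : y ≠ x := by
              rintro rfl
              exact (List.nodup_cons.1 hn).1 (by simp)
            have e1 : a.lvl = x.lvl := Fin.ext (by omega)
            have e2 : y.lvl = x.lvl := Fin.ext (by omega)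
            obtain ⟨al, as⟩ := a
            obtain ⟨xl, xs⟩ := x
            obtain ⟨yl, ys⟩ := y
            simp only at e1 e2
            subst e1 e2
            cases as <;> cases xs <;> cases ys <;> simp_all
          · intro ha
            have ha' : k + 1 ≤ a.lvl.val := ha
            have h1 : a ∈ x :: y :: l := (hm a).2 (by show k ≤ a.lvl.val; omega)
            rcases List.mem_cons.1 h1 with rfl | h1
            · omega
            · rcases List.mem_cons.1 h1 with rfl | h1
              · omega
              · exact h1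

/-- The elements of the levels `≥ k`, in increasing order, without `x`. -/
def tailList (n : ℕ) (x : Option (Lv n)) : ℕ → ℕ → List (Lv n)
  | 0, _ => []
  | m + 1, k => if h : k < n then
      (([⟨⟨k, h⟩, false⟩, ⟨⟨k, h⟩, true⟩] : List (Lv n)).filter (fun y => some y ≠ x)) ++
        tailList n x m (k + 1)
    else []

theorem tail_spec (n : ℕ) (x : Option (Lv n)) : ∀ m k, k + m = n →
    LinExt {y : Lv n | k ≤ y.lvl.val ∧ some y ≠ x} (tailList n x m k) ∧
      jumps (tailList n x m k) + (if ∃ y, x = some y ∧ k ≤ y.lvl.val then 1 else 0) ≤ m := by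
  intro m
  induction m with
  | zero =>
    intro k hk
    refine ⟨⟨by simp [tailList], ?_, by simp [tailList]⟩, ?_⟩
    · intro a
      have := a.lvl.2
      simp only [tailList, List.not_mem_nil, Set.mem_ofPred_eq, false_iff, not_and]
      intro h; omega
    · have : ¬ ∃ y, x = some y ∧ k ≤ y.lvl.val := by
        rintro ⟨y, -, hy⟩
        have := y.lvl.2
        omega
      rw [if_neg this]
      simp [tailList, jumps]
  | succ m ih =>
    intro k hk
    have hkn : k < n := by omega
    obtain ⟨⟨h1, h2, h3⟩, h4⟩ := ih (k + 1) (by omega)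
    have hT : tailList n x (m + 1) k =
        (([⟨⟨k, hkn⟩, false⟩, ⟨⟨k, hkn⟩, true⟩] : List (Lv n)).filter (fun y => some y ≠ x)) ++
        tailList n x m (k + 1) := by
      rw [tailList, dif_pos hkn]
    set T := tailList n x m (k + 1) with hTdef
    set H := (([⟨⟨k, hkn⟩, false⟩, ⟨⟨k, hkn⟩, true⟩] : List (Lv n)).filter (fun y => some y ≠ x))
      with hHdef
    have hTl : ∀ a ∈ T, k + 1 ≤ a.lvl.val := fun a ha => ((h2 a).1 ha).1
    have hHm : ∀ a, a ∈ H ↔ a.lvl.val = k ∧ some a ≠ x := by
      intro a
      rw [hHdef, List.mem_filter]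
      simp only [List.mem_cons, List.not_mem_nil, or_false, ne_eq, decide_eq_true_eq]
      constructor
      · rintro ⟨rfl | rfl, h⟩
        · exact ⟨rfl, h⟩
        · exact ⟨rfl, h⟩
      · rintro ⟨ha, h⟩
        refine ⟨?_, h⟩
        obtain ⟨al, as⟩ := a
        have : al = ⟨k, hkn⟩ := Fin.ext ha
        subst this
        cases as
        · left; rfl
        · right; rfl
    have hHn : H.Nodup := by
      rw [hHdef]
      exact List.Nodup.filter _ (by simp)
    rw [hT]
    refine ⟨⟨?_, ?_, ?_⟩, ?_⟩
    · rw [List.nodup_append]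
      refine ⟨hHn, h1, ?_⟩
      intro a ha b hb hab
      subst hab
      have := ((hHm a).1 ha).1
      have := hTl a hb
      omega
    · intro a
      rw [List.mem_append, hHm, h2]
      simp only [Set.mem_ofPred_eq]
      constructor
      · rintro (⟨h, h'⟩ | ⟨h, h'⟩)
        · exact ⟨h.ge, h'⟩
        · exact ⟨by omega, h'⟩
      · rintro ⟨h, h'⟩
        rcases Nat.eq_or_lt_of_le h with h | h
        · left; exact ⟨h.symm, h'⟩
        · right; exact ⟨h, h'⟩
    · rw [List.pairwise_append]
      refine ⟨?_, h3, ?_⟩
      · apply List.Pairwise.imp_of_mem (R := fun _ _ => True)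
        · intro a b ha hb _ hlt
          have ha' := ((hHm a).1 ha).1
          have hb' := ((hHm b).1 hb).1
          rw [Lv.lt_def, Fin.lt_def] at hlt
          omega
        · exact List.pairwise_of_forall (fun _ _ => trivial)
      · intro a ha b hb hlt
        have ha' := ((hHm a).1 ha).1
        have hb' := hTl b hb
        rw [Lv.lt_def, Fin.lt_def] at hlt
        omega
    · have hstep : ∀ a : Lv n, a.lvl.val = k → jumps (a :: T) = jumps T := by
        intro a ha
        cases hTT : T with
        | nil => simp [jumps]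
        | cons b l =>
          have hb := hTl b (by rw [hTT]; simp)
          rw [jumps, if_pos]
          · omega
          · rw [Lv.lt_def, Fin.lt_def]; omega
      have hcase : H = [⟨⟨k, hkn⟩, false⟩, ⟨⟨k, hkn⟩, true⟩] ∨
          ((H = [⟨⟨k, hkn⟩, false⟩] ∨ H = [⟨⟨k, hkn⟩, true⟩]) ∧ ∃ y, x = some y ∧ y.lvl.val = k) := by
        rcases x with _ | ⟨xl, xs⟩
        · left; rw [hHdef]; simp
        · by_cases hxl : xl = ⟨k, hkn⟩
          · right
            subst hxl
            refine ⟨?_, _, rfl, rfl⟩
            rw [hHdef]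
            cases xs
            · right; simp [List.filter]
            · left; simp [List.filter]
          · left
            rw [hHdef]
            have hne : ¬ (⟨k, hkn⟩ : Fin n) = xl := fun h => hxl h.symm
            simp [List.filter, hne]
      rcases hcase with hc | ⟨hc, y, hy, hyk⟩
      · rw [hc]
        have e1 : jumps (([⟨⟨k, hkn⟩, false⟩, ⟨⟨k, hkn⟩, true⟩] : List (Lv n)) ++ T) ≤ 1 + jumps T := by
          show jumps ((⟨⟨k, hkn⟩, false⟩ : Lv n) :: ⟨⟨k, hkn⟩, true⟩ :: T) ≤ _
          rw [jumps, hstep _ rfl]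
          split_ifs <;> omega
        have e2 : (if ∃ y, x = some y ∧ k ≤ y.lvl.val then 1 else 0) ≤
            (if ∃ y, x = some y ∧ k + 1 ≤ y.lvl.val then 1 else 0) := by
          by_cases hx : ∃ y, x = some y ∧ k ≤ y.lvl.val
          · obtain ⟨y, hy, hyk⟩ := hx
            have hyne : y.lvl.val ≠ k := by
              intro hyk'
              have : y ∉ H := by
                rw [hHm]; rintro ⟨-, h⟩; exact h hy.symm
              apply this
              rw [hc]
              obtain ⟨yl, ys⟩ := y
              have : yl = ⟨k, hkn⟩ := Fin.ext hyk'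
              subst this
              cases ys <;> simp
            rw [if_pos ⟨y, hy, hyk⟩, if_pos ⟨y, hy, by omega⟩]
          · rw [if_neg hx]; exact Nat.zero_le _
        omega
      · have e1 : jumps (H ++ T) = jumps T := by
          rcases hc with hc | hc
          · rw [hc]; exact hstep _ rfl
          · rw [hc]; exact hstep _ rfl
        rw [e1, if_pos ⟨y, hy, hyk.ge⟩]
        have : ¬ ∃ z, x = some z ∧ k + 1 ≤ z.lvl.val := by
          rintro ⟨z, hz, hzk⟩
          rw [hy] at hz
          simp only [Option.some.injEq] at hz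
          subst hz
          omega
        rw [if_neg this] at h4
        omega

theorem critical_Lv (n : ℕ) (hn : 1 ≤ n) : JumpCritical (Lv n) := by
  have h : n ≤ jumpNumber (Set.univ : Set (Lv n)) := by
    apply le_jumpNumber
    · obtain ⟨h1, -⟩ := tail_spec n none n 0 (by omega)
      refine ⟨tailList n none n 0, ?_⟩
      convert h1 using 1
      ext a; simp
    · intro l hl
      apply lower_Lv n n 0 (by omega)
      convert hl using 1
      ext a; simp
  refine ⟨by omega, fun x => ?_⟩
  obtain ⟨h1, h2⟩ := tail_spec n (some x) n 0 (by omega)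
  rw [if_pos ⟨x, rfl, Nat.zero_le _⟩] at h2
  have h3 : jumpNumber {y : Lv n | y ≠ x} ≤ n - 1 := by
    refine jumpNumber_le (l := tailList n (some x) n 0) ?_ (by omega)
    convert h1 using 1
    ext a; simp
  omega

theorem result_aux :
    (∃ (α : Type) (_ : PartialOrder α) (_ : Finite α), JumpCritical α ∧ IsPrime α ∧
      ∃ x y z : α, x < y ∧ y < z) ∧
    ∀ n : ℕ, ∃ (α : Type) (_ : PartialOrder α) (_ : Finite α), JumpCritical α ∧
      ∃ c : Fin n → α, StrictMono c := by
  refine ⟨⟨P7, inferInstance, inferInstanceAs (Finite (Fin 7)), critical7, prime7, chain7⟩, ?_⟩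
  intro n
  refine ⟨Lv (n + 1), inferInstance, inferInstance, critical_Lv (n + 1) (by omega),
    fun i => ⟨i.castSucc, true⟩, ?_⟩
  intro i j hij
  rw [Lv.lt_def]
  exact hij

end Q158.Jump
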