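import Mathlib

/-! Jump number and jump-critical finite posets. -/

namespace Q158.Jump

variable {α : Type} [PartialOrder α]

open Classical in
/-- The number of jumps of a list: consecutive entries `a, b` with `a < b` failing. -/
noncomputable def jumps : List α → ℕ
  | [] => 0
  | [_] => 0
  | a :: b :: l => (if a < b then 0 else 1) + jumps (b :: l)

/-- `l` is a linear extension of the subposet induced on `S`: it lists every element of `S`
exactly once, and no entry lies below an earlier one. -/
def LinExt (S : Set α) (l : List α) : Prop :=
  l.Nodup ∧ (∀ a, a ∈ l ↔ a ∈ S) ∧ l.Pairwise (fun a b => ¬ b < a)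

/-- The jump number of the subposet induced on `S` (meant for finite `S`). -/
noncomputable def jumpNumber (S : Set α) : ℕ :=
  sInf {k : ℕ | ∃ l : List α, LinExt S l ∧ jumps l = k}

variable (α) in
/-- The finite poset `α` is jump-critical: its jump number is at least one and drops when any
element is deleted. -/
def JumpCritical : Prop :=
  1 ≤ jumpNumber (Set.univ : Set α) ∧
    ∀ x : α, jumpNumber {y : α | y ≠ x} < jumpNumber (Set.univ : Set α)

variable (α) in
/-- No autonomous set other than the trivial ones: every set `A` with at least two elements whose
outside elements each compare in the same way to all elements of `A` is everything. -/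
def IsPrime : Prop :=
  ∀ A : Set α, A.Nontrivial →
    (∀ z, z ∉ A → ∀ x ∈ A, ∀ y ∈ A, (z < x ↔ z < y) ∧ (x < z ↔ y < z)) → A = Set.univ

end Q158.Jump
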