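import Pool.Agent.Q158.KIrrDefs

set_option autoImplicit false

namespace Q158.KIrr

/-! ### Upper bound: weak orders embed -/

/-- Number of elements of `S` congruent to `j` modulo `t`. -/
def cnt (t j : ℕ) (S : Finset ℕ) : ℕ := (S.filter fun m => m % t = j).card

theorem cnt_mono {t j : ℕ} {S S' : Finset ℕ} (h : S ⊆ S') : cnt t j S ≤ cnt t j S' :=
  Finset.card_le_card (Finset.filter_subset_filter _ h)

theorem cnt_lt {t j k n : ℕ} (ht : 0 < t) (S : Finset ℕ) (hS : ∀ m ∈ S, m < n)
    (hn : n ≤ (k - 1) * t) : cnt t j S ≤ k - 1 := by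
  have : (S.filter fun m => m % t = j).card ≤ (Finset.range (k - 1)).card := by
    refine Finset.card_le_card_of_injOn (fun m => m / t) ?_ ?_
    · intro m hm
      have hm' := Finset.mem_coe.1 hm
      rw [Finset.mem_filter] at hm'
      have h1 := hS m hm'.1
      refine Finset.mem_coe.2 (Finset.mem_range.2 ?_)
      rw [Nat.div_lt_iff_lt_mul ht]
      omega
    · intro a ha b hb hab
      have ha' := (Finset.mem_filter.1 (Finset.mem_coe.1 ha)).2
      have hb' := (Finset.mem_filter.1 (Finset.mem_coe.1 hb)).2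
      simp only at hab
      rw [← Nat.div_add_mod a t, ← Nat.div_add_mod b t, hab, ha', hb']
  simpa [cnt] using this

theorem sum_cnt {t : ℕ} (ht : 0 < t) (S : Finset ℕ) : ∑ j : Fin t, cnt t j S = S.card := by
  have h := Finset.card_eq_sum_card_fiberwise (s := S) (t := Finset.range t)
    (f := fun m => m % t) (fun m _ => by simpa using Nat.mod_lt m ht)
  rw [h, ← Fin.sum_univ_eq_sum_range (fun j => (S.filter fun m => m % t = j).card) t]
  rfl

/-- Weak orders whose blocks have at most `t` elements embed into `𝐤^t` if they have at most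
`(k - 1) t` elements. -/
theorem embeds {k t n : ℕ} (hk : 2 ≤ k) (ht : 0 < t) (hn : n ≤ (k - 1) * t)
    (Q : Type) [PartialOrder Q] (pos lam : Q → ℕ) (hpos : Function.Injective pos)
    (hlt : ∀ x, pos x < n) (h1 : ∀ x, lam x ≤ pos x) (h2 : ∀ x, pos x < lam x + t)
    (h3 : ∀ x y, lam x < lam y → pos x < lam y) (h4 : ∀ x y, x < y ↔ lam x < lam y) :
    Nonempty (Q ↪o (Fin t → Fin k)) := by
  classical
  let S : Q → Finset ℕ := fun x => insert (pos x) (Finset.range (lam x))
  have hS : ∀ x, ∀ m ∈ S x, m < n := by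
    intro x m hm
    rw [Finset.mem_insert, Finset.mem_range] at hm
    have := hlt x; have := h1 x
    omega
  have hcard : ∀ x, (S x).card = lam x + 1 := by
    intro x
    rw [Finset.card_insert_of_notMem (by have := h1 x; simp; omega), Finset.card_range]
  let φ : Q → (Fin t → Fin k) := fun x j => ⟨cnt t j (S x), by
    have := cnt_lt (j := j) ht (S x) (hS x) hn
    omega⟩
  have hle : ∀ x y, φ x ≤ φ y ↔ x ≤ y := by
    intro x y
    constructor
    · intro h
      have hsum : ∑ j : Fin t, cnt t j (S x) ≤ ∑ j : Fin t, cnt t j (S y) :=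
        Finset.sum_le_sum fun j _ => h j
      rw [sum_cnt ht, sum_cnt ht, hcard, hcard] at hsum
      rcases Nat.lt_or_ge (lam x) (lam y) with h5 | h5
      · exact ((h4 x y).2 h5).le
      · have h6 : lam x = lam y := by omega
        have h7 : pos x % t = pos y % t := by
          have hj := h ⟨pos x % t, Nat.mod_lt _ ht⟩
          have hj' : cnt t (pos x % t) (S x) ≤ cnt t (pos x % t) (S y) := hj
          by_contra hne
          have e1 : cnt t (pos x % t) (S x) = cnt t (pos x % t) (Finset.range (lam x)) + 1 := by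
            unfold cnt
            simp only [S]
            rw [Finset.filter_insert, if_pos rfl, Finset.card_insert_of_notMem]
            have := h1 x
            simp; omega
          have e2 : cnt t (pos x % t) (S y) = cnt t (pos x % t) (Finset.range (lam y)) := by
            unfold cnt
            simp only [S]
            rw [Finset.filter_insert, if_neg (fun h => hne h.symm)]
          rw [e1, e2, h6] at hj'
          omega
        have h8 := h1 x; have h9 := h1 y; have h10 := h2 x; have h11 := h2 y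
        have h12 : pos x = pos y := by
          have e1 := Nat.div_add_mod (pos x) t
          have e2 := Nat.div_add_mod (pos y) t
          have e3 : pos x / t = pos y / t := by
            rcases lt_trichotomy (pos x / t) (pos y / t) with h | h | h
            · have : t * (pos x / t) + t ≤ t * (pos y / t) := by nlinarith
              omega
            · exact h
            · have : t * (pos y / t) + t ≤ t * (pos x / t) := by nlinarith
              omega
          rw [← e1, ← e2, e3, h7]
        rw [hpos h12]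
    · intro h
      rcases eq_or_lt_of_le h with rfl | h
      · exact le_rfl
      · have h5 := (h4 x y).1 h
        have h6 := h3 x y h5
        intro j
        have h7 : S x ⊆ S y := by
          intro m hm
          rw [Finset.mem_insert, Finset.mem_range] at hm ⊢
          omega
        exact cnt_mono (t := t) (j := j) h7
  exact ⟨OrderEmbedding.ofMapLEIff φ hle⟩

/-! ### Lower bound -/

theorem inc_sum2 {s : ℕ} (u x y M : Fin s → ℕ) (hx : ∀ j, u j ≤ x j) (hy : ∀ j, u j ≤ y j)
    (hxy : ∃ j, y j < x j) (hyx : ∃ j, x j < y j) (hMx : ∀ j, x j ≤ M j) (hMy : ∀ j, y j ≤ M j) :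
    ∑ j, u j + 2 ≤ ∑ j, M j := by
  classical
  obtain ⟨a, ha⟩ := hxy
  obtain ⟨b, hb⟩ := hyx
  have hab : a ≠ b := by rintro rfl; omega
  have h0 : ∑ j, M j = ∑ j, u j + ∑ j, (M j - u j) := by
    rw [← Finset.sum_add_distrib]
    exact Finset.sum_congr rfl fun j _ => by have := hx j; have := hMx j; omega
  have h1 : ∑ j ∈ {a, b}, (M j - u j) ≤ ∑ j, (M j - u j) :=
    Finset.sum_le_sum_of_subset (Finset.subset_univ _)
  rw [Finset.sum_pair hab] at h1
  have := hx a; have := hx b; have := hy a; have := hy b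
  have := hMx a; have := hMx b; have := hMy a; have := hMy b
  omega

theorem inc_sum3 {s : ℕ} (u x y z M : Fin s → ℕ) (hx : ∀ j, u j ≤ x j) (hy : ∀ j, u j ≤ y j)
    (hz : ∀ j, u j ≤ z j) (hxy : ∃ j, y j < x j) (hyx : ∃ j, x j < y j) (hxz : ∃ j, z j < x j)
    (hzx : ∃ j, x j < z j) (hzy : ∃ j, y j < z j)
    (hMx : ∀ j, x j ≤ M j) (hMy : ∀ j, y j ≤ M j) (hMz : ∀ j, z j ≤ M j) :
    ∑ j, u j + 3 ≤ ∑ j, M j := by
  classical
  obtain ⟨a, ha⟩ := hxy
  obtain ⟨b, hb⟩ := hyx
  have hab : a ≠ b := by rintro rfl; omega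
  have h0 : ∑ j, M j = ∑ j, u j + ∑ j, (M j - u j) := by
    rw [← Finset.sum_add_distrib]
    exact Finset.sum_congr rfl fun j _ => by have := hx j; have := hMx j; omega
  by_contra hcon
  have h1 : ∑ j ∈ {a, b}, (M j - u j) ≤ ∑ j, (M j - u j) :=
    Finset.sum_le_sum_of_subset (Finset.subset_univ _)
  rw [Finset.sum_pair hab] at h1
  have hxa := hx a; have hxb := hx b; have hya := hy a; have hyb := hy b
  have hza := hz a; have hzb := hz b
  have hMxa := hMx a; have hMxb := hMx b; have hMya := hMy a; have hMyb := hMy b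
  have hMza := hMz a; have hMzb := hMz b
  have h2 : ∀ c, c ≠ a → c ≠ b → M c = u c := by
    intro c hca hcb
    have h3 : ∑ j ∈ {c, a, b}, (M j - u j) ≤ ∑ j, (M j - u j) :=
      Finset.sum_le_sum_of_subset (Finset.subset_univ _)
    rw [Finset.sum_insert (by simp [hca, hcb]), Finset.sum_pair hab] at h3
    have := hx c; have := hMx c
    omega
  obtain ⟨c1, h3⟩ := hxz
  obtain ⟨c2, h4⟩ := hzx
  obtain ⟨c3, h5⟩ := hzy
  have e1 : c1 = a := by
    by_contra hc
    by_cases hc' : c1 = b
    · subst hc'; omega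
    · have := h2 c1 hc hc'; have := hz c1; have := hMx c1; omega
  have e2 : c2 = b := by
    by_contra hc
    by_cases hc' : c2 = a
    · subst hc'; omega
    · have := h2 c2 hc' hc; have := hx c2; have := hMz c2; omega
  subst e1 e2
  by_cases hc : c3 = c1
  · subst hc; omega
  by_cases hc' : c3 = c2
  · subst hc'; omega
  have := h2 c3 hc hc'; have := hy c3; have := hMz c3
  omega

/-! ### Weak orders with blocks of size two or three -/

/-- `lam x` is the start of the block containing `x`; all blocks have two or three elements. -/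
structure Blocks (T : ℕ) (lam : ℕ → ℕ) : Prop where
  le : ∀ x < T, lam x ≤ x
  lt3 : ∀ x < T, x < lam x + 3
  idem : ∀ x < T, lam (lam x) = lam x
  sep : ∀ x y, x < T → y < T → lam x < lam y → x < lam y
  two : ∀ x < T, lam x + 1 < T
  pair : ∀ x < T, lam (lam x + 1) = lam x

theorem Blocks.mono {T : ℕ} {lam : ℕ → ℕ} (h : Blocks T lam) {x y : ℕ} (hx : x < T) (hy : y < T)
    (hxy : x ≤ y) : lam x ≤ lam y := by
  by_contra hcon
  have := h.sep y x hy hx (by omega)
  have := h.le x hx
  omega

/-- The weak order given by `lam`. -/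
def WO (T : ℕ) (_lam : ℕ → ℕ) : Type := Fin T

instance (T : ℕ) (lam : ℕ → ℕ) : Finite (WO T lam) := inferInstanceAs (Finite (Fin T))

instance (T : ℕ) (lam : ℕ → ℕ) : Fintype (WO T lam) := inferInstanceAs (Fintype (Fin T))

/-- The underlying number. -/
def WO.val {T : ℕ} {lam : ℕ → ℕ} (x : WO T lam) : ℕ := Fin.val (n := T) x

theorem WO.val_lt {T : ℕ} {lam : ℕ → ℕ} (x : WO T lam) : x.val < T := Fin.isLt (n := T) x

theorem WO.val_inj {T : ℕ} {lam : ℕ → ℕ} : Function.Injective (WO.val (T := T) (lam := lam)) :=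
  fun _ _ h => Fin.ext h

instance (T : ℕ) (lam : ℕ → ℕ) : PartialOrder (WO T lam) where
  le x y := x = y ∨ lam x.val < lam y.val
  le_refl x := Or.inl rfl
  le_trans x y z := by
    rintro (rfl | h1) (rfl | h2)
    · exact Or.inl rfl
    · exact Or.inr h2
    · exact Or.inr h1
    · exact Or.inr (h1.trans h2)
  le_antisymm x y := by
    rintro (rfl | h1) (h2 | h2)
    · rfl
    · rfl
    · exact h2.symm
    · omega

theorem WO.lt_iff {T : ℕ} {lam : ℕ → ℕ} (x y : WO T lam) : x < y ↔ lam x.val < lam y.val := by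
  rw [lt_iff_le_and_ne]
  constructor
  · rintro ⟨h1 | h1, h2⟩
    · exact absurd h1 h2
    · exact h1
  · intro h
    exact ⟨Or.inr h, by rintro rfl; omega⟩

theorem WO.le_iff {T : ℕ} {lam : ℕ → ℕ} (x y : WO T lam) :
    x ≤ y ↔ x = y ∨ lam x.val < lam y.val := Iff.rfl

/-- The element with a given number. -/
def WO.mk {T : ℕ} {lam : ℕ → ℕ} (x : ℕ) (h : x < T) : WO T lam := (⟨x, h⟩ : Fin T)

@[simp] theorem WO.val_mk {T : ℕ} {lam : ℕ → ℕ} (x : ℕ) (h : x < T) :
    (WO.mk x h : WO T lam).val = x := rfl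

theorem lower {k s T : ℕ} {lam : ℕ → ℕ} (h : Blocks T lam)
    (ψ : WO T lam ↪o (Fin s → Fin k)) : T ≤ s * (k - 1) := by
  classical
  have key : ∀ v ≤ T, (v = T ∨ lam v = v) → ∃ u : Fin s → ℕ, v ≤ ∑ j, u j ∧
      (∀ j, u j ≤ k - 1) ∧ ∀ y : WO T lam, v ≤ y.val → ∀ j, u j ≤ ψ y j := by
    intro v
    induction v using Nat.strong_induction_on with
    | _ v ih =>
      intro hv hb
      rcases Nat.eq_zero_or_pos v with rfl | hpos
      · exact ⟨fun _ => 0, Nat.zero_le _, fun j => Nat.zero_le _, fun y _ j => Nat.zero_le _⟩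
      have hv1 : v - 1 < T := by omega
      have a1 := h.le (v - 1) hv1
      have a2 := h.lt3 (v - 1) hv1
      have a3 := h.idem (v - 1) hv1
      have a4 := h.two (v - 1) hv1
      have a5 := h.pair (v - 1) hv1
      set v0 := lam (v - 1) with hv0
      obtain ⟨u0, h1, h2, h3⟩ := ih v0 (by omega) (by omega) (Or.inr a3)
      have hc : v0 + 1 < v := by
        rcases hb with hb | hb
        · omega
        · by_contra hcon
          have : v = v0 + 1 := by omega
          rw [← this] at a5
          omega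
      let u : Fin s → ℕ := fun j => (Finset.univ.filter fun y : WO T lam => y.val < v).sup
        fun y => (ψ y j : ℕ)
      have hu : ∀ y : WO T lam, y.val < v → ∀ j, (ψ y j : ℕ) ≤ u j := fun y hy j =>
        Finset.le_sup (f := fun y => (ψ y j : ℕ)) (by simpa using hy)
      have hlam : ∀ y, v0 ≤ y → y < v → lam y = v0 := by
        intro y hy1 hy2
        have b1 := h.mono (x := v0) (y := y) (by omega) (by omega) hy1
        have b2 := h.mono (x := y) (y := v - 1) (by omega) (by omega) (by omega)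
        omega
      have hinc : ∀ x y : ℕ, ∀ hx : x < T, ∀ hy : y < T, v0 ≤ x → x < v → v0 ≤ y → y < v →
          x ≠ y → ∃ j, (ψ (WO.mk x hx) j : ℕ) < ψ (WO.mk y hy) j := by
        intro x y hx hy hx1 hx2 hy1 hy2 hxy
        have : ¬ ψ (WO.mk y hy) ≤ ψ (WO.mk x hx) := by
          rw [ψ.le_iff_le, WO.le_iff]
          rintro (h4 | h4)
          · exact hxy (congrArg WO.val h4).symm
          · simp only [WO.val_mk] at h4
            rw [hlam x hx1 hx2, hlam y hy1 hy2] at h4
            omega
        rw [Pi.le_def] at this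
        push Not at this
        exact this
      refine ⟨u, ?_, ?_, ?_⟩
      · have hT0 : v0 < T := by omega
        have hT1 : v0 + 1 < T := by omega
        have g0 : ∀ j, u0 j ≤ (ψ (WO.mk v0 hT0) j : ℕ) := h3 _ le_rfl
        have g1 : ∀ j, u0 j ≤ (ψ (WO.mk (v0 + 1) hT1) j : ℕ) := h3 _ (Nat.le_succ v0)
        have k0 : ∀ j, (ψ (WO.mk v0 hT0) j : ℕ) ≤ u j := hu _ (by rw [WO.val_mk]; omega)
        have k1 : ∀ j, (ψ (WO.mk (v0 + 1) hT1) j : ℕ) ≤ u j := hu _ (by rw [WO.val_mk]; omega)
        have i01 := hinc v0 (v0 + 1) hT0 hT1 le_rfl (by omega) (by omega) (by omega) (by omega)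
        have i10 := hinc (v0 + 1) v0 hT1 hT0 (by omega) (by omega) le_rfl (by omega) (by omega)
        rcases (by omega : v = v0 + 2 ∨ v = v0 + 3) with hc2 | hc3
        · have h5 := inc_sum2 u0 _ _ u g0 g1 i10 i01 k0 k1
          omega
        · have hT2 : v0 + 2 < T := by omega
          have g2 : ∀ j, u0 j ≤ (ψ (WO.mk (v0 + 2) hT2) j : ℕ) :=
            h3 _ (by rw [WO.val_mk]; omega)
          have k2 : ∀ j, (ψ (WO.mk (v0 + 2) hT2) j : ℕ) ≤ u j := hu _ (by rw [WO.val_mk]; omega)
          have i02 := hinc v0 (v0 + 2) hT0 hT2 le_rfl (by omega) (by omega) (by omega) (by omega)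
          have i20 := hinc (v0 + 2) v0 hT2 hT0 (by omega) (by omega) le_rfl (by omega) (by omega)
          have i12 := hinc (v0 + 1) (v0 + 2) hT1 hT2 (by omega) (by omega) (by omega) (by omega)
            (by omega)
          have h5 := inc_sum3 u0 _ _ _ u g0 g1 g2 i10 i01 i20 i02 i12 k0 k1 k2
          omega
      · intro j
        refine Finset.sup_le fun y _ => ?_
        have := (ψ y j).isLt
        omega
      · intro y hy j
        refine Finset.sup_le fun x hx => ?_
        rw [Finset.mem_filter] at hx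
        have h4 : lam v = v := by
          rcases hb with hb | hb
          · have := y.val_lt; omega
          · exact hb
        have h5 : lam x.val < lam y.val := by
          have b1 := h.mono (x := v) (y := y.val) (by have := y.val_lt; omega) y.val_lt hy
          have b2 := h.le x.val x.val_lt
          omega
        exact (ψ.le_iff_le.2 (Or.inr h5 : x ≤ y)) j
  obtain ⟨u, h1, h2, -⟩ := key T le_rfl (Or.inl rfl)
  calc T ≤ ∑ j, u j := h1
    _ ≤ ∑ _j : Fin s, (k - 1) := Finset.sum_le_sum fun j _ => h2 j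
    _ = s * (k - 1) := by simp

theorem kdim_WO {k t T : ℕ} {lam : ℕ → ℕ} (hk : 2 ≤ k) (ht : 4 ≤ t)
    (hT : T = (k - 1) * (t - 1) + 1) (h : Blocks T lam) : kdim k (WO T lam) = t := by
  have hcap : T ≤ (k - 1) * t := by
    obtain ⟨k', rfl⟩ : ∃ k', k = k' + 2 := ⟨k - 2, by omega⟩
    obtain ⟨t', rfl⟩ : ∃ t', t = t' + 1 := ⟨t - 1, by omega⟩
    simp only [hT, Nat.add_sub_cancel]
    have : k' + 2 - 1 = k' + 1 := by omega
    rw [this]
    nlinarith
  have hemb : Nonempty (WO T lam ↪o (Fin t → Fin k)) :=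
    embeds hk (by omega) hcap (WO T lam) WO.val (fun x => lam x.val) WO.val_inj WO.val_lt
      (fun x => h.le _ x.val_lt) (fun x => by have := h.lt3 _ x.val_lt; omega)
      (fun x y hxy => h.sep _ _ x.val_lt y.val_lt hxy) WO.lt_iff
  refine le_antisymm (Nat.sInf_le ⟨by omega, hemb⟩) ?_
  have hne : {s | 1 ≤ s ∧ Nonempty (WO T lam ↪o (Fin s → Fin k))}.Nonempty := ⟨t, by omega, hemb⟩
  obtain ⟨h1, ⟨ψ⟩⟩ := Nat.sInf_mem hne
  have h2 := lower h ψ
  by_contra hcon
  have h3 : kdim k (WO T lam) ≤ t - 1 := by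
    change ¬ t ≤ kdim k (WO T lam) at hcon
    omega
  have h4 : kdim k (WO T lam) * (k - 1) ≤ (t - 1) * (k - 1) := Nat.mul_le_mul_right _ h3
  change T ≤ kdim k (WO T lam) * (k - 1) at h2
  have h5 := h2.trans h4
  have h6 := Nat.mul_comm (k - 1) (t - 1)
  omega

theorem irr_WO {k t T : ℕ} {lam : ℕ → ℕ} (hk : 2 ≤ k) (ht : 4 ≤ t)
    (hT : T = (k - 1) * (t - 1) + 1) (h : Blocks T lam) : KIrreducible k (WO T lam) := by
  intro x
  rw [kdim_WO hk ht hT h]
  have hx := x.val_lt
  have hemb : Nonempty ({y : WO T lam // y ≠ x} ↪o (Fin (t - 1) → Fin k)) := by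
    refine embeds hk (by omega) (n := T - 1) (by omega) _
      (fun y => if y.1.val < x.val then y.1.val else y.1.val - 1)
      (fun y => if lam y.1.val ≤ x.val then lam y.1.val else lam y.1.val - 1) ?_ ?_ ?_ ?_ ?_ ?_
    · rintro ⟨y, hy⟩ ⟨z, hz⟩ hyz
      have hy' : y.val ≠ x.val := fun h => hy (WO.val_inj h)
      have hz' : z.val ≠ x.val := fun h => hz (WO.val_inj h)
      refine Subtype.ext (WO.val_inj ?_)
      simp only at hyz ⊢
      split_ifs at hyz <;> omega
    · rintro ⟨y, hy⟩
      have hy' : y.val ≠ x.val := fun h => hy (WO.val_inj h)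
      have := y.val_lt
      simp only
      split_ifs <;> omega
    · rintro ⟨y, hy⟩
      have hy' : y.val ≠ x.val := fun h => hy (WO.val_inj h)
      have := h.le _ y.val_lt
      simp only
      split_ifs <;> omega
    · rintro ⟨y, hy⟩
      have hy' : y.val ≠ x.val := fun h => hy (WO.val_inj h)
      have := h.le _ y.val_lt
      have := h.lt3 _ y.val_lt
      simp only
      split_ifs <;> omega
    · rintro ⟨y, hy⟩ ⟨z, hz⟩ hyz
      have hy' : y.val ≠ x.val := fun h => hy (WO.val_inj h)
      have hz' : z.val ≠ x.val := fun h => hz (WO.val_inj h)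
      have a1 := h.le _ y.val_lt
      have a2 := h.le _ z.val_lt
      have a3 : lam y.val < lam z.val → y.val < lam z.val := h.sep _ _ y.val_lt z.val_lt
      simp only at hyz ⊢
      split_ifs at hyz ⊢ <;> omega
    · rintro ⟨y, hy⟩ ⟨z, hz⟩
      have hy' : y.val ≠ x.val := fun h => hy (WO.val_inj h)
      have hz' : z.val ≠ x.val := fun h => hz (WO.val_inj h)
      have a1 := h.le _ y.val_lt
      have a2 := h.le _ z.val_lt
      have a3 : lam y.val < lam z.val → y.val < lam z.val := h.sep _ _ y.val_lt z.val_lt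
      rw [Subtype.mk_lt_mk, WO.lt_iff]
      simp only
      split_ifs <;> omega
  have := Nat.sInf_le (show t - 1 ∈ {s | 1 ≤ s ∧ Nonempty ({y : WO T lam // y ≠ x} ↪o (Fin s → Fin k))}
    from ⟨by omega, hemb⟩)
  change kdim k {y : WO T lam // y ≠ x} ≤ t - 1 at this
  omega

/-- An isomorphism of weak orders preserves the set of block starts. -/
theorem starts_of_iso {T : ℕ} {lam lam' : ℕ → ℕ} (h : Blocks T lam) (h' : Blocks T lam')
    (e : WO T lam ≃o WO T lam') (v : ℕ) (hv : ∃ x < T, lam x = v) : ∃ x < T, lam' x = v := by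
  classical
  have key : ∀ (mu : ℕ → ℕ) (_ : Blocks T mu) (x : WO T mu),
      (Finset.univ.filter fun y : WO T mu => y < x).card = mu x.val := by
    intro mu hm x
    have h1 : (Finset.univ.filter fun y : WO T mu => y < x).map ⟨WO.val, WO.val_inj⟩ =
        Finset.range (mu x.val) := by
      ext m
      simp only [Finset.mem_map, Finset.mem_filter, Finset.mem_univ, true_and,
        Function.Embedding.coeFn_mk, Finset.mem_range, WO.lt_iff]
      constructor
      · rintro ⟨y, hy, rfl⟩
        exact hm.sep _ _ y.val_lt x.val_lt hy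
      · intro hmx
        have := hm.le _ x.val_lt
        have := x.val_lt
        refine ⟨WO.mk m (by omega), ?_, rfl⟩
        have := hm.le m (by omega)
        simp only [WO.val_mk]
        omega
    rw [← Finset.card_map ⟨WO.val, WO.val_inj⟩, h1, Finset.card_range]
  obtain ⟨x, hx, hxv⟩ := hv
  have h1 := key lam h (WO.mk x hx)
  have h2 := key lam' h' (e (WO.mk x hx))
  have h3 : (Finset.univ.filter fun y : WO T lam => y < WO.mk x hx).card =
      (Finset.univ.filter fun y : WO T lam' => y < e (WO.mk x hx)).card := by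
    refine Finset.card_equiv e.toEquiv fun y => ?_
    simp
  refine ⟨(e (WO.mk x hx)).val, (e (WO.mk x hx)).val_lt, ?_⟩
  rw [← h2, ← h3, h1]
  exact hxv

/-! ### The family -/

/-- The block starts coded by `b`. -/
def lamb (m r : ℕ) (b : ℕ → Bool) (x : ℕ) : ℕ :=
  if x < 6 * m then
    (if b (x / 6) then 6 * (x / 6) + 2 * ((x % 6) / 2) else 6 * (x / 6) + 3 * ((x % 6) / 3))
  else 6 * m + 2 * min ((x - 6 * m) / 2) (r / 2 - 1)

theorem lamb_blocks {m r : ℕ} (b : ℕ → Bool) (hr : 2 ≤ r) (hr' : r ≤ 7) :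
    Blocks (6 * m + r) (lamb m r b) where
  le x hx := by unfold lamb; split_ifs <;> omega
  lt3 x hx := by unfold lamb; split_ifs <;> omega
  idem x hx := by
    by_cases h1 : x < 6 * m
    · by_cases h2 : b (x / 6) = true
      · have e1 : lamb m r b x = 6 * (x / 6) + 2 * ((x % 6) / 2) := by simp [lamb, h1, h2]
        rw [e1]
        have e2 : (6 * (x / 6) + 2 * ((x % 6) / 2)) / 6 = x / 6 := by omega
        simp only [lamb, e2, h2, if_true]
        rw [if_pos (by omega)]
        omega
      · have e1 : lamb m r b x = 6 * (x / 6) + 3 * ((x % 6) / 3) := by simp [lamb, h1, h2]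
        rw [e1]
        have e2 : (6 * (x / 6) + 3 * ((x % 6) / 3)) / 6 = x / 6 := by omega
        simp only [lamb, e2, h2]
        rw [if_pos (by omega)]
        simp
        omega
    · have e1 : lamb m r b x = 6 * m + 2 * min ((x - 6 * m) / 2) (r / 2 - 1) := by
        simp [lamb, h1]
      rw [e1]
      unfold lamb
      rw [if_neg (by omega)]
      omega
  sep x y hx hy := by
    by_cases h1 : x / 6 = y / 6
    · unfold lamb
      rw [h1]
      split_ifs <;> omega
    · unfold lamb
      split_ifs <;> omega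
  two x hx := by unfold lamb; split_ifs <;> omega
  pair x hx := by
    by_cases h1 : x < 6 * m
    · by_cases h2 : b (x / 6) = true
      · have e1 : lamb m r b x = 6 * (x / 6) + 2 * ((x % 6) / 2) := by simp [lamb, h1, h2]
        rw [e1]
        have e2 : (6 * (x / 6) + 2 * ((x % 6) / 2) + 1) / 6 = x / 6 := by omega
        simp only [lamb, e2, h2, if_true]
        rw [if_pos (by omega)]
        omega
      · have e1 : lamb m r b x = 6 * (x / 6) + 3 * ((x % 6) / 3) := by simp [lamb, h1, h2]
        rw [e1]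
        have e2 : (6 * (x / 6) + 3 * ((x % 6) / 3) + 1) / 6 = x / 6 := by omega
        simp only [lamb, e2, h2]
        rw [if_pos (by omega)]
        simp
        omega
    · have e1 : lamb m r b x = 6 * m + 2 * min ((x - 6 * m) / 2) (r / 2 - 1) := by
        simp [lamb, h1]
      rw [e1]
      unfold lamb
      rw [if_neg (by omega)]
      omega

theorem lamb_start {m r : ℕ} (b : ℕ → Bool) (q : ℕ) (hq : q < m) :
    (∃ x < 6 * m + r, lamb m r b x = 6 * q + 3) ↔ b q = false := by
  constructor
  · rintro ⟨x, hx, hxq⟩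
    by_contra hb
    have hb' : b q = true := by simpa using hb
    by_cases h1 : x < 6 * m
    · by_cases h2 : b (x / 6) = true
      · have e1 : lamb m r b x = 6 * (x / 6) + 2 * ((x % 6) / 2) := by simp [lamb, h1, h2]
        omega
      · have e1 : lamb m r b x = 6 * (x / 6) + 3 * ((x % 6) / 3) := by simp [lamb, h1, h2]
        have : x / 6 = q := by omega
        rw [this] at h2
        exact h2 hb'
    · have e1 : lamb m r b x = 6 * m + 2 * min ((x - 6 * m) / 2) (r / 2 - 1) := by
        simp [lamb, h1]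
      omega
  · intro hb
    refine ⟨6 * q + 3, by omega, ?_⟩
    have h2 : (6 * q + 3) / 6 = q := by omega
    simp only [lamb, h2, hb]
    rw [if_pos (by omega)]
    simp

theorem N_lower {k t : ℕ} (hk : 2 ≤ k) (ht : 4 ≤ t) :
    ((2 ^ (((k - 1) * (t - 1) - 1) / 6) : ℕ) : ℕ∞) ≤ N k t := by
  classical
  obtain ⟨m, r, hr, hr', hmr⟩ : ∃ m r, 2 ≤ r ∧ r ≤ 7 ∧ (k - 1) * (t - 1) + 1 = 6 * m + r := by
    have : 3 ≤ (k - 1) * (t - 1) := by
      calc 3 ≤ 1 * (t - 1) := by omega
        _ ≤ (k - 1) * (t - 1) := Nat.mul_le_mul_right _ (by omega)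
    exact ⟨((k - 1) * (t - 1) - 1) / 6, ((k - 1) * (t - 1) - 1) % 6 + 2, by omega, by omega, by omega⟩
  have hm : ((k - 1) * (t - 1) - 1) / 6 = m := by omega
  rw [hm]
  let ext : (Fin m → Bool) → ℕ → Bool := fun b q => if h : q < m then b ⟨q, h⟩ else false
  let A : (Fin m → Bool) → FinPoset := fun b => ⟨WO (6 * m + r) (lamb m r (ext b))⟩
  let f : (Fin m → Bool) → Quotient isoSetoid := fun b => Quotient.mk isoSetoid (A b)
  have hf : Function.Injective f := by
    intro b b' hbb
    obtain ⟨e⟩ : Nonempty ((A b).carrier ≃o (A b').carrier) := Quotient.exact hbb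
    have e' : WO (6 * m + r) (lamb m r (ext b)) ≃o WO (6 * m + r) (lamb m r (ext b')) := e
    funext q
    have h1 := lamb_start (m := m) (r := r) (ext b) q q.2
    have h2 := lamb_start (m := m) (r := r) (ext b') q q.2
    have h3 := starts_of_iso (lamb_blocks (m := m) (ext b) hr hr') (lamb_blocks (ext b') hr hr') e'
      (6 * q + 3)
    have h4 := starts_of_iso (lamb_blocks (m := m) (ext b') hr hr') (lamb_blocks (ext b) hr hr')
      e'.symm (6 * q + 3)
    have h5 : ext b q = false ↔ ext b' q = false := by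
      rw [← h1, ← h2]
      exact ⟨h3, h4⟩
    simp only [ext, q.2, dif_pos] at h5
    change (b q = false ↔ b' q = false) at h5
    cases hb : b q <;> cases hb' : b' q <;> simp_all
  have hsub : (((Finset.univ : Finset (Fin m → Bool)).image f : Finset (Quotient isoSetoid)) :
      Set (Quotient isoSetoid)) ⊆ {c | ∃ A : FinPoset, Quotient.mk isoSetoid A = c ∧
        KIrreducible k A.carrier ∧ kdim k A.carrier = t} := by
    intro c hc
    rw [Finset.mem_coe, Finset.mem_image] at hc
    obtain ⟨b, -, rfl⟩ := hc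
    exact ⟨A b, rfl, irr_WO hk ht hmr.symm (lamb_blocks _ hr hr'),
      kdim_WO hk ht hmr.symm (lamb_blocks _ hr hr')⟩
  have hle := Set.encard_le_encard hsub
  rw [Set.encard_coe_eq_coe_finsetCard, Finset.card_image_of_injective _ hf] at hle
  simpa [N] using hle

/-- Exponential growth beats polynomial growth. -/
theorem exists_large (c C t0 : ℕ) : ∃ s, t0 ≤ s ∧ C * (6 * s + 2) ^ c < 2 ^ s := by
  have h := tendsto_pow_const_div_const_pow_of_one_lt c (r := (2 : ℝ)) (by norm_num)
  have h2 : ∀ᶠ s : ℕ in Filter.atTop, (s : ℝ) ^ c / 2 ^ s < 1 / (C * 8 ^ c + 1) :=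
    h.eventually_lt_const (by positivity)
  obtain ⟨s, hs, hs1⟩ := (h2.and (Filter.eventually_ge_atTop (max t0 1))).exists
  refine ⟨s, (le_max_left _ _).trans hs1, ?_⟩
  have hs2 : 1 ≤ s := (le_max_right _ _).trans hs1
  rw [div_lt_div_iff₀ (by positivity) (by positivity)] at hs
  have h3 : ((C * (6 * s + 2) ^ c : ℕ) : ℝ) < ((2 ^ s : ℕ) : ℝ) := by
    push_cast
    have h4 : (6 * (s : ℝ) + 2) ^ c ≤ (8 * s) ^ c := by
      have : (1 : ℝ) ≤ s := by exact_mod_cast hs2
      exact pow_le_pow_left₀ (by positivity) (by linarith) c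
    calc (C : ℝ) * (6 * s + 2) ^ c ≤ C * (8 * s) ^ c := by gcongr
      _ = s ^ c * (C * 8 ^ c) := by rw [mul_pow]; ring
      _ ≤ s ^ c * (C * 8 ^ c + 1) := by gcongr; linarith
      _ < 1 * 2 ^ s := hs
      _ = 2 ^ s := one_mul _
  exact_mod_cast h3

theorem not_poly {k : ℕ} (hk : 2 ≤ k) (c C t0 : ℕ) :
    ∃ t, t0 ≤ t ∧ ((C * t ^ c : ℕ) : ℕ∞) < N k t := by
  obtain ⟨s, hs, hlt⟩ := exists_large c C (max t0 1)
  have h1 : t0 ≤ s := (le_max_left _ _).trans hs
  have h2 : 1 ≤ s := (le_max_right _ _).trans hs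
  refine ⟨6 * s + 2, by omega, lt_of_lt_of_le ?_ (N_lower hk (by omega))⟩
  have h3 : s ≤ ((k - 1) * (6 * s + 2 - 1) - 1) / 6 := by
    have : 1 * (6 * s + 2 - 1) ≤ (k - 1) * (6 * s + 2 - 1) := Nat.mul_le_mul_right _ (by omega)
    omega
  exact_mod_cast hlt.trans_le (Nat.pow_le_pow_right (by norm_num) h3)

end Q158.KIrr
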