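import Mathlib

set_option autoImplicit false

namespace Q158.KIrr

/-- The `k`-dimension of `P`: the least `t ≥ 1` such that `P` is isomorphic to an induced
subposet of the product of `t` chains with `k` elements. -/
noncomputable def kdim (k : ℕ) (P : Type) [PartialOrder P] : ℕ :=
  sInf {t | 1 ≤ t ∧ Nonempty (P ↪o (Fin t → Fin k))}

/-- `P` is `k`-irreducible: deleting any element lowers the `k`-dimension. -/
def KIrreducible (k : ℕ) (P : Type) [PartialOrder P] : Prop :=
  ∀ x : P, kdim k {y : P // y ≠ x} < kdim k P

/-- Finite posets. -/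
structure FinPoset : Type 1 where
  /-- The underlying set. -/
  carrier : Type
  /-- The order. -/
  [order : PartialOrder carrier]
  /-- The underlying set is finite. -/
  [finite : Finite carrier]

attribute [instance] FinPoset.order FinPoset.finite

/-- Isomorphism of finite posets, as an equivalence relation. -/
def isoSetoid : Setoid FinPoset where
  r A B := Nonempty (A.carrier ≃o B.carrier)
  iseqv := ⟨fun _ => ⟨OrderIso.refl _⟩, fun ⟨e⟩ => ⟨e.symm⟩, fun ⟨e⟩ ⟨f⟩ => ⟨e.trans f⟩⟩

/-- `N k t` is the number of isomorphism classes of `k`-irreducible finite posets of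
`k`-dimension `t`. -/
noncomputable def N (k t : ℕ) : ℕ∞ :=
  Set.encard {c : Quotient isoSetoid | ∃ A : FinPoset, Quotient.mk isoSetoid A = c ∧
    KIrreducible k A.carrier ∧ kdim k A.carrier = t}

end Q158.KIrr
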