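import Pool.Agent.Q158.LDimDefs

/-! The Boolean lattice with 16 elements has local dimension at most 3. -/

namespace Q158.LDim

open Finset

/-- The four lists; a set `S ⊆ {0,1,2,3}` is coded by `∑ i ∈ S, 2 ^ i`. -/
def lists : Fin 4 → List ℕ :=
  ![[1, 5, 2, 3, 7, 8, 10, 9],
    [0, 4, 6, 8, 12, 14, 1, 9, 5, 11, 13, 15],
    [0, 9, 4, 12, 13, 2, 6, 10, 14, 3, 7, 11, 15],
    [0, 8, 2, 10, 1, 3, 11, 4, 5, 6, 7, 12, 14, 13, 15]]

/-- Code of a set. -/
def code (S : Finset (Fin 4)) : ℕ := ∑ i ∈ S, 2 ^ (i : ℕ)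

/-- Position in a list. -/
def pos (i : Fin 4) (S : Finset (Fin 4)) : ℕ := (lists i).idxOf (code S)

theorem pos_inj : ∀ i, ∀ S T : Finset (Fin 4), code S ∈ lists i → code T ∈ lists i →
    S ≠ T → pos i S < pos i T ∨ pos i T < pos i S := by decide +kernel

theorem pos_ext : ∀ i, ∀ S T : Finset (Fin 4), code S ∈ lists i → code T ∈ lists i →
    S ⊂ T → pos i S < pos i T := by decide +kernel

/-- The partial linear extensions. -/
def L (i : Fin 4) : PLE (Finset (Fin 4)) where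
  dom := {S | code S ∈ lists i}
  lt S T := pos i S < pos i T
  irrefl _ _ := lt_irrefl _
  trans _ _ _ _ _ _ := lt_trans
  total S hS T hT h := pos_inj i S T hS hT h
  ext S hS T hT h := pos_ext i S T hS hT h

theorem cover_lt : ∀ S T : Finset (Fin 4), S ⊂ T →
    ∃ i, code S ∈ lists i ∧ code T ∈ lists i ∧ pos i S < pos i T := by decide +kernel

theorem cover_inc : ∀ S T : Finset (Fin 4), ¬ S ⊆ T → ¬ T ⊆ S →
    ∃ i, code S ∈ lists i ∧ code T ∈ lists i ∧ pos i S < pos i T := by decide +kernel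

theorem mult_le : ∀ S : Finset (Fin 4), (univ.filter (fun i => code S ∈ lists i)).card ≤ 3 := by
  decide +kernel

theorem ldim_four : ldim (Finset (Fin 4)) ≤ 3 := by
  apply Nat.sInf_le
  refine ⟨Fin 4, L, ⟨cover_lt, cover_inc⟩, fun S => ?_⟩
  have h : {i : Fin 4 | S ∈ (L i).dom} =
      ((univ.filter (fun i => code S ∈ lists i) : Finset (Fin 4)) : Set (Fin 4)) := by
    ext i
    simp [L]
  rw [h, Set.encard_coe_eq_coe_finsetCard]
  exact_mod_cast mult_le S

theorem result_aux : ldim (Finset (Fin 4)) < 4 ∧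
    ¬ ∀ n : ℕ, 1 ≤ n → ldim (Finset (Fin n)) = n := by
  have h := ldim_four
  refine ⟨by omega, fun hn => ?_⟩
  have := hn 4 (by norm_num)
  omega

end Q158.LDim
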