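import Mathlib

/-! Local dimension. -/

namespace Q158.LDim

/-- A partial linear extension of `P`: a (strict) linear order `lt` on the subset `dom` that
extends the order of `P` on `dom`. -/
structure PLE (P : Type) [PartialOrder P] where
  dom : Set P
  lt : P → P → Prop
  irrefl : ∀ x ∈ dom, ¬ lt x x
  trans : ∀ x ∈ dom, ∀ y ∈ dom, ∀ z ∈ dom, lt x y → lt y z → lt x z
  total : ∀ x ∈ dom, ∀ y ∈ dom, x ≠ y → lt x y ∨ lt y x
  ext : ∀ x ∈ dom, ∀ y ∈ dom, x < y → lt x y

/-- A local realizer: every pair `x < y`, and every ordered incomparable pair `(x, y)`, is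
realized as `x` before `y` in some member. -/
def IsLocalRealizer {P : Type} [PartialOrder P] {ι : Type} (L : ι → PLE P) : Prop :=
  (∀ x y : P, x < y → ∃ i, x ∈ (L i).dom ∧ y ∈ (L i).dom ∧ (L i).lt x y) ∧
  ∀ x y : P, ¬ x ≤ y → ¬ y ≤ x → ∃ i, x ∈ (L i).dom ∧ y ∈ (L i).dom ∧ (L i).lt x y

/-- The local dimension: the least `k` such that some local realizer has every element in at
most `k` members. -/
noncomputable def ldim (P : Type) [PartialOrder P] : ℕ :=
  sInf {k : ℕ | ∃ (ι : Type) (L : ι → PLE P), IsLocalRealizer L ∧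
    ∀ x : P, {i : ι | x ∈ (L i).dom}.encard ≤ k}

end Q158.LDim
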