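import Pool.Agent.Q158.ModelCountDefs

namespace Q158.ModelCount

open Finset

/-! ### Models of a set of literals -/

/-- the models of a set of literals -/
def sat {n : ℕ} (A : Finset (Fin n × Bool)) : Finset (Fin n → Bool) :=
  univ.filter (fun a => ∀ l ∈ A, a l.1 = l.2)

theorem mem_sat {n : ℕ} {A : Finset (Fin n × Bool)} {a : Fin n → Bool} :
    a ∈ sat A ↔ ∀ l ∈ A, a l.1 = l.2 := by simp [sat]

theorem sat_anti {n : ℕ} {A B : Finset (Fin n × Bool)} (h : A ⊆ B) : sat B ⊆ sat A := by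
  intro a ha
  rw [mem_sat] at ha ⊢
  exact fun l hl => ha l (h hl)

theorem card_sat {n : ℕ} (A : Finset (Fin n × Bool)) (h : (sat A).Nonempty) :
    A.card ≤ n ∧ (sat A).card = 2 ^ (n - A.card) := by
  obtain ⟨a₀, h₀⟩ := h
  rw [mem_sat] at h₀
  have hA : A = (A.image Prod.fst).image (fun i => (i, a₀ i)) := by
    ext l
    simp only [Finset.mem_image]
    constructor
    · intro hl
      exact ⟨l.1, ⟨l, hl, rfl⟩, by rw [h₀ l hl]⟩
    · rintro ⟨i, ⟨l', hl', rfl⟩, rfl⟩
      rw [h₀ l' hl']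
      exact hl'
  have hcard : A.card = (A.image Prod.fst).card := by
    conv_lhs => rw [hA]
    apply Finset.card_image_of_injective
    intro i j hij
    exact (Prod.mk.inj hij).1
  set V := A.image Prod.fst with hV
  have h1 : sat A = Fintype.piFinset (fun i => if i ∈ V then {a₀ i} else univ) := by
    ext a
    rw [mem_sat, Fintype.mem_piFinset]
    constructor
    · intro ha i
      split_ifs with hi
      · rw [hV, Finset.mem_image] at hi
        obtain ⟨l, hl, rfl⟩ := hi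
        rw [Finset.mem_singleton, ha l hl, h₀ l hl]
      · exact Finset.mem_univ _
    · intro ha l hl
      have := ha l.1
      rw [if_pos (Finset.mem_image_of_mem _ hl), Finset.mem_singleton] at this
      rw [this, h₀ l hl]
  have h2 : (sat A).card = 2 ^ (n - V.card) := by
    rw [h1, Fintype.card_piFinset]
    have h3 : ∀ i, (if i ∈ V then ({a₀ i} : Finset Bool) else univ).card =
        if i ∈ V then 1 else 2 := by
      intro i
      split_ifs <;> simp
    rw [Finset.prod_congr rfl (fun i _ => h3 i), Finset.prod_ite, Finset.prod_const_one,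
      Finset.prod_const, one_mul]
    congr 1
    have h4 : univ.filter (fun i => i ∉ V) = Vᶜ := by
      ext i; simp
    rw [h4, Finset.card_compl, Fintype.card_fin]
  constructor
  · rw [hcard]
    have := Finset.card_le_univ V
    rwa [Fintype.card_fin] at this
  · rw [h2, hcard]

/-! ### A splitting lemma -/

theorem exists_exponent {ι : Type*} (s : Finset ι) (ε : ι → ℤ) (x : ι → ℕ) (m k A e r q : ℕ)
    (hs : s.card ≤ 2 ^ m) (hε : ∀ i ∈ s, |ε i| ≤ 1)
    (hsum : ∑ i ∈ s, ε i * 2 ^ x i = (k : ℤ)) (hk : k = 2 ^ A * q + r) (hr1 : 2 ^ e ≤ r)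
    (hr2 : r < 2 ^ (e + 1)) (hA : e + 2 ≤ A) :
    ∃ i ∈ s, ε i ≠ 0 ∧ x i < A ∧ e ≤ x i + m := by
  by_contra hcon
  push Not at hcon
  have h1 : (2 : ℤ) ^ A ∣ ∑ i ∈ s.filter (fun i => A ≤ x i), ε i * 2 ^ x i := by
    apply Finset.dvd_sum
    intro i hi
    rw [Finset.mem_filter] at hi
    exact Dvd.dvd.mul_left (pow_dvd_pow 2 hi.2) _
  have h2 : 2 * |∑ i ∈ s.filter (fun i => ¬ A ≤ x i), ε i * 2 ^ x i| ≤ (2 : ℤ) ^ e := by
    have h3 : ∀ i ∈ s.filter (fun i => ¬ A ≤ x i), 2 ^ m * 2 * |ε i * 2 ^ x i| ≤ (2 : ℤ) ^ e := by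
      intro i hi
      rw [Finset.mem_filter] at hi
      by_cases h0 : ε i = 0
      · rw [h0]; simp
      · have h4 := hcon i hi.1 h0 (by omega)
        rw [abs_mul, abs_of_nonneg (a := (2 : ℤ) ^ x i) (by positivity)]
        have h5 : 2 ^ m * 2 * (|ε i| * 2 ^ x i) ≤ (2 : ℤ) ^ m * 2 * (1 * 2 ^ x i) := by
          have := hε i hi.1
          gcongr
        have h6 : (2 : ℤ) ^ m * 2 * (1 * 2 ^ x i) = 2 ^ (x i + m + 1) := by
          rw [pow_add, pow_add]; ring
        have h7 : (2 : ℤ) ^ (x i + m + 1) ≤ 2 ^ e := pow_le_pow_right₀ (by norm_num) h4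
        linarith
    have h8 : (2 : ℤ) ^ m * 2 * |∑ i ∈ s.filter (fun i => ¬ A ≤ x i), ε i * 2 ^ x i| ≤
        2 ^ m * 2 ^ e := by
      calc (2 : ℤ) ^ m * 2 * |∑ i ∈ s.filter (fun i => ¬ A ≤ x i), ε i * 2 ^ x i|
          ≤ 2 ^ m * 2 * ∑ i ∈ s.filter (fun i => ¬ A ≤ x i), |ε i * 2 ^ x i| := by
            gcongr
            exact Finset.abs_sum_le_sum_abs _ _
        _ = ∑ i ∈ s.filter (fun i => ¬ A ≤ x i), 2 ^ m * 2 * |ε i * 2 ^ x i| := by
            rw [Finset.mul_sum]
        _ ≤ ∑ i ∈ s.filter (fun i => ¬ A ≤ x i), (2 : ℤ) ^ e := Finset.sum_le_sum h3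
        _ = (s.filter (fun i => ¬ A ≤ x i)).card * 2 ^ e := by
            rw [Finset.sum_const, nsmul_eq_mul]
        _ ≤ 2 ^ m * 2 ^ e := by
            have h9 : ((s.filter (fun i => ¬ A ≤ x i)).card : ℤ) ≤ 2 ^ m := by
              exact_mod_cast (Finset.card_filter_le _ _).trans hs
            gcongr
    rw [mul_assoc] at h8
    exact le_of_mul_le_mul_left h8 (by positivity)
  have h3 := Finset.sum_filter_add_sum_filter_not s (fun i => A ≤ x i) (fun i => ε i * 2 ^ x i)
  rw [hsum] at h3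
  obtain ⟨c, hc⟩ := h1
  set B := ∑ i ∈ s.filter (fun i => ¬ A ≤ x i), ε i * 2 ^ x i with hB
  rw [hc, hk] at h3
  push_cast at h3
  have h4 : (r : ℤ) - B = 2 ^ A * (c - q) := by linarith
  have h5 : (2 : ℤ) ^ (e + 2) ≤ 2 ^ A := pow_le_pow_right₀ (by norm_num) hA
  have h6 : (2 : ℤ) ^ e ≤ r := by exact_mod_cast hr1
  have h7 : (r : ℤ) < 2 ^ (e + 1) := by exact_mod_cast hr2
  have h8 : (0 : ℤ) < 2 ^ e := by positivity
  rw [pow_succ] at h7
  rw [pow_add] at h5
  have h9 := abs_le.1 (show |B| ≤ |B| from le_rfl)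
  have h10 : 0 < (2 : ℤ) ^ A * (c - q) := by
    rw [← h4]; linarith [h9.1, h9.2]
  have h11 : (2 : ℤ) ^ A * (c - q) < 2 ^ A := by
    rw [← h4]; linarith [h9.1, h9.2]
  have h12 : (0 : ℤ) < 2 ^ A := by positivity
  have h13 : 0 < c - (q : ℤ) := by
    by_contra hneg
    push Not at hneg
    nlinarith
  have h14 : c - (q : ℤ) < 1 := by
    by_contra hneg
    push Not at hneg
    nlinarith
  omega

/-! ### Inclusion-exclusion -/

theorem inf_sat {n m : ℕ} (T : Fin m → Finset (Fin n × Bool)) (t : Finset (Fin m)) :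
    t.inf (fun i => sat (T i)) = sat (t.biUnion T) := by
  ext a
  rw [Finset.mem_inf, mem_sat]
  constructor
  · intro h l hl
    rw [Finset.mem_biUnion] at hl
    obtain ⟨i, hi, hl⟩ := hl
    exact mem_sat.1 (h i hi) l hl
  · intro h i hi
    rw [mem_sat]
    intro l hl
    exact h l (Finset.mem_biUnion.2 ⟨i, hi, hl⟩)

/-- number of assignments which satisfy no `T i` -/
theorem card_none {n m : ℕ} (T : Fin m → Finset (Fin n × Bool)) :
    ((univ.filter (fun a : Fin n → Bool => ∀ i, a ∉ sat (T i))).card : ℤ) =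
      ∑ t : Finset (Fin m), (-1) ^ t.card * ((sat (t.biUnion T)).card : ℤ) := by
  have h := Finset.inclusion_exclusion_card_inf_compl (univ : Finset (Fin m))
    (fun i => sat (T i))
  have h1 : (univ : Finset (Fin m)).inf (fun i => (sat (T i))ᶜ) =
      univ.filter (fun a : Fin n → Bool => ∀ i, a ∉ sat (T i)) := by
    ext a
    simp [Finset.mem_inf]
  rw [h1] at h
  rw [h, Finset.powerset_univ]
  apply Finset.sum_congr rfl
  intro t _
  rw [inf_sat]

end Q158.ModelCount
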