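import Pool.Agent.Q158.ModelCount

namespace Q158.ModelCount

open Finset

/-! ### The expansion of the count -/

/-- coefficient for a DNF -/
noncomputable def epsD {n m : ℕ} (T : Fin m → Finset (Fin n × Bool)) (t : Finset (Fin m)) : ℤ := by
  classical exact
  if t.Nonempty ∧ (sat (t.biUnion T)).Nonempty then -(-1) ^ t.card else 0

/-- coefficient for a CNF -/
noncomputable def epsC {n m : ℕ} (T : Fin m → Finset (Fin n × Bool)) (t : Finset (Fin m)) : ℤ := by
  classical exact
  if (sat (t.biUnion T)).Nonempty then (-1) ^ t.card else 0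

/-- exponent -/
def expo {n m : ℕ} (T : Fin m → Finset (Fin n × Bool)) (t : Finset (Fin m)) : ℕ :=
  n - (t.biUnion T).card

theorem epsC_sum {n m : ℕ} (T : Fin m → Finset (Fin n × Bool)) :
    ∑ t : Finset (Fin m), epsC T t * 2 ^ expo T t =
      ((univ.filter (fun a : Fin n → Bool => ∀ i, a ∉ sat (T i))).card : ℤ) := by
  rw [card_none]
  apply Finset.sum_congr rfl
  intro t _
  unfold epsC expo
  by_cases h : (sat (t.biUnion T)).Nonempty
  · rw [if_pos h, (card_sat _ h).2]
    push_cast; rfl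
  · rw [if_neg h, Finset.not_nonempty_iff_eq_empty.1 h]
    simp

theorem epsD_sum {n m : ℕ} (T : Fin m → Finset (Fin n × Bool)) :
    ∑ t : Finset (Fin m), epsD T t * 2 ^ expo T t =
      ((univ.filter (fun a : Fin n → Bool => ∃ i, a ∈ sat (T i))).card : ℤ) := by
  have h1 : (univ.filter (fun a : Fin n → Bool => ∃ i, a ∈ sat (T i))).card +
      (univ.filter (fun a : Fin n → Bool => ∀ i, a ∉ sat (T i))).card = 2 ^ n := by
    have h2 := Finset.card_filter_add_card_filter_not (s := (univ : Finset (Fin n → Bool)))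
      (fun a => ∃ i, a ∈ sat (T i))
    simp only [not_exists] at h2
    rw [h2]
    simp
  have h2 : ((univ.filter (fun a : Fin n → Bool => ∃ i, a ∈ sat (T i))).card : ℤ) =
      2 ^ n - ((univ.filter (fun a : Fin n → Bool => ∀ i, a ∉ sat (T i))).card : ℤ) := by
    have : (((univ.filter (fun a : Fin n → Bool => ∃ i, a ∈ sat (T i))).card +
      (univ.filter (fun a : Fin n → Bool => ∀ i, a ∉ sat (T i))).card : ℕ) : ℤ) = 2 ^ n := by
      rw [h1]; push_cast; rfl
    push_cast at this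
    linarith
  rw [h2, ← epsC_sum, ← Finset.add_sum_erase _ _ (Finset.mem_univ (∅ : Finset (Fin m))),
    ← Finset.add_sum_erase _ (fun t => epsC T t * 2 ^ expo T t)
      (Finset.mem_univ (∅ : Finset (Fin m)))]
  have h3 : epsC T ∅ * 2 ^ expo T ∅ = (2 : ℤ) ^ n := by
    have h4 : (sat ((∅ : Finset (Fin m)).biUnion T)).Nonempty :=
      ⟨fun _ => true, by rw [mem_sat]; simp⟩
    unfold epsC expo
    rw [if_pos h4]
    simp
  have h4 : epsD T ∅ = 0 := by
    unfold epsD
    rw [if_neg]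
    rintro ⟨h, -⟩
    exact Finset.not_nonempty_empty h
  rw [h3, h4, zero_mul, zero_add, sub_add_cancel_left, ← Finset.sum_neg_distrib]
  apply Finset.sum_congr rfl
  intro t ht
  have hne : t.Nonempty := Finset.nonempty_iff_ne_empty.2 (Finset.ne_of_mem_erase ht)
  unfold epsD epsC
  by_cases h : (sat (t.biUnion T)).Nonempty
  · rw [if_pos ⟨hne, h⟩, if_pos h]; ring
  · rw [if_neg (fun h' => h h'.2), if_neg h]; ring

theorem abs_epsC {n m : ℕ} (T : Fin m → Finset (Fin n × Bool)) (t : Finset (Fin m)) :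
    |epsC T t| ≤ 1 := by
  unfold epsC
  split_ifs
  · rw [abs_neg_one_pow]
  · simp

theorem abs_epsD {n m : ℕ} (T : Fin m → Finset (Fin n × Bool)) (t : Finset (Fin m)) :
    |epsD T t| ≤ 1 := by
  unfold epsD
  split_ifs
  · rw [abs_neg, abs_neg_one_pow]
  · simp

/-! ### Sparse numbers -/

theorem tail_lt (e : ℕ → ℕ) (b : ℕ) (he : ∀ t, t + 1 < b → e (t + 1) + 2 ≤ e t) :
    ∀ j t, t + j + 1 = b → ∑ i ∈ Finset.Ico t b, 2 ^ e i < 2 ^ (e t + 1) := by
  intro j
  induction j with
  | zero =>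
    intro t ht
    have : b = t + 1 := by omega
    subst this
    rw [Nat.Ico_succ_singleton, Finset.sum_singleton]
    exact Nat.pow_lt_pow_right (by norm_num) (Nat.lt_succ_self _)
  | succ j ih =>
    intro t ht
    rw [Finset.sum_eq_sum_Ico_succ_bot (by omega)]
    have h1 := ih (t + 1) (by omega)
    have h2 := he t (by omega)
    have h3 : 2 ^ (e (t + 1) + 1) ≤ 2 ^ e t := Nat.pow_le_pow_right (by norm_num) (by omega)
    rw [pow_succ]
    omega

theorem e_anti (e : ℕ → ℕ) (b : ℕ) (he : ∀ t, t + 1 < b → e (t + 1) + 2 ≤ e t) (i j : ℕ)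
    (hij : i ≤ j) (hj : j < b) : e j ≤ e i := by
  induction j with
  | zero => have : i = 0 := by omega
            rw [this]
  | succ j ih =>
    rcases Nat.lt_or_ge i (j + 1) with h | h
    · have h1 := he j hj
      have h2 := ih (by omega) (by omega)
      omega
    · have : i = j + 1 := by omega
      rw [this]

theorem split_sum (e : ℕ → ℕ) (b : ℕ) (he : ∀ t, t + 1 < b → e (t + 1) + 2 ≤ e t) (t : ℕ)
    (ht : t + 1 < b) : ∃ q r, ∑ i ∈ range b, 2 ^ e i = 2 ^ e t * q + r ∧ 2 ^ e (t + 1) ≤ r ∧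
      r < 2 ^ (e (t + 1) + 1) := by
  have h1 : 2 ^ e t ∣ ∑ i ∈ range (t + 1), 2 ^ e i := by
    apply Finset.dvd_sum
    intro i hi
    rw [Finset.mem_range] at hi
    exact pow_dvd_pow 2 (e_anti e b he i t (by omega) (by omega))
  obtain ⟨q, hq⟩ := h1
  refine ⟨q, ∑ i ∈ Finset.Ico (t + 1) b, 2 ^ e i, ?_, ?_, ?_⟩
  · rw [← hq, ← Finset.sum_range_add_sum_Ico _ (by omega : t + 1 ≤ b)]
  · exact Finset.single_le_sum (f := fun i => 2 ^ e i) (fun _ _ => Nat.zero_le _)
      (Finset.mem_Ico.2 ⟨le_rfl, ht⟩)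
  · exact tail_lt e b he (b - (t + 1) - 1) (t + 1) (by omega)

theorem top_bounds (e : ℕ → ℕ) (b : ℕ) (hb : 1 ≤ b)
    (he : ∀ t, t + 1 < b → e (t + 1) + 2 ≤ e t) :
    2 ^ e 0 ≤ ∑ i ∈ range b, 2 ^ e i ∧ ∑ i ∈ range b, 2 ^ e i < 2 ^ (e 0 + 1) := by
  constructor
  · exact Finset.single_le_sum (f := fun i => 2 ^ e i) (fun _ _ => Nat.zero_le _)
      (Finset.mem_range.2 hb)
  · have := tail_lt e b he (b - 1) 0 (by omega)
    rwa [← Finset.range_eq_Ico] at this

/-! ### DNFs -/

/-- Among finitely many natural numbers with a large sum one is large. -/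
theorem exists_large {m : ℕ} (t : Finset (Fin m)) (ht : t.Nonempty) (f : Fin m → ℕ) (h : ℕ)
    (hs : h ≤ ∑ j ∈ t, f j) : ∃ j ∈ t, h ≤ m * f j := by
  by_contra hcon
  push Not at hcon
  have h1 : ∑ j ∈ t, m * f j < ∑ j ∈ t, h := Finset.sum_lt_sum_of_nonempty ht hcon
  rw [← Finset.mul_sum, Finset.sum_const, smul_eq_mul] at h1
  have h2 : t.card ≤ m := by
    have := Finset.card_le_univ t
    rwa [Fintype.card_fin] at this
  have h3 : t.card * h ≤ m * h := Nat.mul_le_mul_right _ h2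
  have h4 : m * h ≤ m * ∑ j ∈ t, f j := Nat.mul_le_mul_left _ hs
  omega

theorem dnf_scale {n m b : ℕ} (T : Fin m → Finset (Fin n × Bool)) (e : ℕ → ℕ) (hb : 1 ≤ b)
    (he : ∀ t, t + 1 < b → e (t + 1) + 2 ≤ e t)
    (hk : (univ.filter (fun a : Fin n → Bool => ∃ i, a ∈ sat (T i))).card =
      ∑ i ∈ range b, 2 ^ e i) (t : ℕ) (ht : t + 1 < b) :
    ∃ i j, e 0 < e t + m * ((T i ∪ T j).card + e 0 - n) ∧
      ((T i ∪ T j).card + e 0 - n) + e (t + 1) ≤ e 0 + 2 * m := by
  obtain ⟨q, r, h1, h2, h3⟩ := split_sum e b he t ht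
  obtain ⟨S, -, hS1, hS2, hS3⟩ := exists_exponent (univ : Finset (Finset (Fin m))) (epsD T)
    (expo T) m _ (e t) (e (t + 1)) r q (by simp) (fun i _ => abs_epsD T i)
    (by rw [epsD_sum, hk]) h1 h2 h3 (he t ht)
  have hS : S.Nonempty ∧ (sat (S.biUnion T)).Nonempty := by
    by_contra hcon
    apply hS1
    unfold epsD
    rw [if_neg hcon]
  obtain ⟨hne, hsat⟩ := hS
  obtain ⟨hU1, hU2⟩ := card_sat _ hsat
  have hTi : ∀ i ∈ S, n ≤ (T i).card + e 0 ∧ (T i).card ≤ n := by
    intro i hi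
    have hsub : T i ⊆ S.biUnion T := Finset.subset_biUnion_of_mem T hi
    have hne2 : (sat (T i)).Nonempty := hsat.mono (sat_anti hsub)
    obtain ⟨h4, h5⟩ := card_sat _ hne2
    have h6 : (sat (T i)).card ≤ (univ.filter (fun a : Fin n → Bool => ∃ i, a ∈ sat (T i))).card := by
      apply Finset.card_le_card
      intro a ha
      rw [Finset.mem_filter]
      exact ⟨Finset.mem_univ _, i, ha⟩
    rw [hk, h5] at h6
    have h7 := lt_of_le_of_lt h6 (top_bounds e b hb he).2
    have h8 := (Nat.pow_lt_pow_iff_right (by norm_num : 1 < 2)).1 h7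
    omega
  have hx : expo T S = n - (S.biUnion T).card := rfl
  have hmono : ∀ i ∈ S, ∀ j ∈ S, (T i ∪ T j).card ≤ (S.biUnion T).card := by
    intro i hi j hj
    apply Finset.card_le_card
    exact Finset.union_subset (Finset.subset_biUnion_of_mem T hi)
      (Finset.subset_biUnion_of_mem T hj)
  obtain ⟨i₀, hi₀⟩ := hne
  have hne' : S.Nonempty := ⟨i₀, hi₀⟩
  -- the union is controlled by the pairs with `i₀`
  have hsum : (S.biUnion T).card + e 0 - n ≤ ∑ j ∈ S, ((T i₀ ∪ T j).card + e 0 - n) := by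
    have h4 : S.biUnion T ⊆ T i₀ ∪ (S.erase i₀).biUnion (fun j => T j \ T i₀) := by
      intro l hl
      rw [Finset.mem_biUnion] at hl
      obtain ⟨j, hj, hl⟩ := hl
      by_cases h5 : l ∈ T i₀
      · exact Finset.mem_union_left _ h5
      · apply Finset.mem_union_right
        rw [Finset.mem_biUnion]
        refine ⟨j, Finset.mem_erase.2 ⟨?_, hj⟩, Finset.mem_sdiff.2 ⟨hl, h5⟩⟩
        rintro rfl
        exact h5 hl
    have h5 := (Finset.card_le_card h4).trans (Finset.card_union_le _ _)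
    have h6 : ((S.erase i₀).biUnion (fun j => T j \ T i₀)).card ≤
        ∑ j ∈ S.erase i₀, (T j \ T i₀).card := Finset.card_biUnion_le
    have h7 : ∑ j ∈ S.erase i₀, (T j \ T i₀).card ≤
        ∑ j ∈ S.erase i₀, ((T i₀ ∪ T j).card + e 0 - n) := by
      apply Finset.sum_le_sum
      intro j _
      have h8 : (T i₀ ∪ T j).card = (T i₀).card + (T j \ T i₀).card := by
        rw [← Finset.card_union_of_disjoint Finset.disjoint_sdiff, Finset.union_sdiff_self_eq_union]
      have := hTi i₀ hi₀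
      omega
    rw [← Finset.add_sum_erase _ _ hi₀, Finset.union_self]
    have := hTi i₀ hi₀
    omega
  obtain ⟨j, hj, hj2⟩ := exists_large S hne' _ _ hsum
  refine ⟨i₀, j, ?_, ?_⟩
  · have h4 := hTi i₀ hi₀
    have h5 := hmono i₀ hi₀ i₀ hi₀
    rw [Finset.union_self] at h5
    omega
  · have h4 := hTi i₀ hi₀
    have h5 := hmono i₀ hi₀ j hj
    have h6 : (T i₀).card ≤ (T i₀ ∪ T j).card := Finset.card_le_card Finset.subset_union_left
    omega

/-! ### CNFs -/

theorem cnf_scale {n m b : ℕ} (T : Fin m → Finset (Fin n × Bool)) (e : ℕ → ℕ) (hb : 1 ≤ b)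
    (he : ∀ t, t + 1 < b → e (t + 1) + 2 ≤ e t)
    (hk : (univ.filter (fun a : Fin n → Bool => ∀ i, a ∉ sat (T i))).card =
      ∑ i ∈ range b, 2 ^ e i) (t : ℕ) (ht : t + 1 < b) :
    ∃ i, e 0 < e t + m * (T i).card ∧ (T i).card + e (t + 1) ≤ e 0 + 2 * m := by
  obtain ⟨q, r, h1, h2, h3⟩ := split_sum e b he t ht
  obtain ⟨S, -, hS1, hS2, hS3⟩ := exists_exponent (univ : Finset (Finset (Fin m))) (epsC T)
    (expo T) m _ (e t) (e (t + 1)) r q (by simp) (fun i _ => abs_epsC T i)
    (by rw [epsC_sum, hk]) h1 h2 h3 (he t ht)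
  have hsat : (sat (S.biUnion T)).Nonempty := by
    by_contra hcon
    apply hS1
    unfold epsC
    rw [if_neg hcon]
  obtain ⟨hU1, hU2⟩ := card_sat _ hsat
  obtain ⟨hb1, hb2⟩ := top_bounds e b hb he
  have hx : expo T S = n - (S.biUnion T).card := rfl
  -- `e 0 ≤ n`
  have hn1 : e 0 ≤ n := by
    have h4 : (univ.filter (fun a : Fin n → Bool => ∀ i, a ∉ sat (T i))).card ≤ 2 ^ n := by
      refine (Finset.card_le_univ _).trans ?_
      simp
    rw [hk] at h4
    exact (Nat.pow_le_pow_iff_right (by norm_num : 1 < 2)).1 (hb1.trans h4)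
  -- `n ≤ e 0 + m`
  have hn2 : n ≤ e 0 + m := by
    have hpos : 0 < (univ.filter (fun a : Fin n → Bool => ∀ i, a ∉ sat (T i))).card := by
      rw [hk]
      exact lt_of_lt_of_le (by positivity) hb1
    obtain ⟨a, ha⟩ := Finset.card_pos.1 hpos
    rw [Finset.mem_filter] at ha
    have ha2 : ∀ i, ∃ l ∈ T i, a l.1 ≠ l.2 := by
      intro i
      have := ha.2 i
      rw [mem_sat] at this
      push Not at this
      exact this
    choose l hl1 hl2 using ha2
    set L : Finset (Fin n × Bool) := univ.image (fun i => ((l i).1, a (l i).1)) with hL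
    have hLc : L.card ≤ m := by
      refine Finset.card_image_le.trans ?_
      simp
    have hLs : (sat L).Nonempty := by
      refine ⟨a, ?_⟩
      rw [mem_sat]
      intro x hx
      rw [hL, Finset.mem_image] at hx
      obtain ⟨i, -, rfl⟩ := hx
      rfl
    obtain ⟨h5, h6⟩ := card_sat L hLs
    have h7 : (sat L).card ≤
        (univ.filter (fun a : Fin n → Bool => ∀ i, a ∉ sat (T i))).card := by
      apply Finset.card_le_card
      intro a' ha'
      rw [Finset.mem_filter]
      refine ⟨Finset.mem_univ _, fun i hi => ?_⟩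
      rw [mem_sat] at ha' hi
      have h8 := ha' ((l i).1, a (l i).1) (by
        rw [hL, Finset.mem_image]; exact ⟨i, Finset.mem_univ _, rfl⟩)
      have h9 := hi (l i) (hl1 i)
      exact hl2 i (by rw [← h9]; exact h8.symm)
    rw [h6, hk] at h7
    have h8 := (Nat.pow_lt_pow_iff_right (by norm_num : 1 < 2)).1 (lt_of_le_of_lt h7 hb2)
    omega
  have het : e t ≤ e 0 := e_anti e b he 0 t (by omega) (by omega)
  have hne : S.Nonempty := by
    by_contra hcon
    rw [Finset.not_nonempty_iff_eq_empty] at hcon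
    have h0 : (S.biUnion T).card = 0 := by rw [hcon]; simp
    omega
  obtain ⟨i, hi, hi2⟩ := exists_large S hne (fun i => (T i).card) _ Finset.card_biUnion_le
  have h4 : (T i).card ≤ (S.biUnion T).card :=
    Finset.card_le_card (Finset.subset_biUnion_of_mem T hi)
  refine ⟨i, ?_, ?_⟩
  · have hi3 : (S.biUnion T).card ≤ m * (T i).card := hi2
    omega
  · omega

end Q158.ModelCount
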