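import Pool.Agent.Q158.ModelCountB

namespace Q158.ModelCount

open Finset

/-- exponents -/
def ee (b c t : ℕ) : ℕ := (2 * b + 2) ^ b + c - (2 * b + 2) ^ t

/-- the sparse number with `b` ones -/
def kk (b c : ℕ) : ℕ := ∑ t ∈ range b, 2 ^ ee b c t

theorem ee_spec (b c t : ℕ) (ht : t < b) :
    ee b c t + (2 * b + 2) ^ t = (2 * b + 2) ^ b + c := by
  unfold ee
  have : (2 * b + 2) ^ t ≤ (2 * b + 2) ^ b := Nat.pow_le_pow_right (by omega) ht.le
  omega

theorem ee_gap (b c t : ℕ) (ht : t + 1 < b) : ee b c (t + 1) + 2 ≤ ee b c t := by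
  have h1 := ee_spec b c t (by omega)
  have h2 := ee_spec b c (t + 1) ht
  have h3 : (2 * b + 2) ^ t + 2 ≤ (2 * b + 2) ^ (t + 1) := by
    rw [pow_succ]
    have : 1 ≤ (2 * b + 2) ^ t := Nat.one_le_pow _ _ (by omega)
    nlinarith
  omega

/-- The count. -/
theorem half_le_sq (m b c : ℕ) (hb : 1 ≤ b) (g : Fin m × Fin m → ℕ)
    (hg : ∀ t, t + 1 < b → ∃ π, ee b c 0 < ee b c t + m * g π ∧
      g π + ee b c (t + 1) ≤ ee b c 0 + 2 * m) : b / 2 ≤ m ^ 2 := by
  by_contra hcon
  push Not at hcon
  have hm : m < b := by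
    have : m ≤ m ^ 2 := Nat.le_self_pow (by norm_num) m
    omega
  have hm2 : m * m < b / 2 := by rwa [← sq]
  have hg' : ∀ r : Fin (b / 2), ∃ π, ee b c 0 < ee b c (2 * r.val) + m * g π ∧
      g π + ee b c (2 * r.val + 1) ≤ ee b c 0 + 2 * m := by
    intro r
    have := r.isLt
    exact hg (2 * r.val) (by omega)
  choose π hπ1 hπ2 using hg'
  have key : ∀ r r' : Fin (b / 2), r < r' → π r ≠ π r' := by
    intro r r' hlt heq
    have h1 := hπ2 r
    have h2 := hπ1 r'
    rw [heq] at h1
    have hr := r.isLt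
    have hr' := r'.isLt
    have hlt' : r.val < r'.val := hlt
    have e0 := ee_spec b c 0 (by omega)
    have e1 := ee_spec b c (2 * r.val + 1) (by omega)
    have e2 := ee_spec b c (2 * r'.val) (by omega)
    rw [pow_zero] at e0
    set G := g (π r') with hG
    have h3 : (2 * b + 2) ^ (2 * r.val + 2) ≤ (2 * b + 2) ^ (2 * r'.val) :=
      Nat.pow_le_pow_right (by omega) (by omega)
    rw [pow_succ _ (2 * r.val + 1)] at h3
    set P := (2 * b + 2) ^ (2 * r.val + 1) with hP
    set P' := (2 * b + 2) ^ (2 * r'.val) with hP'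
    have hP1 : 1 ≤ P := Nat.one_le_pow _ _ (by omega)
    have h4 : P' < 1 + m * G := by omega
    have h5 : G + 1 ≤ P + 2 * m := by omega
    have h6 : m * (G + 1) ≤ m * (P + 2 * m) := Nat.mul_le_mul_left _ h5
    have h7 : m * P ≤ b * P := Nat.mul_le_mul_right _ hm.le
    have h8 : m * (P + 2 * m) = m * P + 2 * (m * m) := by ring
    have h9 : m * (G + 1) = m * G + m := by ring
    have h10 : P * (2 * b + 2) = 2 * (b * P) + 2 * P := by ring
    have h11 : b * 1 ≤ b * P := Nat.mul_le_mul_left _ hP1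
    omega
  have hinj : Function.Injective π := by
    intro r r' h
    rcases lt_trichotomy r r' with h1 | h1 | h1
    · exact absurd h (key r r' h1)
    · exact h1
    · exact absurd h.symm (key r' r h1)
  have h1 := Fintype.card_le_of_injective π hinj
  rw [Fintype.card_fin, Fintype.card_prod, Fintype.card_fin] at h1
  omega

theorem hasFormula_bound (m b c : ℕ) (hb : 1 ≤ b) (h : HasFormula m (kk b c)) :
    b / 2 ≤ m ^ 2 := by
  classical
  obtain ⟨n, T, h | h⟩ := h
  · have h1 : (univ.filter (fun a : Fin n → Bool => ∃ i, a ∈ sat (T i))).card =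
        ∑ i ∈ range b, 2 ^ ee b c i := by
      rw [← show kk b c = ∑ i ∈ range b, 2 ^ ee b c i from rfl, ← h, Nat.card_eq_fintype_card,
        Fintype.card_subtype]
      congr 1
      apply Finset.filter_congr
      intro a _
      simp only [mem_sat]
      rfl
    apply half_le_sq m b c hb (fun π => (T π.1 ∪ T π.2).card + ee b c 0 - n)
    intro t ht
    obtain ⟨i, j, h2, h3⟩ := dnf_scale T (ee b c) hb (fun t ht => ee_gap b c t ht) h1 t ht
    exact ⟨(i, j), h2, h3⟩
  · set T' : Fin m → Finset (Fin n × Bool) := fun i => (T i).image (fun l => (l.1, !l.2)) with hT'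
    have h1 : (univ.filter (fun a : Fin n → Bool => ∀ i, a ∉ sat (T' i))).card =
        ∑ i ∈ range b, 2 ^ ee b c i := by
      rw [← show kk b c = ∑ i ∈ range b, 2 ^ ee b c i from rfl, ← h, Nat.card_eq_fintype_card,
        Fintype.card_subtype]
      congr 1
      apply Finset.filter_congr
      intro a _
      unfold SatCNF SatLit
      apply forall_congr'
      intro i
      rw [mem_sat]
      push Not
      constructor
      · rintro ⟨l, hl, hl2⟩
        rw [hT', Finset.mem_image] at hl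
        obtain ⟨l', hl', rfl⟩ := hl
        refine ⟨l', hl', ?_⟩
        have hl3 : a l'.1 ≠ !l'.2 := hl2
        revert hl3
        cases a l'.1 <;> cases l'.2 <;> simp
      · rintro ⟨l, hl, hl2⟩
        refine ⟨(l.1, !l.2), ?_, ?_⟩
        · rw [hT', Finset.mem_image]; exact ⟨l, hl, rfl⟩
        · show a l.1 ≠ !l.2
          rw [hl2]
          cases l.2 <;> simp
    apply half_le_sq m b c hb (fun π => (T' π.1).card)
    intro t ht
    obtain ⟨i, h2, h3⟩ := cnf_scale T' (ee b c) hb (fun t ht => ee_gap b c t ht) h1 t ht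
    exact ⟨(i, i), h2, h3⟩

/-- Every number is the number of models of a DNF. -/
theorem hasFormula_self (k : ℕ) : HasFormula k k := by
  classical
  have h1 : Fintype.card (Fin k) ≤ Fintype.card (Fin k → Bool) := by
    simp only [Fintype.card_fin, Fintype.card_fun, Fintype.card_bool]
    exact Nat.lt_two_pow_self.le
  obtain ⟨f⟩ := Function.Embedding.nonempty_of_card_le h1
  refine ⟨k, fun i => univ.image (fun j => (j, f i j)), Or.inl ?_⟩
  have h2 : ∀ a : Fin k → Bool, SatDNF (fun i => univ.image (fun j => (j, f i j))) a ↔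
      a ∈ Set.range f := by
    intro a
    constructor
    · rintro ⟨i, hi⟩
      refine ⟨i, ?_⟩
      funext j
      have := hi (j, f i j) (Finset.mem_image.2 ⟨j, Finset.mem_univ _, rfl⟩)
      exact this.symm
    · rintro ⟨i, rfl⟩
      refine ⟨i, ?_⟩
      intro l hl
      rw [Finset.mem_image] at hl
      obtain ⟨j, -, rfl⟩ := hl
      rfl
  have h3 : Nat.card {a : Fin k → Bool // SatDNF (fun i => univ.image (fun j => (j, f i j))) a} =
      Nat.card (Set.range f) := Nat.card_congr (Equiv.subtypeEquivRight h2)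
  rw [h3, Nat.card_range_of_injective f.injective]
  simp

theorem beta_spec (k : ℕ) (hk : 1 ≤ k) : 1 ≤ beta k ∧ HasFormula (beta k) k :=
  Nat.sInf_mem (s := {m | 1 ≤ m ∧ HasFormula m k}) ⟨k, hk, hasFormula_self k⟩

theorem kk_pos (b c : ℕ) (hb : 1 ≤ b) : 1 ≤ kk b c := by
  have h1 : 2 ^ ee b c 0 ≤ kk b c := by
    unfold kk
    exact Finset.single_le_sum (f := fun i => 2 ^ ee b c i) (fun _ _ => Nat.zero_le _)
      (Finset.mem_range.2 hb)
  have : 1 ≤ 2 ^ ee b c 0 := Nat.one_le_two_pow
  omega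

theorem beta_bound (b c : ℕ) (hb : 1 ≤ b) : b / 2 ≤ beta (kk b c) ^ 2 :=
  hasFormula_bound _ b c hb (beta_spec _ (kk_pos b c hb)).2

theorem ee_strict (b c : ℕ) (s t : ℕ) (hst : s < t) (ht : t < b) : ee b c t + 2 ≤ ee b c s := by
  have h1 := ee_gap b c s (by omega)
  have h2 := e_anti (ee b c) b (fun t ht => ee_gap b c t ht) (s + 1) t (by omega) ht
  omega

theorem kk_eq (b c : ℕ) : kk b c = ∑ i ∈ (range b).image (ee b c), 2 ^ i := by
  unfold kk
  rw [Finset.sum_image]
  intro s hs t ht h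
  rw [Finset.mem_coe, Finset.mem_range] at hs ht
  rcases lt_trichotomy s t with h1 | h1 | h1
  · have := ee_strict b c s t h1 ht; omega
  · exact h1
  · have := ee_strict b c t s h1 hs; omega

theorem testBit_kk (b c i : ℕ) : (kk b c).testBit i = true ↔ ∃ t, t < b ∧ ee b c t = i := by
  rw [← Nat.mem_bitIndices, ← List.mem_toFinset, kk_eq, Finset.toFinset_bitIndices_sum_two_pow,
    Finset.mem_image]
  simp

theorem bl_kk (b c : ℕ) : bl (kk b c) = b := by
  unfold bl
  have h1 : (range (kk b c + 1)).filter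
      (fun i => (kk b c).testBit i = true ∧ (kk b c).testBit (i + 1) = false) =
      (range b).image (ee b c) := by
    ext i
    rw [Finset.mem_filter, Finset.mem_range, Finset.mem_image]
    constructor
    · rintro ⟨-, h2, -⟩
      rw [testBit_kk] at h2
      obtain ⟨t, ht, rfl⟩ := h2
      exact ⟨t, Finset.mem_range.2 ht, rfl⟩
    · rintro ⟨t, ht, rfl⟩
      rw [Finset.mem_range] at ht
      have h2 : 2 ^ ee b c t ≤ kk b c := by
        unfold kk
        exact Finset.single_le_sum (f := fun i => 2 ^ ee b c i) (fun _ _ => Nat.zero_le _)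
          (Finset.mem_range.2 ht)
      have h3 : ee b c t < 2 ^ ee b c t := Nat.lt_two_pow_self
      refine ⟨by omega, (testBit_kk b c _).2 ⟨t, ht, rfl⟩, ?_⟩
      rw [← Bool.not_eq_true, testBit_kk]
      rintro ⟨s, hs, hs2⟩
      rcases lt_trichotomy s t with h4 | h4 | h4
      · have := ee_strict b c s t h4 ht; omega
      · subst h4; omega
      · have := ee_strict b c t s h4 hs; omega
  rw [h1, Finset.card_image_of_injOn, Finset.card_range]
  intro s hs t ht h
  rw [Finset.mem_coe, Finset.mem_range] at hs ht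
  rcases lt_trichotomy s t with h1 | h1 | h1
  · have := ee_strict b c s t h1 ht; omega
  · exact h1
  · have := ee_strict b c t s h1 hs; omega

theorem kk_ge (b c : ℕ) (hb : 1 ≤ b) : c ≤ kk b c := by
  have h1 : 2 ^ ee b c 0 ≤ kk b c := by
    unfold kk
    exact Finset.single_le_sum (f := fun i => 2 ^ ee b c i) (fun _ _ => Nat.zero_le _)
      (Finset.mem_range.2 hb)
  have h2 := ee_spec b c 0 hb
  have h3 : 1 ≤ (2 * b + 2) ^ b := Nat.one_le_pow _ _ (by omega)
  have h4 : ee b c 0 < 2 ^ ee b c 0 := Nat.lt_two_pow_self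
  rw [pow_zero] at h2
  omega

open Asymptotics Filter in
theorem poly_log_isLittleO (g : Polynomial ℝ) :
    (fun x : ℝ => g.eval (Real.logb 2 x)) =o[atTop] (fun x : ℝ => x) := by
  induction g using Polynomial.induction_on' with
  | add p q hp hq =>
    simp only [Polynomial.eval_add]
    exact hp.add hq
  | monomial n a =>
    have h1 : (fun x : ℝ => (Polynomial.monomial n a).eval (Real.logb 2 x)) =
        fun x : ℝ => (a / Real.log 2 ^ n) * Real.log x ^ n := by
      funext x
      rw [Polynomial.eval_monomial, Real.logb, div_pow]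
      ring
    rw [h1]
    exact (Real.isLittleO_pow_log_id_atTop (n := n)).const_mul_left _

open Asymptotics Filter in
theorem not_poly : ¬ ∃ (C : ℝ) (f : Polynomial ℝ), ∀ k : ℕ, 1 ≤ k →
    (beta k : ℝ) ≤ C * f.eval (Real.logb 2 (bl k)) := by
  rintro ⟨C, f, h⟩
  have h1 := poly_log_isLittleO ((Polynomial.C C * f) ^ 2)
  have h2 := h1.bound (show (0 : ℝ) < 1 / 8 by norm_num)
  have h3 := (tendsto_natCast_atTop_atTop (R := ℝ)).eventually h2
  obtain ⟨b, hb1, hb2⟩ := (h3.and (eventually_ge_atTop 2)).exists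
  have h4 := h (kk b 0) (kk_pos b 0 (by omega))
  rw [bl_kk] at h4
  have h5 := beta_bound b 0 (by omega)
  have h6 : ((b / 2 : ℕ) : ℝ) ≤ (beta (kk b 0) : ℝ) ^ 2 := by exact_mod_cast h5
  have h7 : (b : ℝ) ≤ 2 * ((b / 2 : ℕ) : ℝ) + 1 := by
    have : b ≤ 2 * (b / 2) + 1 := by omega
    exact_mod_cast this
  have h8 : (beta (kk b 0) : ℝ) ^ 2 ≤ (C * f.eval (Real.logb 2 b)) ^ 2 :=
    pow_le_pow_left₀ (Nat.cast_nonneg _) h4 2
  have h9 : (C * f.eval (Real.logb 2 b)) ^ 2 ≤ 1 / 8 * b := by
    have h10 : ((Polynomial.C C * f) ^ 2).eval (Real.logb 2 (b : ℝ)) =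
        (C * f.eval (Real.logb 2 b)) ^ 2 := by simp
    rw [h10, Real.norm_of_nonneg (sq_nonneg _), Real.norm_of_nonneg (Nat.cast_nonneg _)] at hb1
    exact hb1
  have h11 : (2 : ℝ) ≤ b := by exact_mod_cast hb2
  linarith

end Q158.ModelCount
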