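import Mathlib

/-! DNFs and CNFs with a prescribed number of models, and the number of blocks of ones. -/

namespace Q158.ModelCount

/-- The assignment `a` satisfies the literal `(i, b)` (the variable `x_i` if `b` is true, its
negation otherwise). -/
def SatLit {n : ℕ} (a : Fin n → Bool) (l : Fin n × Bool) : Prop := a l.1 = l.2

/-- The assignment satisfies the disjunction of the terms `T 0, …, T (m-1)`, each of them the
conjunction of a finite set of literals. -/
def SatDNF {n m : ℕ} (T : Fin m → Finset (Fin n × Bool)) (a : Fin n → Bool) : Prop :=
  ∃ i, ∀ l ∈ T i, SatLit a l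

/-- The assignment satisfies the conjunction of the clauses `T 0, …, T (m-1)`, each of them the
disjunction of a finite set of literals. -/
def SatCNF {n m : ℕ} (T : Fin m → Finset (Fin n × Bool)) (a : Fin n → Bool) : Prop :=
  ∀ i, ∃ l ∈ T i, SatLit a l

/-- Some DNF with `m` terms, or some CNF with `m` clauses, over some number of variables, has
exactly `k` satisfying assignments. -/
def HasFormula (m k : ℕ) : Prop :=
  ∃ (n : ℕ) (T : Fin m → Finset (Fin n × Bool)),
    Nat.card {a : Fin n → Bool // SatDNF T a} = k ∨ Nat.card {a : Fin n → Bool // SatCNF T a} = k

/-- The least number of terms or clauses of a formula with exactly `k` satisfying assignments. -/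
noncomputable def beta (k : ℕ) : ℕ := sInf {m | 1 ≤ m ∧ HasFormula m k}

/-- The number of maximal runs of ones in the binary expansion of `k`. -/
def bl (k : ℕ) : ℕ :=
  ((Finset.range (k + 1)).filter (fun i => k.testBit i = true ∧ k.testBit (i + 1) = false)).card

end Q158.ModelCount
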