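import Mathlib

set_option autoImplicit false

namespace Q158.Queens

open Real

/-- halving inequality for the exponent 3/4 -/
theorem pow_add_le {a b N : ℝ} (ha : 0 ≤ a) (hb : 0 ≤ b) (hN : 29 ≤ N)
    (h : 4 * (a + b) ≤ 3 * N + 5) : a ^ (3/4 : ℝ) + b ^ (3/4 : ℝ) ≤ N ^ (3/4 : ℝ) := by
  have hc := (Real.concaveOn_rpow (p := 3/4) (by norm_num) (by norm_num)).2
    (show a ∈ Set.Ici (0:ℝ) from ha) (show b ∈ Set.Ici (0:ℝ) from hb)
    (show (0:ℝ) ≤ 1/2 by norm_num) (show (0:ℝ) ≤ 1/2 by norm_num) (by norm_num)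
  simp only [smul_eq_mul] at hc
  have h1 : (1/2 : ℝ) * a + 1/2 * b ≤ (0.3966 : ℝ) * N := by
    nlinarith
  have h2 : ((1/2 : ℝ) * a + 1/2 * b) ^ (3/4 : ℝ) ≤ ((0.3966 : ℝ) * N) ^ (3/4 : ℝ) :=
    Real.rpow_le_rpow (by positivity) h1 (by norm_num)
  rw [Real.mul_rpow (by norm_num) (by linarith)] at h2
  have h3 : (0.3966 : ℝ) ^ (3/4 : ℝ) ≤ 1/2 := by
    have h4 : (0.3966 : ℝ) ^ (3/4 : ℝ) = ((0.3966 : ℝ) ^ (3 : ℕ)) ^ (1/4 : ℝ) := by
      rw [← Real.rpow_natCast, ← Real.rpow_mul (by norm_num)]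
      norm_num
    have h5 : (1/2 : ℝ) = ((1/16 : ℝ)) ^ (1/4 : ℝ) := by
      have : (1/16 : ℝ) = (1/2 : ℝ) ^ (4 : ℕ) := by norm_num
      rw [this, ← Real.rpow_natCast, ← Real.rpow_mul (by norm_num)]
      norm_num
    rw [h4, h5]
    apply Real.rpow_le_rpow (by norm_num) (by norm_num) (by norm_num)
  have h6 : 0 ≤ N ^ (3/4 : ℝ) := by positivity
  nlinarith

/-- The recursion forces a power saving. -/
theorem power_bound (r : ℕ → ℕ) (hr : ∀ N, r N ≤ N) (n₀ : ℕ) (hn₀ : 29 ≤ n₀)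
    (h : ∀ N, n₀ ≤ N → ∃ a b : ℕ, 4 * (a + b) ≤ 3 * N + 5 ∧ r N ≤ r a + r b) (N : ℕ) :
    (r N : ℝ) ≤ n₀ * (N : ℝ) ^ (3/4 : ℝ) := by
  induction N using Nat.strong_induction_on with
  | _ N ih =>
    rcases lt_or_ge N n₀ with hN | hN
    · rcases Nat.eq_zero_or_pos N with h0 | hpos
      · subst h0
        have := hr 0
        have h1 : r 0 = 0 := by omega
        rw [h1]
        simp
      · have h1 : (r N : ℝ) ≤ N := by exact_mod_cast hr N
        have h2 : (1 : ℝ) ≤ (N : ℝ) ^ (3/4 : ℝ) :=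
          Real.one_le_rpow (by exact_mod_cast hpos) (by norm_num)
        have h3 : (N : ℝ) ≤ n₀ := by exact_mod_cast hN.le
        nlinarith
    · obtain ⟨a, b, hab, hrab⟩ := h N hN
      have ha := ih a (by omega)
      have hb := ih b (by omega)
      have h1 : (r N : ℝ) ≤ r a + r b := by exact_mod_cast hrab
      have h2 := pow_add_le (a := a) (b := b) (N := N) (by positivity) (by positivity)
        (by exact_mod_cast le_trans hn₀ hN) (by exact_mod_cast hab)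
      have h3 : (0 : ℝ) ≤ n₀ := by positivity
      nlinarith

/-- Behrend's bound contradicts a power saving. -/
theorem no_power_bound (C : ℝ) (hC : 1 ≤ C)
    (h : ∀ N : ℕ, (rothNumberNat N : ℝ) ≤ C * (N : ℝ) ^ (3/4 : ℝ)) : False := by
  have hl2 : 0 < Real.log 2 := Real.log_pos (by norm_num)
  obtain ⟨K, hK⟩ := exists_nat_ge ((20 + Real.log C) ^ 2 / Real.log 2)
  have hlogC : 0 ≤ Real.log C := Real.log_nonneg hC
  set x : ℝ := K * Real.log 2 with hx
  have hx1 : (20 + Real.log C) ^ 2 ≤ x := by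
    rw [div_le_iff₀ hl2] at hK
    exact hK
  have hxpos : 0 ≤ x := le_trans (by positivity) hx1
  have hsx : 20 + Real.log C ≤ √x := by
    apply Real.le_sqrt_of_sq_le hx1
  have hB := Behrend.roth_lower_bound (N := 2 ^ K)
  have hN := h (2 ^ K)
  have hcast : (((2 : ℕ) ^ K : ℕ) : ℝ) = Real.exp x := by
    push_cast
    rw [hx, mul_comm, Real.exp_mul, Real.exp_log (by norm_num), Real.rpow_natCast]
  rw [hcast] at hB hN
  rw [Real.log_exp] at hB
  have h1 : Real.exp x * Real.exp (-4 * √x) ≤ C * Real.exp x ^ (3/4 : ℝ) := hB.trans hN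
  have h2 : C = Real.exp (Real.log C) := (Real.exp_log (by linarith)).symm
  rw [h2, ← Real.exp_mul, ← Real.exp_add, ← Real.exp_add, Real.exp_le_exp] at h1
  have h3 : √x * √x = x := Real.mul_self_sqrt hxpos
  nlinarith

end Q158.Queens
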