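import Pool.Agent.Q158.RankIntDefs

/-! The disjoint union of a two-element and a three-element chain. -/

namespace Q158.RankInt

/-- `1 < 2` and `0 < 3 < 4`. -/
def le5 (x y : Fin 5) : Prop :=
  x = y ∨ (x = 1 ∧ y = 2) ∨ (x = 0 ∧ y = 3) ∨ (x = 0 ∧ y = 4) ∨ (x = 3 ∧ y = 4)

instance : DecidableRel le5 := fun x y => by unfold le5; infer_instance

theorem isOrder5 : IsOrder le5 := by
  refine ⟨?_, ?_, ?_⟩ <;> decide

/-- First linear extension, by positions. -/
def p1 : Fin 5 → ℕ := ![2, 0, 1, 3, 4]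

/-- Second linear extension, by positions. -/
def p2 : Fin 5 → ℕ := ![0, 3, 4, 1, 2]

theorem interval_of_pos (p : Fin 5 → ℕ) (hp : Function.Injective p) :
    IsIntervalOrder (fun x y => p x ≤ p y) := by
  refine ⟨⟨fun x => le_refl _, fun x y h1 h2 => hp (le_antisymm h1 h2),
    fun x y z h1 h2 => le_trans h1 h2⟩, ?_⟩
  rintro ⟨a, b, c, d, ⟨h1, -⟩, ⟨h2, -⟩, h3, h4⟩
  simp only at h1 h2 h3 h4
  omega

theorem realizer5 : IsRealizer le5 (![fun x y => p1 x ≤ p1 y, fun x y => p2 x ≤ p2 y] :
    Fin 2 → Fin 5 → Fin 5 → Prop) := by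
  constructor
  · intro j
    fin_cases j
    · exact interval_of_pos p1 (by decide)
    · exact interval_of_pos p2 (by decide)
  · intro x y
    rw [Fin.forall_fin_two]
    show le5 x y ↔ p1 x ≤ p1 y ∧ p2 x ≤ p2 y
    revert x y
    decide

theorem idim5 : idim le5 = 2 := by
  unfold idim
  have hmem : 2 ∈ {k | ∃ L : Fin k → Fin 5 → Fin 5 → Prop, IsRealizer le5 L} := ⟨_, realizer5⟩
  apply le_antisymm
  · exact Nat.sInf_le hmem
  · apply le_csInf ⟨2, hmem⟩
    rintro k ⟨L, h1, h2⟩
    by_contra hk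
    have hk' : k = 0 ∨ k = 1 := by omega
    rcases hk' with rfl | rfl
    · have : le5 0 1 := (h2 0 1).2 (fun j => j.elim0)
      revert this
      decide
    · have h3 : ∀ x y, le5 x y ↔ L 0 x y := by
        intro x y
        rw [h2 x y]
        constructor
        · intro h; exact h 0
        · intro h j
          have : j = 0 := Subsingleton.elim _ _
          rw [this]; exact h
      apply (h1 0).2
      refine ⟨1, 0, 2, 3, ⟨(h3 1 2).1 (by decide), by decide⟩, ⟨(h3 0 3).1 (by decide), by decide⟩,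
        fun h => ?_, fun h => ?_⟩
      · have := (h3 0 2).2 h
        revert this
        decide
      · have := (h3 1 3).2 h
        revert this
        decide

theorem rank_two : rank le5 2 = 1 := by
  unfold rank
  have hbd : ∀ n ∈ {n | ∃ s : Fin (n + 1) → Fin 5,
      (∀ i j, i < j → le5 (s i) (s j) ∧ s i ≠ s j) ∧ s (Fin.last n) = 2}, n ≤ 1 := by
    rintro n ⟨s, h1, h2⟩
    by_contra hn
    push Not at hn
    have a1 := h1 ⟨n - 2, by omega⟩ ⟨n - 1, by omega⟩ (by
      show n - 2 < n - 1
      omega)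
    have a2 := h1 ⟨n - 1, by omega⟩ (Fin.last n) (by
      show n - 1 < n
      omega)
    rw [h2] at a2
    have : ∀ x y : Fin 5, le5 x y ∧ x ≠ y → le5 y 2 ∧ y ≠ 2 → False := by decide
    exact this _ _ a1 a2
  apply le_antisymm
  · exact csSup_le' hbd
  · apply le_csSup ⟨1, hbd⟩
    refine ⟨![1, 2], ?_, rfl⟩
    decide

theorem two_le_rank (le : Fin 5 → Fin 5 → Prop) (h : IsOrder le) (h1 : le 0 3) (h2 : le 3 2) :
    2 ≤ rank le 2 := by
  unfold rank
  apply le_csSup
  · refine ⟨5, ?_⟩
    rintro n ⟨s, hs, -⟩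
    have hinj : Function.Injective s := by
      intro i j hij
      by_contra hne
      rcases lt_or_gt_of_ne hne with hlt | hlt
      · exact (hs i j hlt).2 hij
      · exact (hs j i hlt).2 hij.symm
    have := Fintype.card_le_of_injective s hinj
    simp only [Fintype.card_fin] at this
    omega
  · refine ⟨![0, 3, 2], ?_, rfl⟩
    intro i j hij
    fin_cases i <;> fin_cases j
    · exact absurd hij (by decide)
    · exact ⟨h1, by decide⟩
    · exact ⟨h.2.2 _ _ _ h1 h2, by decide⟩
    · exact absurd hij (by decide)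
    · exact absurd hij (by decide)
    · exact ⟨h2, by decide⟩
    · exact absurd hij (by decide)
    · exact absurd hij (by decide)
    · exact absurd hij (by decide)

theorem no_rank_preserving {k : ℕ} (L : Fin k → Fin 5 → Fin 5 → Prop) (hL : IsRealizer le5 L) :
    ¬ ∀ j p, rank (L j) p = rank le5 p := by
  intro hr
  have h14 : le5 1 4 := by
    rw [hL.2]
    intro j
    have hext : ∀ x y, le5 x y → L j x y := fun x y h => (hL.2 x y).1 h j
    obtain ⟨hord, hno⟩ := hL.1 j
    by_contra hc
    apply hno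
    refine ⟨1, 3, 2, 4, ⟨hext 1 2 (by decide), by decide⟩, ⟨hext 3 4 (by decide), by decide⟩,
      fun h32 => ?_, hc⟩
    have h2 := two_le_rank (L j) hord (hext 0 3 (by decide)) h32
    rw [hr j 2, rank_two] at h2
    omega
  revert h14
  decide

theorem result_aux : ∃ (P : Type) (_ : Finite P) (le : P → P → Prop), IsOrder le ∧
    idim le = 2 ∧ ∀ (k : ℕ) (L : Fin k → P → P → Prop), IsRealizer le L →
      ¬ ∀ j p, rank (L j) p = rank le p :=
  ⟨Fin 5, inferInstance, le5, isOrder5, idim5, fun _ L hL => no_rank_preserving L hL⟩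

end Q158.RankInt
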