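import Mathlib

/-! Interval dimension and rank-preserving interval realizers. -/

namespace Q158.RankInt

/-- `le` is a partial order. -/
def IsOrder {P : Type} (le : P → P → Prop) : Prop :=
  (∀ x, le x x) ∧ (∀ x y, le x y → le y x → x = y) ∧ ∀ x y z, le x y → le y z → le x z

/-- `le` is an interval order: there are no `a, b, c, d` with `a < c`, `b < d`, `b ≰ c` and
`a ≰ d`. -/
def IsIntervalOrder {P : Type} (le : P → P → Prop) : Prop :=
  IsOrder le ∧ ¬ ∃ a b c d, (le a c ∧ a ≠ c) ∧ (le b d ∧ b ≠ d) ∧ ¬ le b c ∧ ¬ le a d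

/-- `L` is an interval realizer of `le` by `k` interval orders. -/
def IsRealizer {P : Type} (le : P → P → Prop) {k : ℕ} (L : Fin k → P → P → Prop) : Prop :=
  (∀ j, IsIntervalOrder (L j)) ∧ ∀ x y, le x y ↔ ∀ j, L j x y

/-- The interval dimension. -/
noncomputable def idim {P : Type} (le : P → P → Prop) : ℕ :=
  sInf {k | ∃ L : Fin k → P → P → Prop, IsRealizer le L}

/-- The rank of `p`: the largest `n` such that there is a chain `s 0 < s 1 < ⋯ < s n = p`. -/
noncomputable def rank {P : Type} (le : P → P → Prop) (p : P) : ℕ :=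
  sSup {n | ∃ s : Fin (n + 1) → P, (∀ i j, i < j → le (s i) (s j) ∧ s i ≠ s j) ∧
    s (Fin.last n) = p}

end Q158.RankInt
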