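import Mathlib
import Pool.Agent.Results.MP_a3a416_nt.BalancedRegularSums

/-!
# The number of regular indices up to `K`, for every prime

`i` is a regular index of the prime `p` if `p` does not divide the numerator of `B_{2i}`.
-/

set_option autoImplicit false

namespace Pool.Agent.Q158.RegCount

open Finset

/-- the regular indices `i` of `p`, `a ≤ i ≤ b` -/
noncomputable def Reg (p a b : ℕ) : Finset ℕ :=
  (Finset.Icc a b).filter (fun i : ℕ => ¬ ((p : ℤ) ∣ (bernoulli (2 * i)).num))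

lemma mem_Reg {p a b i : ℕ} :
    i ∈ Reg p a b ↔ (a ≤ i ∧ i ≤ b) ∧ ¬ ((p : ℤ) ∣ (bernoulli (2 * i)).num) := by
  simp [Reg]

/-- the representations of `N` as a sum of two regular indices -/
noncomputable def rep (p N : ℕ) : Finset ℕ :=
  (Finset.Ioo 0 N).filter (fun i : ℕ => ¬ ((p : ℤ) ∣ (bernoulli (2 * i)).num) ∧
      ¬ ((p : ℤ) ∣ (bernoulli (2 * (N - i))).num))

lemma mem_rep {p N i : ℕ} : i ∈ rep p N ↔ (0 < i ∧ i < N) ∧
    ¬ ((p : ℤ) ∣ (bernoulli (2 * i)).num) ∧ ¬ ((p : ℤ) ∣ (bernoulli (2 * (N - i))).num) := by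
  simp [rep]

lemma rep_ge {p : ℕ} (hp : p.Prime) {N : ℕ} (hN2 : 2 ≤ N) (hN : 2 * N + 3 ≤ p) :
    N ≤ 6 * (rep p N).card ^ 2 := by
  have h := Pool.Agent.Results.MP_a3a416_nt.BalancedRegularSums.result p hp N hN2 hN 0 (by omega)
    (rep p N).card (by rw [rep]; simp)
  simp only [Nat.sub_zero, Nat.mul_zero, Nat.zero_add] at h
  set r := (rep p N).card with hr
  rcases Nat.eq_zero_or_pos r with h0 | h0
  · rw [h0] at h; omega
  · nlinarith [h, h0]

lemma rep_ge_sqrt {p : ℕ} (hp : p.Prime) {N : ℕ} (hN2 : 2 ≤ N) (hN : 2 * N + 3 ≤ p) :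
    √((N : ℝ) / 6) ≤ ((rep p N).card : ℝ) := by
  rw [Real.sqrt_le_left (by positivity)]
  have h := rep_ge hp hN2 hN
  have h' : (N : ℝ) ≤ 6 * ((rep p N).card : ℝ) ^ 2 := by exact_mod_cast h
  linarith

/-- double counting: the representations of the `N ∈ T` inject into a set of pairs -/
lemma sum_rep_le (p : ℕ) (T : Finset ℕ) (U : Finset (ℕ × ℕ))
    (h : ∀ N ∈ T, ∀ i ∈ rep p N, (i, N - i) ∈ U) :
    ∑ N ∈ T, (rep p N).card ≤ U.card := by
  rw [← card_sigma]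
  refine card_le_card_of_injOn (fun x => (x.2, x.1 - x.2)) ?_ ?_
  · rintro ⟨N, i⟩ hx
    rw [mem_coe, mem_sigma] at hx
    exact h N hx.1 i hx.2
  · rintro ⟨N, i⟩ hx ⟨M, j⟩ hy hxy
    rw [mem_coe, mem_sigma] at hx hy
    have h1 := (mem_rep.1 hx.2).1
    have h2 := (mem_rep.1 hy.2).1
    simp only [Prod.mk.injEq] at hxy
    simp only at h1 h2
    obtain ⟨rfl, h3⟩ := hxy
    have : N = M := by omega
    subst this
    rfl

lemma sum_sqrt (K : ℕ) (hK : 1 ≤ K) :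
    2 / 3 * ((K : ℝ) * √K - 1) ≤ ∑ N ∈ Icc 2 K, √(N : ℝ) := by
  induction K, hK using Nat.le_induction with
  | base => simp
  | succ n hn ih =>
    rw [sum_Icc_succ_top (by omega)]
    have h1 : 2 / 3 * (((n + 1 : ℕ) : ℝ) * √((n + 1 : ℕ) : ℝ) - 1) ≤
        2 / 3 * ((n : ℝ) * √n - 1) + √((n + 1 : ℕ) : ℝ) := by
      push_cast
      set a := √(n : ℝ) with ha
      set b := √((n : ℝ) + 1) with hb
      have ha2 : a ^ 2 = n := Real.sq_sqrt (by positivity)
      have hb2 : b ^ 2 = n + 1 := Real.sq_sqrt (by positivity)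
      have ha0 : 0 ≤ a := Real.sqrt_nonneg _
      have hb0 : 0 ≤ b := Real.sqrt_nonneg _
      have hab : a ≤ b := Real.sqrt_le_sqrt (by linarith)
      rw [← hb2, ← ha2]
      have h2 : b ^ 2 - a ^ 2 = 1 := by rw [ha2, hb2]; ring
      have h3 : (b - a) * (b + a) = 1 := by nlinarith
      -- 2/3 (b^3 - a^3) ≤ b
      have h4 : 2 * (b ^ 3 - a ^ 3) ≤ 3 * b * (b ^ 2 - a ^ 2) := by
        have : 3 * b * (b ^ 2 - a ^ 2) - 2 * (b ^ 3 - a ^ 3) = (b - a) ^ 2 * (b + 2 * a) := by ring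
        have h5 : 0 ≤ (b - a) ^ 2 * (b + 2 * a) := by positivity
        linarith
      rw [h2] at h4
      nlinarith
    linarith

/-- the counting function -/
theorem main_count (p : ℕ) (hp : p.Prime) (K : ℕ) (hK1 : 1 ≤ K) (hK : 2 * K + 3 ≤ p) :
    K ^ 3 ≤ 16 * (Reg p 1 K).card ^ 4 := by
  set s := (Reg p 1 K).card with hs
  have hsum : ∑ N ∈ Icc 2 K, (rep p N).card ≤ s ^ 2 := by
    have := sum_rep_le p (Icc 2 K) (Reg p 1 K ×ˢ Reg p 1 K) ?_
    · rwa [card_product, ← sq] at this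
    · intro N hN i hi
      rw [mem_Icc] at hN
      rw [mem_rep] at hi
      rw [mem_product, mem_Reg, mem_Reg]
      exact ⟨⟨⟨by omega, by omega⟩, hi.2.1⟩, ⟨⟨by omega, by omega⟩, hi.2.2⟩⟩
  rcases le_or_gt K 5 with h5 | h5
  · -- small cases
    have h1 : ∑ N ∈ Icc 2 K, 1 ≤ s ^ 2 := by
      refine le_trans (sum_le_sum fun N hN => ?_) hsum
      rw [mem_Icc] at hN
      have := rep_ge hp hN.1 (by omega)
      by_contra h0
      push Not at h0
      have h0' : (rep p N).card = 0 := by omega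
      rw [h0'] at this
      omega
    simp only [sum_const, Nat.card_Icc, smul_eq_mul, mul_one] at h1
    have h2 : 1 ≤ s := by
      rw [hs, Nat.one_le_iff_ne_zero, ← Nat.pos_iff_ne_zero, card_pos]
      refine ⟨1, ?_⟩
      rw [mem_Reg]
      refine ⟨⟨le_refl _, hK1⟩, ?_⟩
      rw [Nat.mul_one, bernoulli_two]
      have : (6⁻¹ : ℚ).num = 1 := by norm_num
      rw [this]
      intro h
      have := Int.le_of_dvd one_pos h
      omega
    have h3 : K ≤ s ^ 2 + 1 := by omega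
    rcases Nat.lt_or_ge s 2 with h4 | h4
    · have : s = 1 := by omega
      rw [this] at h3 ⊢
      have : K ≤ 2 := by omega
      interval_cases K <;> norm_num
    · calc K ^ 3 ≤ 5 ^ 3 := Nat.pow_le_pow_left h5 3
        _ ≤ 16 * 2 ^ 4 := by norm_num
        _ ≤ 16 * s ^ 4 := Nat.mul_le_mul_left _ (Nat.pow_le_pow_left h4 4)
  · have hr : ∑ N ∈ Icc 2 K, √((N : ℝ) / 6) ≤ (s : ℝ) ^ 2 := by
      have : ((∑ N ∈ Icc 2 K, (rep p N).card : ℕ) : ℝ) ≤ (s : ℝ) ^ 2 := by exact_mod_cast hsum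
      refine le_trans ?_ this
      push_cast
      refine sum_le_sum fun N hN => ?_
      rw [mem_Icc] at hN
      exact rep_ge_sqrt hp hN.1 (by omega)
    have h6 : ∑ N ∈ Icc 2 K, √((N : ℝ) / 6) = (∑ N ∈ Icc 2 K, √(N : ℝ)) / √6 := by
      rw [sum_div]
      refine sum_congr rfl fun N _ => ?_
      rw [Real.sqrt_div (by positivity)]
    have h7 := sum_sqrt K hK1
    have h6pos : (0 : ℝ) < √6 := by positivity
    have h8 : 2 / 3 * ((K : ℝ) * √K - 1) ≤ (s : ℝ) ^ 2 * √6 := by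
      rw [h6, div_le_iff₀ h6pos] at hr
      linarith
    set x := √(K : ℝ) with hx
    have hx2 : x ^ 2 = K := Real.sq_sqrt (by positivity)
    have hx0 : 0 ≤ x := Real.sqrt_nonneg _
    have hx6 : (6 : ℝ) ≤ x ^ 2 := by rw [hx2]; exact_mod_cast h5
    set y := √(6 : ℝ) with hy
    have hy2 : y ^ 2 = 6 := Real.sq_sqrt (by positivity)
    have hxy : y ≤ x := by
      rw [hy, hx]; exact Real.sqrt_le_sqrt (by exact_mod_cast h5)
    have hy1 : y < 2.4495 := by
      rw [hy, Real.sqrt_lt' (by norm_num)]; norm_num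
    have hyl : (2.449 : ℝ) < y := by
      rw [hy, Real.lt_sqrt (by norm_num)]; norm_num
    -- K √K / 4 ≤ s ^ 2
    have h9 : x ^ 3 / 4 ≤ (s : ℝ) ^ 2 := by
      rw [← hx2] at h8
      have h10 : 2 / 3 * (x ^ 3 - 1) ≤ (s : ℝ) ^ 2 * 2.4495 := by
        have : (s : ℝ) ^ 2 * y ≤ (s : ℝ) ^ 2 * 2.4495 :=
          mul_le_mul_of_nonneg_left hy1.le (by positivity)
        nlinarith
      have h11 : (14.69 : ℝ) ≤ x ^ 3 := by
        have : (2.449 : ℝ) ≤ x := by linarith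
        nlinarith
      nlinarith
    have h12 : (x ^ 3 / 4) ^ 2 ≤ ((s : ℝ) ^ 2) ^ 2 := by
      apply pow_le_pow_left₀ (by positivity) h9
    have h13 : ((K : ℝ)) ^ 3 ≤ 16 * (s : ℝ) ^ 4 := by
      rw [← hx2]; nlinarith
    exact_mod_cast h13

lemma sum_half (p : ℕ) (hp : p.Prime) (K : ℕ) (hK2 : 2 ≤ K) (hK : 2 * K + 3 ≤ p)
    (T : Finset ℕ) (hT : ∀ N ∈ T, K < 2 * N ∧ N ≤ K ∧ 2 ≤ N) :
    (T.card : ℝ) * √((K : ℝ) / 12) ≤ ∑ N ∈ T, ((rep p N).card : ℝ) := by
  rw [← nsmul_eq_mul]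
  refine card_nsmul_le_sum _ _ _ fun N hN => ?_
  have h := hT N hN
  refine le_trans (Real.sqrt_le_sqrt ?_) (rep_ge_sqrt hp h.2.2 (by omega))
  have : (K : ℝ) ≤ 2 * N := by exact_mod_cast h.1.le
  linarith

/-- the upper part -/
theorem main_upper (p : ℕ) (hp : p.Prime) (K : ℕ) (hK2 : 2 ≤ K) (hK : 2 * K + 3 ≤ p) :
    K ^ 3 ≤ 192 * ((Reg p 1 K).card * (Reg p (K / 4 + 1) K).card) ^ 2 := by
  set s := (Reg p 1 K).card with hs
  set s' := (Reg p (K / 4 + 1) K).card with hs'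
  set T := Icc (K / 2 + 1) K with hT
  have hsum : ∑ N ∈ T, (rep p N).card ≤ 2 * (s * s') := by
    have := sum_rep_le p T ((Reg p 1 K ×ˢ Reg p (K / 4 + 1) K) ∪
      (Reg p (K / 4 + 1) K ×ˢ Reg p 1 K)) ?_
    · refine le_trans this (le_trans (card_union_le _ _) ?_)
      rw [card_product, card_product, ← hs, ← hs']
      exact le_of_eq (by ring)
    · intro N hN i hi
      rw [hT, mem_Icc] at hN
      rw [mem_rep] at hi
      rw [mem_union, mem_product, mem_product, mem_Reg, mem_Reg, mem_Reg, mem_Reg]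
      rcases le_or_gt i (K / 4) with h | h
      · left
        exact ⟨⟨⟨by omega, by omega⟩, hi.2.1⟩, ⟨⟨by omega, by omega⟩, hi.2.2⟩⟩
      · right
        exact ⟨⟨⟨by omega, by omega⟩, hi.2.1⟩, ⟨⟨by omega, by omega⟩, hi.2.2⟩⟩
  have h1 := sum_half p hp K hK2 hK T (by
    intro N hN
    rw [hT, mem_Icc] at hN
    omega)
  have hc : (K : ℝ) / 2 ≤ (T.card : ℝ) := by
    rw [hT, Nat.card_Icc]
    have : K ≤ 2 * (K + 1 - (K / 2 + 1)) := by omega
    have : (K : ℝ) ≤ 2 * ((K + 1 - (K / 2 + 1) : ℕ) : ℝ) := by exact_mod_cast this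
    linarith
  have h2 : (∑ N ∈ T, ((rep p N).card : ℝ)) ≤ 2 * ((s : ℝ) * s') := by
    exact_mod_cast hsum
  have h3 : (K : ℝ) / 2 * √((K : ℝ) / 12) ≤ 2 * ((s : ℝ) * s') :=
    le_trans (mul_le_mul_of_nonneg_right hc (Real.sqrt_nonneg _)) (le_trans h1 h2)
  have h4 : ((K : ℝ) / 2 * √((K : ℝ) / 12)) ^ 2 ≤ (2 * ((s : ℝ) * s')) ^ 2 :=
    pow_le_pow_left₀ (by positivity) h3 2
  rw [mul_pow, Real.sq_sqrt (by positivity)] at h4
  have h5 : (K : ℝ) ^ 3 ≤ 192 * ((s : ℝ) * s') ^ 2 := by nlinarith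
  exact_mod_cast h5

/-- residue classes: the pairs of regular indices up to `K` whose sum lies in a given class -/
theorem main_class (p : ℕ) (hp : p.Prime) (K d : ℕ) (hd : 1 ≤ d) (hdK : 4 * d ≤ K)
    (hK : 2 * K + 3 ≤ p) (c : ℕ) :
    K ^ 3 ≤ 192 * (d * ((Reg p 1 K ×ˢ Reg p 1 K).filter
      (fun x => x.1 + x.2 ≡ c [MOD d])).card) ^ 2 := by
  set U := (Reg p 1 K ×ˢ Reg p 1 K).filter (fun x => x.1 + x.2 ≡ c [MOD d]) with hU
  set T := (Icc (K / 2 + 1) K).filter (fun i => i ≡ c [MOD d]) with hT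
  have hTm : ∀ N ∈ T, K < 2 * N ∧ N ≤ K ∧ 2 ≤ N ∧ N ≡ c [MOD d] := by
    intro N hN
    rw [hT, mem_filter, mem_Icc] at hN
    exact ⟨by omega, by omega, by omega, hN.2⟩
  have hsum : ∑ N ∈ T, (rep p N).card ≤ U.card := by
    refine sum_rep_le p T U ?_
    intro N hN i hi
    have hN' := hTm N hN
    rw [mem_rep] at hi
    rw [hU, mem_filter, mem_product, mem_Reg, mem_Reg]
    refine ⟨⟨⟨⟨by omega, by omega⟩, hi.2.1⟩, ⟨⟨by omega, by omega⟩, hi.2.2⟩⟩, ?_⟩
    have : i + (N - i) = N := by omega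
    simp only [this]
    exact hN'.2.2.2
  have h1 := sum_half p hp K (by omega) hK T (fun N hN => ⟨(hTm N hN).1, (hTm N hN).2.1,
    (hTm N hN).2.2.1⟩)
  have hc : K ≤ 4 * d * T.card := by
    -- the members of the class in `(K/2, K]`
    set e := (c + d * (K / 2 + 1) - (K / 2 + 1)) % d with he
    have hed : e < d := Nat.mod_lt _ hd
    have hcl : K / 2 + 1 + e ≡ c [MOD d] := by
      have h2 : K / 2 + 1 ≤ c + d * (K / 2 + 1) :=
        le_trans (Nat.le_mul_of_pos_left _ hd) (Nat.le_add_left _ _)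
      have h3 : (K / 2 + 1) + (c + d * (K / 2 + 1) - (K / 2 + 1)) = c + d * (K / 2 + 1) := by omega
      have h4 : e ≡ (c + d * (K / 2 + 1) - (K / 2 + 1)) [MOD d] := Nat.mod_modEq _ _
      have h5 := Nat.ModEq.add_left (K / 2 + 1) h4
      rw [h3] at h5
      refine h5.trans ?_
      have : c + d * (K / 2 + 1) ≡ c + 0 [MOD d] :=
        Nat.ModEq.add_left c ((Nat.modEq_zero_iff_dvd).2 (dvd_mul_right _ _))
      simpa using this
    have hinj : ((range ((K - (K / 2 + 1) - e) / d + 1)).image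
        (fun j => K / 2 + 1 + e + d * j)) ⊆ T := by
      intro N hN
      rw [mem_image] at hN
      obtain ⟨j, hj, rfl⟩ := hN
      rw [mem_range] at hj
      rw [hT, mem_filter, mem_Icc]
      have h6 : d * j ≤ K - (K / 2 + 1) - e := by
        have : j ≤ (K - (K / 2 + 1) - e) / d := by omega
        calc d * j ≤ d * ((K - (K / 2 + 1) - e) / d) := Nat.mul_le_mul_left _ this
          _ ≤ _ := Nat.mul_div_le _ _
      refine ⟨⟨by omega, by omega⟩, ?_⟩
      have : K / 2 + 1 + e + d * j ≡ K / 2 + 1 + e + 0 [MOD d] :=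
        Nat.ModEq.add_left _ ((Nat.modEq_zero_iff_dvd).2 (dvd_mul_right _ _))
      exact (by simp : K / 2 + 1 + e + d * j ≡ K / 2 + 1 + e [MOD d]).trans hcl
    have hcard := card_le_card hinj
    rw [card_image_of_injective _ (by
      intro a b hab
      simp only at hab
      have : d * a = d * b := by omega
      exact Nat.eq_of_mul_eq_mul_left hd this), card_range] at hcard
    have h7 : K - (K / 2 + 1) - e < d * ((K - (K / 2 + 1) - e) / d + 1) := Nat.lt_mul_div_succ _ hd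
    have h8 : d * ((K - (K / 2 + 1) - e) / d + 1) ≤ d * T.card := Nat.mul_le_mul_left _ hcard
    have h9 : K - (K / 2 + 1) - e < d * T.card := lt_of_lt_of_le h7 h8
    have h10 : 4 * d * T.card = 4 * (d * T.card) := by ring
    rw [h10]
    omega
  have hd0 : (0 : ℝ) < d := by exact_mod_cast hd
  have hc' : (K : ℝ) ≤ 4 * d * (T.card : ℝ) := by exact_mod_cast hc
  have h2 : (∑ N ∈ T, ((rep p N).card : ℝ)) ≤ U.card := by
    exact_mod_cast hsum
  have h3 : (K : ℝ) * √((K : ℝ) / 12) ≤ 4 * (d * U.card) := by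
    calc (K : ℝ) * √((K : ℝ) / 12) ≤ 4 * d * (T.card : ℝ) * √((K : ℝ) / 12) :=
          mul_le_mul_of_nonneg_right hc' (Real.sqrt_nonneg _)
      _ = 4 * d * ((T.card : ℝ) * √((K : ℝ) / 12)) := by ring
      _ ≤ 4 * d * U.card := mul_le_mul_of_nonneg_left (le_trans h1 h2) (by positivity)
      _ = 4 * (d * U.card) := by ring
  have h4 : ((K : ℝ) * √((K : ℝ) / 12)) ^ 2 ≤ (4 * ((d : ℝ) * U.card)) ^ 2 :=
    pow_le_pow_left₀ (by positivity) h3 2
  rw [mul_pow, Real.sq_sqrt (by positivity)] at h4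
  have h5 : (K : ℝ) ^ 3 ≤ 192 * ((d : ℝ) * U.card) ^ 2 := by nlinarith
  exact_mod_cast h5

end Pool.Agent.Q158.RegCount
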