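import Pool.Agent.Q16.SQ.Stm5
import Pool.Agent.Q76.SQ_ENUM

/-! Project SQ (MP_a03157_co), job ENUM0. -/

set_option autoImplicit false

namespace Q158.SQE0

open Q16.SQ Q76.SQE

theorem t_ENUM0 : S_ENUM0 := by
  intro κ hrow
  refine ⟨?_, ?_, ?_, ?_⟩
  · intro h
    rcases gen 1 1 1 (by decide) (by decide) (by decide) false
      [![![1, 0, 0], ![0, 1, 0], ![0, 0, 1]]] (by decide) (by decide) κ hrow h with
      ⟨hf, _⟩ | ⟨T, hT, π, hπ⟩
    · exact absurd hf (by decide)
    · rw [List.mem_singleton] at hT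
      exact ⟨π, hπ.trans hT⟩
  · intro h
    rcases gen 2 2 0 (by decide) (by decide) (by decide) true
      [![![1, 0, 0], ![0, 1, 0], ![1, 1, 0]]] (by decide) (by decide) κ hrow h with
      ⟨_, hi⟩ | ⟨T, hT, π, hπ⟩
    · exact Or.inl hi
    · rw [List.mem_singleton] at hT
      exact Or.inr ⟨π, hπ.trans hT⟩
  · intro h
    rcases gen 2 1 0 (by decide) (by decide) (by decide) true
      [] (by decide) (by decide) κ hrow h with ⟨_, hi⟩ | ⟨T, hT, _⟩
    · exact hi
    · exact absurd hT List.not_mem_nil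
  · intro h
    rcases gen 3 1 0 (by decide) (by decide) (by decide) true
      [![![1, 0, 0], ![0, 1, 0], ![2, 0, 0]]] (by decide) (by decide) κ hrow h with
      ⟨_, hi⟩ | ⟨T, hT, π, hπ⟩
    · exact Or.inl hi
    · rw [List.mem_singleton] at hT
      exact Or.inr ⟨π, hπ.trans hT⟩

end Q158.SQE0
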