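import Pool.Agent.Q158.TypeADefs

namespace Q158.TypeA

open Matrix Finset

/-- Rows with entries `0, ±1`, at most one `1` and at most one `-1`. -/
def Good {n : ℕ} (v : Fin n → ℤ) : Prop :=
  (∀ j, v j = 0 ∨ v j = 1 ∨ v j = -1) ∧ (∀ j j', v j = 1 → v j' = 1 → j = j') ∧
    (∀ j j', v j = -1 → v j' = -1 → j = j')

theorem det_good : ∀ (n : ℕ) (M : Matrix (Fin n) (Fin n) ℤ), (∀ i, Good (M i)) →
    |M.det| ≤ 1 := by
  intro n
  induction n with
  | zero => intro M _; simp
  | succ n ih =>
    intro M hM
    by_cases h : ∀ i, ∑ j, M i j = 0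
    · have : M.det = 0 := by
        apply Matrix.exists_mulVec_eq_zero_iff.1
        refine ⟨fun _ => 1, ?_, ?_⟩
        · intro h0
          have := congrFun h0 0
          simp at this
        · ext i
          simp [Matrix.mulVec, dotProduct, h i]
      rw [this]; simp
    · push_neg at h
      obtain ⟨i, hi⟩ := h
      obtain ⟨h1, h2, h3⟩ := hM i
      have key : ∃ j, ∀ j', j' ≠ j → M i j' = 0 := by
        by_contra hcon
        push_neg at hcon
        obtain ⟨a, ha, ha'⟩ := hcon 0
        obtain ⟨b, hb, hb'⟩ := hcon a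
        apply hi
        have hz : ∀ c, c ≠ a → c ≠ b → M i c = 0 := by
          intro c hca hcb
          rcases h1 a with h | h | h
          · exact absurd h ha'
          · rcases h1 b with h' | h' | h'
            · exact absurd h' hb'
            · exact absurd (h2 b a h' h) hb
            · rcases h1 c with h'' | h'' | h''
              · exact h''
              · exact absurd (h2 c a h'' h) hca
              · exact absurd (h3 c b h'' h') hcb
          · rcases h1 b with h' | h' | h'
            · exact absurd h' hb'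
            · rcases h1 c with h'' | h'' | h''
              · exact h''
              · exact absurd (h2 c b h'' h') hcb
              · exact absurd (h3 c a h'' h) hca
            · exact absurd (h3 b a h' h) hb
        have hs : ∑ j, M i j = M i a + M i b := by
          rw [← Finset.sum_subset (Finset.subset_univ {a, b})]
          · rw [Finset.sum_pair (Ne.symm hb)]
          · intro c _ hc
            simp only [Finset.mem_insert, Finset.mem_singleton, not_or] at hc
            exact hz c hc.1 hc.2
        rw [hs]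
        rcases h1 a with h | h | h
        · exact absurd h ha'
        · rcases h1 b with h' | h' | h'
          · exact absurd h' hb'
          · exact absurd (h2 b a h' h) hb
          · rw [h, h']; norm_num
        · rcases h1 b with h' | h' | h'
          · exact absurd h' hb'
          · rw [h, h']; norm_num
          · exact absurd (h3 b a h' h) hb
      obtain ⟨j, hj⟩ := key
      rw [Matrix.det_succ_row M i, Finset.sum_eq_single j]
      · rw [abs_mul, abs_mul, abs_pow, abs_neg, abs_one, one_pow, one_mul]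
        have hd := ih (M.submatrix i.succAbove j.succAbove) (fun r => by
          obtain ⟨g1, g2, g3⟩ := hM (i.succAbove r)
          refine ⟨fun c => g1 _, fun c c' hc hc' => ?_, fun c c' hc hc' => ?_⟩
          · exact Fin.succAbove_right_injective (g2 _ _ hc hc')
          · exact Fin.succAbove_right_injective (g3 _ _ hc hc'))
        have he : |M i j| ≤ 1 := by
          rcases h1 j with h | h | h <;> rw [h] <;> simp
        calc |M i j| * |(M.submatrix i.succAbove j.succAbove).det|
            ≤ 1 * 1 := mul_le_mul he hd (abs_nonneg _) (by norm_num)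
          _ = 1 := by norm_num
      · intro b _ hb
        rw [hj b hb]; ring
      · intro h; exact absurd (Finset.mem_univ _) h

/-- Rows that are plus or minus the indicator of an interval. -/
def SInt {n : ℕ} (v : Fin n → ℤ) : Prop :=
  ∃ (a b : ℕ) (s : ℤ), (s = 1 ∨ s = -1) ∧
    v = fun t : Fin n => if a ≤ t.val ∧ t.val < b then s else 0

theorem det_sint (n : ℕ) (A : Matrix (Fin n) (Fin n) ℤ) (hA : ∀ i, SInt (A i)) :
    |A.det| ≤ 1 := by
  rcases n with _ | n
  · simp
  · let B : Matrix (Fin (n + 1)) (Fin (n + 1)) ℤ := fun i c =>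
      Fin.cases (A i 0) (fun j => A i j.succ - A i j.castSucc) c
    have h : A.det = B.det := by
      apply Matrix.det_eq_of_forall_col_eq_smul_add_pred (c := fun _ => (1 : ℤ))
      · intro i; rfl
      · intro i j
        show A i j.succ = (A i j.succ - A i j.castSucc) + 1 * A i j.castSucc
        ring
    rw [h]
    apply det_good
    intro i
    obtain ⟨a, b, s, hs, hv⟩ := hA i
    have hB : ∀ c : Fin (n + 1), B i c =
        if a < b then (if (c : ℕ) = a then s else if (c : ℕ) = b then -s else 0) else 0 := by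
      intro c
      refine Fin.cases ?_ (fun j => ?_) c
      · show A i 0 = _
        rw [hv]
        simp only [Fin.val_zero]
        split_ifs <;> first | rfl | omega
      · show A i j.succ - A i j.castSucc = _
        rw [hv]
        simp only [Fin.val_succ, Fin.val_castSucc]
        split_ifs <;> first | rfl | omega | simp
    refine ⟨fun j => ?_, fun j j' hj hj' => ?_, fun j j' hj hj' => ?_⟩
    · rw [hB]
      rcases hs with rfl | rfl <;> split_ifs <;> simp
    · rw [hB] at hj hj'
      apply Fin.ext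
      rcases hs with rfl | rfl <;> split_ifs at hj hj' <;> omega
    · rw [hB] at hj hj'
      apply Fin.ext
      rcases hs with rfl | rfl <;> split_ifs at hj hj' <;> omega

/-- The integer coefficient row of a block. -/
def blk (n : ℕ) (a b : ℕ) (s : ℤ) : Fin n → ℤ :=
  fun t => if a ≤ (t : ℕ) ∧ (t : ℕ) < b then s else 0

theorem card_filter_zero (m : ℕ) :
    ((Finset.univ : Finset (Finset (Fin (m + 1)))).filter (fun s => (0 : Fin (m + 1)) ∈ s)).card
      = 2 ^ m := by
  have h1 := Finset.card_filter_add_card_filter_not (s := (Finset.univ : Finset (Finset (Fin (m + 1)))))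
    (fun s => (0 : Fin (m + 1)) ∈ s)
  have h2 : ((Finset.univ : Finset (Finset (Fin (m + 1)))).filter
      (fun s => ¬ (0 : Fin (m + 1)) ∈ s)) = (Finset.univ.erase (0 : Fin (m + 1))).powerset := by
    ext s
    simp only [Finset.mem_filter, Finset.mem_univ, true_and, Finset.mem_powerset,
      Finset.subset_erase, Finset.subset_univ]
  rw [h2, Finset.card_powerset, Finset.card_erase_of_mem (Finset.mem_univ _)] at h1
  simp only [Finset.card_univ, Fintype.card_fin, Fintype.card_finset, Nat.add_sub_cancel] at h1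
  rw [pow_succ] at h1
  omega

theorem det_bound (m : ℕ) (e : Fin m → ℕ × ℕ × ℕ) :
    |(Matrix.of (Fin.cons (fun _ => 1)
      (fun r => blk (m + 1) (e r).1 (e r).2.1 1 + blk (m + 1) (e r).2.1 (e r).2.2 (-1)) :
        Fin (m + 1) → Fin (m + 1) → ℤ)).det| ≤ 2 ^ m := by
  let P : Fin (m + 1) → Fin (m + 1) → ℤ := Fin.cons (fun _ => 1)
    (fun r => blk (m + 1) (e r).1 (e r).2.1 1)
  let Q : Fin (m + 1) → Fin (m + 1) → ℤ := Fin.cons 0
    (fun r => blk (m + 1) (e r).2.1 (e r).2.2 (-1))
  have hPQ : (Fin.cons (fun _ => 1)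
      (fun r => blk (m + 1) (e r).1 (e r).2.1 1 + blk (m + 1) (e r).2.1 (e r).2.2 (-1)) :
        Fin (m + 1) → Fin (m + 1) → ℤ) = P + Q := by
    funext r
    refine Fin.cases ?_ (fun r => ?_) r
    · simp [P, Q]
    · simp [P, Q]
  rw [hPQ]
  have hexp : (Matrix.of (P + Q)).det = ∑ s : Finset (Fin (m + 1)),
      (Matrix.of (s.piecewise P Q)).det := by
    have := (Matrix.detRowAlternating (R := ℤ) (n := Fin (m + 1))).toMultilinearMap.map_add_univ P Q
    exact this
  rw [hexp]
  have hP : ∀ r, SInt (P r) := by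
    intro r
    refine Fin.cases ?_ (fun r => ?_) r
    · refine ⟨0, m + 1, 1, Or.inl rfl, ?_⟩
      funext t
      have := t.2
      simp [P]
      omega
    · exact ⟨(e r).1, (e r).2.1, 1, Or.inl rfl, rfl⟩
  have hQ : ∀ r : Fin m, SInt (Q r.succ) := fun r =>
    ⟨(e r).2.1, (e r).2.2, -1, Or.inr rfl, rfl⟩
  calc |∑ s : Finset (Fin (m + 1)), (Matrix.of (s.piecewise P Q)).det|
      ≤ ∑ s : Finset (Fin (m + 1)), |(Matrix.of (s.piecewise P Q)).det| :=
        Finset.abs_sum_le_sum_abs _ _
    _ ≤ ∑ s : Finset (Fin (m + 1)), (if (0 : Fin (m + 1)) ∈ s then 1 else 0) := by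
        apply Finset.sum_le_sum
        intro s _
        split_ifs with h
        · apply det_sint
          intro r
          show SInt (s.piecewise P Q r)
          by_cases hr : r ∈ s
          · rw [Finset.piecewise_eq_of_mem _ _ _ hr]; exact hP r
          · rw [Finset.piecewise_eq_of_notMem _ _ _ hr]
            have : r ≠ 0 := by rintro rfl; exact hr h
            obtain ⟨r', rfl⟩ := Fin.exists_succ_eq.2 this
            exact hQ r'
        · have : (Matrix.of (s.piecewise P Q)).det = 0 := by
            apply Matrix.det_eq_zero_of_row_eq_zero 0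
            intro j
            show s.piecewise P Q 0 j = 0
            rw [Finset.piecewise_eq_of_notMem _ _ _ h]
            simp [Q]
          rw [this]; simp
    _ = 2 ^ m := by
        rw [← Finset.sum_filter, Finset.sum_const, card_filter_zero]
        simp

theorem sum_blk {n : ℕ} (d : Fin n → ℝ) (e : ℕ × ℕ × ℕ) :
    ∑ t, coeff n e t * d t = blockSum d e.1 e.2.1 - blockSum d e.2.1 e.2.2 := by
  unfold blockSum
  rw [Finset.sum_filter, Finset.sum_filter, ← Finset.sum_sub_distrib]
  apply Finset.sum_congr rfl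
  intro t _
  unfold coeff
  rw [sub_mul]
  congr 1 <;> split_ifs <;> simp

/-- The main inequality. -/
theorem main_ineq (m : ℕ) (d : Fin (m + 1) → ℝ) (h : IsTypeA d) (t : Fin (m + 1)) :
    ∑ j, d j ≤ 2 ^ m * d t := by
  obtain ⟨hpos, e, -, hli, heq⟩ := h
  change Fin m → ℕ × ℕ × ℕ at e
  set A : Matrix (Fin (m + 1)) (Fin (m + 1)) ℤ := Matrix.of (Fin.cons (fun _ => 1)
      (fun r => blk (m + 1) (e r).1 (e r).2.1 1 + blk (m + 1) (e r).2.1 (e r).2.2 (-1)) :
        Fin (m + 1) → Fin (m + 1) → ℤ) with hA
  have hbound : |A.det| ≤ 2 ^ m := det_bound m e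
  let AR : Matrix (Fin (m + 1)) (Fin (m + 1)) ℝ := (Int.castRingHom ℝ).mapMatrix A
  have hAR0 : ∀ c, AR 0 c = 1 := by
    intro c
    simp [AR, hA]
  have hARs : ∀ r c, AR (Fin.succ r) c = coeff (m + 1) (e r) c := by
    intro r c
    simp only [AR, hA, RingHom.mapMatrix_apply, Matrix.map_apply, Matrix.of_apply, Fin.cons_succ,
      Pi.add_apply, blk, coeff]
    push_cast
    split_ifs <;> norm_num
  set S := ∑ j, d j with hS
  have hSpos : 0 < S := Finset.sum_pos (fun j _ => hpos j) ⟨0, Finset.mem_univ _⟩
  have hmul : AR *ᵥ d = Pi.single 0 S := by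
    funext r
    refine Fin.cases ?_ (fun r => ?_) r
    · simp [Matrix.mulVec, dotProduct, hAR0, hS]
    · have : (AR *ᵥ d) r.succ = ∑ c, coeff (m + 1) (e r) c * d c := by
        simp only [Matrix.mulVec, dotProduct]
        exact Finset.sum_congr rfl (fun c _ => by rw [hARs])
      rw [this, sum_blk, heq r]
      simp
  have hdet : AR.det ≠ 0 := by
    intro h0
    obtain ⟨y, hy, hy0⟩ := Matrix.exists_vecMul_eq_zero_iff.2 h0
    have h1 : y ⬝ᵥ (AR *ᵥ d) = 0 := by
      rw [Matrix.dotProduct_mulVec, hy0, zero_dotProduct]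
    rw [hmul, dotProduct_single] at h1
    have hy00 : y 0 = 0 := by
      rcases mul_eq_zero.1 h1 with h | h
      · exact h
      · exact absurd h hSpos.ne'
    have h2 : ∑ r : Fin m, y r.succ • coeff (m + 1) (e r) = 0 := by
      funext c
      have h3 := congrFun hy0 c
      simp only [Matrix.vecMul, dotProduct, Pi.zero_apply] at h3
      rw [Fin.sum_univ_succ, hy00, zero_mul, zero_add] at h3
      rw [Finset.sum_apply]
      simp only [Pi.smul_apply, smul_eq_mul, Pi.zero_apply]
      rw [← h3]
      exact Finset.sum_congr rfl (fun r _ => by rw [hARs])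
    have h4 := Fintype.linearIndependent_iff.1 hli (fun r => y r.succ) h2
    apply hy
    funext r
    refine Fin.cases hy00 (fun r => ?_) r
    exact h4 r
  have hadj : AR.adjugate *ᵥ (AR *ᵥ d) = AR.det • d := by
    rw [Matrix.mulVec_mulVec, Matrix.adjugate_mul, Matrix.smul_mulVec, Matrix.one_mulVec]
  rw [hmul] at hadj
  have ht := congrFun hadj t
  rw [Matrix.mulVec_single] at ht
  have hdc : AR.det = (A.det : ℝ) := by
    have := (Int.castRingHom ℝ).map_det A
    simpa [AR] using this.symm
  have hac : AR.adjugate t 0 = ((A.adjugate t 0 : ℤ) : ℝ) := by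
    have := (Int.castRingHom ℝ).map_adjugate A
    have := congrFun (congrFun this t) 0
    simpa [AR] using this.symm
  simp only [Pi.smul_apply, smul_eq_mul, Matrix.col_apply, MulOpposite.smul_eq_mul_unop,
    MulOpposite.unop_op] at ht
  rw [hac, hdc] at ht
  have hz : A.adjugate t 0 ≠ 0 := by
    intro hz
    rw [hz] at ht
    rw [hdc] at hdet
    have : (A.det : ℝ) * d t ≠ 0 := mul_ne_zero hdet (hpos t).ne'
    apply this
    rw [← ht]; simp
  have hz1 : (1 : ℝ) ≤ |((A.adjugate t 0 : ℤ) : ℝ)| := by
    rw [← Int.cast_abs]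
    exact_mod_cast Int.one_le_abs hz
  have hb : |(A.det : ℝ)| ≤ 2 ^ m := by
    rw [← Int.cast_abs]
    exact_mod_cast hbound
  calc S = S * 1 := by ring
    _ ≤ S * |((A.adjugate t 0 : ℤ) : ℝ)| := by
        exact mul_le_mul_of_nonneg_left hz1 hSpos.le
    _ = |((A.adjugate t 0 : ℤ) : ℝ) * S| := by
        rw [abs_mul, abs_of_pos hSpos]; ring
    _ = |(A.det : ℝ) * d t| := by rw [ht]
    _ = |(A.det : ℝ)| * d t := by rw [abs_mul, abs_of_pos (hpos t)]
    _ ≤ 2 ^ m * d t := mul_le_mul_of_nonneg_right hb (hpos t).le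

theorem sum_pow (k : ℕ) : ∑ t ∈ Finset.range (k + 1), (2 : ℝ) ^ (t - 1) = 2 ^ k := by
  induction k with
  | zero => simp
  | succ k ih =>
    rw [Finset.sum_range_succ, ih, Nat.add_sub_cancel, pow_succ]; ring

theorem sum_fin_filter {n : ℕ} (f : ℕ → ℝ) (a b : ℕ) (hb : b ≤ n) :
    blockSum (fun t : Fin n => f t.val) a b = ∑ t ∈ Finset.Ico a b, f t := by
  unfold blockSum
  apply Finset.sum_bij (fun (t : Fin n) _ => (t : ℕ))
  · intro t ht
    simp only [Finset.mem_filter, Finset.mem_univ, true_and] at ht
    exact Finset.mem_Ico.2 ht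
  · intro t _ t' _ h
    exact Fin.ext h
  · intro t ht
    rw [Finset.mem_Ico] at ht
    exact ⟨⟨t, by omega⟩, by simp [ht.1, ht.2], rfl⟩
  · intro t _; rfl

/-- The sequence `1, 1, 2, 4, …, 2^(m-1)`. -/
theorem example_typeA (m : ℕ) : IsTypeA (fun t : Fin (m + 1) => (2 : ℝ) ^ ((t : ℕ) - 1)) := by
  refine ⟨fun t => by positivity, fun r => (0, (r : ℕ) + 1, (r : ℕ) + 2), ?_, ?_, ?_⟩
  · intro r
    have := r.2
    refine ⟨?_, ?_, ?_⟩ <;> simp only <;> omega
  · rw [Fintype.linearIndependent_iff]
    intro g hg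
    by_contra hcon
    push_neg at hcon
    obtain ⟨i, hi⟩ := hcon
    let s := Finset.univ.filter (fun i => g i ≠ 0)
    have hs : s.Nonempty := ⟨i, by simp [s, hi]⟩
    set r := s.max' hs with hr
    have hrs : g r ≠ 0 := by
      have := s.max'_mem hs
      rw [← hr] at this
      exact (Finset.mem_filter.1 this).2
    have hr2 : (r : ℕ) + 1 < m + 1 := by
      have := r.2
      omega
    have h := congrFun hg ⟨(r : ℕ) + 1, hr2⟩
    rw [Finset.sum_apply] at h
    simp only [Pi.smul_apply, smul_eq_mul, Pi.zero_apply] at h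
    rw [Finset.sum_eq_single r] at h
    · apply hrs
      simpa [coeff] using h
    · intro b _ hb
      rcases lt_or_gt_of_ne hb with hlt | hgt
      · have hlt' : (b : ℕ) < (r : ℕ) := hlt
        have : coeff (m + 1) (0, (b : ℕ) + 1, (b : ℕ) + 2) ⟨(r : ℕ) + 1, hr2⟩ = 0 := by
          unfold coeff
          rw [if_neg (by simp only; omega), if_neg (by simp only; omega)]
          ring
        rw [this, mul_zero]
      · have : g b = 0 := by
          by_contra hgb
          have : b ∈ s := by simp [s, hgb]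
          exact absurd (s.le_max' b this) (not_le.2 hgt)
        rw [this, zero_mul]
    · intro h'; exact absurd (Finset.mem_univ _) h'
  · intro r
    have hr : (r : ℕ) + 2 ≤ m + 1 := by
      have := r.2
      omega
    rw [sum_fin_filter (fun t => (2 : ℝ) ^ (t - 1)) 0 ((r : ℕ) + 1) (by omega),
      sum_fin_filter (fun t => (2 : ℝ) ^ (t - 1)) ((r : ℕ) + 1) ((r : ℕ) + 2) hr,
      ← Finset.range_eq_Ico, sum_pow]
    simp

theorem result_aux (n : ℕ) (hn : 1 ≤ n) :
    IsLeast {x : ℝ | ∃ d : Fin n → ℝ, IsTypeA d ∧ ∃ i, (∀ j, d i ≤ d j) ∧ x = d i / ∑ j, d j}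
      (1 / 2 ^ (n - 1)) := by
  obtain ⟨m, rfl⟩ : ∃ m, n = m + 1 := ⟨n - 1, by omega⟩
  rw [Nat.add_sub_cancel]
  constructor
  · refine ⟨fun t => (2 : ℝ) ^ ((t : ℕ) - 1), example_typeA m, 0, ?_, ?_⟩
    · intro j
      simp only [Fin.val_zero, Nat.zero_sub, pow_zero]
      exact one_le_pow₀ (by norm_num)
    · have : ∑ j : Fin (m + 1), (2 : ℝ) ^ ((j : ℕ) - 1) = 2 ^ m := by
        rw [Fin.sum_univ_eq_sum_range (fun t => (2 : ℝ) ^ (t - 1)) (m + 1), sum_pow]
      rw [this]
      simp
  · rintro x ⟨d, hd, i, -, rfl⟩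
    have h := main_ineq m d hd i
    have hS : 0 < ∑ j, d j := Finset.sum_pos (fun j _ => hd.1 j) ⟨0, Finset.mem_univ _⟩
    rw [div_le_div_iff₀ (by positivity) hS]
    linarith

end Q158.TypeA
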