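import Mathlib

/-! Type A equations and type A sequences (finite measurement structures with unique
solutions). -/

namespace Q158.TypeA

/-- The sum `d_a + ⋯ + d_{b-1}`, the coordinates being numbered `0, …, n-1`. -/
def blockSum {n : ℕ} (d : Fin n → ℝ) (a b : ℕ) : ℝ :=
  ∑ t ∈ Finset.univ.filter (fun t : Fin n => a ≤ t.val ∧ t.val < b), d t

/-- The coefficient vector of the type A equation
`d_i + ⋯ + d_{j-1} = d_j + ⋯ + d_{k-1}` for `e = (i, j, k)`, the coordinates being numbered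
`0, …, n-1` (so `0 ≤ i < j < k ≤ n`). -/
def coeff (n : ℕ) (e : ℕ × ℕ × ℕ) : Fin n → ℝ := fun t =>
  (if e.1 ≤ t.val ∧ t.val < e.2.1 then 1 else 0) -
    (if e.2.1 ≤ t.val ∧ t.val < e.2.2 then 1 else 0)

/-- `d` is a type A sequence: its terms are positive and it satisfies `n - 1` linearly
independent type A equations. -/
def IsTypeA {n : ℕ} (d : Fin n → ℝ) : Prop :=
  (∀ t, 0 < d t) ∧ ∃ e : Fin (n - 1) → ℕ × ℕ × ℕ,
    (∀ r, (e r).1 < (e r).2.1 ∧ (e r).2.1 < (e r).2.2 ∧ (e r).2.2 ≤ n) ∧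
    LinearIndependent ℝ (fun r => coeff n (e r)) ∧
    ∀ r, blockSum d (e r).1 (e r).2.1 = blockSum d (e r).2.1 (e r).2.2

end Q158.TypeA
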