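import Pool.Agent.Q158.TypeA
import Pool.Agent.Q158.TypeBDefs

namespace Q158.TypeB

open Matrix Finset
open Q158.TypeA (blockSum Good SInt det_sint blk card_filter_zero sum_pow sum_fin_filter)

theorem det_bound (m : ℕ) (e : Fin m → ℕ × ℕ × ℕ × ℕ) :
    |(Matrix.of (Fin.cons (fun _ => 1)
      (fun r => blk (m + 1) (e r).1 (e r).2.1 1 + blk (m + 1) (e r).2.2.1 (e r).2.2.2 (-1)) :
        Fin (m + 1) → Fin (m + 1) → ℤ)).det| ≤ 2 ^ m := by
  let P : Fin (m + 1) → Fin (m + 1) → ℤ := Fin.cons (fun _ => 1)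
    (fun r => blk (m + 1) (e r).1 (e r).2.1 1)
  let Q : Fin (m + 1) → Fin (m + 1) → ℤ := Fin.cons 0
    (fun r => blk (m + 1) (e r).2.2.1 (e r).2.2.2 (-1))
  have hPQ : (Fin.cons (fun _ => 1)
      (fun r => blk (m + 1) (e r).1 (e r).2.1 1 + blk (m + 1) (e r).2.2.1 (e r).2.2.2 (-1)) :
        Fin (m + 1) → Fin (m + 1) → ℤ) = P + Q := by
    funext r
    refine Fin.cases ?_ (fun r => ?_) r
    · simp [P, Q]
    · simp [P, Q]
  rw [hPQ]
  have hexp : (Matrix.of (P + Q)).det = ∑ s : Finset (Fin (m + 1)),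
      (Matrix.of (s.piecewise P Q)).det := by
    have := (Matrix.detRowAlternating (R := ℤ) (n := Fin (m + 1))).toMultilinearMap.map_add_univ P Q
    exact this
  rw [hexp]
  have hP : ∀ r, SInt (P r) := by
    intro r
    refine Fin.cases ?_ (fun r => ?_) r
    · refine ⟨0, m + 1, 1, Or.inl rfl, ?_⟩
      funext t
      have := t.2
      simp [P]
      omega
    · exact ⟨(e r).1, (e r).2.1, 1, Or.inl rfl, rfl⟩
  have hQ : ∀ r : Fin m, SInt (Q r.succ) := fun r =>
    ⟨(e r).2.2.1, (e r).2.2.2, -1, Or.inr rfl, rfl⟩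
  calc |∑ s : Finset (Fin (m + 1)), (Matrix.of (s.piecewise P Q)).det|
      ≤ ∑ s : Finset (Fin (m + 1)), |(Matrix.of (s.piecewise P Q)).det| :=
        Finset.abs_sum_le_sum_abs _ _
    _ ≤ ∑ s : Finset (Fin (m + 1)), (if (0 : Fin (m + 1)) ∈ s then 1 else 0) := by
        apply Finset.sum_le_sum
        intro s _
        split_ifs with h
        · apply det_sint
          intro r
          show SInt (s.piecewise P Q r)
          by_cases hr : r ∈ s
          · rw [Finset.piecewise_eq_of_mem _ _ _ hr]; exact hP r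
          · rw [Finset.piecewise_eq_of_notMem _ _ _ hr]
            have : r ≠ 0 := by rintro rfl; exact hr h
            obtain ⟨r', rfl⟩ := Fin.exists_succ_eq.2 this
            exact hQ r'
        · have : (Matrix.of (s.piecewise P Q)).det = 0 := by
            apply Matrix.det_eq_zero_of_row_eq_zero 0
            intro j
            show s.piecewise P Q 0 j = 0
            rw [Finset.piecewise_eq_of_notMem _ _ _ h]
            simp [Q]
          rw [this]; simp
    _ = 2 ^ m := by
        rw [← Finset.sum_filter, Finset.sum_const, card_filter_zero]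
        simp

theorem sum_blk {n : ℕ} (d : Fin n → ℝ) (e : ℕ × ℕ × ℕ × ℕ) :
    ∑ t, coeff n e t * d t = blockSum d e.1 e.2.1 - blockSum d e.2.2.1 e.2.2.2 := by
  unfold blockSum
  rw [Finset.sum_filter, Finset.sum_filter, ← Finset.sum_sub_distrib]
  apply Finset.sum_congr rfl
  intro t _
  unfold coeff
  rw [sub_mul]
  congr 1 <;> split_ifs <;> simp

/-- The main inequality. -/
theorem main_ineq (m : ℕ) (d : Fin (m + 1) → ℝ) (h : IsTypeB d) (t : Fin (m + 1)) :
    ∑ j, d j ≤ 2 ^ m * d t := by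
  obtain ⟨hpos, e, -, hli, heq⟩ := h
  change Fin m → ℕ × ℕ × ℕ × ℕ at e
  set A : Matrix (Fin (m + 1)) (Fin (m + 1)) ℤ := Matrix.of (Fin.cons (fun _ => 1)
      (fun r => blk (m + 1) (e r).1 (e r).2.1 1 + blk (m + 1) (e r).2.2.1 (e r).2.2.2 (-1)) :
        Fin (m + 1) → Fin (m + 1) → ℤ) with hA
  have hbound : |A.det| ≤ 2 ^ m := det_bound m e
  let AR : Matrix (Fin (m + 1)) (Fin (m + 1)) ℝ := (Int.castRingHom ℝ).mapMatrix A
  have hAR0 : ∀ c, AR 0 c = 1 := by
    intro c
    simp [AR, hA]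
  have hARs : ∀ r c, AR (Fin.succ r) c = coeff (m + 1) (e r) c := by
    intro r c
    simp only [AR, hA, RingHom.mapMatrix_apply, Matrix.map_apply, Matrix.of_apply, Fin.cons_succ,
      Pi.add_apply, blk, coeff]
    push_cast
    split_ifs <;> norm_num
  set S := ∑ j, d j with hS
  have hSpos : 0 < S := Finset.sum_pos (fun j _ => hpos j) ⟨0, Finset.mem_univ _⟩
  have hmul : AR *ᵥ d = Pi.single 0 S := by
    funext r
    refine Fin.cases ?_ (fun r => ?_) r
    · simp [Matrix.mulVec, dotProduct, hAR0, hS]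
    · have : (AR *ᵥ d) r.succ = ∑ c, coeff (m + 1) (e r) c * d c := by
        simp only [Matrix.mulVec, dotProduct]
        exact Finset.sum_congr rfl (fun c _ => by rw [hARs])
      rw [this, sum_blk, heq r]
      simp
  have hdet : AR.det ≠ 0 := by
    intro h0
    obtain ⟨y, hy, hy0⟩ := Matrix.exists_vecMul_eq_zero_iff.2 h0
    have h1 : y ⬝ᵥ (AR *ᵥ d) = 0 := by
      rw [Matrix.dotProduct_mulVec, hy0, zero_dotProduct]
    rw [hmul, dotProduct_single] at h1
    have hy00 : y 0 = 0 := by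
      rcases mul_eq_zero.1 h1 with h | h
      · exact h
      · exact absurd h hSpos.ne'
    have h2 : ∑ r : Fin m, y r.succ • coeff (m + 1) (e r) = 0 := by
      funext c
      have h3 := congrFun hy0 c
      simp only [Matrix.vecMul, dotProduct, Pi.zero_apply] at h3
      rw [Fin.sum_univ_succ, hy00, zero_mul, zero_add] at h3
      rw [Finset.sum_apply]
      simp only [Pi.smul_apply, smul_eq_mul, Pi.zero_apply]
      rw [← h3]
      exact Finset.sum_congr rfl (fun r _ => by rw [hARs])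
    have h4 := Fintype.linearIndependent_iff.1 hli (fun r => y r.succ) h2
    apply hy
    funext r
    refine Fin.cases hy00 (fun r => ?_) r
    exact h4 r
  have hadj : AR.adjugate *ᵥ (AR *ᵥ d) = AR.det • d := by
    rw [Matrix.mulVec_mulVec, Matrix.adjugate_mul, Matrix.smul_mulVec, Matrix.one_mulVec]
  rw [hmul] at hadj
  have ht := congrFun hadj t
  rw [Matrix.mulVec_single] at ht
  have hdc : AR.det = (A.det : ℝ) := by
    have := (Int.castRingHom ℝ).map_det A
    simpa [AR] using this.symm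
  have hac : AR.adjugate t 0 = ((A.adjugate t 0 : ℤ) : ℝ) := by
    have := (Int.castRingHom ℝ).map_adjugate A
    have := congrFun (congrFun this t) 0
    simpa [AR] using this.symm
  simp only [Pi.smul_apply, smul_eq_mul, Matrix.col_apply, MulOpposite.smul_eq_mul_unop,
    MulOpposite.unop_op] at ht
  rw [hac, hdc] at ht
  have hz : A.adjugate t 0 ≠ 0 := by
    intro hz
    rw [hz] at ht
    rw [hdc] at hdet
    have : (A.det : ℝ) * d t ≠ 0 := mul_ne_zero hdet (hpos t).ne'
    apply this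
    rw [← ht]; simp
  have hz1 : (1 : ℝ) ≤ |((A.adjugate t 0 : ℤ) : ℝ)| := by
    rw [← Int.cast_abs]
    exact_mod_cast Int.one_le_abs hz
  have hb : |(A.det : ℝ)| ≤ 2 ^ m := by
    rw [← Int.cast_abs]
    exact_mod_cast hbound
  calc S = S * 1 := by ring
    _ ≤ S * |((A.adjugate t 0 : ℤ) : ℝ)| := by
        exact mul_le_mul_of_nonneg_left hz1 hSpos.le
    _ = |((A.adjugate t 0 : ℤ) : ℝ) * S| := by
        rw [abs_mul, abs_of_pos hSpos]; ring
    _ = |(A.det : ℝ) * d t| := by rw [ht]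
    _ = |(A.det : ℝ)| * d t := by rw [abs_mul, abs_of_pos (hpos t)]
    _ ≤ 2 ^ m * d t := mul_le_mul_of_nonneg_right hb (hpos t).le

/-- The sequence `1, 1, 2, 4, …, 2^(m-1)`. -/
theorem example_typeB (m : ℕ) : IsTypeB (fun t : Fin (m + 1) => (2 : ℝ) ^ ((t : ℕ) - 1)) := by
  refine ⟨fun t => by positivity, fun r => (0, (r : ℕ) + 1, (r : ℕ) + 1, (r : ℕ) + 2), ?_, ?_, ?_⟩
  · intro r
    have := r.2
    refine ⟨?_, ?_, ?_, ?_⟩ <;> simp only <;> omega
  · rw [Fintype.linearIndependent_iff]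
    intro g hg
    by_contra hcon
    push_neg at hcon
    obtain ⟨i, hi⟩ := hcon
    let s := Finset.univ.filter (fun i => g i ≠ 0)
    have hs : s.Nonempty := ⟨i, by simp [s, hi]⟩
    set r := s.max' hs with hr
    have hrs : g r ≠ 0 := by
      have := s.max'_mem hs
      rw [← hr] at this
      exact (Finset.mem_filter.1 this).2
    have hr2 : (r : ℕ) + 1 < m + 1 := by
      have := r.2
      omega
    have h := congrFun hg ⟨(r : ℕ) + 1, hr2⟩
    rw [Finset.sum_apply] at h
    simp only [Pi.smul_apply, smul_eq_mul, Pi.zero_apply] at h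
    rw [Finset.sum_eq_single r] at h
    · apply hrs
      simpa [coeff] using h
    · intro b _ hb
      rcases lt_or_gt_of_ne hb with hlt | hgt
      · have hlt' : (b : ℕ) < (r : ℕ) := hlt
        have : coeff (m + 1) (0, (b : ℕ) + 1, (b : ℕ) + 1, (b : ℕ) + 2) ⟨(r : ℕ) + 1, hr2⟩ = 0 := by
          unfold coeff
          rw [if_neg (by simp only; omega), if_neg (by simp only; omega)]
          ring
        rw [this, mul_zero]
      · have : g b = 0 := by
          by_contra hgb
          have : b ∈ s := by simp [s, hgb]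
          exact absurd (s.le_max' b this) (not_le.2 hgt)
        rw [this, zero_mul]
    · intro h'; exact absurd (Finset.mem_univ _) h'
  · intro r
    have hr : (r : ℕ) + 2 ≤ m + 1 := by
      have := r.2
      omega
    rw [sum_fin_filter (fun t => (2 : ℝ) ^ (t - 1)) 0 ((r : ℕ) + 1) (by omega),
      sum_fin_filter (fun t => (2 : ℝ) ^ (t - 1)) ((r : ℕ) + 1) ((r : ℕ) + 2) hr,
      ← Finset.range_eq_Ico, sum_pow]
    simp

theorem result_aux (n : ℕ) (hn : 1 ≤ n) :
    IsLeast {x : ℝ | ∃ d : Fin n → ℝ, IsTypeB d ∧ ∃ i, (∀ j, d i ≤ d j) ∧ x = d i / ∑ j, d j}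
      (1 / 2 ^ (n - 1)) := by
  obtain ⟨m, rfl⟩ : ∃ m, n = m + 1 := ⟨n - 1, by omega⟩
  rw [Nat.add_sub_cancel]
  constructor
  · refine ⟨fun t => (2 : ℝ) ^ ((t : ℕ) - 1), example_typeB m, 0, ?_, ?_⟩
    · intro j
      simp only [Fin.val_zero, Nat.zero_sub, pow_zero]
      exact one_le_pow₀ (by norm_num)
    · have : ∑ j : Fin (m + 1), (2 : ℝ) ^ ((j : ℕ) - 1) = 2 ^ m := by
        rw [Fin.sum_univ_eq_sum_range (fun t => (2 : ℝ) ^ (t - 1)) (m + 1), sum_pow]
      rw [this]
      simp
  · rintro x ⟨d, hd, i, -, rfl⟩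
    have h := main_ineq m d hd i
    have hS : 0 < ∑ j, d j := Finset.sum_pos (fun j _ => hd.1 j) ⟨0, Finset.mem_univ _⟩
    rw [div_le_div_iff₀ (by positivity) hS]
    linarith

end Q158.TypeB
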