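import Pool.Agent.Q16.XP.Stm2

set_option autoImplicit false

/-!
Job E6 of project XP: exponents whose digit sum is bounded.
-/

namespace Pool.Agent.Q158.XP_E6

open Q16.XP

theorem ex_pos {a : ℕ} (ha : 1 < a) : ex a ≠ 0 := by
  have hp : a.minFac.Prime := Nat.minFac_prime (by omega)
  have : 0 < a.factorization a.minFac := hp.factorization_pos_of_dvd (by omega) (Nat.minFac_dvd a)
  unfold ex; omega

theorem minFac_mul {p a b : ℕ} (hp : p.Prime) (ha : 1 < a) (hb : 1 < b) (hpa : a.minFac = p)
    (hpb : b.minFac = p) : (a * b).minFac = p := by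
  have h1 : 1 < a * b := by nlinarith
  apply le_antisymm
  · apply Nat.minFac_le_of_dvd hp.two_le
    exact dvd_mul_of_dvd_left (hpa ▸ Nat.minFac_dvd a) b
  · have hq : (a * b).minFac.Prime := Nat.minFac_prime (by omega)
    rcases (Nat.Prime.dvd_mul hq).mp (Nat.minFac_dvd (a * b)) with h | h
    · rw [← hpa]; exact Nat.minFac_le_of_dvd hq.two_le h
    · rw [← hpb]; exact Nat.minFac_le_of_dvd hq.two_le h

theorem ex_mul {p a b : ℕ} (hp : p.Prime) (ha : 1 < a) (hb : 1 < b) (hpa : a.minFac = p)
    (hpb : b.minFac = p) : ex (a * b) = ex a + ex b := by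
  unfold ex
  rw [minFac_mul hp ha hb hpa hpb, Nat.factorization_mul (by omega) (by omega), hpa, hpb]
  rfl

theorem ex_pow {a b : ℕ} (hb : 1 < b) : ex (a ^ b) = b * ex a := by
  unfold ex
  rw [Nat.pow_minFac (by omega), Nat.factorization_pow]
  simp

/-- the digit sum does not change under multiplication by a power of the base -/
theorem sum_mul {p : ℕ} (hp : 1 < p) (t m : ℕ) (hm : 0 < m) :
    (Nat.digits p (p ^ t * m)).sum = (Nat.digits p m).sum := by
  rw [Nat.digits_base_pow_mul hp hm]
  simp

theorem sum_pos {p : ℕ} (hp : 1 < p) {n : ℕ} (hn : 0 < n) : 1 ≤ (Nat.digits p n).sum := by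
  induction n using Nat.strong_induction_on with
  | _ n ih =>
    rw [Nat.digits_def' hp hn, List.sum_cons]
    by_cases h : n % p = 0
    · have h2 : 0 < n / p := Nat.div_pos (Nat.le_of_dvd hn (Nat.dvd_of_mod_eq_zero h)) (by omega)
      have := ih (n / p) (Nat.div_lt_self hn hp) h2
      omega
    · omega

theorem rd_sum {p : ℕ} (hp : p.Prime) {n : ℕ} (hn : 0 < n) (hr : rd p n ≠ 0) :
    (Nat.digits p (rd p n)).sum + 1 ≤ (Nat.digits p n).sum := by
  set t := n.factorization p with ht
  obtain ⟨m, hm⟩ : p ^ t ∣ n := Nat.ordProj_dvd n p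
  have hpt : 0 < p ^ t := pow_pos hp.pos t
  have hdiv : n / p ^ t = m := by
    rw [hm]; exact Nat.mul_div_cancel_left m hpt
  have hmpos : 0 < m := by
    rcases Nat.eq_zero_or_pos m with h | h
    · rw [h] at hm; omega
    · exact h
  have hnd : m % p ≠ 0 := by
    intro h
    have h1 : ¬ p ∣ n / p ^ n.factorization p := Nat.not_dvd_ordCompl hp (by omega)
    rw [← ht, hdiv] at h1
    exact h1 (Nat.dvd_of_mod_eq_zero h)
  have hrd : rd p n = p ^ (t + 1) * (m / p) := by
    unfold rd dg
    rw [← ht, hdiv]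
    have h1 : m % p + p * (m / p) = m := Nat.mod_add_div m p
    have h2 : n = m % p * p ^ t + p ^ (t + 1) * (m / p) := by
      rw [hm]
      conv_lhs => rw [← h1]
      ring
    omega
  have hmp : 0 < m / p := by
    rcases Nat.eq_zero_or_pos (m / p) with h | h
    · rw [hrd, h] at hr; simp at hr
    · exact h
  rw [hrd, sum_mul hp.one_lt (t + 1) (m / p) hmp, hm, sum_mul hp.one_lt t m hmpos,
    Nat.digits_def' hp.one_lt hmpos, List.sum_cons]
  omega

theorem DSf_le {p : ℕ} (hp : p.Prime) : ∀ k n : ℕ, 0 < n →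
    DSf p (G3 p) k n + 1 ≤ (Nat.digits p n).sum := by
  intro k
  induction k with
  | zero => intro n hn; simpa [DSf] using sum_pos hp.one_lt hn
  | succ k ih =>
    intro n hn
    rw [DSf]
    split_ifs with h
    · simpa using sum_pos hp.one_lt hn
    · have h1 := ih (rd p n) (Nat.pos_of_ne_zero h)
      have h2 := rd_sum hp hn h
      have h3 : G3 p (n.factorization p) (dg p n) ((rd p n).factorization p) ≤ 1 := by
        unfold G3; split_ifs <;> omega
      omega

theorem t_E6 (h : S_D1) : S_E6 := by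
  intro J
  refine ⟨J + 1, fun n => ⟨min (DS n.minFac (G3 n.minFac) (ex n)) J, by omega⟩, ?_⟩
  intro p a b ha hb hpa hpb hJ heq
  have hp : p.Prime := hpa ▸ Nat.minFac_prime (by omega)
  have hal := ex_pos ha
  have hbe := ex_pos hb
  have hab : 1 < a ^ b := Nat.one_lt_pow (by omega) ha
  have hpab : (a ^ b).minFac = p := by rw [Nat.pow_minFac (by omega), hpa]
  have hbfac : b.factorization p = ex b := by unfold ex; rw [hpb]
  have hfac : (b * ex a).factorization p = ex b + (ex a).factorization p := by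
    rw [Nat.factorization_mul (by omega) hal, Finsupp.add_apply, hbfac]
  have hdvd : p ^ ex b ∣ b * ex a := by
    apply dvd_mul_of_dvd_left
    rw [← hbfac]; exact Nat.ordProj_dvd b p
  have e := h p hp (G3 p) (ex b) (b * ex a) (ex b) (by omega) (Nat.mul_pos (by omega) (by omega))
    hdvd (Nat.lt_pow_self hp.one_lt)
  have hg : G3 p (Nat.log p (ex b)) (ex b / p ^ Nat.log p (ex b)) ((b * ex a).factorization p) = 1 := by
    unfold G3
    rw [if_pos]
    rw [hfac]
    exact (Nat.pow_log_le_self p hbe).trans (Nat.le_add_right _ _)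
  rw [hg] at e
  have hd : DS p (G3 p) (ex b) + 1 ≤ (Nat.digits p (ex b)).sum := DSf_le hp _ _ (by omega)
  have heq' : min (DS b.minFac (G3 b.minFac) (ex b)) J =
      min (DS (a ^ b * b).minFac (G3 (a ^ b * b).minFac) (ex (a ^ b * b))) J := by
    simpa using congrArg Fin.val heq
  rw [minFac_mul hp hab hb hpab hpb, ex_mul hp hab hb hpab hpb, ex_pow hb, hpb,
    add_comm (b * ex a) (ex b), e] at heq'
  omega

end Pool.Agent.Q158.XP_E6
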