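import Pool.Agent.Q16.XP.Stm

set_option autoImplicit false

/-!
Job PA of project XP: the behaviour of the sums over pairs of consecutive prime factors under
`a ↦ a ^ b` and `b * a ↦ b * a ^ b`.
-/

namespace Pool.Agent.Q158.XP_PA

open Q16.XP

theorem ex_pos {a : ℕ} (ha : 1 < a) : ex a ≠ 0 := by
  have hp : a.minFac.Prime := Nat.minFac_prime (by omega)
  have : 0 < a.factorization a.minFac := hp.factorization_pos_of_dvd (by omega) (Nat.minFac_dvd a)
  unfold ex; omega

theorem ex_pow {a b : ℕ} (hb : 1 < b) : ex (a ^ b) = b * ex a := by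
  unfold ex
  rw [Nat.pow_minFac (by omega), Nat.factorization_pow]
  simp

theorem tp_mem {b : ℕ} (hb : 1 < b) : tp b ∈ b.primeFactors := by
  have hne : b.primeFactors.Nonempty := Nat.nonempty_primeFactors.mpr hb
  obtain ⟨x, hx, h⟩ := Finset.exists_mem_eq_sup b.primeFactors hne id
  unfold tp
  rw [h]; exact hx

theorem tp_pow {a b : ℕ} (hb : 1 < b) : tp (a ^ b) = tp a := by
  unfold tp
  rw [Nat.primeFactors_pow a (by omega)]

theorem fac_tp {b : ℕ} (hb : 1 < b) : b.factorization (tp b) ≠ 0 := by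
  have h := tp_mem hb
  rw [← Nat.support_factorization] at h
  exact Finsupp.mem_support_iff.mp h

theorem key {b v p e : ℕ} (hb : b ≠ 0) (hv : v ≠ 0) (he : e ≠ 0) (h : b.factorization p = e) :
    (b * v).factorization p / e = v.factorization p / e + 1 := by
  rw [Nat.factorization_mul hb hv, Finsupp.add_apply, h, Nat.add_div_left _ (Nat.pos_of_ne_zero he)]

theorem t_PA (h : S_P1) : S_PA := by
  refine ⟨fun a b ha hb hs => ?_, fun a b ha hb hs => ?_⟩
  · have hab : 1 < a ^ b := Nat.one_lt_pow (by omega) ha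
    have h1 := h F1 b (a ^ b) hb hab (fun p q hp hq hpb hqa => hs p q hp hq hpb (hq.dvd_of_dvd_pow hqa))
    have h2 := h F1 b a hb ha hs
    rw [mul_comm] at h1 h2
    rw [h1, h2, ex_pow hb]
    have hk := key (b := b) (v := ex a) (p := tp b) (e := b.factorization (tp b)) (by omega)
      (ex_pos ha) (fac_tp hb) rfl
    unfold F1
    rw [hk]
    ring
  · have hab : 1 < a ^ b := Nat.one_lt_pow (by omega) ha
    have h1 := h F2 (a ^ b) b hab hb (fun p q hp hq hpa hqb => hs p q hp hq (hp.dvd_of_dvd_pow hpa) hqb)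
    have h2 := h F2 a b ha hb hs
    rw [h1, h2, tp_pow hb, Nat.factorization_pow]
    have hk := key (b := b) (v := a.factorization (tp a)) (p := b.minFac) (e := ex b) (by omega)
      (fac_tp ha) (ex_pos hb) rfl
    unfold F2
    simp only [Finsupp.smul_apply, smul_eq_mul]
    rw [hk]
    ring

end Pool.Agent.Q158.XP_PA
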